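import Pool.Agent.Work.MP_18db2a_co.Main

set_option autoImplicit false

/-!
# The final statement, in terms of colourings of `h`-element subsets
-/

namespace Pool.Agent.Work.MP_18db2a_co

/-- The edges of the complete `h`-uniform hypergraph `K_V^h`: the `h`-element subsets of `V`. -/
abbrev KEdge (h : ℕ) (V : Type) : Type := {e : Finset V // e.card = h}

/-- A colouring of the edges of `K_V^h` with colours in `C` is proper if distinct edges of the same colour are disjoint. -/
def IsProper {h : ℕ} {V C : Type} (c : KEdge h V → C) : Prop :=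
  ∀ e f : KEdge h V, e ≠ f → c e = c f → Disjoint e.1 f.1

/-- The edge `e` of `K_m^h`, as an edge of `K_n^h` (the `m` vertices are the first `m` of the `n` vertices). -/
def liftEdge {h m n : ℕ} (hmn : m ≤ n) (e : KEdge h (Fin m)) : KEdge h (Fin n) :=
  ⟨e.1.map (Fin.castLEEmb hmn), by rw [Finset.card_map]; exact e.2⟩

/-- `c'` extends `c`: it agrees with `c` on all edges of `K_m^h`. -/
def Extends {h m n : ℕ} {C : Type} (hmn : m ≤ n) (c : KEdge h (Fin m) → C) (c' : KEdge h (Fin n) → C) : Prop :=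
  ∀ e, c' (liftEdge hmn e) = c e

theorem stmt : ∃ m₀ : ℕ, ∀ m : ℕ, m₀ ≤ m → ∀ n : ℕ, IsLeast {p : ℕ | 2 * m < p ∧ 3 ∣ p} n → ∀ hmn : m ≤ n,
    ∀ c : KEdge 3 (Fin m) → Fin ((n - 1).choose 2), IsProper c →
      ∃ c' : KEdge 3 (Fin n) → Fin ((n - 1).choose 2), IsProper c' ∧ Extends hmn c c' := by
  classical
  obtain ⟨m₀, h0⟩ := main
  refine ⟨max m₀ 2, ?_⟩
  intro m hm n hn hmn c hc
  have hm2 : 2 ≤ m := le_trans (le_max_right _ _) hm
  have hn1 := hn.1.1
  have hpos : 0 < (n - 1).choose 2 := Nat.choose_pos (by omega)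
  set d : Finset (Fin m) → Fin ((n - 1).choose 2) :=
    fun e => if h : e.card = 3 then c ⟨e, h⟩ else ⟨0, hpos⟩ with hd
  have hd3 : Proper3 d := by
    intro e f he hf hef hcf
    simp only [hd] at hcf
    rw [dif_pos he, dif_pos hf] at hcf
    exact hc ⟨e, he⟩ ⟨f, hf⟩ (fun h => hef (congrArg Subtype.val h)) hcf
  obtain ⟨d', hd', hval⟩ := h0 m (le_trans (le_max_left _ _) hm) n hn d hd3
  refine ⟨fun e => d' e.1, fun e f hef hcf => hd' e.1 f.1 e.2 f.2 (fun h => hef (Subtype.ext h)) hcf, ?_⟩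
  intro e
  have h1 := hval e.1 e.2
  simp only [hd] at h1
  rw [dif_pos e.2] at h1
  exact h1

end Pool.Agent.Work.MP_18db2a_co
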