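import Pool.Agent.Work.MP_18db2a_co.Basic

set_option autoImplicit false

/-!
# Greedy (size S-M, Mathlib only): greedy edge colouring from lists with bounded colour classes

Two indices `t, t' : E` are adjacent if the pairs `e t`, `e t'` have a common member.  Induction over finite sets `s` of `E`: there is `a : E → I` with
`a t ∈ S t` (`t ∈ s`), `a t ≠ a t'` for adjacent `t ≠ t'` in `s`, and every colour has at most `K` members of `s`.  New member `t`:
the colours of the neighbours of `t` in `s` are at most `2 Δ` many; the colours with exactly `K` members of `s` are at most `N / K` many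
(`K * number ≤ s.card ≤ card E`); together fewer than `(S t).card` by `hS`.
-/

namespace Pool.Agent.Work.MP_18db2a_co

open Finset

theorem greedy {V I E : Type} [Fintype V] [DecidableEq V] [Fintype I] [DecidableEq I] [Fintype E] [DecidableEq E]
    (e : E → V × V) (S : E → Finset I) (Δ K : ℕ) (hK : 0 < K)
    (hΔ : ∀ v, cnt (fun t => (e t).1 = v ∨ (e t).2 = v) ≤ Δ)
    (hS : ∀ t, 2 * Δ * K + Fintype.card E < (S t).card * K) :
    ∃ a : E → I, (∀ t, a t ∈ S t) ∧
      (∀ t t', t ≠ t' → ((e t).1 = (e t').1 ∨ (e t).1 = (e t').2 ∨ (e t).2 = (e t').1 ∨ (e t).2 = (e t').2) →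
        a t ≠ a t') ∧
      ∀ i, cnt (fun t => a t = i) ≤ K := by
  classical
  rcases isEmpty_or_nonempty E with hE | hE
  · exact ⟨fun t => (hE.false t).elim, fun t => (hE.false t).elim, fun t => (hE.false t).elim, fun i => by
      rw [cnt_eq_zero (fun x => (hE.false x).elim)]
      exact Nat.zero_le _⟩
  have hI : Nonempty I := by
    obtain ⟨t⟩ := hE
    have h1 : 0 < (S t).card := by
      rcases Nat.eq_zero_or_pos (S t).card with h | h
      · have := hS t
        rw [h, Nat.zero_mul] at this
        exact absurd this (Nat.not_lt_zero _)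
      · exact h
    obtain ⟨i, _⟩ := card_pos.1 h1
    exact ⟨i⟩
  obtain ⟨i₀⟩ := hI
  let adj : E → E → Prop := fun t t' =>
    (e t).1 = (e t').1 ∨ (e t).1 = (e t').2 ∨ (e t).2 = (e t').1 ∨ (e t).2 = (e t').2
  have adj_symm : ∀ t t', adj t t' → adj t' t := by
    intro t t' h
    rcases h with h | h | h | h
    · exact Or.inl h.symm
    · exact Or.inr (Or.inr (Or.inl h.symm))
    · exact Or.inr (Or.inl h.symm)
    · exact Or.inr (Or.inr (Or.inr h.symm))
  have main : ∀ s : Finset E, ∃ a : E → I, (∀ t ∈ s, a t ∈ S t) ∧
      (∀ t ∈ s, ∀ t' ∈ s, t ≠ t' → adj t t' → a t ≠ a t') ∧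
      ∀ i, (s.filter fun t => a t = i).card ≤ K := by
    intro s
    induction s using Finset.induction_on with
    | empty => exact ⟨fun _ => i₀, by simp, by simp, by simp⟩
    | insert t s hts ih =>
      obtain ⟨a, ha1, ha2, ha3⟩ := ih
      set A : Finset I := (s.filter fun t' => adj t t').image a with hA
      set B : Finset I := univ.filter fun i => K ≤ (s.filter fun t' => a t' = i).card with hB
      have hAc : A.card ≤ 2 * Δ := by
        refine card_image_le.trans ?_
        have h1 : (s.filter fun t' => adj t t') ⊆
            (univ.filter fun t' => (e t').1 = (e t).1 ∨ (e t').2 = (e t).1) ∪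
              (univ.filter fun t' => (e t').1 = (e t).2 ∨ (e t').2 = (e t).2) := by
          intro t' ht'
          rw [mem_filter] at ht'
          rw [mem_union, mem_filter, mem_filter]
          rcases ht'.2 with h | h | h | h
          · exact Or.inl ⟨mem_univ _, Or.inl h.symm⟩
          · exact Or.inl ⟨mem_univ _, Or.inr h.symm⟩
          · exact Or.inr ⟨mem_univ _, Or.inl h.symm⟩
          · exact Or.inr ⟨mem_univ _, Or.inr h.symm⟩
        have h2 := hΔ (e t).1
        have h3 := hΔ (e t).2
        rw [cnt_eq] at h2 h3
        have := (card_le_card h1).trans (card_union_le _ _)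
        omega
      have hBc : B.card * K ≤ Fintype.card E := by
        calc B.card * K = ∑ _i ∈ B, K := by rw [sum_const, smul_eq_mul]
          _ ≤ ∑ i ∈ B, (s.filter fun t' => a t' = i).card :=
              sum_le_sum fun i hi => (mem_filter.1 hi).2
          _ ≤ ∑ i, (s.filter fun t' => a t' = i).card :=
              sum_le_sum_of_subset (subset_univ _)
          _ = s.card := (card_eq_sum_card_fiberwise (fun _ _ => mem_coe.2 (mem_univ _))).symm
          _ ≤ Fintype.card E := card_le_univ _
      have hex : ∃ i ∈ S t, i ∉ A ∪ B := by
        by_contra hcon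
        push Not at hcon
        have hsub : S t ⊆ A ∪ B := fun i hi => hcon i hi
        have h1 : (S t).card ≤ A.card + B.card := (card_le_card hsub).trans (card_union_le _ _)
        have h2 := hS t
        have h3 : (S t).card * K ≤ (A.card + B.card) * K := Nat.mul_le_mul_right _ h1
        have h4 : A.card * K ≤ 2 * Δ * K := Nat.mul_le_mul_right _ hAc
        have h5 : (A.card + B.card) * K = A.card * K + B.card * K := Nat.add_mul _ _ _
        omega
      obtain ⟨i, hiS, hiAB⟩ := hex
      rw [mem_union, not_or] at hiAB
      obtain ⟨hiA, hiB⟩ := hiAB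
      have hne : ∀ t' ∈ s, t' ≠ t := fun t' ht' h => hts (h ▸ ht')
      refine ⟨Function.update a t i, ?_, ?_, ?_⟩
      · intro t' ht'
        rcases mem_insert.1 ht' with rfl | h
        · rw [Function.update_self]
          exact hiS
        · rw [Function.update_of_ne (hne t' h)]
          exact ha1 t' h
      · intro t₁ h₁ t₂ h₂ hne12 hadj
        rcases mem_insert.1 h₁ with rfl | h1
        · rcases mem_insert.1 h₂ with rfl | h2
          · exact absurd rfl hne12
          · rw [Function.update_self, Function.update_of_ne (hne t₂ h2)]
            intro hh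
            exact hiA (mem_image.2 ⟨t₂, mem_filter.2 ⟨h2, hadj⟩, hh.symm⟩)
        · rcases mem_insert.1 h₂ with rfl | h2
          · rw [Function.update_self, Function.update_of_ne (hne t₁ h1)]
            intro hh
            exact hiA (mem_image.2 ⟨t₁, mem_filter.2 ⟨h1, adj_symm _ _ hadj⟩, hh⟩)
          · rw [Function.update_of_ne (hne t₁ h1), Function.update_of_ne (hne t₂ h2)]
            exact ha2 t₁ h1 t₂ h2 hne12 hadj
      · intro j
        have hfil : (s.filter fun t' => Function.update a t i t' = j) = s.filter fun t' => a t' = j := by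
          apply filter_congr
          intro t' ht'
          rw [Function.update_of_ne (hne t' ht')]
        rw [filter_insert, Function.update_self]
        by_cases hij : i = j
        · rw [if_pos hij]
          refine (card_insert_le _ _).trans ?_
          rw [hfil]
          have : ¬ K ≤ (s.filter fun t' => a t' = j).card := by
            intro hh
            apply hiB
            rw [hB, mem_filter]
            exact ⟨mem_univ _, hij ▸ hh⟩
          omega
        · rw [if_neg hij, hfil]
          exact ha3 j
  obtain ⟨a, ha1, ha2, ha3⟩ := main univ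
  refine ⟨a, fun t => ha1 t (mem_univ _), fun t t' h h' => ha2 t (mem_univ _) t' (mem_univ _) h h', fun i => ?_⟩
  rw [cnt_eq]
  exact ha3 i

end Pool.Agent.Work.MP_18db2a_co
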