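import Pool.Agent.Work.MP_18db2a_co.Galvin
import Pool.Agent.Work.MP_18db2a_co.Greedy

set_option autoImplicit false

/-!
# BEdge (size M-L, uses the statements of Galvin and Greedy): the pairs which meet a small set `B`

Let `m = card V`, `β = B.card`, `L a b` = set of the `i` with `a, b ∉ T i` (at least `δ m` for `a ≠ b`).
(1) Pairs inside `B`.  Let `ι : V → ℕ` be injective and `E₁` = all `(a, b, c)`, `a, b ∈ B`, `ι a < ι b`, `c : Fin δ`; every vertex is in at most
`Δ = δ (β - 1)` of them.  `greedy` with `S = L a b` and `K = card E₁ + 1` (`2 Δ K + card E₁ < |S| K` as `|S| ≥ δ m ≥ 2 Δ + 1`; `4 β ≤ m`, `δ ≥ 1`) gives `c₁ : E₁ → I`.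
Let `F₁ i a b` iff some `t : E₁` with colour `i` is `(a, b, _)` or `(b, a, _)`; `IsMat (T i)ᶜ (F₁ i)`; for `v ∈ B` at most `Δ` colours `i` cover `v` in `F₁ i`.
(2) Pairs `(v, x)`, `v ∈ B`, `x ∉ B`: `m' = m - β > 0`; let `p : V → ℕ`, injective on `B` with values `< β ≤ m'`, `q : V → ℕ` injective on `Bᶜ` with values `< m'`
(`Finset.equivFin`).  `E₂` = all `(v, x, c)`, `v ∈ B`, `x ∉ B`, `c : Fin δ`; `φ (v, x, c) = δ * ((p v + q x) % m') + c < δ m'`.  `φ` is injective on the edges with the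
same `v` (the residue determines `q x`) and on the edges with the same `x`.  Hence the number of edges at `v` with smaller `φ` is at most `φ`, the
number of edges at `x` with larger `φ` is at most `δ m' - 1 - φ`, the sum is at most `δ m' - 1`.  List of `(v, x, c)`: `L v x` without the colours `i` whose `F₁ i` covers
`v` (at most `δ (β - 1)`): at least `δ m - δ (β - 1) ≥ δ m'` colours.  `galvin` gives `c₂ : E₂ → I`.
`F i a b` iff `F₁ i a b` or some `t : E₂` with colour `i` is `(a, b, _)` or `(b, a, _)`.  Two edges of `E₂` of the same colour have different `v` and different `x`, and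
`x ∉ B`, `v ∈ B`, and they do not meet the edges of `F₁ i`.
Loads: for `a ≠ b` in `B`: `δ` by the `δ` indices `c` (distinct colours, since these edges share vertices); for `a ∈ B`, `b ∉ B` the same with `E₂`.
-/

namespace Pool.Agent.Work.MP_18db2a_co

open Finset

private theorem exP {V : Type} [DecidableEq V] (s : Finset V) :
    ∃ p : V → ℕ, (∀ v ∈ s, p v < s.card) ∧ ∀ v ∈ s, ∀ w ∈ s, p v = p w → v = w := by
  classical
  refine ⟨fun v => if h : v ∈ s then (s.equivFin ⟨v, h⟩).val else 0, ?_, ?_⟩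
  · intro v hv
    simp only [hv, dite_true]
    exact (s.equivFin ⟨v, hv⟩).isLt
  · intro v hv w hw h
    simp only [hv, hw, dite_true] at h
    have := s.equivFin.injective (Fin.ext h)
    exact congrArg Subtype.val this

private theorem divLem {δ r r' c c' : ℕ} (hc : c < δ) (hc' : c' < δ) (h : δ * r + c = δ * r' + c') :
    r = r' ∧ c = c' := by
  have hδ : 0 < δ := by omega
  have h1 : (δ * r + c) / δ = r := by
    rw [Nat.mul_add_div hδ, Nat.div_eq_of_lt hc, Nat.add_zero]
  have h2 : (δ * r' + c') / δ = r' := by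
    rw [Nat.mul_add_div hδ, Nat.div_eq_of_lt hc', Nat.add_zero]
  have h3 : r = r' := by rw [← h1, ← h2, h]
  subst h3
  exact ⟨rfl, by omega⟩

private theorem modLem {k a b b' : ℕ} (hb : b < k) (hb' : b' < k) (h : (a + b) % k = (a + b') % k) : b = b' := by
  have h1 : a + b ≡ a + b' [MOD k] := h
  have h2 : b ≡ b' [MOD k] := Nat.ModEq.add_left_cancel' a h1
  exact Nat.ModEq.eq_of_lt_of_lt h2 hb hb'

private theorem mk {V I : Type} [Fintype V] [DecidableEq V] [Fintype I] [DecidableEq I] (T : I → Finset V) (δ : ℕ)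
    (R : V × V × Fin δ → Prop) (col : V × V × Fin δ → I)
    (hne : ∀ t, R t → t.1 ≠ t.2.1)
    (hmem : ∀ t, R t → t.1 ∉ T (col t) ∧ t.2.1 ∉ T (col t))
    (hadj : ∀ t t', R t → R t' → t ≠ t' →
      (t.1 = t'.1 ∨ t.1 = t'.2.1 ∨ t.2.1 = t'.1 ∨ t.2.1 = t'.2.1) → col t ≠ col t')
    (hasym : ∀ a b c c', R (a, b, c) → ¬ R (b, a, c')) :
    ∃ F : I → V → V → Prop, (∀ i, IsMat (T i)ᶜ (F i)) ∧
      (∀ i a b, F i a b → ∃ c, R (a, b, c) ∨ R (b, a, c)) ∧
      ∀ a b, (∀ c, R (a, b, c)) → ld F a b = δ ∧ ld F b a = δ := by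
  classical
  have key : ∀ a b, (∀ c, R (a, b, c)) → cnt (fun i => ∃ c : Fin δ, col (a, b, c) = i) = δ := by
    intro a b hR
    rw [cnt_eq]
    have him : (univ.filter fun i => ∃ c : Fin δ, col (a, b, c) = i) =
        univ.image (fun c : Fin δ => col (a, b, c)) := by
      ext i
      simp
    rw [him, Finset.card_image_of_injective]
    · simp
    · intro c c' hcc
      by_contra hne'
      exact hadj (a, b, c) (a, b, c') (hR c) (hR c') (fun h => hne' (by
        have := congrArg (fun t : V × V × Fin δ => t.2.2) h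
        exact this)) (Or.inl rfl) hcc
  refine ⟨fun i a b => ∃ c, (R (a, b, c) ∧ col (a, b, c) = i) ∨ (R (b, a, c) ∧ col (b, a, c) = i), ?_, ?_, ?_⟩
  · intro i
    refine ⟨?_, ?_, ?_, ?_⟩
    · rintro x y ⟨c, h | h⟩
      · exact ⟨c, Or.inr h⟩
      · exact ⟨c, Or.inl h⟩
    · rintro x ⟨c, h | h⟩
      · exact hne _ h.1 rfl
      · exact hne _ h.1 rfl
    · rintro x y z ⟨c, h | h⟩ ⟨c', h' | h'⟩
      · by_contra hyz
        refine hadj (x, y, c) (x, z, c') h.1 h'.1 (fun e => hyz ?_) (Or.inl rfl) (h.2.trans h'.2.symm)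
        exact congrArg (fun t : V × V × Fin δ => t.2.1) e
      · by_contra hyz
        refine hadj (x, y, c) (z, x, c') h.1 h'.1 (fun e => hyz ?_) (Or.inr (Or.inl rfl)) (h.2.trans h'.2.symm)
        have e1 : x = z := congrArg (fun t : V × V × Fin δ => t.1) e
        have e2 : y = x := congrArg (fun t : V × V × Fin δ => t.2.1) e
        exact e2.trans e1
      · by_contra hyz
        refine hadj (y, x, c) (x, z, c') h.1 h'.1 (fun e => hyz ?_) (Or.inr (Or.inr (Or.inl rfl)))
          (h.2.trans h'.2.symm)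
        have e1 : y = x := congrArg (fun t : V × V × Fin δ => t.1) e
        have e2 : x = z := congrArg (fun t : V × V × Fin δ => t.2.1) e
        exact e1.trans e2
      · by_contra hyz
        refine hadj (y, x, c) (z, x, c') h.1 h'.1 (fun e => hyz ?_) (Or.inr (Or.inr (Or.inr rfl)))
          (h.2.trans h'.2.symm)
        exact congrArg (fun t : V × V × Fin δ => t.1) e
    · rintro x y ⟨c, h | h⟩
      · rw [mem_compl, ← h.2]
        exact (hmem _ h.1).1
      · rw [mem_compl, ← h.2]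
        exact (hmem _ h.1).2
  · rintro i a b ⟨c, h | h⟩
    · exact ⟨c, Or.inl h.1⟩
    · exact ⟨c, Or.inr h.1⟩
  · intro a b hR
    have h1 := key a b hR
    constructor
    · rw [ld]
      refine Eq.trans (cnt_congr fun i => ?_) h1
      constructor
      · rintro ⟨c, h | h⟩
        · exact ⟨c, h.2⟩
        · exact absurd h.1 (hasym a b c c (hR c))
      · rintro ⟨c, h⟩
        exact ⟨c, Or.inl ⟨hR c, h⟩⟩
    · rw [ld]
      refine Eq.trans (cnt_congr fun i => ?_) h1
      constructor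
      · rintro ⟨c, h | h⟩
        · exact absurd h.1 (hasym a b c c (hR c))
        · exact ⟨c, h.2⟩
      · rintro ⟨c, h⟩
        exact ⟨c, Or.inr ⟨hR c, h⟩⟩

private theorem cntFst {V : Type} [Fintype V] [DecidableEq V] (δ : ℕ) (s : Finset V) :
    cnt (fun p : V × Fin δ => p.1 ∈ s) = δ * s.card := by
  classical
  rw [cnt_eq]
  have : (univ.filter fun p : V × Fin δ => p.1 ∈ s) = s ×ˢ (univ : Finset (Fin δ)) := by
    ext p
    simp
  rw [this, card_product, mul_comm]
  simp

theorem bEdges {V I : Type} [Fintype V] [DecidableEq V] [Fintype I] [DecidableEq I] (T : I → Finset V) (δ : ℕ)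
    (B : Finset V) (hδ : 1 ≤ δ)
    (h : ∀ a b, a ≠ b → δ * Fintype.card V ≤ cnt (fun i => a ∉ T i ∧ b ∉ T i))
    (hB : 4 * B.card ≤ Fintype.card V) (hV : 0 < Fintype.card V) :
    ∃ F : I → V → V → Prop, (∀ i, IsMat (T i)ᶜ (F i)) ∧ (∀ i a b, F i a b → a ∈ B ∨ b ∈ B) ∧
      ∀ a b, a ≠ b → (a ∈ B ∨ b ∈ B) → ld F a b = δ := by
  classical
  rcases B.eq_empty_or_nonempty with hB0 | ⟨b₀, hb₀⟩
  · refine ⟨fun _ _ _ => False, fun i => ⟨fun _ _ h => h, fun _ h => h, fun _ _ _ h => h.elim, fun _ _ h => h.elim⟩,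
      fun _ _ _ h => h.elim, fun a b _ hab => ?_⟩
    rw [hB0] at hab
    rcases hab with hab | hab
    · exact absurd hab (notMem_empty a)
    · exact absurd hab (notMem_empty b)
  obtain ⟨ι, -, hι⟩ := exP (univ : Finset V)
  have hι' : ∀ v w, ι v = ι w → v = w := fun v w => hι v (mem_univ _) w (mem_univ _)
  obtain ⟨p, hp, hpi⟩ := exP B
  obtain ⟨q, hq, hqi⟩ := exP Bᶜ
  -- the edges inside B
  let P : V × V × Fin δ → Prop := fun t => t.1 ∈ B ∧ t.2.1 ∈ B ∧ ι t.1 < ι t.2.1
  let E₁ : Type := {t : V × V × Fin δ // P t}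
  have hΔ : ∀ v, cnt (fun t : E₁ => t.1.1 = v ∨ t.1.2.1 = v) ≤ δ * (B.card - 1) := by
    intro v
    by_cases hv : v ∈ B
    · rw [← card_erase_of_mem hv, ← cntFst δ (B.erase v)]
      refine cnt_le_of_inj (fun t : E₁ => ((if t.1.1 = v then t.1.2.1 else t.1.1), t.1.2.2)) ?_ ?_
      · rintro ⟨⟨a, b, c⟩, h1, h2, h3⟩ hab
        simp only at h1 h2 h3 hab ⊢
        by_cases hav : a = v
        · rw [if_pos hav]
          refine mem_erase.2 ⟨fun hbv => ?_, h2⟩
          rw [hav, hbv] at h3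
          exact lt_irrefl _ h3
        · rw [if_neg hav]
          exact mem_erase.2 ⟨hav, h1⟩
      · rintro ⟨⟨a, b, c⟩, h1, h2, h3⟩ ⟨⟨a', b', c'⟩, h1', h2', h3'⟩ hab hab' heq
        simp only at h1 h2 h3 h1' h2' h3' hab hab' heq
        rw [Prod.mk.injEq] at heq
        obtain ⟨e1, e2⟩ := heq
        by_cases hav : a = v
        · rw [if_pos hav] at e1
          by_cases hav' : a' = v
          · rw [if_pos hav'] at e1
            subst hav
            subst hav'
            subst e1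
            subst e2
            rfl
          · rw [if_neg hav'] at e1
            have hbv' : b' = v := hab'.resolve_left hav'
            rw [hav, e1] at h3
            rw [hbv'] at h3'
            omega
        · rw [if_neg hav] at e1
          have hbv : b = v := hab.resolve_left hav
          by_cases hav' : a' = v
          · rw [if_pos hav'] at e1
            rw [hbv, e1] at h3
            rw [hav'] at h3'
            omega
          · rw [if_neg hav'] at e1
            have hbv' : b' = v := hab'.resolve_left hav'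
            subst hbv
            subst hbv'
            subst e1
            subst e2
            rfl
    · rw [cnt_eq_zero]
      · exact Nat.zero_le _
      · rintro ⟨⟨a, b, c⟩, h1, h2, h3⟩ hab
        simp only at h1 h2 hab
        rcases hab with hab | hab
        · exact hv (hab ▸ h1)
        · exact hv (hab ▸ h2)
  obtain ⟨c₁, hc1, hc2, -⟩ := greedy (V := V) (I := I) (E := E₁) (fun t => (t.1.1, t.1.2.1))
    (fun t => univ.filter fun i => t.1.1 ∉ T i ∧ t.1.2.1 ∉ T i) (δ * (B.card - 1)) (Fintype.card E₁ + 1)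
    (Nat.succ_pos _) hΔ (by
      rintro ⟨⟨a, b, c⟩, h1, h2, h3⟩
      simp only at h1 h2 h3 ⊢
      have hab : a ≠ b := fun e => by
        rw [e] at h3
        exact lt_irrefl _ h3
      have h4 := h a b hab
      rw [cnt_eq] at h4
      have h5 : 2 * (δ * (B.card - 1)) + 1 ≤ δ * Fintype.card V := by
        have hb : 1 ≤ B.card := card_pos.2 ⟨a, h1⟩
        obtain ⟨k, hk⟩ : ∃ k, B.card = k + 1 := ⟨B.card - 1, by omega⟩
        rw [hk, Nat.add_sub_cancel]
        rw [hk] at hB
        have : δ * (4 * (k + 1)) ≤ δ * Fintype.card V := Nat.mul_le_mul_left _ hB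
        nlinarith
      have h6 : (2 * (δ * (B.card - 1)) + 1) * (Fintype.card E₁ + 1) ≤
          (univ.filter fun i => a ∉ T i ∧ b ∉ T i).card * (Fintype.card E₁ + 1) :=
        Nat.mul_le_mul_right _ (h5.trans h4)
      have h7 : (2 * (δ * (B.card - 1)) + 1) * (Fintype.card E₁ + 1) =
          2 * (δ * (B.card - 1)) * (Fintype.card E₁ + 1) + Fintype.card E₁ + 1 := by ring
      omega)
  -- the edges between B and its complement
  set k : ℕ := Bᶜ.card with hk
  have hkm : B.card + k = Fintype.card V := by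
    rw [hk]
    exact card_add_card_compl B
  have hBk : B.card ≤ k := by omega
  let φ : V × V × Fin δ → ℕ := fun t => δ * ((p t.1 + q t.2.1) % k) + t.2.2
  let S : Finset (V × V × Fin δ) := univ.filter fun t => t.1 ∈ B ∧ t.2.1 ∉ B
  have hS : ∀ t, t ∈ S ↔ t.1 ∈ B ∧ t.2.1 ∉ B := fun t => by simp [S]
  have hφ1 : ∀ e ∈ S, ∀ f ∈ S, e.1 = f.1 → φ e = φ f → e = f := by
    rintro ⟨v, x, c⟩ he ⟨v', x', c'⟩ hf h1 h2
    rw [hS] at he hf
    simp only at he hf h1
    have h3 : δ * ((p v + q x) % k) + c = δ * ((p v' + q x') % k) + c' := h2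
    obtain ⟨h4, h5⟩ := divLem c.isLt c'.isLt h3
    rw [h1] at h4
    have h6 := modLem (hq x (mem_compl.2 he.2)) (hq x' (mem_compl.2 hf.2)) h4
    have h7 := hqi x (mem_compl.2 he.2) x' (mem_compl.2 hf.2) h6
    rw [h1, h7, Fin.ext h5]
  have hφ2 : ∀ e ∈ S, ∀ f ∈ S, e.2.1 = f.2.1 → φ e = φ f → e = f := by
    rintro ⟨v, x, c⟩ he ⟨v', x', c'⟩ hf h1 h2
    rw [hS] at he hf
    simp only at he hf h1
    have h3 : δ * ((p v + q x) % k) + c = δ * ((p v' + q x') % k) + c' := h2
    obtain ⟨h4, h5⟩ := divLem c.isLt c'.isLt h3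
    rw [h1, add_comm (p v), add_comm (p v')] at h4
    have h6 := modLem ((hp v he.1).trans_le hBk) ((hp v' hf.1).trans_le hBk) h4
    have h7 := hpi v he.1 v' hf.1 h6
    rw [h1, h7, Fin.ext h5]
  have hφ3 : ∀ e, e ∈ S → φ e < δ * k := by
    rintro ⟨v, x, c⟩ he
    rw [hS] at he
    have hk0 : 0 < k := card_pos.2 ⟨x, mem_compl.2 he.2⟩
    have h1 : (p v + q x) % k < k := Nat.mod_lt _ hk0
    have h2 : δ * ((p v + q x) % k) + c < δ * ((p v + q x) % k + 1) := by
      have := c.isLt
      rw [Nat.mul_add, Nat.mul_one]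
      omega
    exact h2.trans_le (Nat.mul_le_mul_left _ h1)
  let L : V × V × Fin δ → Finset I := fun t => univ.filter fun i => (t.1 ∉ T i ∧ t.2.1 ∉ T i) ∧
    ¬ ∃ s : E₁, (s.1.1 = t.1 ∨ s.1.2.1 = t.1) ∧ c₁ s = i
  have hLc : ∀ e ∈ S, δ * k ≤ (L e).card := by
    rintro ⟨v, x, c⟩ he
    rw [hS] at he
    simp only at he
    have hvx : v ≠ x := fun e => he.2 (e ▸ he.1)
    have h1 := h v x hvx
    rw [cnt_split _ (fun i => ∃ s : E₁, (s.1.1 = v ∨ s.1.2.1 = v) ∧ c₁ s = i)] at h1
    have h2 : cnt (fun i => (v ∉ T i ∧ x ∉ T i) ∧ ∃ s : E₁, (s.1.1 = v ∨ s.1.2.1 = v) ∧ c₁ s = i) ≤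
        δ * (B.card - 1) := by
      refine le_trans ?_ (hΔ v)
      rw [cnt_eq, cnt_eq]
      refine le_trans (card_le_card ?_) (card_image_le (f := c₁))
      intro i hi
      rw [mem_filter] at hi
      obtain ⟨-, -, s, hs, hsi⟩ := hi
      exact mem_image.2 ⟨s, mem_filter.2 ⟨mem_univ _, hs⟩, hsi⟩
    rw [cnt_eq (fun i => (v ∉ T i ∧ x ∉ T i) ∧ ¬ ∃ s : E₁, (s.1.1 = v ∨ s.1.2.1 = v) ∧ c₁ s = i)] at h1
    have h3 : δ * (B.card - 1) ≤ δ * B.card := Nat.mul_le_mul_left _ (Nat.sub_le _ _)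
    rw [← hkm, Nat.mul_add] at h1
    have h4 : (L (v, x, c)).card =
      (univ.filter fun i => (v ∉ T i ∧ x ∉ T i) ∧ ¬ ∃ s : E₁, (s.1.1 = v ∨ s.1.2.1 = v) ∧ c₁ s = i).card := rfl
    omega
  obtain ⟨c₂, hg1, hg2⟩ := galvin S (fun t => t.1) (fun t => t.2.1) φ hφ1 hφ2 L (by
    intro e he
    have h1 : (S.filter fun f => f.1 = e.1 ∧ φ f < φ e).card ≤ φ e := by
      calc (S.filter fun f => f.1 = e.1 ∧ φ f < φ e).card ≤ (range (φ e)).card := by
            refine card_le_card_of_injOn φ ?_ ?_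
            · intro f hf
              exact mem_coe.2 (mem_range.2 (mem_filter.1 (mem_coe.1 hf)).2.2)
            · intro f hf g hg hfg
              have hf' := mem_filter.1 (mem_coe.1 hf)
              have hg' := mem_filter.1 (mem_coe.1 hg)
              exact hφ1 f hf'.1 g hg'.1 (hf'.2.1.trans hg'.2.1.symm) hfg
        _ = φ e := card_range _
    have h2 : (S.filter fun f => f.2.1 = e.2.1 ∧ φ e < φ f).card ≤ δ * k - φ e - 1 := by
      calc (S.filter fun f => f.2.1 = e.2.1 ∧ φ e < φ f).card ≤ (Ioo (φ e) (δ * k)).card := by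
            refine card_le_card_of_injOn φ ?_ ?_
            · intro f hf
              have hf' := mem_filter.1 (mem_coe.1 hf)
              exact mem_coe.2 (mem_Ioo.2 ⟨hf'.2.2, hφ3 f hf'.1⟩)
            · intro f hf g hg hfg
              have hf' := mem_filter.1 (mem_coe.1 hf)
              have hg' := mem_filter.1 (mem_coe.1 hg)
              exact hφ2 f hf'.1 g hg'.1 (hf'.2.1.trans hg'.2.1.symm) hfg
        _ = δ * k - φ e - 1 := Nat.card_Ioo _ _
    have h3 := hφ3 e he
    have h4 := hLc e he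
    show (S.filter fun f => f.1 = e.1 ∧ φ f < φ e).card +
      (S.filter fun f => f.2.1 = e.2.1 ∧ φ e < φ f).card < (L e).card
    omega) (by
    intro hS0
    exfalso
    have hb1 : 1 ≤ B.card := card_pos.2 ⟨b₀, hb₀⟩
    have hk1 : 0 < Bᶜ.card := by omega
    obtain ⟨x₀, hx₀⟩ := card_pos.1 hk1
    have h1 := (hS (b₀, x₀, ⟨0, hδ⟩)).2 ⟨hb₀, mem_compl.1 hx₀⟩
    rw [hS0] at h1
    exact absurd h1 (notMem_empty _))
  -- assembly
  let Q : V × V × Fin δ → Prop := fun t => t.1 ∈ B ∧ t.2.1 ∉ B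
  let col : V × V × Fin δ → I := fun t => if ht : P t then c₁ ⟨t, ht⟩ else c₂ t
  have hcolP : ∀ t (ht : P t), col t = c₁ ⟨t, ht⟩ := fun t ht => dif_pos ht
  have hcolQ : ∀ t, Q t → col t = c₂ t := fun t ht => dif_neg fun h' => ht.2 h'.2.1
  have hPQ : ∀ t t', P t → Q t' → (t.1 = t'.1 ∨ t.2.1 = t'.1) → col t ≠ col t' := by
    intro t t' ht ht' hs he
    rw [hcolP t ht, hcolQ t' ht'] at he
    have h1 := hg1 t' ((hS t').2 ht')
    have h2 := (mem_filter.1 h1).2.2
    exact h2 ⟨⟨t, ht⟩, hs, he⟩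
  obtain ⟨F, hF1, hF2, hF3⟩ := mk T δ (fun t => P t ∨ Q t) col
    (by
      rintro t (ht | ht)
      · intro e
        have := ht.2.2
        rw [e] at this
        exact lt_irrefl _ this
      · intro e
        exact ht.2 (e ▸ ht.1))
    (by
      rintro t (ht | ht)
      · rw [hcolP t ht]
        have h1 := hc1 ⟨t, ht⟩
        exact (mem_filter.1 h1).2
      · rw [hcolQ t ht]
        have h1 := hg1 t ((hS t).2 ht)
        exact (mem_filter.1 h1).2.1)
    (by
      rintro t t' (ht | ht) (ht' | ht') hne hs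
      · rw [hcolP t ht, hcolP t' ht']
        exact hc2 ⟨t, ht⟩ ⟨t', ht'⟩ (fun e => hne (congrArg Subtype.val e)) hs
      · refine hPQ t t' ht ht' ?_
        rcases hs with hs | hs | hs | hs
        · exact Or.inl hs
        · exact absurd (hs ▸ ht.1) ht'.2
        · exact Or.inr hs
        · exact absurd (hs ▸ ht.2.1) ht'.2
      · refine (hPQ t' t ht' ht ?_).symm
        rcases hs with hs | hs | hs | hs
        · exact Or.inl hs.symm
        · exact Or.inr hs.symm
        · exact absurd (hs ▸ ht'.1) ht.2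
        · exact absurd (hs ▸ ht'.2.1) ht.2
      · rw [hcolQ t ht, hcolQ t' ht']
        refine hg2 t ((hS t).2 ht) t' ((hS t').2 ht') hne ?_
        rcases hs with hs | hs | hs | hs
        · exact Or.inl hs
        · exact absurd (hs ▸ ht.1) ht'.2
        · exact absurd (hs ▸ ht'.1) ht.2
        · exact Or.inr hs)
    (by
      rintro a b c c' (h1 | h1) (h2 | h2)
      · exact lt_asymm h1.2.2 h2.2.2
      · exact h2.2 h1.1
      · exact h1.2 h2.1
      · exact h1.2 h2.1)
  refine ⟨F, hF1, ?_, ?_⟩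
  · intro i a b hab
    obtain ⟨c, (h1 | h1) | (h1 | h1)⟩ := hF2 i a b hab
    · exact Or.inl h1.1
    · exact Or.inl h1.1
    · exact Or.inr h1.1
    · exact Or.inr h1.1
  · intro a b hab hor
    by_cases ha : a ∈ B
    · by_cases hb : b ∈ B
      · rcases lt_trichotomy (ι a) (ι b) with hlt | heq | hgt
        · exact (hF3 a b fun c => Or.inl ⟨ha, hb, hlt⟩).1
        · exact absurd (hι' a b heq) hab
        · exact (hF3 b a fun c => Or.inl ⟨hb, ha, hgt⟩).2
      · exact (hF3 a b fun c => Or.inr ⟨ha, hb⟩).1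
    · have hb : b ∈ B := hor.resolve_left ha
      exact (hF3 b a fun c => Or.inr ⟨hb, ha⟩).2

end Pool.Agent.Work.MP_18db2a_co
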