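import Pool.Agent.Work.MP_18db2a_co.Defs

set_option autoImplicit false

/-!
# Basic facts (proved)
-/

namespace Pool.Agent.Work.MP_18db2a_co

open Finset

section cnt

variable {A B : Type} [Fintype A] [Fintype B]

theorem cnt_coe (p : A → Prop) [DecidablePred p] : (cnt p : ℝ) = ∑ x, if p x then (1 : ℝ) else 0 := by
  rw [cnt, Finset.card_filter]
  push_cast
  refine Finset.sum_congr rfl fun x _ => ?_
  by_cases h : p x <;> simp [h]

theorem cnt_eq (p : A → Prop) [DecidablePred p] : cnt p = (univ.filter p).card := by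
  rw [cnt]
  congr

theorem cnt_eq_sum (p : A → Prop) [DecidablePred p] : cnt p = ∑ x, if p x then 1 else 0 := by
  rw [cnt_eq, Finset.card_filter]

theorem cnt_congr {p q : A → Prop} (h : ∀ x, p x ↔ q x) : cnt p = cnt q := by
  have : p = q := funext fun x => propext (h x)
  rw [this]

theorem cnt_mono {p q : A → Prop} (h : ∀ x, p x → q x) : cnt p ≤ cnt q := by
  classical
  rw [cnt_eq, cnt_eq]
  exact Finset.card_le_card fun x hx => by
    rw [mem_filter] at hx ⊢
    exact ⟨hx.1, h x hx.2⟩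

theorem cnt_le_card (p : A → Prop) : cnt p ≤ Fintype.card A := by
  classical
  rw [cnt_eq]
  exact Finset.card_le_univ _

theorem cnt_true : cnt (fun _ : A => True) = Fintype.card A := by
  rw [cnt_eq]
  simp

theorem cnt_false : cnt (fun _ : A => False) = 0 := by
  rw [cnt_eq]
  simp

theorem cnt_eq_zero {p : A → Prop} (h : ∀ x, ¬ p x) : cnt p = 0 := by
  rw [← cnt_false (A := A)]
  exact cnt_congr fun x => ⟨fun hx => h x hx, fun hx => hx.elim⟩

theorem cnt_pos {p : A → Prop} (x : A) (h : p x) : 0 < cnt p := by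
  classical
  rw [cnt_eq]
  exact Finset.card_pos.2 ⟨x, mem_filter.2 ⟨mem_univ _, h⟩⟩

theorem exists_of_cnt_pos {p : A → Prop} (h : 0 < cnt p) : ∃ x, p x := by
  by_contra hno
  rw [cnt_eq_zero fun x hx => hno ⟨x, hx⟩] at h
  exact lt_irrefl _ h

/-- `cnt p = cnt (p ∧ q) + cnt (p ∧ ¬ q)` -/
theorem cnt_split (p q : A → Prop) :
    cnt p = cnt (fun x => p x ∧ q x) + cnt (fun x => p x ∧ ¬ q x) := by
  classical
  rw [cnt_eq_sum, cnt_eq_sum, cnt_eq_sum, ← Finset.sum_add_distrib]
  refine Finset.sum_congr rfl fun x _ => ?_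
  by_cases hp : p x <;> by_cases hq : q x <;> simp [hp, hq]

theorem cnt_add_not (p : A → Prop) : cnt p + cnt (fun x => ¬ p x) = Fintype.card A := by
  rw [← cnt_true (A := A), cnt_split (fun _ : A => True) p]
  congr 1 <;> exact cnt_congr fun x => by simp

theorem cnt_or_le (p q : A → Prop) : cnt (fun x => p x ∨ q x) ≤ cnt p + cnt q := by
  classical
  rw [cnt_eq_sum, cnt_eq_sum, cnt_eq_sum, ← Finset.sum_add_distrib]
  refine Finset.sum_le_sum fun x _ => ?_
  by_cases hp : p x <;> by_cases hq : q x <;> simp [hp, hq]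

/-- inclusion and exclusion -/
theorem cnt_or_add_and (p q : A → Prop) :
    cnt (fun x => p x ∨ q x) + cnt (fun x => p x ∧ q x) = cnt p + cnt q := by
  classical
  rw [cnt_eq_sum, cnt_eq_sum, cnt_eq_sum, cnt_eq_sum, ← Finset.sum_add_distrib,
    ← Finset.sum_add_distrib]
  refine Finset.sum_congr rfl fun x _ => ?_
  by_cases hp : p x <;> by_cases hq : q x <;> simp [hp, hq]

theorem cnt_mem (s : Finset A) : cnt (fun x => x ∈ s) = s.card := by
  classical
  rw [cnt_eq]
  simp

/-- double counting -/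
theorem cnt_comm (R : A → B → Prop) : ∑ x, cnt (fun y => R x y) = ∑ y, cnt (fun x => R x y) := by
  classical
  simp only [cnt_eq_sum]
  exact Finset.sum_comm

theorem cnt_prod (R : A → B → Prop) : cnt (fun p : A × B => R p.1 p.2) = ∑ a, cnt (fun b => R a b) := by
  classical
  simp only [cnt_eq_sum]
  rw [Fintype.sum_prod_type]

theorem cnt_equiv (e : A ≃ B) (p : B → Prop) : cnt (fun a => p (e a)) = cnt p := by
  classical
  rw [cnt_eq_sum, cnt_eq_sum]
  exact Fintype.sum_equiv e _ _ fun x => rfl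

/-- an injective map from `p` to `q` -/
theorem cnt_le_of_inj {p : A → Prop} {q : B → Prop} (f : A → B) (hf : ∀ x, p x → q (f x))
    (hinj : ∀ x y, p x → p y → f x = f y → x = y) : cnt p ≤ cnt q := by
  classical
  rw [cnt_eq, cnt_eq]
  refine Finset.card_le_card_of_injOn f (fun x hx => ?_) fun x hx y hy hxy => ?_
  · have := (mem_filter.1 hx).2
    exact mem_filter.2 ⟨mem_univ _, hf x this⟩
  · exact hinj x y (mem_filter.1 hx).2 (mem_filter.1 hy).2 hxy

end cnt

section av

variable {Ω : Type} [Fintype Ω]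

theorem av_add (f g : Ω → ℝ) : av (fun x => f x + g x) = av f + av g := by
  rw [av, av, av, Finset.sum_add_distrib, add_div]

theorem av_sub (f g : Ω → ℝ) : av (fun x => f x - g x) = av f - av g := by
  rw [av, av, av, Finset.sum_sub_distrib, sub_div]

theorem av_mul_left (c : ℝ) (f : Ω → ℝ) : av (fun x => c * f x) = c * av f := by
  rw [av, av, ← Finset.mul_sum, mul_div_assoc]

theorem av_const [Nonempty Ω] (c : ℝ) : av (fun _ : Ω => c) = c := by
  rw [av, Finset.sum_const, nsmul_eq_mul, Finset.card_univ]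
  field_simp

theorem av_mono {f g : Ω → ℝ} (h : ∀ x, f x ≤ g x) : av f ≤ av g :=
  div_le_div_of_nonneg_right (Finset.sum_le_sum fun x _ => h x) (Nat.cast_nonneg _)

theorem av_nonneg {f : Ω → ℝ} (h : ∀ x, 0 ≤ f x) : 0 ≤ av f :=
  div_nonneg (Finset.sum_nonneg fun x _ => h x) (Nat.cast_nonneg _)

theorem av_sum {A : Type} (s : Finset A) (f : A → Ω → ℝ) :
    av (fun x => ∑ a ∈ s, f a x) = ∑ a ∈ s, av (f a) := by
  simp only [av]
  rw [Finset.sum_comm, Finset.sum_div]

theorem av_prod {A B : Type} [Fintype A] [Fintype B] (f : A → B → ℝ) :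
    av (fun p : A × B => f p.1 p.2) = av fun a => av fun b => f a b := by
  simp only [av]
  rw [Fintype.sum_prod_type, Fintype.card_prod, ← Finset.sum_div, div_div, Nat.cast_mul, mul_comm]

theorem av_prod' {A B : Type} [Fintype A] [Fintype B] (f : A → B → ℝ) :
    av (fun p : A × B => f p.1 p.2) = av fun b => av fun a => f a b := by
  simp only [av]
  rw [Fintype.sum_prod_type_right, Fintype.card_prod, ← Finset.sum_div, div_div, Nat.cast_mul]

theorem av_equiv {A B : Type} [Fintype A] [Fintype B] (e : A ≃ B) (f : B → ℝ) :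
    av (fun a => f (e a)) = av f := by
  rw [av, av, Fintype.card_congr e]
  congr 1
  exact Fintype.sum_equiv e _ _ fun x => rfl

theorem pr_eq_av (p : Ω → Prop) [DecidablePred p] : pr p = av fun x => if p x then (1 : ℝ) else 0 := by
  rw [pr, av, cnt_coe]

theorem pr_nonneg (p : Ω → Prop) : 0 ≤ pr p := div_nonneg (Nat.cast_nonneg _) (Nat.cast_nonneg _)

theorem pr_le_one (p : Ω → Prop) : pr p ≤ 1 :=
  div_le_one_of_le₀ (by exact_mod_cast cnt_le_card p) (Nat.cast_nonneg _)

theorem pr_mono {p q : Ω → Prop} (h : ∀ x, p x → q x) : pr p ≤ pr q :=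
  div_le_div_of_nonneg_right (by exact_mod_cast cnt_mono h) (Nat.cast_nonneg _)

theorem pr_congr {p q : Ω → Prop} (h : ∀ x, p x ↔ q x) : pr p = pr q := by
  rw [pr, pr, cnt_congr h]

theorem pr_eq_zero {p : Ω → Prop} (h : ∀ x, ¬ p x) : pr p = 0 := by
  rw [pr, cnt_eq_zero h]
  simp

theorem pr_true [Nonempty Ω] : pr (fun _ : Ω => True) = 1 := by
  rw [pr, cnt_true]
  exact div_self (by exact_mod_cast Fintype.card_ne_zero)

theorem pr_or_le (p q : Ω → Prop) : pr (fun x => p x ∨ q x) ≤ pr p + pr q := by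
  rw [pr, pr, pr, ← add_div]
  exact div_le_div_of_nonneg_right (by exact_mod_cast cnt_or_le p q) (Nat.cast_nonneg _)

theorem pr_not [Nonempty Ω] (p : Ω → Prop) : pr (fun x => ¬ p x) = 1 - pr p := by
  have h : (cnt p : ℝ) + cnt (fun x => ¬ p x) = Fintype.card Ω := by exact_mod_cast cnt_add_not p
  have h0 : (Fintype.card Ω : ℝ) ≠ 0 := by exact_mod_cast Fintype.card_ne_zero
  rw [pr, pr, ← h]
  rw [← h] at h0
  field_simp
  ring

theorem pr_exists_le {A : Type} (s : Finset A) (E : A → Ω → Prop) :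
    pr (fun x => ∃ a ∈ s, E a x) ≤ ∑ a ∈ s, pr (E a) := by
  classical
  induction s using Finset.induction_on with
  | empty =>
    rw [pr_eq_zero (fun x hx => by simp at hx)]
    simp
  | insert a s ha ih =>
    rw [Finset.sum_insert ha]
    refine le_trans (pr_mono (q := fun x => E a x ∨ ∃ b ∈ s, E b x) fun x hx => ?_)
      ((pr_or_le _ _).trans (by linarith))
    obtain ⟨b, hb, hE⟩ := hx
    rcases Finset.mem_insert.1 hb with rfl | hb
    · exact Or.inl hE
    · exact Or.inr ⟨b, hb, hE⟩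

/-- an event of probability less than one can be avoided -/
theorem exists_of_pr_lt_one [Nonempty Ω] (p : Ω → Prop) (h : pr p < 1) : ∃ x, ¬ p x := by
  by_contra hno
  push Not at hno
  have : pr p = 1 := by
    rw [← pr_true (Ω := Ω)]
    exact pr_congr fun x => ⟨fun _ => trivial, fun _ => hno x⟩
  linarith

theorem pr_equiv {A B : Type} [Fintype A] [Fintype B] (e : A ≃ B) (p : B → Prop) :
    pr (fun a => p (e a)) = pr p := by
  rw [pr, pr, Fintype.card_congr e, cnt_equiv]

theorem pr_prod {A B : Type} [Fintype A] [Fintype B] (p : A → B → Prop) :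
    pr (fun x : A × B => p x.1 x.2) = av fun b => pr fun a => p a b := by
  classical
  rw [pr_eq_av, av_prod' fun a b => if p a b then (1 : ℝ) else 0]
  refine congrArg av (funext fun b => ?_)
  rw [pr_eq_av]

/-- Markov's inequality -/
theorem pr_le_av {p : Ω → Prop} {f : Ω → ℝ} (h0 : ∀ x, 0 ≤ f x) (h1 : ∀ x, p x → 1 ≤ f x) :
    pr p ≤ av f := by
  classical
  rw [pr_eq_av]
  refine av_mono fun x => ?_
  by_cases hx : p x
  · rw [if_pos hx]
    exact h1 x hx
  · rw [if_neg hx]
    exact h0 x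

end av

section mat

variable {V : Type}

theorem IsMat.mem' {U : Finset V} {M : V → V → Prop} (h : IsMat U M) {x y : V} (hxy : M x y) : y ∈ U :=
  h.mem y x (h.symm x y hxy)

theorem IsMat.ne {U : Finset V} {M : V → V → Prop} (h : IsMat U M) {x y : V} (hxy : M x y) : x ≠ y := by
  rintro rfl
  exact h.irr _ hxy

theorem IsMat.mono {U U' : Finset V} {M : V → V → Prop} (h : IsMat U M) (hU : U ⊆ U') : IsMat U' M :=
  ⟨h.symm, h.irr, h.uniq, fun x y hxy => hU (h.mem x y hxy)⟩

theorem isMat_false (U : Finset V) : IsMat U (fun _ _ : V => False) :=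
  ⟨fun _ _ h => h.elim, fun _ h => h, fun _ _ _ h => h.elim, fun _ _ h => h.elim⟩

/-- union of two matchings without common vertices -/
theorem IsMat.or {U : Finset V} {M N : V → V → Prop} (hM : IsMat U M) (hN : IsMat U N)
    (h : ∀ x y z, M x y → ¬ N x z) : IsMat U (fun x y => M x y ∨ N x y) := by
  refine ⟨?_, ?_, ?_, ?_⟩
  · rintro x y (h1 | h1)
    · exact Or.inl (hM.symm _ _ h1)
    · exact Or.inr (hN.symm _ _ h1)
  · rintro x (h1 | h1)
    · exact hM.irr _ h1
    · exact hN.irr _ h1
  · rintro x y z (h1 | h1) (h2 | h2)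
    · exact hM.uniq _ _ _ h1 h2
    · exact absurd h2 (h _ _ _ h1)
    · exact absurd h1 (h _ _ _ h2)
    · exact hN.uniq _ _ _ h1 h2
  · rintro x y (h1 | h1)
    · exact hM.mem _ _ h1
    · exact hN.mem _ _ h1

/-- a relation which is contained in a matching and symmetric is a matching -/
theorem IsMat.sub {U : Finset V} {M N : V → V → Prop} (hM : IsMat U M) (hs : ∀ x y, N x y → N y x)
    (h : ∀ x y, N x y → M x y) : IsMat U N :=
  ⟨hs, fun x hx => hM.irr x (h _ _ hx), fun _ _ _ h1 h2 => hM.uniq _ _ _ (h _ _ h1) (h _ _ h2),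
    fun _ _ h1 => hM.mem _ _ (h _ _ h1)⟩

variable [Fintype V]

/-- the number of covered vertices is the number of ordered pairs -/
theorem IsMat.nv_eq {U : Finset V} {M : V → V → Prop} (h : IsMat U M) :
    nv M = cnt fun p : V × V => M p.1 p.2 := by
  classical
  rw [cnt_prod, nv, cnt_eq_sum]
  refine Finset.sum_congr rfl fun x _ => ?_
  split_ifs with hx
  · obtain ⟨y, hy⟩ := hx
    rw [cnt_eq]
    symm
    rw [Finset.card_eq_one]
    refine ⟨y, ?_⟩
    ext z
    simp only [mem_filter, mem_univ, true_and, mem_singleton]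
    exact ⟨fun hz => h.uniq _ _ _ hz hy, fun hz => hz ▸ hy⟩
  · symm
    exact cnt_eq_zero fun y hy => hx ⟨y, hy⟩

theorem IsMat.nv_le {U : Finset V} {M : V → V → Prop} (h : IsMat U M) : nv M ≤ U.card := by
  rw [← cnt_mem U]
  exact cnt_mono fun x ⟨y, hy⟩ => h.mem x y hy

/-- the number of covered vertices is even -/
theorem IsMat.even {U : Finset V} {M : V → V → Prop} (h : IsMat U M) : Even (nv M) := by
  classical
  rw [nv, cnt_eq]
  set S := univ.filter fun x => ∃ y, M x y with hS
  have hmem : ∀ x, x ∈ S → ∃ y, M x y := fun x hx => (mem_filter.1 hx).2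
  have h2 : ∑ x ∈ S, (1 : ZMod 2) = 0 := by
    refine Finset.sum_involution (fun x hx => (hmem x hx).choose) ?_ ?_ ?_ ?_
    · intro x hx
      decide
    · intro x hx _
      exact (h.ne (hmem x hx).choose_spec).symm
    · intro x hx
      exact mem_filter.2 ⟨mem_univ _, x, h.symm _ _ (hmem x hx).choose_spec⟩
    · intro x hx
      have h1 := (hmem x hx).choose_spec
      have hy : (hmem x hx).choose ∈ S := mem_filter.2 ⟨mem_univ _, x, h.symm _ _ h1⟩
      exact h.uniq _ _ _ (hmem _ hy).choose_spec (h.symm _ _ h1)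
  rw [Finset.sum_const, nsmul_eq_mul, mul_one] at h2
  exact (ZMod.natCast_eq_zero_iff_even).1 h2

end mat

end Pool.Agent.Work.MP_18db2a_co
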