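import Pool.Agent.Work.MP_18db2a_co.Basic

set_option autoImplicit false

/-!
# Cnt (size S-M): counting facts for the data `Dat T δ`

`m = card V`, `D = (m-1).choose 2`.
`sum_T`: double counting of the pairs `(x, i)`, `x ∈ T i`.
`list_ge`: inclusion-exclusion: `cnt (a ∉ T i ∧ b ∉ T i) = card I - 2 D + cnt (a ∈ T i ∧ b ∈ T i)`, and with `δ = m + r`, `r = 1, 2, 3`:
`card I - 2 D = (m + δ - 1).choose 2 - 2 D = δ (m-1) + δ (δ-1)/2 - (m-1)(m-2)/2`, which is `δ m + r (m-1) + (r² - r - 2)/2 ≥ δ m` for `m ≥ 2`.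
(`Nat.choose_two_right`, or `Nat.cast_choose_two` over the reals / integers.)
`list_one`: `card I - D`.  `card_bounds`: `(m + δ - 1)(m + δ - 2)/2` with `m + 1 ≤ δ ≤ m + 3`.
-/

namespace Pool.Agent.Work.MP_18db2a_co

open Finset

variable {V I : Type} [Fintype V] [DecidableEq V] [Fintype I] {T : I → Finset V} {δ : ℕ}

private theorem cast_D (m : ℕ) (hm : 1 ≤ m) :
    (((m - 1).choose 2 : ℕ) : ℝ) = ((m : ℝ) - 1) * ((m : ℝ) - 2) / 2 := by
  rw [Nat.cast_choose_two, Nat.cast_sub hm, Nat.cast_one]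
  ring

private theorem cast_I (h : Dat T δ) :
    (Fintype.card I : ℝ) =
      ((Fintype.card V : ℝ) + δ - 1) * ((Fintype.card V : ℝ) + δ - 2) / 2 := by
  have h1 := h.lo
  rw [h.card, cast_D _ (by omega)]
  push_cast
  ring

theorem sum_T (h : Dat T δ) :
    ∑ i, ((T i).card : ℝ) = (Fintype.card V : ℝ) * ((Fintype.card V : ℝ) - 1) * ((Fintype.card V : ℝ) - 2) / 2 := by
  have h1 : ∑ i, (T i).card = Fintype.card V * (Fintype.card V - 1).choose 2 := by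
    have h2 := cnt_comm (fun (i : I) (x : V) => x ∈ T i)
    simp only [cnt_mem] at h2
    rw [h2, Finset.sum_congr rfl fun x _ => h.deg x, Finset.sum_const, Finset.card_univ,
      smul_eq_mul]
  have h3 : ∑ i, ((T i).card : ℝ) = ((∑ i, (T i).card : ℕ) : ℝ) := by push_cast; rfl
  rw [h3, h1]
  push_cast
  rcases Nat.eq_zero_or_pos (Fintype.card V) with h0 | h0
  · rw [h0]
    norm_num
  · rw [cast_D _ h0]
    ring

theorem list_ge (h : Dat T δ) (hm : 2 ≤ Fintype.card V) (a b : V) (hab : a ≠ b) :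
    δ * Fintype.card V + cnt (fun i => a ∈ T i ∧ b ∈ T i) ≤ cnt (fun i => a ∉ T i ∧ b ∉ T i) := by
  have e1 := cnt_or_add_and (fun i => a ∈ T i) (fun i => b ∈ T i)
  have e2 := cnt_add_not (fun i => a ∈ T i ∨ b ∈ T i)
  have e3 : cnt (fun i => ¬ (a ∈ T i ∨ b ∈ T i)) = cnt (fun i => a ∉ T i ∧ b ∉ T i) :=
    cnt_congr fun i => not_or
  rw [h.deg a, h.deg b] at e1
  rw [e3] at e2
  have c1 := cast_I h
  have c2 := cast_D (Fintype.card V) (by omega)
  have hlo : ((Fintype.card V : ℕ) : ℝ) + 1 ≤ (δ : ℝ) := by exact_mod_cast h.lo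
  have hhi : (δ : ℝ) ≤ ((Fintype.card V : ℕ) : ℝ) + 3 := by exact_mod_cast h.hi
  have hm' : (2 : ℝ) ≤ (Fintype.card V : ℝ) := by exact_mod_cast hm
  have e1' : (cnt (fun i => a ∈ T i ∨ b ∈ T i) : ℝ) + cnt (fun i => a ∈ T i ∧ b ∈ T i) =
      ((Fintype.card V - 1).choose 2 : ℕ) + ((Fintype.card V - 1).choose 2 : ℕ) := by
    exact_mod_cast e1
  have e2' : (cnt (fun i => a ∈ T i ∨ b ∈ T i) : ℝ) + cnt (fun i => a ∉ T i ∧ b ∉ T i) =
      Fintype.card I := by exact_mod_cast e2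
  rw [c2] at e1'
  rw [c1] at e2'
  have goal : (δ : ℝ) * Fintype.card V + cnt (fun i => a ∈ T i ∧ b ∈ T i) ≤
      cnt (fun i => a ∉ T i ∧ b ∉ T i) := by
    have key : (δ : ℝ) * Fintype.card V ≤
        ((Fintype.card V : ℝ) + δ - 1) * ((Fintype.card V : ℝ) + δ - 2) / 2 -
          ((Fintype.card V : ℝ) - 1) * ((Fintype.card V : ℝ) - 2) := by
      nlinarith [mul_nonneg (sub_nonneg.2 hlo) (sub_nonneg.2 hm'),
        mul_nonneg (sub_nonneg.2 hlo) (sub_nonneg.2 hlo)]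
    linarith
  exact_mod_cast goal

theorem list_one (h : Dat T δ) (a : V) :
    (cnt (fun i => a ∉ T i) : ℝ) = (δ : ℝ) * (2 * (Fintype.card V : ℝ) + δ - 3) / 2 := by
  have hm : 1 ≤ Fintype.card V := Fintype.card_pos_iff.2 ⟨a⟩
  have e2 := cnt_add_not (fun i => a ∈ T i)
  rw [h.deg a] at e2
  have e2' : (((Fintype.card V - 1).choose 2 : ℕ) : ℝ) + cnt (fun i => a ∉ T i) =
      Fintype.card I := by exact_mod_cast e2
  rw [cast_D _ hm, cast_I h] at e2'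
  linarith

theorem list_two (h : Dat T δ) (a b : V) :
    (cnt (fun i => a ∉ T i ∧ b ∉ T i) : ℝ) =
      (δ : ℝ) * (2 * (Fintype.card V : ℝ) + δ - 3) / 2 - cnt (fun i => b ∈ T i ∧ a ∉ T i) := by
  rw [← list_one h a]
  have e1 := cnt_split (fun i => a ∉ T i) (fun i => b ∈ T i)
  have e2 : cnt (fun i => a ∉ T i ∧ b ∈ T i) = cnt (fun i => b ∈ T i ∧ a ∉ T i) :=
    cnt_congr fun i => and_comm
  rw [e2] at e1
  have e3 : (cnt (fun i => a ∉ T i) : ℝ) = cnt (fun i => b ∈ T i ∧ a ∉ T i) +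
      cnt (fun i => a ∉ T i ∧ ¬ b ∈ T i) := by exact_mod_cast e1
  rw [e3]
  ring

theorem card_bounds (h : Dat T δ) (hm : 1 ≤ Fintype.card V) :
    2 * (Fintype.card V : ℝ) ^ 2 - (Fintype.card V : ℝ) ≤ Fintype.card I ∧
      (Fintype.card I : ℝ) ≤ 2 * (Fintype.card V : ℝ) ^ 2 + 3 * (Fintype.card V : ℝ) + 1 := by
  have hlo : ((Fintype.card V : ℕ) : ℝ) + 1 ≤ (δ : ℝ) := by exact_mod_cast h.lo
  have hhi : (δ : ℝ) ≤ ((Fintype.card V : ℕ) : ℝ) + 3 := by exact_mod_cast h.hi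
  have hm' : (1 : ℝ) ≤ (Fintype.card V : ℝ) := by exact_mod_cast hm
  rw [cast_I h]
  constructor
  · nlinarith [mul_nonneg (sub_nonneg.2 hlo) (sub_nonneg.2 hm'),
      mul_nonneg (sub_nonneg.2 hlo) (sub_nonneg.2 hlo)]
  · nlinarith [mul_nonneg (sub_nonneg.2 hhi) (sub_nonneg.2 hm'),
      mul_nonneg (sub_nonneg.2 hhi) (sub_nonneg.2 hlo)]

end Pool.Agent.Work.MP_18db2a_co
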