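import Pool.Agent.Work.MP_18db2a_co.DefsE
import Pool.Agent.Work.MP_18db2a_co.Cnt

set_option autoImplicit false
set_option linter.unusedSectionVars false

/-!
# NCov (size M, uses the statement of Cnt): the fractional solution of case N is a fractional matching in every colour

Let `m = card V`, `c' = 10^(-34)`, `L a b` = set of the `i` with `a, b ∉ T i`, `l a b` its size, `l a b ≥ δ m + |T(a) ∩ T(b)|` (`list_ge`; `T(a)` = colours `i` with `a ∈ T i`),
`ν a b` = number of the heavy members of `L a b`.  `WW a b = (1 - c') l a b + c' ν a b ≥ (1 - c') (δ m + g b)` with `g b = |T(a) ∩ T(b)| + c' ν a b`, and `WW a b > 0`.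
`nonneg`, `symm`, `diag`, `out` are clear.  `yN_load`: the definition.
`le`: light `i`: `yN ≤ δ (1 - c') / ((1 - c') δ m) = 1/m`.  Heavy `i`: `yN ≤ 1/((1 - c') m)` and `|U i| ≤ (1 - 10^(-10)) m`.
`cov`, heavy `i`: at most `|U i| ≤ (1 - 10^(-10)) m` summands, `(1 - 10^(-10))/(1 - c') ≤ 1 - 10^(-42)`.
`cov`, light `i`, fixed `a ∉ T i` (otherwise the sum is `0`): every summand is at most `δ/(δ m + g b) = (1/m)(1 - g b/(δ m + g b)) ≤ (1/m)(1 - g b/(5 m²))`, since
`δ m + g b ≤ 5 m²` (`δ m ≤ 1.5 m²`, `|T(a) ∩ T(b)| ≤ m²/2`, `ν ≤ card I ≤ 2.1 m²`); this bound is `≥ 0`, so we may sum over all `b : V` (also `b = a`):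
`cov ≤ 1 - (1/(5 m³)) ∑ b, g b`.  Claim: `∑ b, g b ≥ (10^(-6)/2) c' m³` (so `cov ≤ 1 - 10^(-41)`).
`∑ b, |T(a) ∩ T(b)| = ∑_{j ∈ T(a)} |T j|` and `∑ b, ν a b = ∑_{j heavy, a ∉ T j} |U j|` (double counting; for `b = a` these are `|T(a)|`, the number of
heavy `j` with `a ∉ T j`).  If at least `(10^(-6)/2) m²` members of `T(a)` are heavy then the first sum is at least
`(10^(-6)/2) m² * 10^(-10) m`.  Otherwise there are at least `(1/2 + 10^(-6)/2) m²` heavy `j` with `a ∉ T j`, and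
`∑ |U j| = m * number - ∑ |T j| ≥ (1/2 + 10^(-6)/2) m³ - m³/2` by `sum_T`; multiply by `c'`.
-/

namespace Pool.Agent.Work.MP_18db2a_co

open Finset

section

variable {V I : Type} [Fintype V] [DecidableEq V] [Fintype I]

private theorem wt_nonneg (T : I → Finset V) (i : I) : 0 ≤ wt T i := by
  unfold wt
  split_ifs <;> norm_num

private theorem WW_nonneg (T : I → Finset V) (a b : V) : 0 ≤ WW T a b := by
  unfold WW
  refine Finset.sum_nonneg fun i _ => ?_
  split_ifs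
  · exact wt_nonneg T i
  · exact le_rfl

private theorem WW_symm (T : I → Finset V) (a b : V) : WW T a b = WW T b a := by
  unfold WW
  refine Finset.sum_congr rfl fun i _ => ?_
  simp only [and_comm]

private theorem WW_eq (T : I → Finset V) (a b : V) : WW T a b =
    (1 - 1 / 10 ^ 34) * (cnt (fun i => a ∉ T i ∧ b ∉ T i) : ℝ) +
      1 / 10 ^ 34 * (cnt (fun i => Heavy T i ∧ a ∉ T i ∧ b ∉ T i) : ℝ) := by
  classical
  unfold WW
  rw [cnt_coe, cnt_coe, Finset.mul_sum, Finset.mul_sum, ← Finset.sum_add_distrib]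
  refine Finset.sum_congr rfl fun i _ => ?_
  by_cases h : a ∉ T i ∧ b ∉ T i
  · by_cases hl : Light T i
    · have hh : ¬ (Heavy T i ∧ a ∉ T i ∧ b ∉ T i) := fun hx => hx.1 hl
      rw [if_pos h, if_pos h, if_neg hh, wt, if_pos hl]
      ring
    · have hh : Heavy T i ∧ a ∉ T i ∧ b ∉ T i := ⟨hl, h⟩
      rw [if_pos h, if_pos h, if_pos hh, wt, if_neg hl]
      ring
  · have hh : ¬ (Heavy T i ∧ a ∉ T i ∧ b ∉ T i) := fun hx => h hx.2
    rw [if_neg h, if_neg h, if_neg hh]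
    ring

/-- the surplus -/
private noncomputable def gg (T : I → Finset V) (a b : V) : ℝ :=
  (cnt (fun i => a ∈ T i ∧ b ∈ T i) : ℝ) + 1 / 10 ^ 34 * (cnt (fun i => Heavy T i ∧ a ∉ T i ∧ b ∉ T i) : ℝ)

private theorem gg_nonneg (T : I → Finset V) (a b : V) : 0 ≤ gg T a b := by
  unfold gg
  positivity

private theorem WW_ge {T : I → Finset V} {δ : ℕ} (h : Dat T δ) (hm : 2 ≤ Fintype.card V) {a b : V}
    (hab : a ≠ b) : (1 - 1 / 10 ^ 34) * ((δ : ℝ) * (Fintype.card V : ℝ) + gg T a b) ≤ WW T a b := by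
  rw [WW_eq]
  have h1 := list_ge h hm a b hab
  have h2 : (δ : ℝ) * (Fintype.card V : ℝ) + (cnt (fun i => a ∈ T i ∧ b ∈ T i) : ℝ) ≤
      (cnt (fun i => a ∉ T i ∧ b ∉ T i) : ℝ) := by exact_mod_cast h1
  have h3 : (0 : ℝ) ≤ (cnt (fun i => Heavy T i ∧ a ∉ T i ∧ b ∉ T i) : ℝ) := Nat.cast_nonneg _
  unfold gg
  nlinarith [mul_nonneg (by norm_num : (0 : ℝ) ≤ (1 / 10 ^ 34) * (1 / 10 ^ 34)) h3,
    mul_le_mul_of_nonneg_left h2 (by norm_num : (0 : ℝ) ≤ 1 - 1 / 10 ^ 34)]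

private theorem delta_pos {T : I → Finset V} {δ : ℕ} (h : Dat T δ) : 0 < (δ : ℝ) := by
  have := h.lo
  exact_mod_cast (by omega : 0 < δ)

private theorem WW_pos {T : I → Finset V} {δ : ℕ} (h : Dat T δ) (hm : 2 ≤ Fintype.card V) {a b : V}
    (hab : a ≠ b) : 0 < WW T a b := by
  have h1 := WW_ge h hm hab
  have h2 := gg_nonneg T a b
  have h3 := delta_pos h
  have h4 : (2 : ℝ) ≤ (Fintype.card V : ℝ) := by exact_mod_cast hm
  have h5 : 0 < (δ : ℝ) * (Fintype.card V : ℝ) := mul_pos h3 (by linarith)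
  have h6 : (0 : ℝ) < (1 - 1 / 10 ^ 34) * ((δ : ℝ) * (Fintype.card V : ℝ) + gg T a b) :=
    mul_pos (by norm_num) (by linarith)
  linarith

/-- the general bound of the entries -/
private theorem yN_le {T : I → Finset V} {δ : ℕ} (h : Dat T δ) (hm : 2 ≤ Fintype.card V) (i : I) {a b : V}
    (hab : a ≠ b) : yN T δ i a b ≤
      wt T i / (1 - 1 / 10 ^ 34) * ((δ : ℝ) / ((δ : ℝ) * (Fintype.card V : ℝ) + gg T a b)) := by
  have h2 := gg_nonneg T a b
  have h3 := delta_pos h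
  have h4 : (2 : ℝ) ≤ (Fintype.card V : ℝ) := by exact_mod_cast hm
  have h5 : 0 < (δ : ℝ) * (Fintype.card V : ℝ) := mul_pos h3 (by linarith)
  have hc : (0 : ℝ) < 1 - 1 / 10 ^ 34 := by norm_num
  unfold yN
  split_ifs with hc1
  · have h6 : (δ : ℝ) * wt T i / WW T a b ≤
        (δ : ℝ) * wt T i / ((1 - 1 / 10 ^ 34) * ((δ : ℝ) * (Fintype.card V : ℝ) + gg T a b)) :=
      div_le_div_of_nonneg_left (mul_nonneg h3.le (wt_nonneg T i))
        (mul_pos hc (by linarith)) (WW_ge h hm hab)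
    refine h6.trans (le_of_eq ?_)
    rw [div_mul_div_comm, mul_comm (δ : ℝ) (wt T i)]
  · exact mul_nonneg (div_nonneg (wt_nonneg T i) hc.le) (div_nonneg h3.le (by linarith))

private theorem yN_nonneg (T : I → Finset V) (δ : ℕ) (i : I) (a b : V) : 0 ≤ yN T δ i a b := by
  unfold yN
  split_ifs
  · exact div_nonneg (mul_nonneg (Nat.cast_nonneg _) (wt_nonneg T i)) (WW_nonneg T a b)
  · exact le_rfl

private theorem yN_zero {T : I → Finset V} {δ : ℕ} {i : I} {a b : V} (h : ¬ (a ≠ b ∧ a ∉ T i ∧ b ∉ T i)) :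
    yN T δ i a b = 0 := by
  unfold yN
  rw [if_neg h]

private theorem card_U (T : I → Finset V) (i : I) :
    (((T i)ᶜ).card : ℝ) = (Fintype.card V : ℝ) - ((T i).card : ℝ) := by
  rw [Finset.card_compl, Nat.cast_sub (Finset.card_le_univ _)]

private theorem card_U_heavy {T : I → Finset V} {i : I} (h : Heavy T i) :
    (((T i)ᶜ).card : ℝ) ≤ (1 - 1 / 10 ^ 10) * (Fintype.card V : ℝ) := by
  rw [card_U]
  have h1 : Fintype.card V < 10 ^ 10 * (T i).card := not_le.1 h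
  have h2 : (Fintype.card V : ℝ) < 10 ^ 10 * ((T i).card : ℝ) := by exact_mod_cast h1
  linarith

/-- entries of heavy colours -/
private theorem yN_le_heavy {T : I → Finset V} {δ : ℕ} (h : Dat T δ) (hm : 2 ≤ Fintype.card V) (i : I)
    (a b : V) : yN T δ i a b ≤ 1 / (1 - 1 / 10 ^ 34) * (1 / (Fintype.card V : ℝ)) := by
  have h2 := gg_nonneg T a b
  have h3 := delta_pos h
  have h4 : (2 : ℝ) ≤ (Fintype.card V : ℝ) := by exact_mod_cast hm
  have hmpos : (0 : ℝ) < (Fintype.card V : ℝ) := by linarith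
  have h5 : 0 < (δ : ℝ) * (Fintype.card V : ℝ) := mul_pos h3 (by linarith)
  have hc : (0 : ℝ) < 1 - 1 / 10 ^ 34 := by norm_num
  by_cases hab : a = b
  · rw [yN_zero (by simp [hab])]
    positivity
  · refine (yN_le h hm i hab).trans ?_
    have h6 : wt T i ≤ 1 := by
      unfold wt
      split_ifs <;> norm_num
    have h7 : (δ : ℝ) / ((δ : ℝ) * (Fintype.card V : ℝ) + gg T a b) ≤ 1 / (Fintype.card V : ℝ) := by
      rw [div_le_div_iff₀ (by linarith) hmpos]
      linarith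
    exact mul_le_mul (div_le_div_of_nonneg_right h6 hc.le) h7
      (div_nonneg h3.le (by linarith)) (by positivity)

/-- entries of light colours -/
private theorem yN_le_light {T : I → Finset V} {δ : ℕ} (h : Dat T δ) (hm : 2 ≤ Fintype.card V) {i : I}
    (hi : Light T i) {a b : V} (hab : a ≠ b) :
    yN T δ i a b ≤ (δ : ℝ) / ((δ : ℝ) * (Fintype.card V : ℝ) + gg T a b) := by
  refine (yN_le h hm i hab).trans (le_of_eq ?_)
  have hc : (1 - 1 / 10 ^ 34 : ℝ) ≠ 0 := by norm_num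
  rw [wt, if_pos hi, div_self hc, one_mul]

private theorem gg_le {T : I → Finset V} {δ : ℕ} (h : Dat T δ) (hm : 10 ≤ Fintype.card V) (a b : V) :
    (δ : ℝ) * (Fintype.card V : ℝ) + gg T a b ≤ 5 * (Fintype.card V : ℝ) ^ 2 := by
  have hmR : (10 : ℝ) ≤ (Fintype.card V : ℝ) := by exact_mod_cast hm
  have h1 : (δ : ℝ) ≤ (Fintype.card V : ℝ) + 3 := by exact_mod_cast h.hi
  have h2 : (cnt (fun i => a ∈ T i ∧ b ∈ T i) : ℝ) ≤ (Fintype.card V : ℝ) ^ 2 / 2 := by
    have h3 : cnt (fun i => a ∈ T i ∧ b ∈ T i) ≤ (Fintype.card V - 1).choose 2 := by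
      rw [← h.deg a]
      exact cnt_mono fun i hi => hi.1
    have h4 : (((Fintype.card V - 1).choose 2 : ℕ) : ℝ) =
        ((Fintype.card V : ℝ) - 1) * ((Fintype.card V : ℝ) - 1 - 1) / 2 := by
      rw [Nat.cast_choose_two, Nat.cast_sub (by omega)]
      norm_num
    have h5 : (cnt (fun i => a ∈ T i ∧ b ∈ T i) : ℝ) ≤ (((Fintype.card V - 1).choose 2 : ℕ) : ℝ) := by
      exact_mod_cast h3
    rw [h4] at h5
    nlinarith
  have h6 : (cnt (fun i => Heavy T i ∧ a ∉ T i ∧ b ∉ T i) : ℝ) ≤ 3 * (Fintype.card V : ℝ) ^ 2 := by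
    have h7 : (cnt (fun i => Heavy T i ∧ a ∉ T i ∧ b ∉ T i) : ℝ) ≤ Fintype.card I := by
      exact_mod_cast cnt_le_card _
    have h8 := (card_bounds h (by omega)).2
    nlinarith
  unfold gg
  nlinarith

private theorem sum_gg {T : I → Finset V} {δ : ℕ} (h : Dat T δ) (hm : 10 ≤ Fintype.card V) (hE : ¬ CaseE T)
    (a : V) : 1 / 10 ^ 40 / 2 * (Fintype.card V : ℝ) ^ 3 ≤ ∑ b, gg T a b := by
  classical
  set m : ℝ := (Fintype.card V : ℝ) with hmdef
  have hmR : (10 : ℝ) ≤ m := by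
    rw [hmdef]
    exact_mod_cast hm
  have hH : (1 / 2 + 1 / 10 ^ 6) * m ^ 2 ≤ (cnt (fun i => Heavy T i) : ℝ) := not_lt.1 hE
  have hsplit := cnt_split (fun i => Heavy T i) (fun i => a ∈ T i)
  have hsplit' : (cnt (fun i => Heavy T i) : ℝ) = (cnt (fun i => Heavy T i ∧ a ∈ T i) : ℝ) +
      (cnt (fun i => Heavy T i ∧ ¬ a ∈ T i) : ℝ) := by exact_mod_cast hsplit
  have hdecomp : ∑ b, gg T a b = ∑ b, (cnt (fun i => a ∈ T i ∧ b ∈ T i) : ℝ) +
      1 / 10 ^ 34 * ∑ b, (cnt (fun i => Heavy T i ∧ a ∉ T i ∧ b ∉ T i) : ℝ) := by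
    simp only [gg]
    rw [Finset.sum_add_distrib, Finset.mul_sum]
  have hnn1 : 0 ≤ ∑ b, (cnt (fun i => a ∈ T i ∧ b ∈ T i) : ℝ) :=
    Finset.sum_nonneg fun _ _ => Nat.cast_nonneg _
  have hnn2 : 0 ≤ ∑ b, (cnt (fun i => Heavy T i ∧ a ∉ T i ∧ b ∉ T i) : ℝ) :=
    Finset.sum_nonneg fun _ _ => Nat.cast_nonneg _
  rcases le_or_gt (1 / 10 ^ 6 / 2 * m ^ 2) (cnt (fun i => Heavy T i ∧ a ∈ T i) : ℝ) with h1 | h1
  · -- many heavy colours at `a`
    have e1 : ∑ b, cnt (fun i => a ∈ T i ∧ b ∈ T i) = ∑ i, cnt (fun b => a ∈ T i ∧ b ∈ T i) :=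
      cnt_comm fun b i => a ∈ T i ∧ b ∈ T i
    have e2 : ∑ b, (cnt (fun i => a ∈ T i ∧ b ∈ T i) : ℝ) =
        ∑ i, (cnt (fun b => a ∈ T i ∧ b ∈ T i) : ℝ) := by exact_mod_cast e1
    have e3 : (cnt (fun i => Heavy T i ∧ a ∈ T i) : ℝ) * (m / 10 ^ 10) ≤
        ∑ i, (cnt (fun b => a ∈ T i ∧ b ∈ T i) : ℝ) := by
      rw [cnt_coe, Finset.sum_mul]
      refine Finset.sum_le_sum fun i _ => ?_
      split_ifs with hi
      · have h2 : Fintype.card V < 10 ^ 10 * (T i).card := not_le.1 hi.1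
        have h3 : m < 10 ^ 10 * ((T i).card : ℝ) := by
          rw [hmdef]
          exact_mod_cast h2
        have h4 : cnt (fun b => a ∈ T i ∧ b ∈ T i) = (T i).card := by
          rw [← cnt_mem (T i)]
          exact cnt_congr fun b => ⟨fun hb => hb.2, fun hb => ⟨hi.2, hb⟩⟩
        rw [h4, one_mul]
        rw [div_le_iff₀ (by norm_num)]
        linarith
      · rw [zero_mul]
        exact Nat.cast_nonneg _
    have e4 : 1 / 10 ^ 6 / 2 * m ^ 2 * (m / 10 ^ 10) ≤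
        (cnt (fun i => Heavy T i ∧ a ∈ T i) : ℝ) * (m / 10 ^ 10) :=
      mul_le_mul_of_nonneg_right h1 (by positivity)
    have e5 : 1 / 10 ^ 40 / 2 * m ^ 3 ≤ 1 / 10 ^ 6 / 2 * m ^ 2 * (m / 10 ^ 10) := by
      have : 0 ≤ m ^ 3 := by positivity
      have e6 : 1 / 10 ^ 6 / 2 * m ^ 2 * (m / 10 ^ 10) = 1 / 10 ^ 16 / 2 * m ^ 3 := by ring
      rw [e6]
      exact mul_le_mul_of_nonneg_right (by norm_num) this
    rw [hdecomp, e2]
    have e7 : 0 ≤ 1 / 10 ^ 34 * ∑ b, (cnt (fun i => Heavy T i ∧ a ∉ T i ∧ b ∉ T i) : ℝ) :=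
      mul_nonneg (by norm_num) hnn2
    linarith
  · -- many heavy colours are free at `a`
    have h2 : (1 / 2 + 1 / 10 ^ 6 / 2) * m ^ 2 ≤ (cnt (fun i => Heavy T i ∧ ¬ a ∈ T i) : ℝ) := by
      linarith
    have e1 : ∑ b, cnt (fun i => Heavy T i ∧ a ∉ T i ∧ b ∉ T i) =
        ∑ i, cnt (fun b => Heavy T i ∧ a ∉ T i ∧ b ∉ T i) :=
      cnt_comm fun b i => Heavy T i ∧ a ∉ T i ∧ b ∉ T i
    have e2 : ∑ b, (cnt (fun i => Heavy T i ∧ a ∉ T i ∧ b ∉ T i) : ℝ) =
        ∑ i, (cnt (fun b => Heavy T i ∧ a ∉ T i ∧ b ∉ T i) : ℝ) := by exact_mod_cast e1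
    have e3 : (cnt (fun i => Heavy T i ∧ ¬ a ∈ T i) : ℝ) * m - ∑ i, ((T i).card : ℝ) ≤
        ∑ i, (cnt (fun b => Heavy T i ∧ a ∉ T i ∧ b ∉ T i) : ℝ) := by
      rw [cnt_coe, Finset.sum_mul, ← Finset.sum_sub_distrib]
      refine Finset.sum_le_sum fun i _ => ?_
      split_ifs with hi
      · have h4 : cnt (fun b => Heavy T i ∧ a ∉ T i ∧ b ∉ T i) = ((T i)ᶜ).card := by
          rw [← cnt_mem ((T i)ᶜ)]
          exact cnt_congr fun b => ⟨fun hb => Finset.mem_compl.2 hb.2.2,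
            fun hb => ⟨hi.1, hi.2, Finset.mem_compl.1 hb⟩⟩
        rw [h4, card_U, one_mul]
      · rw [zero_mul, zero_sub]
        have h5 : (0 : ℝ) ≤ ((T i).card : ℝ) := Nat.cast_nonneg _
        have h6 : (0 : ℝ) ≤ (cnt (fun b => Heavy T i ∧ a ∉ T i ∧ b ∉ T i) : ℝ) := Nat.cast_nonneg _
        linarith
    rw [sum_T h] at e3
    have e4 : (1 / 2 + 1 / 10 ^ 6 / 2) * m ^ 2 * m ≤ (cnt (fun i => Heavy T i ∧ ¬ a ∈ T i) : ℝ) * m :=
      mul_le_mul_of_nonneg_right h2 (by linarith)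
    have e5 : 1 / 10 ^ 6 / 2 * m ^ 3 ≤ ∑ i, (cnt (fun b => Heavy T i ∧ a ∉ T i ∧ b ∉ T i) : ℝ) := by
      rw [← hmdef] at e3
      nlinarith [mul_nonneg (by linarith : (0 : ℝ) ≤ m) (by linarith : (0 : ℝ) ≤ 3 * m - 2)]
    rw [hdecomp, e2]
    have e6 : 1 / 10 ^ 34 * (1 / 10 ^ 6 / 2 * m ^ 3) ≤
        1 / 10 ^ 34 * ∑ i, (cnt (fun b => Heavy T i ∧ a ∉ T i ∧ b ∉ T i) : ℝ) :=
      mul_le_mul_of_nonneg_left e5 (by norm_num)
    have e7 : 1 / 10 ^ 34 * (1 / 10 ^ 6 / 2 * m ^ 3) = 1 / 10 ^ 40 / 2 * m ^ 3 := by ring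
    linarith

end

theorem yN_wt : ∃ m₀ : ℕ, ∀ (V I : Type) [Fintype V] [DecidableEq V] [Fintype I] (T : I → Finset V) (δ : ℕ),
    m₀ ≤ Fintype.card V → Dat T δ → ¬ CaseE T → ∀ i, Wt ((T i)ᶜ) (yN T δ i) (1 / 10 ^ 42) := by
  refine ⟨10, ?_⟩
  intro V I _ _ _ T δ hm h hE i
  classical
  have hm2 : 2 ≤ Fintype.card V := by omega
  set m : ℝ := (Fintype.card V : ℝ) with hmdef
  have hmR : (10 : ℝ) ≤ m := by
    rw [hmdef]
    exact_mod_cast hm
  have hmpos : 0 < m := by linarith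
  have hδ := delta_pos h
  have hc : (0 : ℝ) < 1 - 1 / 10 ^ 34 := by norm_num
  refine ⟨yN_nonneg T δ i, ?_, ?_, ?_, ?_, ?_⟩
  · intro a b
    unfold yN
    rw [WW_symm T a b]
    have : (a ≠ b ∧ a ∉ T i ∧ b ∉ T i) ↔ (b ≠ a ∧ b ∉ T i ∧ a ∉ T i) :=
      ⟨fun hx => ⟨hx.1.symm, hx.2.2, hx.2.1⟩, fun hx => ⟨hx.1.symm, hx.2.2, hx.2.1⟩⟩
    simp only [this]
  · intro a
    exact yN_zero (by simp)
  · intro a b ha
    refine yN_zero fun hx => ha ?_
    exact Finset.mem_compl.2 hx.2.1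
  · -- entries
    intro a b
    by_cases hi : Light T i
    · by_cases hab : a = b
      · rw [yN_zero (by simp [hab])]
        norm_num
      · have h1 := yN_le_light h hm2 hi hab
        have h2 := gg_nonneg T a b
        have h5 : 0 < (δ : ℝ) * m := mul_pos hδ hmpos
        have h7 : (δ : ℝ) / ((δ : ℝ) * m + gg T a b) ≤ 1 / m := by
          rw [div_le_div_iff₀ (by linarith) hmpos]
          linarith
        have h8 : (((T i)ᶜ).card : ℝ) ≤ m := by
          rw [card_U, ← hmdef]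
          have : (0 : ℝ) ≤ ((T i).card : ℝ) := Nat.cast_nonneg _
          linarith
        calc yN T δ i a b * (((T i)ᶜ).card : ℝ) ≤ 1 / m * m :=
              mul_le_mul (h1.trans h7) h8 (Nat.cast_nonneg _) (by positivity)
          _ = 1 := by field_simp
    · have h1 := yN_le_heavy h hm2 i a b
      have h2 := card_U_heavy (T := T) (i := i) hi
      calc yN T δ i a b * (((T i)ᶜ).card : ℝ) ≤
            (1 / (1 - 1 / 10 ^ 34) * (1 / m)) * ((1 - 1 / 10 ^ 10) * m) :=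
            mul_le_mul h1 h2 (Nat.cast_nonneg _) (by positivity)
        _ = (1 - 1 / 10 ^ 10) / (1 - 1 / 10 ^ 34) := by field_simp
        _ ≤ 1 := by norm_num
  · -- loads of vertices
    intro a
    by_cases hi : Light T i
    · by_cases ha : a ∈ T i
      · rw [Finset.sum_eq_zero fun b _ => yN_zero fun hx => hx.2.1 ha]
        norm_num
      · have hterm : ∀ b, yN T δ i a b ≤ 1 / m - gg T a b / (5 * m ^ 3) := by
          intro b
          have h2 := gg_nonneg T a b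
          have h3 := gg_le h hm a b
          rw [← hmdef] at h3
          have h5 : 0 < (δ : ℝ) * m := mul_pos hδ hmpos
          by_cases hab : a = b
          · rw [yN_zero (by simp [hab])]
            have h4 : gg T a b / (5 * m ^ 3) ≤ 1 / m := by
              rw [div_le_div_iff₀ (by positivity) hmpos]
              nlinarith
            linarith
          · refine (yN_le_light h hm2 hi hab).trans ?_
            rw [← hmdef]
            have h6 : (δ : ℝ) / ((δ : ℝ) * m + gg T a b) =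
                1 / m - gg T a b / (m * ((δ : ℝ) * m + gg T a b)) := by
              have : (δ : ℝ) * m + gg T a b ≠ 0 := by linarith
              field_simp
              ring
            rw [h6]
            have h7 : gg T a b / (5 * m ^ 3) ≤ gg T a b / (m * ((δ : ℝ) * m + gg T a b)) := by
              refine div_le_div_of_nonneg_left h2 (mul_pos hmpos (by linarith)) ?_
              nlinarith
            linarith
        have h1 : ∑ b, yN T δ i a b ≤ ∑ b, (1 / m - gg T a b / (5 * m ^ 3)) :=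
          Finset.sum_le_sum fun b _ => hterm b
        rw [Finset.sum_sub_distrib, Finset.sum_const, Finset.card_univ, nsmul_eq_mul, ← hmdef,
          ← Finset.sum_div] at h1
        have h2 := sum_gg h hm hE a
        rw [← hmdef] at h2
        have h3 : 1 / 10 ^ 40 / 2 / 5 ≤ (∑ b, gg T a b) / (5 * m ^ 3) := by
          rw [le_div_iff₀ (by positivity)]
          linarith
        have h4 : m * (1 / m) = 1 := by field_simp
        rw [h4] at h1
        have h5 : (1 / 10 ^ 42 : ℝ) ≤ 1 / 10 ^ 40 / 2 / 5 := by norm_num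
        linarith
    · have h1 := yN_le_heavy h hm2 i a
      have h2 := card_U_heavy (T := T) (i := i) hi
      rw [← hmdef] at h2
      have h3 : ∑ b, yN T δ i a b ≤ ∑ b, if b ∈ (T i)ᶜ then 1 / (1 - 1 / 10 ^ 34) * (1 / m) else 0 := by
        refine Finset.sum_le_sum fun b _ => ?_
        split_ifs with hb
        · exact h1 b
        · rw [yN_zero fun hx => hb (Finset.mem_compl.2 hx.2.2)]
      rw [← Finset.sum_filter, Finset.sum_const, nsmul_eq_mul] at h3
      have h4 : (Finset.univ.filter fun b => b ∈ (T i)ᶜ) = (T i)ᶜ := by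
        ext b
        simp
      rw [h4] at h3
      refine h3.trans ?_
      calc (((T i)ᶜ).card : ℝ) * (1 / (1 - 1 / 10 ^ 34) * (1 / m)) ≤
            ((1 - 1 / 10 ^ 10) * m) * (1 / (1 - 1 / 10 ^ 34) * (1 / m)) :=
            mul_le_mul_of_nonneg_right h2 (by positivity)
        _ = (1 - 1 / 10 ^ 10) / (1 - 1 / 10 ^ 34) := by field_simp
        _ ≤ 1 - 1 / 10 ^ 42 := by norm_num

theorem yN_load {V I : Type} [Fintype V] [DecidableEq V] [Fintype I] (T : I → Finset V) (δ : ℕ) (h : Dat T δ)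
    (hm : 2 ≤ Fintype.card V) (a b : V) (hab : a ≠ b) : ∑ i, yN T δ i a b = δ := by
  classical
  have hW := WW_pos h hm hab
  have h1 : ∀ i, yN T δ i a b = (δ : ℝ) / WW T a b * (if a ∉ T i ∧ b ∉ T i then wt T i else 0) := by
    intro i
    unfold yN
    by_cases hx : a ∉ T i ∧ b ∉ T i
    · rw [if_pos ⟨hab, hx⟩, if_pos hx]
      ring
    · rw [if_neg fun hy => hx hy.2, if_neg hx, mul_zero]
  rw [Finset.sum_congr rfl fun i _ => h1 i, ← Finset.mul_sum]
  have h2 : (∑ i, if a ∉ T i ∧ b ∉ T i then wt T i else 0) = WW T a b := by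
    unfold WW
    refine Finset.sum_congr rfl fun i _ => ?_
    congr
  rw [h2]
  field_simp

end Pool.Agent.Work.MP_18db2a_co
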