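import Pool.Agent.Work.MP_18db2a_co.DefsE
import Pool.Agent.Work.MP_18db2a_co.Cnt

set_option autoImplicit false

/-!
# NSize (size M, uses the statement of Cnt): sizes of the fractional solution of case N

Let `m = card V`, `c' = 10^(-34)`, `γ = 10^(-10)`, `c = 10^(-6)`, `γ₁ = c γ / 2 = 5 * 10^(-17)`, `U = (T i)ᶜ`, `u = |U|`, `t = |T i| = m - u`, `l a b = cnt (a ∉ T j ∧ b ∉ T j)`.
`WW a b ≤ l a b`, `wt ≥ 1 - c'`, so `∑∑ yN ≥ (1 - c') S`, `S = ∑_{a ≠ b ∈ U} δ / l a b`, and `S ≤ u (u-1)/m ≤ m` (`l ≥ δ m`), hence `∑∑ yN ≥ S - c' m`.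
By `list_two` `l a b = L - d a b`, `L = δ (2 m + δ - 3)/2`, `d a b = cnt (b ∈ T j ∧ a ∉ T j)`, so `δ / l a b ≥ δ/L + (δ/L²) d a b`.
(1) `∑_{a ≠ b ∈ U} δ/L = 2 u (u-1)/(2 m + δ - 3)`, and with `δ = m + r`, `r ∈ {1,2,3}`,
`2 u (u-1)/(2 m + δ - 3) - (4 u - 2 δ)/3 = 2 [3 t² + (2 r - 3) t + 2 r m + r (r - 3)] / (3 (3 m + r - 3)) ≥ (2/3) t²/m`
(`(2 r - 3) t + 2 r m + r (r-3) ≥ 0` since `0 ≤ t ≤ m`; `3 m + r - 3 ≤ 3 m`).
(2) If `t ≥ γ₁ m`: `S ≥ (4 u - 2 δ)/3 + (2/3) γ₁² m`, and `(2/3) γ₁² - c' ≥ 10^(-33)`.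
(3) If `t < γ₁ m`: `∑_{a, b : V} d a b = ∑ j, |T j| (m - |T j|)` (double counting) `≥ ∑_{j heavy} γ m (m - |T j|) ≥ γ m (m (1/2 + c) m² - m³/2) = c γ m⁴` (`sum_T`);
the pairs not inside `U` contribute at most `2 t m * m²/2 ≤ γ₁ m⁴` (`d a b ≤ (m-1).choose 2 ≤ m²/2`).  So `∑_{a ≠ b ∈ U} d a b ≥ γ₁ m⁴`, and
`δ/L² = 4/(δ (2 m + δ - 3)²) ≥ 4/(2 m * 9 m²)`, so `S ≥ (4 u - 2 δ)/3 + (2/9) γ₁ m`, and `(2/9) γ₁ - c' ≥ 10^(-33)`.
-/

namespace Pool.Agent.Work.MP_18db2a_co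

open Finset

private theorem main_ineq (m t d : ℝ) (hm : 3 ≤ m) (ht0 : 0 ≤ t) (htm : t ≤ m)
    (hd : d = m + 1 ∨ d = m + 2 ∨ d = m + 3) :
    (4 * (m - t) - 2 * d) / 3 + 2 / 3 * t ^ 2 / m ≤ (m - t) * ((m - t) - 1) * (2 / (2 * m + d - 3)) := by
  have hm0 : 0 < m := by linarith
  have hq : 0 < 2 * m + d - 3 := by
    rcases hd with h | h | h <;> rw [h] <;> linarith
  have e1 : (4 * (m - t) - 2 * d) / 3 + 2 / 3 * t ^ 2 / m =
      ((4 * (m - t) - 2 * d) * (2 * m + d - 3) * m + 2 * t ^ 2 * (2 * m + d - 3)) / (3 * (2 * m + d - 3) * m) := by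
    have hq' := hq.ne'
    generalize 2 * m + d - 3 = q at hq'
    field_simp
  have e2 : (m - t) * ((m - t) - 1) * (2 / (2 * m + d - 3)) =
      (6 * (m - t) * ((m - t) - 1) * m) / (3 * (2 * m + d - 3) * m) := by
    field_simp
    ring
  rw [e1, e2]
  refine div_le_div_of_nonneg_right ?_ (by positivity)
  have h1 : 0 ≤ m * (m - t) := mul_nonneg hm0.le (by linarith)
  have h2 : 0 ≤ m * t := mul_nonneg hm0.le ht0
  rcases hd with h | h | h <;> rw [h] <;> nlinarith [sq_nonneg t, mul_nonneg hm0.le (show 0 ≤ m - 3 by linarith)]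

section

variable {V I : Type} [Fintype V] [DecidableEq V] [Fintype I] {T : I → Finset V} {δ : ℕ}

private theorem wt_le (T : I → Finset V) (i : I) : wt T i ≤ 1 := by
  unfold wt
  split_ifs <;> norm_num

private theorem wt_ge (T : I → Finset V) (i : I) : 1 - 1 / 10 ^ 34 ≤ wt T i := by
  unfold wt
  split_ifs <;> norm_num

private theorem WW_le (T : I → Finset V) (a b : V) : WW T a b ≤ cnt (fun i => a ∉ T i ∧ b ∉ T i) := by
  classical
  rw [cnt_coe, WW]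
  refine Finset.sum_le_sum fun i _ => ?_
  by_cases h : a ∉ T i ∧ b ∉ T i
  · rw [if_pos h, if_pos h]
    exact wt_le T i
  · rw [if_neg h, if_neg h]

private theorem WW_ge (T : I → Finset V) (a b : V) :
    (1 - 1 / 10 ^ 34) * cnt (fun i => a ∉ T i ∧ b ∉ T i) ≤ WW T a b := by
  classical
  rw [cnt_coe, WW, Finset.mul_sum]
  refine Finset.sum_le_sum fun i _ => ?_
  by_cases h : a ∉ T i ∧ b ∉ T i
  · rw [if_pos h, if_pos h, mul_one]
    exact wt_ge T i
  · rw [if_neg h, if_neg h, mul_zero]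

private theorem sum_mem_const (s : Finset V) (c : ℝ) : ∑ a, (if a ∈ s then c else 0) = s.card * c := by
  rw [← Finset.sum_filter, Finset.sum_const, nsmul_eq_mul]
  congr 3
  ext x
  simp

private theorem sum_notMem_const (s : Finset V) (c : ℝ) : ∑ a, (if a ∉ s then c else 0) = (sᶜ).card * c := by
  rw [← sum_mem_const sᶜ c]
  refine Finset.sum_congr rfl fun x _ => ?_
  simp only [mem_compl]

private theorem sum_pairs (s : Finset V) (c : ℝ) :
    ∑ a, ∑ b, (if a ≠ b ∧ a ∉ s ∧ b ∉ s then c else 0) = (sᶜ.card : ℝ) * ((sᶜ.card : ℝ) - 1) * c := by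
  have h1 : ∀ a b : V, (if a ≠ b ∧ a ∉ s ∧ b ∉ s then c else 0) =
      (if a ∉ s then (if b ∉ s then c else 0) else 0) - (if a = b then (if a ∉ s then c else 0) else 0) := by
    intro a b
    by_cases h : a = b
    · subst h
      by_cases h2 : a ∈ s <;> simp [h2]
    · by_cases h2 : a ∈ s <;> by_cases h3 : b ∈ s <;> simp [h, h2, h3]
  have h2 : ∀ a : V, ∑ b, (if a ≠ b ∧ a ∉ s ∧ b ∉ s then c else 0) =
      (if a ∉ s then (sᶜ.card : ℝ) * c - c else 0) := by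
    intro a
    rw [Finset.sum_congr rfl fun b _ => h1 a b, Finset.sum_sub_distrib, Finset.sum_ite_eq]
    by_cases h : a ∈ s
    · simp [h]
    · simp only [h, not_false_eq_true, if_true, mem_univ]
      rw [sum_notMem_const]
  rw [Finset.sum_congr rfl fun a _ => h2 a, sum_notMem_const]
  ring

private theorem d_sum (T : I → Finset V) : ∑ a, ∑ b, (cnt (fun j => b ∈ T j ∧ a ∉ T j) : ℝ) =
    ∑ j, ((Fintype.card V : ℝ) - (T j).card) * (T j).card := by
  have h1 : ∀ a b : V, (cnt (fun j => b ∈ T j ∧ a ∉ T j) : ℝ) =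
      ∑ j, (if a ∉ T j then (if b ∈ T j then (1 : ℝ) else 0) else 0) := by
    intro a b
    rw [cnt_coe]
    refine Finset.sum_congr rfl fun j _ => ?_
    by_cases h2 : a ∈ T j <;> by_cases h3 : b ∈ T j <;> simp [h2, h3]
  have h2 : ∀ a : V, ∑ b, (cnt (fun j => b ∈ T j ∧ a ∉ T j) : ℝ) =
      ∑ j, (if a ∉ T j then ((T j).card : ℝ) else 0) := by
    intro a
    rw [Finset.sum_congr rfl fun b _ => h1 a b, Finset.sum_comm]
    refine Finset.sum_congr rfl fun j _ => ?_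
    by_cases h : a ∈ T j
    · simp [h]
    · simp only [h, not_false_eq_true, if_true]
      rw [sum_mem_const, mul_one]
  rw [Finset.sum_congr rfl fun a _ => h2 a, Finset.sum_comm]
  refine Finset.sum_congr rfl fun j _ => ?_
  rw [sum_notMem_const]
  congr 1
  have : (T j)ᶜ.card + (T j).card = Fintype.card V := Finset.card_compl_add_card _
  have h3 : (((T j)ᶜ.card : ℕ) : ℝ) + (T j).card = Fintype.card V := by exact_mod_cast this
  linarith

private theorem d_sum_ge (h : Dat T δ) (hE : ¬ CaseE T) (hm : 3 ≤ Fintype.card V) :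
    1 / 10 ^ 16 * (Fintype.card V : ℝ) ^ 4 ≤ ∑ a, ∑ b, (cnt (fun j => b ∈ T j ∧ a ∉ T j) : ℝ) := by
  classical
  rw [d_sum]
  have hm' : (3 : ℝ) ≤ Fintype.card V := by exact_mod_cast hm
  unfold CaseE at hE
  rw [not_lt] at hE
  set m : ℝ := (Fintype.card V : ℝ) with hmdef
  have h1 : ∀ j, 1 / 10 ^ 10 * m * ((if Heavy T j then m else 0) - (T j).card) ≤ (m - (T j).card) * (T j).card := by
    intro j
    have h2 : ((T j).card : ℝ) ≤ m := by
      rw [hmdef]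
      exact_mod_cast Finset.card_le_univ _
    have h3 : (0 : ℝ) ≤ (T j).card := Nat.cast_nonneg _
    by_cases hj : Heavy T j
    · rw [if_pos hj]
      unfold Heavy Light at hj
      rw [not_le] at hj
      have hj' : m < 10 ^ 10 * ((T j).card : ℝ) := by
        rw [hmdef]
        exact_mod_cast hj
      have h4 : 1 / 10 ^ 10 * m ≤ (T j).card := by linarith
      nlinarith
    · rw [if_neg hj]
      have h4 : 0 ≤ (m - (T j).card) * ((T j).card : ℝ) := mul_nonneg (by linarith) h3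
      have h5 : 0 ≤ 1 / 10 ^ 10 * m * ((T j).card : ℝ) := by positivity
      linarith
  refine le_trans ?_ (Finset.sum_le_sum fun j _ => h1 j)
  rw [← Finset.mul_sum, Finset.sum_sub_distrib, sum_T h]
  have h6 : ∑ j, (if Heavy T j then m else 0) = m * cnt (fun j => Heavy T j) := by
    rw [cnt_coe, Finset.mul_sum]
    refine Finset.sum_congr rfl fun j _ => ?_
    by_cases hj : Heavy T j <;> simp [hj]
  rw [h6, ← hmdef]
  have h7 : 1 / 10 ^ 6 * m ^ 3 ≤ m * cnt (fun j => Heavy T j) - m * (m - 1) * (m - 2) / 2 := by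
    have h8 : m * ((1 / 2 + 1 / 10 ^ 6) * m ^ 2) ≤ m * cnt (fun j => Heavy T j) :=
      mul_le_mul_of_nonneg_left hE (by linarith)
    nlinarith
  have h9 : 1 / 10 ^ 10 * m * (1 / 10 ^ 6 * m ^ 3) ≤
      1 / 10 ^ 10 * m * (m * cnt (fun j => Heavy T j) - m * (m - 1) * (m - 2) / 2) :=
    mul_le_mul_of_nonneg_left h7 (by positivity)
  calc 1 / 10 ^ 16 * m ^ 4 = 1 / 10 ^ 10 * m * (1 / 10 ^ 6 * m ^ 3) := by ring
    _ ≤ _ := h9

private theorem d_le (h : Dat T δ) (hm : 3 ≤ Fintype.card V) (a b : V) :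
    (cnt (fun j => b ∈ T j ∧ a ∉ T j) : ℝ) ≤ (Fintype.card V : ℝ) ^ 2 / 2 := by
  have h1 : cnt (fun j => b ∈ T j ∧ a ∉ T j) ≤ (Fintype.card V - 1).choose 2 := by
    rw [← h.deg b]
    exact cnt_mono fun j hj => hj.1
  have h2 : (cnt (fun j => b ∈ T j ∧ a ∉ T j) : ℝ) ≤ ((Fintype.card V - 1).choose 2 : ℕ) := by exact_mod_cast h1
  rw [Nat.cast_choose_two, Nat.cast_sub (by omega)] at h2
  have hm' : (3 : ℝ) ≤ Fintype.card V := by exact_mod_cast hm
  push_cast at h2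
  nlinarith

private theorem d_inside (h : Dat T δ) (hE : ¬ CaseE T) (hm : 3 ≤ Fintype.card V) (s : Finset V) :
    1 / 10 ^ 16 * (Fintype.card V : ℝ) ^ 4 - s.card * (Fintype.card V : ℝ) ^ 3 ≤
      ∑ a, ∑ b, (if a ≠ b ∧ a ∉ s ∧ b ∉ s then (cnt (fun j => b ∈ T j ∧ a ∉ T j) : ℝ) else 0) := by
  have h1 := d_sum_ge h hE hm
  have h2 : ∀ a b : V, (cnt (fun j => b ∈ T j ∧ a ∉ T j) : ℝ) ≤
      (if a ≠ b ∧ a ∉ s ∧ b ∉ s then (cnt (fun j => b ∈ T j ∧ a ∉ T j) : ℝ) else 0) +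
      ((if a ∈ s then (Fintype.card V : ℝ) ^ 2 / 2 else 0) + (if b ∈ s then (Fintype.card V : ℝ) ^ 2 / 2 else 0)) := by
    intro a b
    have h3 := d_le h hm a b
    have h0 : (0 : ℝ) ≤ (Fintype.card V : ℝ) ^ 2 / 2 := by positivity
    by_cases hab : a = b
    · subst hab
      have : cnt (fun j => a ∈ T j ∧ a ∉ T j) = 0 := cnt_eq_zero fun j hj => hj.2 hj.1
      rw [this]
      split_ifs <;> push_cast <;> linarith
    · by_cases ha : a ∈ s <;> by_cases hb : b ∈ s <;> simp only [hab, ha, hb, ne_eq, not_false_eq_true, not_true_eq_false,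
        and_true, and_false, true_and, false_and, if_true, if_false] <;> linarith
  have h3 : ∑ a, ∑ b, (cnt (fun j => b ∈ T j ∧ a ∉ T j) : ℝ) ≤
      ∑ a, ∑ b, (if a ≠ b ∧ a ∉ s ∧ b ∉ s then (cnt (fun j => b ∈ T j ∧ a ∉ T j) : ℝ) else 0) +
      (∑ a : V, ∑ b : V, (if a ∈ s then (Fintype.card V : ℝ) ^ 2 / 2 else 0) +
        ∑ a : V, ∑ b : V, (if b ∈ s then (Fintype.card V : ℝ) ^ 2 / 2 else 0)) := by
    rw [← Finset.sum_add_distrib, ← Finset.sum_add_distrib]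
    refine Finset.sum_le_sum fun a _ => ?_
    rw [← Finset.sum_add_distrib, ← Finset.sum_add_distrib]
    exact Finset.sum_le_sum fun b _ => h2 a b
  have h4 : ∑ a : V, ∑ b : V, (if b ∈ s then (Fintype.card V : ℝ) ^ 2 / 2 else 0) =
      Fintype.card V * (s.card * ((Fintype.card V : ℝ) ^ 2 / 2)) := by
    rw [Finset.sum_congr rfl fun a _ => sum_mem_const s _, Finset.sum_const, nsmul_eq_mul, Finset.card_univ]
  have h5 : ∑ a : V, ∑ b : V, (if a ∈ s then (Fintype.card V : ℝ) ^ 2 / 2 else 0) =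
      Fintype.card V * (s.card * ((Fintype.card V : ℝ) ^ 2 / 2)) := by
    rw [Finset.sum_comm]
    exact h4
  rw [h4, h5] at h3
  linarith

end

theorem yN_size : ∃ m₀ : ℕ, ∀ (V I : Type) [Fintype V] [DecidableEq V] [Fintype I] (T : I → Finset V) (δ : ℕ),
    m₀ ≤ Fintype.card V → Dat T δ → ¬ CaseE T → ∀ i,
      (4 * (((T i)ᶜ).card : ℝ) - 2 * δ) / 3 + 1 / 10 ^ 33 * (Fintype.card V : ℝ) ≤ ∑ a, ∑ b, yN T δ i a b := by
  refine ⟨3, ?_⟩
  intro V I _ _ _ T δ hm h hE i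
  classical
  have hm' : (3 : ℝ) ≤ Fintype.card V := by exact_mod_cast hm
  have hδ : (δ : ℝ) = Fintype.card V + 1 ∨ (δ : ℝ) = Fintype.card V + 2 ∨ (δ : ℝ) = Fintype.card V + 3 := by
    have h1 := h.lo
    have h2 := h.hi
    have h3 : δ = Fintype.card V + 1 ∨ δ = Fintype.card V + 2 ∨ δ = Fintype.card V + 3 := by omega
    rcases h3 with h3 | h3 | h3
    · left
      exact_mod_cast h3
    · right
      left
      exact_mod_cast h3
    · right
      right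
      exact_mod_cast h3
  have hcard : (((T i)ᶜ.card : ℕ) : ℝ) = Fintype.card V - (T i).card := by
    have : (T i)ᶜ.card + (T i).card = Fintype.card V := Finset.card_compl_add_card _
    have h3 : (((T i)ᶜ.card : ℕ) : ℝ) + (T i).card = Fintype.card V := by exact_mod_cast this
    linarith
  have hin := d_inside h hE hm (T i)
  have htm : ((T i).card : ℝ) ≤ Fintype.card V := by exact_mod_cast Finset.card_le_univ _
  have ht0 : (0 : ℝ) ≤ (T i).card := Nat.cast_nonneg _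
  have hmain := main_ineq (Fintype.card V) (T i).card δ hm' ht0 htm hδ
  have hdn : ∀ a b : V, (0 : ℝ) ≤ cnt (fun j => b ∈ T j ∧ a ∉ T j) := fun a b => Nat.cast_nonneg _
  set m : ℝ := (Fintype.card V : ℝ) with hmdef
  have hm0 : 0 < m := by linarith
  have hδ0 : (0 : ℝ) < δ := by rcases hδ with h | h | h <;> rw [h] <;> linarith
  have hδm : (δ : ℝ) ≤ 2 * m := by rcases hδ with h | h | h <;> rw [h] <;> linarith
  have hq0 : 0 < 2 * m + δ - 3 := by rcases hδ with h | h | h <;> rw [h] <;> linarith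
  have hq1 : 2 * m + δ - 3 ≤ 3 * m := by rcases hδ with h | h | h <;> rw [h] <;> linarith
  set L : ℝ := (δ : ℝ) * (2 * m + δ - 3) / 2 with hL
  have hL0 : 0 < L := by positivity
  -- pointwise
  have hpt : ∀ a b, (if a ≠ b ∧ a ∉ T i ∧ b ∉ T i then (δ / L - 1 / 10 ^ 34 / m : ℝ) else 0) +
      δ / L ^ 2 * (if a ≠ b ∧ a ∉ T i ∧ b ∉ T i then (cnt (fun j => b ∈ T j ∧ a ∉ T j) : ℝ) else 0) ≤
      yN T δ i a b := by
    intro a b
    by_cases hab : a ≠ b ∧ a ∉ T i ∧ b ∉ T i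
    · have h1 : yN T δ i a b = δ * wt T i / WW T a b := by
        unfold yN
        rw [if_pos hab]
      rw [if_pos hab, if_pos hab, h1]
      have h2 := list_ge h (by omega) a b hab.1
      have h2' : (δ : ℝ) * m + cnt (fun j => a ∈ T j ∧ b ∈ T j) ≤ cnt (fun j => a ∉ T j ∧ b ∉ T j) := by
        rw [hmdef]
        exact_mod_cast h2
      have h3 := list_two h a b
      have h4 := WW_le T a b
      have h5 := WW_ge T a b
      rw [← hmdef, ← hL] at h3
      set l : ℝ := (cnt (fun j => a ∉ T j ∧ b ∉ T j) : ℝ) with hl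
      set d : ℝ := (cnt (fun j => b ∈ T j ∧ a ∉ T j) : ℝ) with hd
      have hc0 : (0 : ℝ) ≤ cnt (fun j => a ∈ T j ∧ b ∈ T j) := Nat.cast_nonneg _
      have hlm : δ * m ≤ l := by linarith
      have hl0 : 0 < l := lt_of_lt_of_le (by positivity) hlm
      have hW0 : 0 < WW T a b := lt_of_lt_of_le (by positivity) h5
      have hd0 : 0 ≤ d := hdn a b
      have h6 : (δ : ℝ) * (1 - 1 / 10 ^ 34) / l ≤ δ * wt T i / WW T a b := by
        have h7 : (δ : ℝ) * (1 - 1 / 10 ^ 34) ≤ δ * wt T i :=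
          mul_le_mul_of_nonneg_left (wt_ge T i) hδ0.le
        exact div_le_div₀ (le_trans (by positivity) h7) h7 hW0 h4
      have h8 : (δ : ℝ) / l ≤ 1 / m := by
        rw [div_le_div_iff₀ hl0 hm0]
        linarith
      have h9 : (δ : ℝ) / L + δ / L ^ 2 * d ≤ δ / l := by
        have e1 : (δ : ℝ) / L + δ / L ^ 2 * d = δ * (L + d) / L ^ 2 := by
          field_simp
        rw [e1, div_le_div_iff₀ (by positivity) hl0, h3]
        have : (L + d) * (L - d) ≤ L ^ 2 := by nlinarith [sq_nonneg d]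
        calc (δ : ℝ) * (L + d) * (L - d) = δ * ((L + d) * (L - d)) := by ring
          _ ≤ δ * L ^ 2 := mul_le_mul_of_nonneg_left this hδ0.le
      have h10 : (δ : ℝ) * (1 - 1 / 10 ^ 34) / l = δ / l - 1 / 10 ^ 34 * (δ / l) := by ring
      have h11 : 1 / 10 ^ 34 * ((δ : ℝ) / l) ≤ 1 / 10 ^ 34 * (1 / m) :=
        mul_le_mul_of_nonneg_left h8 (by norm_num)
      have h12 : (1 : ℝ) / 10 ^ 34 * (1 / m) = 1 / 10 ^ 34 / m := by ring
      linarith
    · have h1 : yN T δ i a b = 0 := by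
        unfold yN
        rw [if_neg hab]
      rw [if_neg hab, if_neg hab, h1]
      simp
  have hsum : (((T i)ᶜ.card : ℕ) : ℝ) * (((T i)ᶜ.card : ℕ) - 1) * (δ / L - 1 / 10 ^ 34 / m) +
      δ / L ^ 2 * (∑ a, ∑ b, if a ≠ b ∧ a ∉ T i ∧ b ∉ T i then (cnt (fun j => b ∈ T j ∧ a ∉ T j) : ℝ) else 0) ≤
      ∑ a, ∑ b, yN T δ i a b := by
    rw [← sum_pairs, Finset.mul_sum, ← Finset.sum_add_distrib]
    refine Finset.sum_le_sum fun a _ => ?_
    rw [Finset.mul_sum, ← Finset.sum_add_distrib]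
    exact Finset.sum_le_sum fun b _ => hpt a b
  refine le_trans ?_ hsum
  rw [hcard]
  set t : ℝ := ((T i).card : ℝ) with ht
  set S : ℝ := ∑ a, ∑ b, (if a ≠ b ∧ a ∉ T i ∧ b ∉ T i then (cnt (fun j => b ∈ T j ∧ a ∉ T j) : ℝ) else 0) with hS
  have hS0 : 0 ≤ S := Finset.sum_nonneg fun a _ => Finset.sum_nonneg fun b _ => by
    split_ifs
    · exact hdn a b
    · exact le_rfl
  have e1 : (δ : ℝ) / L = 2 / (2 * m + δ - 3) := by
    rw [hL]
    field_simp
  have h1 : (m - t) * (m - t - 1) * (1 / 10 ^ 34 / m) ≤ 1 / 10 ^ 34 * m := by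
    have h2 : (m - t) * (m - t - 1) ≤ m ^ 2 := by nlinarith
    have h3 : (m - t) * (m - t - 1) * (1 / 10 ^ 34 / m) ≤ m ^ 2 * (1 / 10 ^ 34 / m) :=
      mul_le_mul_of_nonneg_right h2 (by positivity)
    refine h3.trans (le_of_eq ?_)
    field_simp
  have e2 : (m - t) * (m - t - 1) * (δ / L - 1 / 10 ^ 34 / m) =
      (m - t) * (m - t - 1) * (2 / (2 * m + δ - 3)) - (m - t) * (m - t - 1) * (1 / 10 ^ 34 / m) := by
    rw [e1]
    ring
  rw [e2]
  by_cases hcase : 5 / 10 ^ 17 * m ≤ t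
  · have h3 : 0 ≤ (δ : ℝ) / L ^ 2 * S := by positivity
    have h4 : 2 / 3 * (5 / 10 ^ 17) ^ 2 * m ≤ 2 / 3 * t ^ 2 / m := by
      rw [le_div_iff₀ hm0]
      have : (5 / 10 ^ 17 * m) ^ 2 ≤ t ^ 2 := pow_le_pow_left₀ (by positivity) hcase 2
      nlinarith
    linarith
  · rw [not_le] at hcase
    have h3 : 2 / 9 / m ^ 3 ≤ (δ : ℝ) / L ^ 2 := by
      have e3 : (δ : ℝ) / L ^ 2 = 4 / (δ * (2 * m + δ - 3) ^ 2) := by
        rw [hL]
        field_simp
        norm_num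
      rw [e3, div_div, div_le_div_iff₀ (by positivity) (by positivity)]
      have h4 : (2 * m + δ - 3) ^ 2 ≤ (3 * m) ^ 2 := pow_le_pow_left₀ hq0.le hq1 2
      have h5 : (δ : ℝ) * (2 * m + δ - 3) ^ 2 ≤ (2 * m) * (3 * m) ^ 2 := mul_le_mul hδm h4 (by positivity) (by positivity)
      nlinarith
    have h4 : 5 / 10 ^ 17 * m ^ 4 ≤ S := by
      have : t * m ^ 3 ≤ 5 / 10 ^ 17 * m * m ^ 3 := mul_le_mul_of_nonneg_right hcase.le (by positivity)
      nlinarith
    have h5 : 2 / 9 / m ^ 3 * (5 / 10 ^ 17 * m ^ 4) ≤ (δ : ℝ) / L ^ 2 * S :=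
      mul_le_mul h3 h4 (by positivity) (by positivity)
    have e4 : 2 / 9 / m ^ 3 * (5 / 10 ^ 17 * m ^ 4) = 2 / 9 * (5 / 10 ^ 17) * m := by
      field_simp
    have h6 : 0 ≤ 2 / 3 * t ^ 2 / m := by positivity
    rw [e4] at h5
    linarith

end Pool.Agent.Work.MP_18db2a_co
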