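import Pool.Agent.Work.MP_18db2a_co.RoundN
import Pool.Agent.Work.MP_18db2a_co.NCov
import Pool.Agent.Work.MP_18db2a_co.NSize

set_option autoImplicit false

/-!
# CaseN (size S-M, uses the statements of RoundN, NCov, NSize, Cnt): case N

`round_slack` with `τ = 10^(-42)`, `ω = 10^(-33)`, `U i = (T i)ᶜ`, `y = yN`, `b i = (4 |U i| - 2 δ)/3`.
`card I ≤ 2 m² + 3 m + 1 ≤ 3 m²` (`card_bounds`).
List condition: `cnt (a, b ∉ T i) ≥ δ m ≥ m²` (`list_ge`), and the `i` with `|U i| < m/10`, i.e. `|T i| > 9 m/10`, are at most `(5/9) m²` many by `sum_T`; so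
at least `(4/9) m²` remain.
-/

namespace Pool.Agent.Work.MP_18db2a_co

open Finset

theorem caseN : ∃ m₀ : ℕ, ∀ (V I : Type) [Fintype V] [DecidableEq V] [Fintype I] [DecidableEq I] (T : I → Finset V)
    (δ : ℕ), m₀ ≤ Fintype.card V → Dat T δ → ¬ CaseE T → ∃ F : I → V → V → Prop, Sol T δ F := by
  obtain ⟨m₁, h₁⟩ := round_slack (1 / 10 ^ 42) (1 / 10 ^ 33) (by norm_num) (by norm_num) (by norm_num)
  obtain ⟨m₂, h₂⟩ := yN_wt
  obtain ⟨m₃, h₃⟩ := yN_size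
  refine ⟨max m₁ (max m₂ (max m₃ 10)), ?_⟩
  intro V I _ _ _ _ T δ hm hD hE
  classical
  have hm₁ : m₁ ≤ Fintype.card V := (le_max_left _ _).trans hm
  have hm' : max m₂ (max m₃ 10) ≤ Fintype.card V := (le_max_right _ _).trans hm
  have hm₂ : m₂ ≤ Fintype.card V := (le_max_left _ _).trans hm'
  have hm'' : max m₃ 10 ≤ Fintype.card V := (le_max_right _ _).trans hm'
  have hm₃ : m₃ ≤ Fintype.card V := (le_max_left _ _).trans hm''
  have hm10 : 10 ≤ Fintype.card V := (le_max_right _ _).trans hm''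
  have hmR : (10 : ℝ) ≤ (Fintype.card V : ℝ) := by exact_mod_cast hm10
  have hlo : Fintype.card V ≤ δ := (Nat.le_succ _).trans hD.lo
  have hhi : δ ≤ 2 * Fintype.card V := by
    have := hD.hi
    omega
  have hI : Fintype.card I ≤ 3 * Fintype.card V ^ 2 := by
    have h1 := (card_bounds hD (by omega)).2
    have h2 : (Fintype.card I : ℝ) ≤ 3 * (Fintype.card V : ℝ) ^ 2 := by nlinarith
    exact_mod_cast h2
  have hlist : ∀ a b, a ≠ b → (Fintype.card V : ℝ) ^ 2 / 4 ≤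
      cnt (fun i => a ∈ (T i)ᶜ ∧ b ∈ (T i)ᶜ ∧ (Fintype.card V : ℝ) / 10 ≤ (((T i)ᶜ).card : ℝ)) := by
    intro a b hab
    set m : ℝ := (Fintype.card V : ℝ) with hmdef
    -- all colours free at `a` and `b`
    have hl := list_ge hD (by omega) a b hab
    have hδ : m ≤ (δ : ℝ) := by
      rw [hmdef]
      exact_mod_cast hlo
    have hl' : m ^ 2 ≤ (cnt (fun i => a ∉ T i ∧ b ∉ T i) : ℝ) := by
      have h1 : δ * Fintype.card V ≤ cnt (fun i => a ∉ T i ∧ b ∉ T i) := by omega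
      have h2 : (δ : ℝ) * m ≤ (cnt (fun i => a ∉ T i ∧ b ∉ T i) : ℝ) := by
        rw [hmdef]
        exact_mod_cast h1
      nlinarith
    -- few colours are almost full
    set k : ℕ := cnt (fun i : I => ¬ (m / 10 ≤ (((T i)ᶜ).card : ℝ))) with hk
    have hk1 : (k : ℝ) * (9 * m / 10) ≤ ∑ i, ((T i).card : ℝ) := by
      rw [hk, cnt_coe, Finset.sum_mul]
      refine Finset.sum_le_sum fun i _ => ?_
      by_cases hi : m / 10 ≤ (((T i)ᶜ).card : ℝ)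
      · rw [if_neg (not_not.mpr hi), zero_mul]
        positivity
      · rw [if_pos hi, one_mul]
        have h1 : (((T i)ᶜ).card : ℝ) = m - (T i).card := by
          rw [Finset.card_compl, Nat.cast_sub (Finset.card_le_univ _)]
        rw [h1] at hi
        linarith
    rw [sum_T hD] at hk1
    have hk2 : (k : ℝ) ≤ 5 / 9 * m ^ 2 := by
      have h1 : (k : ℝ) * (9 * m / 10) ≤ (5 / 9 * m ^ 2) * (9 * m / 10) := by
        refine hk1.trans ?_
        rw [← hmdef]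
        nlinarith [mul_nonneg (by linarith : (0 : ℝ) ≤ m) (by linarith : (0 : ℝ) ≤ 3 * m - 2)]
      exact le_of_mul_le_mul_right h1 (by positivity)
    have hsplit := cnt_split (fun i => a ∉ T i ∧ b ∉ T i) (fun i => m / 10 ≤ (((T i)ᶜ).card : ℝ))
    have h4 : cnt (fun i => (a ∉ T i ∧ b ∉ T i) ∧ ¬ (m / 10 ≤ (((T i)ᶜ).card : ℝ))) ≤ k :=
      cnt_mono fun i hi => hi.2
    have h5 : cnt (fun i => (a ∉ T i ∧ b ∉ T i) ∧ (m / 10 ≤ (((T i)ᶜ).card : ℝ))) =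
        cnt (fun i => a ∈ (T i)ᶜ ∧ b ∈ (T i)ᶜ ∧ m / 10 ≤ (((T i)ᶜ).card : ℝ)) :=
      cnt_congr fun i => by simp only [Finset.mem_compl, and_assoc]
    rw [h5] at hsplit
    have h6 : (cnt (fun i => a ∉ T i ∧ b ∉ T i) : ℝ) ≤
        (cnt (fun i => a ∈ (T i)ᶜ ∧ b ∈ (T i)ᶜ ∧ m / 10 ≤ (((T i)ᶜ).card : ℝ)) : ℝ) + k := by
      exact_mod_cast (by omega : cnt (fun i => a ∉ T i ∧ b ∉ T i) ≤
        cnt (fun i => a ∈ (T i)ᶜ ∧ b ∈ (T i)ᶜ ∧ m / 10 ≤ (((T i)ᶜ).card : ℝ)) + k)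
    nlinarith [sq_nonneg m]
  obtain ⟨F, hF1, hF2, hF3⟩ := h₁ V I (fun i => (T i)ᶜ) (yN T δ) δ
    (fun i => (4 * (((T i)ᶜ).card : ℝ) - 2 * δ) / 3) hm₁ hI hlo hhi (h₂ V I T δ hm₂ hD hE)
    (yN_load T δ hD (by omega)) (h₃ V I T δ hm₃ hD hE) hlist
  refine ⟨F, hF1, hF2, fun i => ?_⟩
  have h1 := hF3 i
  have h2 : 4 * (((T i)ᶜ).card : ℝ) ≤ 3 * (nv (F i) : ℝ) + 2 * δ := by linarith
  exact_mod_cast h2

end Pool.Agent.Work.MP_18db2a_co
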