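import Pool.Agent.Work.MP_18db2a_co.PiAv

set_option autoImplicit false

/-!
# Cher (size S-M, uses the statement of PiAv): Chernoff's inequality

Let `X ω = cnt (fun i => p i (ω i)) = ∑ i, if p i (ω i) then 1 else 0`, `q i = pr (p i)`, `μ = ∑ i, q i`.
Upper tail: `pr (μ + t ≤ X) ≤ av exp (l (X - μ - t))` (`pr_le_av`) `= exp (- l (μ + t)) ∏ i, av exp (l * 1[p i])` (`av_pi_prod`), and
`av exp (l * 1[p i]) = 1 + q i (exp l - 1) ≤ exp (q i (exp l - 1)) ≤ exp (q i (l + l²))` because `exp l ≤ 1 + l + l²` for `0 ≤ l ≤ 1`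
(`Real.abs_exp_sub_one_sub_id_le`).  Together `exp (- l t + l² μ)`.
Lower tail: the same with `- l` in place of `l`: `exp (- l) ≤ 1 - l + l²`.
-/

namespace Pool.Agent.Work.MP_18db2a_co

open Finset

variable {I : Type} [Fintype I] [DecidableEq I] {Ω : I → Type} [∀ i, Fintype (Ω i)] [∀ i, Nonempty (Ω i)]

private theorem av_exp_le {Ω' : Type} [Fintype Ω'] [Nonempty Ω'] (p : Ω' → Prop) (s : ℝ)
    (hs : |s| ≤ 1) [DecidablePred p] :
    av (fun x => Real.exp (s * if p x then 1 else 0)) ≤ Real.exp ((s + s ^ 2) * pr p) := by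
  have h1 : av (fun x => Real.exp (s * if p x then 1 else 0)) = 1 + (Real.exp s - 1) * pr p := by
    have h2 : (fun x => Real.exp (s * if p x then 1 else 0)) =
        fun x => 1 + (Real.exp s - 1) * (if p x then (1 : ℝ) else 0) := by
      funext x
      by_cases hx : p x <;> simp [hx]
    rw [h2, av_add, av_const, av_mul_left, pr_eq_av]
  have h3 := Real.abs_exp_sub_one_sub_id_le hs
  have h4 : Real.exp s - 1 ≤ s + s ^ 2 := by
    have := (abs_le.1 h3).2
    linarith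
  calc av (fun x => Real.exp (s * if p x then 1 else 0)) = (Real.exp s - 1) * pr p + 1 := by
        rw [h1]; ring
    _ ≤ Real.exp ((Real.exp s - 1) * pr p) := Real.add_one_le_exp _
    _ ≤ Real.exp ((s + s ^ 2) * pr p) :=
        Real.exp_le_exp.2 (mul_le_mul_of_nonneg_right h4 (pr_nonneg p))

private theorem av_exp_cnt (p : ∀ i, Ω i → Prop) (s : ℝ) (hs : |s| ≤ 1) :
    av (fun ω : (∀ i, Ω i) => Real.exp (s * (cnt (fun i => p i (ω i)) : ℝ))) ≤
      Real.exp ((s + s ^ 2) * ∑ i, pr (p i)) := by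
  classical
  have h1 : (fun ω : (∀ i, Ω i) => Real.exp (s * (cnt (fun i => p i (ω i)) : ℝ))) =
      fun ω : (∀ i, Ω i) => ∏ i, Real.exp (s * if p i (ω i) then 1 else 0) := by
    funext ω
    rw [← Real.exp_sum, ← Finset.mul_sum, cnt_coe]
  rw [h1, av_pi_prod fun i x => Real.exp (s * if p i x then 1 else 0), Finset.mul_sum, Real.exp_sum]
  exact Finset.prod_le_prod (fun i _ => av_nonneg fun x => (Real.exp_pos _).le)
    fun i _ => av_exp_le (p i) s hs

theorem chernoff_upper (p : ∀ i, Ω i → Prop) (l t : ℝ) (h0 : 0 ≤ l) (h1 : l ≤ 1) :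
    pr (fun ω : (∀ i, Ω i) => ∑ i, pr (p i) + t ≤ (cnt (fun i => p i (ω i)) : ℝ)) ≤
      Real.exp (- l * t + l ^ 2 * ∑ i, pr (p i)) := by
  set μ : ℝ := ∑ i, pr (p i) with hμ
  have h2 : pr (fun ω : (∀ i, Ω i) => μ + t ≤ (cnt (fun i => p i (ω i)) : ℝ)) ≤
      av (fun ω : (∀ i, Ω i) => Real.exp (-l * (μ + t)) *
        Real.exp (l * (cnt (fun i => p i (ω i)) : ℝ))) := by
    refine pr_le_av (fun ω => by positivity) fun ω hω => ?_
    rw [← Real.exp_add]
    refine Real.one_le_exp ?_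
    nlinarith [mul_le_mul_of_nonneg_left hω h0]
  refine h2.trans ?_
  rw [av_mul_left]
  refine (mul_le_mul_of_nonneg_left (av_exp_cnt p l (abs_le.2 ⟨by linarith, h1⟩))
    (Real.exp_pos _).le).trans (le_of_eq ?_)
  rw [← Real.exp_add]
  congr 1
  rw [← hμ]
  ring

theorem chernoff_lower (p : ∀ i, Ω i → Prop) (l t : ℝ) (h0 : 0 ≤ l) (h1 : l ≤ 1) :
    pr (fun ω : (∀ i, Ω i) => (cnt (fun i => p i (ω i)) : ℝ) ≤ ∑ i, pr (p i) - t) ≤
      Real.exp (- l * t + l ^ 2 * ∑ i, pr (p i)) := by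
  set μ : ℝ := ∑ i, pr (p i) with hμ
  have h2 : pr (fun ω : (∀ i, Ω i) => (cnt (fun i => p i (ω i)) : ℝ) ≤ μ - t) ≤
      av (fun ω : (∀ i, Ω i) => Real.exp (l * (μ - t)) *
        Real.exp (-l * (cnt (fun i => p i (ω i)) : ℝ))) := by
    refine pr_le_av (fun ω => by positivity) fun ω hω => ?_
    rw [← Real.exp_add]
    refine Real.one_le_exp ?_
    nlinarith [mul_le_mul_of_nonneg_left hω h0]
  refine h2.trans ?_
  rw [av_mul_left]
  refine (mul_le_mul_of_nonneg_left (av_exp_cnt p (-l) (abs_le.2 ⟨by linarith, by linarith⟩))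
    (Real.exp_pos _).le).trans (le_of_eq ?_)
  rw [← Real.exp_add]
  congr 1
  rw [← hμ]
  ring

end Pool.Agent.Work.MP_18db2a_co
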