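import Pool.Agent.Work.MP_18db2a_co.Greedy

set_option autoImplicit false

/-!
# Compl (size M, uses the statement of Greedy): completion of a system of matchings

Let `ι : V → ℕ` be injective (e.g. `fun v => (Fintype.equivFin V v : ℕ)`) and `E` the (finite) type of all `(a, b, c)` with `ι a < ι b` and `c < res a b`
(e.g. `Σ p : {p : V × V // ι p.1 < ι p.2}, Fin (res p.1.1 p.1.2)`), `e (a, b, c) = (a, b)`.  `card E ≤ ∑ a, ∑ b, res a b`, and the number of
members of `E` with `a = v` or `b = v` is `∑ b, res v b ≤ Δ` (symmetry).  `S (a, b, c)` = all `i` with `a, b ∈ U i` uncovered by `F i`.  `greedy` gives `col : E → I`.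
`F' i a b` iff `F i a b` or some `t : E` with `col t = i` has `e t = (a, b)` or `e t = (b, a)`.
* `IsMat`: two edges of `F' i` with a common vertex: both old; an old and a new one are disjoint since the ends of the new one are
  uncovered by `F i`; two new ones with a common vertex come from the same `t`.
* `ld F' a b = ld F a b + res a b` (`a ≠ b`): the `i` with `F' i a b` and not `F i a b` are the `col t` with `e t ∈ {(a, b), (b, a)}`, they are distinct for distinct
  `t`, and there are exactly `res a b` such `t` (for `ι a < ι b` those `(a, b, c)`, otherwise `(b, a, c)`).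
* a vertex which is covered by `F' i` and not by `F i` is an end of `e t` for one of the at most `K` indices `t` with `col t = i`.
-/

namespace Pool.Agent.Work.MP_18db2a_co

open Finset

private theorem compl_sig {V : Type} [Fintype V] [DecidableEq V] (w : V × V → ℕ)
    (P : V × V → Prop) [DecidablePred P] :
    cnt (fun t : (Σ p : V × V, Fin (w p)) => P t.1) = ∑ p, if P p then w p else 0 := by
  classical
  rw [cnt_eq_sum, Fintype.sum_sigma]
  refine Finset.sum_congr rfl fun p _ => ?_
  by_cases h : P p
  · simp [h]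
  · simp [h]

theorem complete {V I : Type} [Fintype V] [DecidableEq V] [Fintype I] [DecidableEq I] (U : I → Finset V)
    (F : I → V → V → Prop) (hF : ∀ i, IsMat (U i) (F i)) (res : V → V → ℕ) (hs : ∀ a b, res a b = res b a)
    (hd : ∀ a, res a a = 0) (Δ K : ℕ) (hK : 0 < K) (hΔ : ∀ a, ∑ b, res a b ≤ Δ)
    (hS : ∀ a b, 0 < res a b → 2 * Δ * K + ∑ a, ∑ b, res a b <
      cnt (fun i => a ∈ U i ∧ b ∈ U i ∧ Unc (F i) a ∧ Unc (F i) b) * K) :
    ∃ F' : I → V → V → Prop, (∀ i, IsMat (U i) (F' i)) ∧ (∀ i a b, F i a b → F' i a b) ∧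
      (∀ a b, a ≠ b → ld F' a b = ld F a b + res a b) ∧
      (∀ i, cnt (fun a => Unc (F i) a ∧ ¬ Unc (F' i) a) ≤ 2 * K) := by
  classical
  let ι := Fintype.equivFin V
  let w : V × V → ℕ := fun p => if ι p.1 < ι p.2 then res p.1 p.2 else 0
  have hw : ∀ p, w p = if ι p.1 < ι p.2 then res p.1 p.2 else 0 := fun p => rfl
  let E : Type := Σ p : V × V, Fin (w p)
  have hE : ∀ t : E, ι t.1.1 < ι t.1.2 ∧ 0 < res t.1.1 t.1.2 := by
    intro t
    have h1 : 0 < w t.1 := t.2.pos
    rw [hw] at h1
    by_cases h2 : ι t.1.1 < ι t.1.2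
    · rw [if_pos h2] at h1
      exact ⟨h2, h1⟩
    · rw [if_neg h2] at h1
      exact absurd h1 (lt_irrefl _)
  let S : E → Finset I := fun t => univ.filter fun i => t.1.1 ∈ U i ∧ t.1.2 ∈ U i ∧
    Unc (F i) t.1.1 ∧ Unc (F i) t.1.2
  have hcard : Fintype.card E ≤ ∑ a, ∑ b, res a b := by
    have h1 : Fintype.card E = ∑ p, w p := by
      rw [Fintype.card_sigma]
      exact Finset.sum_congr rfl fun p _ => Fintype.card_fin _
    rw [h1, ← Fintype.sum_prod_type' (f := fun a b => res a b)]
    refine Finset.sum_le_sum fun p _ => ?_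
    rw [hw]
    split_ifs
    · exact le_rfl
    · exact Nat.zero_le _
  obtain ⟨col, hc1, hc2, hc3⟩ := greedy (fun t : E => t.1) S Δ K hK (by
      intro v
      refine (cnt_or_le _ _).trans (le_trans ?_ (hΔ v))
      rw [compl_sig w (fun p => p.1 = v), compl_sig w (fun p => p.2 = v),
        Fintype.sum_prod_type, Fintype.sum_prod_type_right]
      have h1 : (∑ x, ∑ y, if ((x, y) : V × V).1 = v then w (x, y) else 0) = ∑ y, w (v, y) := by
        rw [Finset.sum_eq_single v]
        · simp
        · intro b _ hb
          exact Finset.sum_eq_zero fun y _ => if_neg hb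
        · intro h
          exact absurd (mem_univ _) h
      have h2 : (∑ y, ∑ x, if ((x, y) : V × V).2 = v then w (x, y) else 0) = ∑ x, w (x, v) := by
        rw [Finset.sum_eq_single v]
        · simp
        · intro b _ hb
          exact Finset.sum_eq_zero fun y _ => if_neg hb
        · intro h
          exact absurd (mem_univ _) h
      rw [h1, h2, ← Finset.sum_add_distrib]
      refine Finset.sum_le_sum fun b _ => ?_
      rw [hw, hw]
      show (if ι v < ι b then res v b else 0) + (if ι b < ι v then res b v else 0) ≤ res v b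
      rw [hs b v]
      rcases lt_trichotomy (ι v) (ι b) with h | h | h
      · rw [if_pos h, if_neg (lt_asymm h), add_zero]
      · rw [h, if_neg (lt_irrefl _)]
        exact Nat.zero_le _
      · rw [if_neg (lt_asymm h), if_pos h, zero_add]) (by
      intro t
      have h1 := hS _ _ (hE t).2
      have h2 : (S t).card = cnt (fun i => t.1.1 ∈ U i ∧ t.1.2 ∈ U i ∧ Unc (F i) t.1.1 ∧
        Unc (F i) t.1.2) := by rw [cnt_eq]
      rw [h2]
      exact lt_of_le_of_lt (Nat.add_le_add_left hcard _) h1)
  have hc1' : ∀ t, t.1.1 ∈ U (col t) ∧ t.1.2 ∈ U (col t) ∧ Unc (F (col t)) t.1.1 ∧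
      Unc (F (col t)) t.1.2 := fun t => (mem_filter.1 (hc1 t)).2
  let N : I → V → V → Prop := fun i a b => ∃ t : E, col t = i ∧ (t.1 = (a, b) ∨ t.1 = (b, a))
  have hNu : ∀ i a b, N i a b → a ∈ U i ∧ Unc (F i) a := by
    rintro i a b ⟨t, rfl, h | h⟩
    · have h1 := hc1' t
      rw [h] at h1
      exact ⟨h1.1, h1.2.2.1⟩
    · have h1 := hc1' t
      rw [h] at h1
      exact ⟨h1.2.1, h1.2.2.2⟩
  have hne : ∀ t : E, t.1.1 ≠ t.1.2 := by
    intro t h
    have h1 := (hE t).1
    rw [h] at h1
    exact lt_irrefl _ h1
  have hN : ∀ i, IsMat (U i) (N i) := by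
    intro i
    refine ⟨?_, ?_, ?_, fun x y h => (hNu i x y h).1⟩
    · rintro x y ⟨t, h1, h2⟩
      exact ⟨t, h1, h2.symm⟩
    · rintro x ⟨t, -, h2⟩
      have h3 : t.1 = (x, x) := h2.elim id id
      apply hne t
      rw [h3]
    · rintro x y z ⟨t, h1, h2⟩ ⟨t', h1', h2'⟩
      have htt : t = t' := by
        by_contra hne'
        refine hc2 t t' hne' ?_ (h1.trans h1'.symm)
        rcases h2 with h2 | h2 <;> rcases h2' with h2' | h2' <;> rw [h2, h2']
        · exact Or.inl rfl
        · exact Or.inr (Or.inl rfl)
        · exact Or.inr (Or.inr (Or.inl rfl))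
        · exact Or.inr (Or.inr (Or.inr rfl))
      subst htt
      rcases h2 with h2 | h2 <;> rcases h2' with h2' | h2' <;> rw [h2] at h2' <;>
        simp only [Prod.mk.injEq] at h2'
      · exact h2'.2
      · rw [h2'.2, h2'.1]
      · rw [h2'.1, h2'.2]
      · exact h2'.1
  refine ⟨fun i a b => F i a b ∨ N i a b, fun i => (hF i).or (hN i) fun x y z h1 h2 =>
    (hNu i x z h2).2 y h1, fun i a b h => Or.inl h, ?_, ?_⟩
  · intro a b hab
    have h1 := cnt_or_add_and (fun i => F i a b) (fun i => N i a b)
    have h2 : cnt (fun i => F i a b ∧ N i a b) = 0 :=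
      cnt_eq_zero fun i h => (hNu i a b h.2).2 b h.1
    have h3 : cnt (fun i => N i a b) = res a b := by
      have h4 : cnt (fun t : E => t.1 = (a, b) ∨ t.1 = (b, a)) = res a b := by
        rw [compl_sig w (fun p => p = (a, b) ∨ p = (b, a))]
        have h5 : ∀ p : V × V, (if p = (a, b) ∨ p = (b, a) then w p else 0) =
            (if p = (a, b) then w p else 0) + (if p = (b, a) then w p else 0) := by
          intro p
          by_cases h6 : p = (a, b)
          · have h7 : p ≠ (b, a) := by
              rw [h6]
              intro h8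
              exact hab (Prod.mk.inj h8).1
            rw [if_pos (Or.inl h6), if_pos h6, if_neg h7, add_zero]
          · by_cases h7 : p = (b, a)
            · rw [if_pos (Or.inr h7), if_neg h6, if_pos h7, zero_add]
            · rw [if_neg (fun h => h.elim h6 h7), if_neg h6, if_neg h7]
        simp only [h5]
        rw [Finset.sum_add_distrib, Finset.sum_ite_eq' univ, Finset.sum_ite_eq' univ,
          if_pos (mem_univ _), if_pos (mem_univ _)]
        show (if ι a < ι b then res a b else 0) + (if ι b < ι a then res b a else 0) = res a b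
        rw [hs b a]
        rcases lt_trichotomy (ι a) (ι b) with h | h | h
        · rw [if_pos h, if_neg (lt_asymm h), add_zero]
        · exact absurd (ι.injective h) hab
        · rw [if_neg (lt_asymm h), if_pos h, zero_add]
      rw [← h4, cnt_eq, cnt_eq]
      have h5 : (univ.filter fun i => N i a b) =
          (univ.filter fun t : E => t.1 = (a, b) ∨ t.1 = (b, a)).image col := by
        ext i
        simp only [mem_filter, mem_univ, true_and, mem_image]
        exact ⟨fun ⟨t, h6, h7⟩ => ⟨t, h7, h6⟩, fun ⟨t, h7, h6⟩ => ⟨t, h6, h7⟩⟩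
      rw [h5]
      refine Finset.card_image_of_injOn fun t ht t' ht' htt => ?_
      have h6 : t.1 = (a, b) ∨ t.1 = (b, a) := (mem_filter.1 ht).2
      have h7 : t'.1 = (a, b) ∨ t'.1 = (b, a) := (mem_filter.1 ht').2
      by_contra hne'
      refine hc2 t t' hne' ?_ htt
      rcases h6 with h6 | h6 <;> rcases h7 with h7 | h7 <;> rw [h6, h7]
      · exact Or.inl rfl
      · exact Or.inr (Or.inl rfl)
      · exact Or.inr (Or.inl rfl)
      · exact Or.inl rfl
    rw [h2, add_zero, h3] at h1
    exact h1
  · intro i
    have h1 : cnt (fun a => Unc (F i) a ∧ ¬ Unc (fun a b => F i a b ∨ N i a b) a) ≤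
        ((univ.filter fun t : E => col t = i).image fun t => t.1.1).card +
          ((univ.filter fun t : E => col t = i).image fun t => t.1.2).card := by
      rw [cnt_eq]
      refine le_trans (Finset.card_le_card ?_) (Finset.card_union_le _ _)
      intro a ha
      have h2 := (mem_filter.1 ha).2
      have h3 : ∃ b, F i a b ∨ N i a b := by
        by_contra h4
        exact h2.2 fun b hb => h4 ⟨b, hb⟩
      obtain ⟨b, hb | ⟨t, ht, h5 | h5⟩⟩ := h3
      · exact absurd hb (h2.1 b)
      · rw [mem_union, mem_image]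
        left
        exact ⟨t, mem_filter.2 ⟨mem_univ _, ht⟩, by rw [h5]⟩
      · rw [mem_union, mem_image, mem_image]
        right
        exact ⟨t, mem_filter.2 ⟨mem_univ _, ht⟩, by rw [h5]⟩
    have h2 : (univ.filter fun t : E => col t = i).card ≤ K := by
      rw [← cnt_eq]
      exact hc3 i
    have h3 := Finset.card_image_le (s := univ.filter fun t : E => col t = i) (f := fun t => t.1.1)
    have h4 := Finset.card_image_le (s := univ.filter fun t : E => col t = i) (f := fun t => t.1.2)
    refine h1.trans ?_
    omega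

end Pool.Agent.Work.MP_18db2a_co
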