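import Pool.Agent.Work.MP_18db2a_co.DStep

set_option autoImplicit false

/-!
# DEnd (size S-M, uses the statement of DStep): iteration and the final colouring

`st_iter`: induction on `n - N` with `st_step`.
`st_end`: `St n n π`.  For `e : Finset (Fin n)` with three members, `e.map Fin.valEmbedding ⊆ range n` is a part of exactly one `π i` (`three`, `cnt = 1`); let `c' e` be this `i` (for
other `e` any colour; `I` is nonempty if such an `e` exists, otherwise take `c' ∅`... e.g. use `if h : ∃ i, ... then h.choose else i₀` with `i₀ : I`).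
If `c' e = c' f = i` and `e ≠ f` then the images are distinct parts of `π i`, hence disjoint (`disj`), hence `e`, `f` are disjoint.
-/

namespace Pool.Agent.Work.MP_18db2a_co

open Finset

theorem st_iter {I : Type} [Fintype I] [DecidableEq I] (n : ℕ) (hI : Fintype.card I = (n - 1).choose 2)
    (h3 : 3 ∣ n) (N : ℕ) (hN : N ≤ n) (π : I → Finset (Finset ℕ)) (h : St n N π) :
    ∃ π' : I → Finset (Finset ℕ), St n n π' ∧ ∀ i, ∀ A ∈ π i, A.card = 3 → A ∈ π' i := by
  obtain ⟨k, hk⟩ : ∃ k, n - N = k := ⟨_, rfl⟩
  induction k generalizing N π with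
  | zero =>
    have : N = n := by omega
    subst this
    exact ⟨π, h, fun i A hA _ => hA⟩
  | succ k ih =>
    obtain ⟨π1, h1, h2⟩ := st_step n N hI h3 (by omega) π h
    obtain ⟨π2, h3', h4⟩ := ih (N + 1) (by omega) π1 h1 (by omega)
    exact ⟨π2, h3', fun i A hA hc => h4 i A (h2 i A hA hc) hc⟩

theorem st_end {I : Type} [Fintype I] [DecidableEq I] (n : ℕ) (i₀ : I) (π : I → Finset (Finset ℕ))
    (h : St n n π) :
    ∃ c' : Finset (Fin n) → I, Proper3 c' ∧
      ∀ e : Finset (Fin n), e.card = 3 → ∀ i, e.map Fin.valEmbedding ∈ π i → c' e = i := by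
  classical
  have hsub : ∀ e : Finset (Fin n), e.map Fin.valEmbedding ⊆ range n := by
    intro e x hx
    rw [mem_map] at hx
    obtain ⟨y, _, hy⟩ := hx
    rw [← hy]
    exact mem_range.2 y.2
  have hone : ∀ e : Finset (Fin n), e.card = 3 →
      cnt (fun i => e.map Fin.valEmbedding ∈ π i) = 1 := by
    intro e he
    exact h.three _ (hsub e) (by rw [card_map]; exact he)
  have huniq : ∀ e : Finset (Fin n), e.card = 3 → ∀ i j, e.map Fin.valEmbedding ∈ π i →
      e.map Fin.valEmbedding ∈ π j → i = j := by
    intro e he i j hi hj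
    have h1 := hone e he
    rw [cnt_eq, Finset.card_eq_one] at h1
    obtain ⟨a, ha⟩ := h1
    have h2 : i ∈ ({a} : Finset I) := by
      rw [← ha]; exact mem_filter.2 ⟨mem_univ _, hi⟩
    have h3 : j ∈ ({a} : Finset I) := by
      rw [← ha]; exact mem_filter.2 ⟨mem_univ _, hj⟩
    rw [mem_singleton] at h2 h3
    rw [h2, h3]
  let c' : Finset (Fin n) → I := fun e =>
    if hx : ∃ i, e.map Fin.valEmbedding ∈ π i then hx.choose else i₀
  have hc' : ∀ e : Finset (Fin n), e.card = 3 → e.map Fin.valEmbedding ∈ π (c' e) := by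
    intro e he
    have hx : ∃ i, e.map Fin.valEmbedding ∈ π i :=
      exists_of_cnt_pos (p := fun i => e.map Fin.valEmbedding ∈ π i) (by rw [hone e he]; norm_num)
    have : c' e = hx.choose := by
      simp only [c']
      rw [dif_pos hx]
    rw [this]
    exact hx.choose_spec
  refine ⟨c', ?_, ?_⟩
  · intro e f he hf hef hcc
    have h1 := hc' e he
    have h2 := hc' f hf
    rw [← hcc] at h2
    have h3 : Disjoint (e.map Fin.valEmbedding) (f.map Fin.valEmbedding) := by
      apply h.disj _ _ h1 _ h2
      intro hh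
      exact hef ((Finset.map_injective _) hh)
    exact (Finset.disjoint_map _).1 h3
  · intro e he i hi
    exact huniq e he _ _ (hc' e he) hi

end Pool.Agent.Work.MP_18db2a_co
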