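import Pool.Agent.Work.MP_18db2a_co.Basic

set_option autoImplicit false

/-!
# DInit (size M, Mathlib only): the first stage of the detachment

`V = Fin m`, `m + δ = n`.  `π i` consists of the images in `ℕ` (`Finset.map Fin.valEmbedding`) of: the triples `e` with `c e = i` (`e.card = 3`); the sets `{x, y}` with `F i x y`; the
sets `{x}` with `x ∉ cov3 c i` and `x` uncovered by `F i`.  (`π i` can be defined as a filter on `(range m).powerset`.)
The triples of colour `i` are disjoint (`Proper3`) with union `cov3 c i`, the edges of `F i` are disjoint and outside `cov3 c i`; so the parts are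
disjoint and cover `range m`.
`parts`: let `e` be the number of triples of colour `i` and `f` the number of edges of `F i`: `|cov3 c i| = 3 e`, `nv (F i) = 2 f`, the number of parts is
`e + f + (m - 3 e - 2 f) = m - 2 e - f`, and `3 (m - 2 e - f) ≤ m + δ = n` is `Sol.size`: `4 (m - 3 e) ≤ 6 f + 2 δ`, i.e. `2 m - 6 e ≤ 3 f + δ`.
`three`: a three-element subset of `range m` is a part exactly for `i = c e`.  `two`: `{x, y}`, `x ≠ y`: exactly the `i` with `F i x y`: `ld F x y = δ = n - m`.
`one`: the number of the `i` with `{x} ∈ π i` is `card I - (number of i with x ∈ cov3 c i) - (number of i with F i covering x)`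
`= (n-1).choose 2 - (m-1).choose 2 - (m-1) δ = δ.choose 2` (`Dat.deg`; the second number is `∑_{y ≠ x} ld F x y`; `Dat.card`).
-/

namespace Pool.Agent.Work.MP_18db2a_co

open Finset

private def PP {I : Type} {m : ℕ} (c : Finset (Fin m) → I) (F : I → Fin m → Fin m → Prop) (i : I)
    (A : Finset (Fin m)) : Prop :=
  (A.card = 3 ∧ c A = i) ∨ (∃ x y, F i x y ∧ A = {x, y}) ∨ ∃ x, x ∉ cov3 c i ∧ Unc (F i) x ∧ A = {x}

private theorem mem_cov3 {I : Type} {m : ℕ} (c : Finset (Fin m) → I) (i : I) (x : Fin m) :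
    x ∈ cov3 c i ↔ ∃ e : Finset (Fin m), e.card = 3 ∧ c e = i ∧ x ∈ e := by
  unfold cov3
  simp

private theorem pair_form {I : Type} {m : ℕ} (c : Finset (Fin m) → I) {F : I → Fin m → Fin m → Prop} {i : I}
    (hF : IsMat (cov3 c i)ᶜ (F i)) {a b x : Fin m} (h : F i a b) (hx : x ∈ ({a, b} : Finset (Fin m))) :
    ∃ y, F i x y ∧ ({a, b} : Finset (Fin m)) = {x, y} := by
  rcases mem_insert.1 hx with h1 | h1
  · exact ⟨b, h1 ▸ h, by rw [h1]⟩
  · rw [mem_singleton] at h1
    exact ⟨a, by rw [h1]; exact hF.symm _ _ h, by rw [h1, Finset.pair_comm]⟩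

private theorem PP_disj {I : Type} {m : ℕ} {c : Finset (Fin m) → I} (hc : Proper3 c) {F : I → Fin m → Fin m → Prop}
    {i : I} (hF : IsMat (cov3 c i)ᶜ (F i)) {A B : Finset (Fin m)} (hA : PP c F i A) (hB : PP c F i B)
    {x : Fin m} (hxA : x ∈ A) (hxB : x ∈ B) : A = B := by
  have cov_of : ∀ {C : Finset (Fin m)}, C.card = 3 → c C = i → x ∈ C → x ∈ cov3 c i :=
    fun h1 h2 h3 => (mem_cov3 c i x).2 ⟨_, h1, h2, h3⟩
  have nc_of : ∀ {y}, F i x y → x ∉ cov3 c i := fun h hx => by
    have := hF.mem _ _ h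
    rw [mem_compl] at this
    exact this hx
  rcases hA with ⟨h1, h2⟩ | ⟨a, b, h1, h2⟩ | ⟨a, h1, h1', h2⟩
  · rcases hB with ⟨g1, g2⟩ | ⟨a', b', g1, g2⟩ | ⟨a', g1, g1', g2⟩
    · by_contra hne
      have := hc A B h1 g1 hne (h2.trans g2.symm)
      exact (Finset.disjoint_left.1 this) hxA hxB
    · rw [g2] at hxB
      obtain ⟨y, hy, _⟩ := pair_form c hF g1 hxB
      exact absurd (cov_of h1 h2 hxA) (nc_of hy)
    · rw [g2, mem_singleton] at hxB
      rw [← hxB] at g1
      exact absurd (cov_of h1 h2 hxA) g1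
  · rw [h2] at hxA
    obtain ⟨y, hy, hAy⟩ := pair_form c hF h1 hxA
    rcases hB with ⟨g1, g2⟩ | ⟨a', b', g1, g2⟩ | ⟨a', g1, g1', g2⟩
    · exact absurd (cov_of g1 g2 hxB) (nc_of hy)
    · rw [g2] at hxB
      obtain ⟨y', hy', hBy⟩ := pair_form c hF g1 hxB
      have := hF.uniq _ _ _ hy hy'
      rw [h2, g2, hAy, hBy, this]
    · rw [g2, mem_singleton] at hxB
      rw [← hxB] at g1'
      exact absurd hy (g1' y)
  · rw [h2, mem_singleton] at hxA
    rw [← hxA] at h1 h1' h2
    rcases hB with ⟨g1, g2⟩ | ⟨a', b', g1, g2⟩ | ⟨a', g1, g1', g2⟩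
    · exact absurd (cov_of g1 g2 hxB) h1
    · rw [g2] at hxB
      obtain ⟨y', hy', hBy⟩ := pair_form c hF g1 hxB
      exact absurd hy' (h1' y')
    · rw [g2, mem_singleton] at hxB
      rw [h2, g2, hxB]

private theorem PP_cov {I : Type} {m : ℕ} (c : Finset (Fin m) → I) (F : I → Fin m → Fin m → Prop)
    (i : I) (x : Fin m) : ∃ A, PP c F i A ∧ x ∈ A := by
  by_cases h1 : x ∈ cov3 c i
  · obtain ⟨e, he, hce, hx⟩ := (mem_cov3 c i x).1 h1
    exact ⟨e, Or.inl ⟨he, hce⟩, hx⟩
  · by_cases h2 : ∃ y, F i x y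
    · obtain ⟨y, hy⟩ := h2
      exact ⟨{x, y}, Or.inr (Or.inl ⟨x, y, hy, rfl⟩), mem_insert_self _ _⟩
    · exact ⟨{x}, Or.inr (Or.inr ⟨x, h1, fun y hy => h2 ⟨y, hy⟩, rfl⟩), mem_singleton_self _⟩

private theorem PP_card {I : Type} {m : ℕ} {c : Finset (Fin m) → I} {F : I → Fin m → Fin m → Prop}
    {i : I} (hF : IsMat (cov3 c i)ᶜ (F i)) {A : Finset (Fin m)} (hA : PP c F i A) :
    (A.card = 3 ∧ c A = i ∧ ∀ x ∈ A, x ∈ cov3 c i) ∨
    (A.card = 2 ∧ ∀ x ∈ A, ∃ y, F i x y) ∨
    (A.card = 1 ∧ ∀ x ∈ A, x ∉ cov3 c i ∧ Unc (F i) x) := by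
  rcases hA with ⟨h1, h2⟩ | ⟨a, b, h1, h2⟩ | ⟨a, h1, h1', h2⟩
  · exact Or.inl ⟨h1, h2, fun x hx => (mem_cov3 c i x).2 ⟨A, h1, h2, hx⟩⟩
  · refine Or.inr (Or.inl ⟨?_, ?_⟩)
    · rw [h2]
      exact Finset.card_pair (hF.ne h1)
    · intro x hx
      rw [h2] at hx
      obtain ⟨y, hy, _⟩ := pair_form c hF h1 hx
      exact ⟨y, hy⟩
  · refine Or.inr (Or.inr ⟨?_, ?_⟩)
    · rw [h2]; exact card_singleton _
    · intro x hx
      rw [h2, mem_singleton] at hx
      rw [hx]
      exact ⟨h1, h1'⟩

private theorem parts_le {I : Type} {m : ℕ} {c : Finset (Fin m) → I} (hc : Proper3 c)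
    {F : I → Fin m → Fin m → Prop} {i : I} (hF : IsMat (cov3 c i)ᶜ (F i)) {δ : ℕ}
    (hs : 4 * (cov3 c i)ᶜ.card ≤ 3 * nv (F i) + 2 * δ) (P : Finset (Finset (Fin m)))
    (hP : ∀ A, A ∈ P ↔ PP c F i A) : 3 * P.card ≤ m + δ := by
  classical
  have hdis : ∀ Q : Finset (Finset (Fin m)), Q ⊆ P → (Q.biUnion id).card = ∑ A ∈ Q, A.card := by
    intro Q hQ
    have := Finset.card_biUnion (s := Q) (t := id) (by
      intro A hA B hB hAB
      rw [Function.onFun, Finset.disjoint_left]
      intro x hx hx'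
      exact hAB (PP_disj hc hF ((hP A).1 (hQ hA)) ((hP B).1 (hQ hB)) hx hx'))
    exact this
  set P3 := P.filter (fun A => A.card = 3) with hP3
  set P2 := P.filter (fun A => A.card = 2) with hP2
  set P1 := P.filter (fun A => A.card = 1) with hP1
  have hsplit : P.card = P3.card + P2.card + P1.card := by
    rw [← Finset.card_union_of_disjoint, ← Finset.card_union_of_disjoint]
    · congr 1
      ext A
      simp only [hP3, hP2, hP1, mem_union, mem_filter]
      constructor
      · intro hA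
        rcases PP_card hF ((hP A).1 hA) with h | h | h <;> tauto
      · tauto
    · rw [Finset.disjoint_left]
      intro A hA hA'
      simp only [hP3, hP2, hP1, mem_union, mem_filter] at hA hA'
      omega
    · rw [Finset.disjoint_left]
      intro A hA hA'
      simp only [hP3, hP2, hP1, mem_filter] at hA hA'
      omega
  have e3 : (cov3 c i).card = 3 * P3.card := by
    have h1 : P3.biUnion id = cov3 c i := by
      ext x
      simp only [mem_biUnion, id, hP3, mem_filter]
      rw [mem_cov3]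
      constructor
      · rintro ⟨A, ⟨hA, hA3⟩, hx⟩
        rcases PP_card hF ((hP A).1 hA) with h | h | h
        · exact ⟨A, h.1, h.2.1, hx⟩
        · omega
        · omega
      · rintro ⟨e, he, hce, hx⟩
        exact ⟨e, ⟨(hP e).2 (Or.inl ⟨he, hce⟩), he⟩, hx⟩
    rw [← h1, hdis P3 (Finset.filter_subset _ _), Finset.sum_congr rfl (g := fun _ => 3), Finset.sum_const,
      smul_eq_mul, mul_comm]
    intro A hA
    exact (mem_filter.1 hA).2
  have e2 : nv (F i) = 2 * P2.card := by
    have h1 : P2.biUnion id = univ.filter (fun x => ∃ y, F i x y) := by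
      ext x
      simp only [mem_biUnion, id, hP2, mem_filter, mem_univ, true_and]
      constructor
      · rintro ⟨A, ⟨hA, hA3⟩, hx⟩
        rcases PP_card hF ((hP A).1 hA) with h | h | h
        · omega
        · exact h.2 x hx
        · omega
      · rintro ⟨y, hy⟩
        exact ⟨{x, y}, ⟨(hP _).2 (Or.inr (Or.inl ⟨x, y, hy, rfl⟩)), Finset.card_pair (hF.ne hy)⟩,
          mem_insert_self _ _⟩
    rw [nv, cnt_eq, ← h1, hdis P2 (Finset.filter_subset _ _), Finset.sum_congr rfl (g := fun _ => 2),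
      Finset.sum_const, smul_eq_mul, mul_comm]
    intro A hA
    exact (mem_filter.1 hA).2
  have eall : m = 3 * P3.card + 2 * P2.card + P1.card := by
    have h1 : P.biUnion id = univ := by
      ext x
      simp only [mem_biUnion, id, mem_univ, iff_true]
      obtain ⟨A, hA, hx⟩ := PP_cov c F i x
      exact ⟨A, (hP A).2 hA, hx⟩
    have h2 := hdis P (Finset.Subset.refl _)
    rw [h1, Finset.card_univ, Fintype.card_fin] at h2
    have h3 : ∑ A ∈ P, A.card = ∑ A ∈ P, ((if A.card = 3 then 3 else 0) + (if A.card = 2 then 2 else 0)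
        + (if A.card = 1 then 1 else 0)) := by
      refine Finset.sum_congr rfl fun A hA => ?_
      rcases PP_card hF ((hP A).1 hA) with h | h | h
      · rw [h.1]; norm_num
      · rw [h.1]; norm_num
      · rw [h.1]; norm_num
    have h4 : ∑ A ∈ P, A.card = 3 * P3.card + 2 * P2.card + P1.card := by
      rw [h3, Finset.sum_add_distrib, Finset.sum_add_distrib, ← Finset.sum_filter, ← Finset.sum_filter,
        ← Finset.sum_filter, Finset.sum_const, Finset.sum_const, Finset.sum_const]
      simp only [smul_eq_mul]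
      rw [← hP3, ← hP2, ← hP1]
      ring
    exact h2.trans h4
  have hcompl : (cov3 c i)ᶜ.card = m - (cov3 c i).card := by
    rw [Finset.card_compl, Fintype.card_fin]
  rw [hcompl, e3, e2] at hs
  omega

theorem st_init {I : Type} [Fintype I] [DecidableEq I] (m δ : ℕ) (hm : 1 ≤ m) (c : Finset (Fin m) → I) (hc : Proper3 c)
    (hD : Dat (cov3 c) δ) (F : I → Fin m → Fin m → Prop) (hF : Sol (cov3 c) δ F) :
    ∃ π : I → Finset (Finset ℕ), St (m + δ) m π ∧
      ∀ e : Finset (Fin m), e.card = 3 → e.map Fin.valEmbedding ∈ π (c e) := by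
  classical
  set P : I → Finset (Finset (Fin m)) := fun i => univ.filter (fun A => PP c F i A) with hPdef
  have hP : ∀ i A, A ∈ P i ↔ PP c F i A := by
    intro i A
    simp [hPdef]
  set π : I → Finset (Finset ℕ) := fun i => (P i).image (fun B => B.map Fin.valEmbedding) with hπ
  have hmem : ∀ i A, A ∈ π i ↔ ∃ B, PP c F i B ∧ B.map Fin.valEmbedding = A := by
    intro i A
    simp only [hπ, mem_image]
    constructor
    · rintro ⟨B, hB, h⟩
      exact ⟨B, (hP i B).1 hB, h⟩
    · rintro ⟨B, hB, h⟩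
      exact ⟨B, (hP i B).2 hB, h⟩
  have hmap : ∀ i B, B.map Fin.valEmbedding ∈ π i ↔ PP c F i B := by
    intro i B
    rw [hmem]
    constructor
    · rintro ⟨C, hC, h⟩
      rw [← (Finset.map_injective _) h]
      exact hC
    · intro h
      exact ⟨B, h, rfl⟩
  have hpull : ∀ A : Finset ℕ, A ⊆ range m → ∃ B : Finset (Fin m), B.map Fin.valEmbedding = A := by
    intro A hA
    refine ⟨univ.filter (fun x => x.val ∈ A), ?_⟩
    ext x
    simp only [mem_map, mem_filter, mem_univ, true_and, Fin.valEmbedding_apply]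
    constructor
    · rintro ⟨y, hy, rfl⟩
      exact hy
    · intro hx
      exact ⟨⟨x, mem_range.1 (hA hx)⟩, hx, rfl⟩
  have hsub : m + δ - m = δ := by omega
  have hPone : ∀ x : Fin m, cnt (fun i => PP c F i {x}) = δ.choose 2 := by
    intro x
    have h1 : ∀ i, PP c F i {x} ↔ (x ∉ cov3 c i ∧ Unc (F i) x) := by
      intro i
      constructor
      · intro h
        rcases PP_card (hF.mat i) h with h | h | h
        · have := h.1; simp at this
        · have := h.1; simp at this
        · exact h.2 x (mem_singleton_self _)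
      · intro h
        exact Or.inr (Or.inr ⟨x, h.1, h.2, rfl⟩)
    rw [cnt_congr h1]
    have h2 := cnt_add_not (fun i => x ∈ cov3 c i)
    rw [hD.deg x, hD.card, Fintype.card_fin] at h2
    have h3 := cnt_split (fun i => ¬ x ∈ cov3 c i) (fun i => Unc (F i) x)
    have h4 : cnt (fun i => ¬ x ∈ cov3 c i ∧ ¬ Unc (F i) x) = (m - 1) * δ := by
      have e1 : cnt (fun i => ¬ x ∈ cov3 c i ∧ ¬ Unc (F i) x) = cnt (fun i => ∃ y, F i x y) := by
        apply cnt_congr
        intro i
        constructor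
        · rintro ⟨_, h⟩
          by_contra hcon
          exact h (fun y hy => hcon ⟨y, hy⟩)
        · rintro ⟨y, hy⟩
          refine ⟨?_, fun h => h y hy⟩
          have := (hF.mat i).mem _ _ hy
          rwa [mem_compl] at this
      have e2 : cnt (fun i => ∃ y, F i x y) = ∑ i, cnt (fun y => F i x y) := by
        rw [cnt_eq_sum]
        refine Finset.sum_congr rfl fun i _ => ?_
        split_ifs with hx
        · obtain ⟨y, hy⟩ := hx
          rw [cnt_eq]
          symm
          rw [Finset.card_eq_one]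
          refine ⟨y, ?_⟩
          ext z
          simp only [mem_filter, mem_univ, true_and, mem_singleton]
          exact ⟨fun hz => (hF.mat i).uniq _ _ _ hz hy, fun hz => hz ▸ hy⟩
        · symm
          exact cnt_eq_zero fun y hy => hx ⟨y, hy⟩
      rw [e1, e2, cnt_comm (fun i y => F i x y)]
      have e3 : ∀ y, cnt (fun i => F i x y) = if y = x then 0 else δ := by
        intro y
        split_ifs with hyx
        · rw [hyx]
          exact cnt_eq_zero fun i hi => (hF.mat i).irr x hi
        · exact hF.load x y (Ne.symm hyx)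
      rw [Finset.sum_congr rfl (fun y _ => e3 y), ← Finset.sum_erase_add univ _ (mem_univ x), if_pos rfl,
        add_zero, Finset.sum_congr rfl (g := fun _ => δ), Finset.sum_const, smul_eq_mul,
        Finset.card_erase_of_mem (mem_univ x), Finset.card_univ, Fintype.card_fin]
      intro y hy
      rw [if_neg (Finset.ne_of_mem_erase hy)]
    rw [h4] at h3
    have h5 : (m + δ - 1).choose 2 = (m - 1).choose 2 + (m - 1) * δ + δ.choose 2 := by
      obtain ⟨k, rfl⟩ : ∃ k, m = k + 1 := ⟨m - 1, by omega⟩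
      have e1 : k + 1 + δ - 1 = k + δ := by omega
      rw [e1, Nat.add_sub_cancel]
      have : ((k + δ).choose 2 : ℚ) = (k.choose 2 + k * δ + δ.choose 2 : ℚ) := by
        rw [Nat.cast_choose_two, Nat.cast_choose_two, Nat.cast_choose_two]
        push_cast
        ring
      exact_mod_cast this
    rw [h5] at h2
    have h6 : cnt (fun i => ¬ x ∈ cov3 c i ∧ Unc (F i) x) = cnt (fun i => x ∉ cov3 c i ∧ Unc (F i) x) := rfl
    omega
  refine ⟨π, ⟨?_, ?_, ?_, ?_, ?_, ?_, ?_, ?_, ?_⟩, ?_⟩
  · intro i A hA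
    obtain ⟨B, _, rfl⟩ := (hmem i A).1 hA
    intro x hx
    rw [mem_map] at hx
    obtain ⟨y, _, rfl⟩ := hx
    exact mem_range.2 y.2
  · intro i A hA
    obtain ⟨B, hB, rfl⟩ := (hmem i A).1 hA
    rw [Finset.map_nonempty, ← Finset.card_pos]
    rcases PP_card (hF.mat i) hB with h | h | h <;> omega
  · intro i A hA
    obtain ⟨B, hB, rfl⟩ := (hmem i A).1 hA
    rw [card_map]
    rcases PP_card (hF.mat i) hB with h | h | h <;> omega
  · intro i A hA A' hA' hne
    obtain ⟨B, hB, rfl⟩ := (hmem i A).1 hA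
    obtain ⟨B', hB', rfl⟩ := (hmem i A').1 hA'
    rw [Finset.disjoint_map, Finset.disjoint_left]
    intro x hx hx'
    exact hne (by rw [PP_disj hc (hF.mat i) hB hB' hx hx'])
  · intro i x hx
    obtain ⟨A, hA, hxA⟩ := PP_cov c F i ⟨x, hx⟩
    exact ⟨A.map Fin.valEmbedding, (hmap i A).2 hA, mem_map.2 ⟨_, hxA, rfl⟩⟩
  · intro i
    have h1 : (π i).card ≤ (P i).card := Finset.card_image_le
    have h2 := parts_le hc (hF.mat i) (hF.size i) (P i) (hP i)
    omega
  · intro A hA hA1
    obtain ⟨B, rfl⟩ := hpull A hA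
    rw [card_map, Finset.card_eq_one] at hA1
    obtain ⟨x, rfl⟩ := hA1
    rw [cnt_congr (fun i => hmap i {x}), hsub]
    exact hPone x
  · intro A hA hA2
    obtain ⟨B, rfl⟩ := hpull A hA
    rw [card_map, Finset.card_eq_two] at hA2
    obtain ⟨x, y, hxy, rfl⟩ := hA2
    rw [cnt_congr (fun i => hmap i {x, y}), hsub, ← hF.load x y hxy, ld]
    apply cnt_congr
    intro i
    constructor
    · intro h
      rcases h with ⟨h1, _⟩ | ⟨a, b, h1, h2⟩ | ⟨a, h1, h1', h2⟩
      · rw [Finset.card_pair hxy] at h1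
        omega
      · have hx : x ∈ ({a, b} : Finset (Fin m)) := by rw [← h2]; exact mem_insert_self _ _
        obtain ⟨z, hz, hz2⟩ := pair_form c (hF.mat i) h1 hx
        rw [← h2] at hz2
        have hy : y ∈ ({x, z} : Finset (Fin m)) := by
          rw [← hz2]; exact mem_insert_of_mem (mem_singleton_self _)
        rcases mem_insert.1 hy with h3 | h3
        · exact absurd h3.symm hxy
        · rw [mem_singleton.1 h3]; exact hz
      · have := Finset.card_pair hxy
        rw [h2, card_singleton] at this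
        omega
    · intro h
      exact Or.inr (Or.inl ⟨x, y, h, rfl⟩)
  · intro A hA hA3
    obtain ⟨B, rfl⟩ := hpull A hA
    rw [card_map] at hA3
    rw [cnt_congr (fun i => hmap i B), cnt_eq, Finset.card_eq_one]
    refine ⟨c B, ?_⟩
    ext i
    simp only [mem_filter, mem_univ, true_and, mem_singleton]
    constructor
    · intro h
      rcases PP_card (hF.mat i) h with h | h | h
      · exact h.2.1.symm
      · omega
      · omega
    · intro h
      rw [h]
      exact Or.inl ⟨hA3, rfl⟩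
  · intro e he
    rw [hmap]
    exact Or.inl ⟨he, rfl⟩

end Pool.Agent.Work.MP_18db2a_co
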