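import Pool.Agent.Work.MP_18db2a_co.DTrans

set_option autoImplicit false

/-!
# DStep (size M-L, uses the statement of DTrans): adding one vertex

Let `d = n - N ≥ 1`.  The new vertex is `N`.  For every colour `i` we choose exactly one part `A ∈ π i` with `|A| ≤ 2`, which is replaced by
`insert N A`, or (only if `3 * |π i| < n`, hence `3 * |π i| + 3 ≤ n`) we choose `∅`, and `{N}` is a new part.
Types: `A` ranges over the finsets of `range N` with at most two members (including `∅`), e.g. the subtype of `(range N).powerset` with `card ≤ 2`.  Weights: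
`w i A = (3 - |A|)/d` for `A ∈ π i` with `1 ≤ |A| ≤ 2`, `w i ∅ = 1 - ∑_{A ∈ π i} (3 - |A|)/d = 1 - (3 |π i| - N)/d ≥ 0` (the parts of `π i` are disjoint with union `range N`, so
`∑ |A| = N`; `3 |π i| ≤ n`), all others `0`.  Row sums are `1`.  Demands: `d {x, y} = 1` (`d` colours have this part, weight `1/d`), `d {x} = d - 1`
(`d (d-1)/2` colours, weight `2/d`), `d ∅ = (d-1).choose 2`: the column sum is `card I - (number of pairs) - N (d-1) = (n-1).choose 2 - N.choose 2 - N (d-1)
= (d-1).choose 2`, as `n - 1 = N + (d-1)`.  `transport` gives `g`, `w i (g i) > 0`: `g i ∈ π i` or (`g i = ∅` and `3 |π i| < n`).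
`π' i = insert (insert N (g i)) ((π i).erase (g i))` (for `g i = ∅` nothing is erased, `∅ ∉ π i`).
Check `St n (N+1) π'`: `sub`, `ne`, `le`, `disj`, `cov` are clear; `parts`: the number of parts does not change, or it grows by one if `g i = ∅`.
`three`: a set `A ∋ N` is `insert N P`, `|P| = 2`, and it is a part for exactly the `i` with `g i = P`: one.  A set `A ∌ N` with three members: `A ∈ π' i ↔ A ∈ π i`.
`two`: `{x, N}`: exactly the `i` with `g i = {x}`: `d - 1`; a pair without `N`: `A ∈ π' i ↔ A ∈ π i ∧ g i ≠ A`: `d - 1`.  `one`: `{N}`: the `i` with `g i = ∅`: `(d-1).choose 2`; `{x}`: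
`d.choose 2 - (d - 1) = (d-1).choose 2`.
-/

namespace Pool.Agent.Work.MP_18db2a_co

open Finset

private theorem card_union {n N : ℕ} {I : Type} [Fintype I] {π : I → Finset (Finset ℕ)} (h : St n N π) (i : I) :
    ∑ A ∈ π i, A.card = N := by
  have h1 : (π i).biUnion id = range N := by
    ext x
    simp only [mem_biUnion, id, mem_range]
    constructor
    · rintro ⟨A, hA, hx⟩
      exact mem_range.1 (h.sub i A hA hx)
    · intro hx
      exact h.cov i x hx
  have h2 : ((π i).biUnion id).card = ∑ A ∈ π i, (id A).card := by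
    apply Finset.card_biUnion
    intro A hA B hB hAB
    exact h.disj i A hA B hB hAB
  rw [h1, card_range] at h2
  exact h2.symm

theorem st_step {I : Type} [Fintype I] [DecidableEq I] (n N : ℕ) (hI : Fintype.card I = (n - 1).choose 2)
    (h3 : 3 ∣ n) (hN : N < n) (π : I → Finset (Finset ℕ)) (h : St n N π) :
    ∃ π' : I → Finset (Finset ℕ), St n (N + 1) π' ∧ ∀ i, ∀ A ∈ π i, A.card = 3 → A ∈ π' i := by
  classical
  obtain ⟨d, hd⟩ : ∃ d, n = N + (d + 1) := ⟨n - N - 1, by omega⟩
  have hnN : n - N = d + 1 := by omega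
  have hnN1 : n - (N + 1) = d := by omega
  have hd0 : (0 : ℝ) < (d : ℝ) + 1 := by positivity
  set S1 := powersetCard 1 (range N) with hS1
  set S2 := powersetCard 2 (range N) with hS2
  set S' := S1 ∪ S2 with hS'
  have hdisj : Disjoint S1 S2 := by
    rw [Finset.disjoint_left]
    intro A h1 h2
    rw [hS1, mem_powersetCard] at h1
    rw [hS2, mem_powersetCard] at h2
    omega
  set S := insert (∅ : Finset ℕ) S' with hS
  have hemp : (∅ : Finset ℕ) ∉ S' := by
    rw [hS', mem_union, hS1, hS2, mem_powersetCard, mem_powersetCard]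
    simp
  have hmemS' : ∀ B : Finset ℕ, B ∈ S' ↔ B ⊆ range N ∧ (B.card = 1 ∨ B.card = 2) := by
    intro B
    rw [hS', mem_union, hS1, hS2, mem_powersetCard, mem_powersetCard]
    tauto
  let w0 : I → Finset ℕ → ℝ := fun i B => if B ∈ π i then (3 - (B.card : ℝ)) / ((d : ℝ) + 1) else 0
  let σ : I → ℝ := fun i => ∑ B ∈ S', w0 i B
  let w : I → S → ℝ := fun i a => if a.1 = ∅ then 1 - σ i else w0 i a.1
  let dd : Finset ℕ → ℕ := fun B => if B.card = 0 then d.choose 2 else if B.card = 1 then d else 1
  have hdd1 : ∀ B : Finset ℕ, B.card = 1 → dd B = d := by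
    intro B hB
    simp only [dd]
    rw [hB]
    norm_num
  have hdd2 : ∀ B : Finset ℕ, B.card = 2 → dd B = 1 := by
    intro B hB
    simp only [dd]
    rw [hB]
    norm_num
  have hdd0 : dd ∅ = d.choose 2 := by
    simp only [dd]
    rw [Finset.card_empty]
    norm_num
  have hσ : ∀ i, σ i = (3 * ((π i).card : ℝ) - N) / ((d : ℝ) + 1) := by
    intro i
    have e1 : σ i = ∑ B ∈ S' ∩ π i, (3 - (B.card : ℝ)) / ((d : ℝ) + 1) := by
      simp only [σ, w0]
      rw [← Finset.sum_filter, Finset.filter_mem_eq_inter]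
    have e2 : ∑ B ∈ S' ∩ π i, (3 - (B.card : ℝ)) / ((d : ℝ) + 1) =
        ∑ B ∈ π i, (3 - (B.card : ℝ)) / ((d : ℝ) + 1) := by
      apply Finset.sum_subset Finset.inter_subset_right
      intro B hB hB2
      have h3' : B.card = 3 := by
        have c1 := h.le i B hB
        have c2 : 0 < B.card := Finset.card_pos.2 (h.ne i B hB)
        have c3 : B ∉ S' := fun hc => hB2 (mem_inter.2 ⟨hc, hB⟩)
        rw [hmemS'] at c3
        have c4 := h.sub i B hB
        have c5 : ¬ (B.card = 1 ∨ B.card = 2) := fun hc => c3 ⟨c4, hc⟩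
        omega
      rw [h3']
      norm_num
    rw [e1, e2, ← Finset.sum_div, Finset.sum_sub_distrib, Finset.sum_const, nsmul_eq_mul]
    have e3 : ∑ B ∈ π i, (B.card : ℝ) = N := by
      rw [← Nat.cast_sum, card_union h i]
    rw [e3]
    ring
  have hσle : ∀ i, σ i ≤ 1 := by
    intro i
    rw [hσ, div_le_one hd0]
    have := h.parts i
    have h4 : (3 * ((π i).card : ℝ)) ≤ (n : ℝ) := by exact_mod_cast this
    have h5 : (n : ℝ) = N + (d + 1) := by exact_mod_cast hd
    linarith
  have hw0nn : ∀ i B, 0 ≤ w0 i B := by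
    intro i B
    simp only [w0]
    split_ifs with hB
    · apply div_nonneg _ hd0.le
      have := h.le i B hB
      have : (B.card : ℝ) ≤ 3 := by exact_mod_cast this
      linarith
    · exact le_rfl
  have hcol : ∀ B ∈ S', ∑ i, w0 i B = (dd B : ℝ) := by
    intro B hB
    rw [hmemS'] at hB
    have e1 : ∑ i, w0 i B = (cnt (fun i => B ∈ π i) : ℝ) * ((3 - (B.card : ℝ)) / ((d : ℝ) + 1)) := by
      rw [cnt_coe, Finset.sum_mul]
      refine Finset.sum_congr rfl fun i _ => ?_
      simp only [w0]
      split_ifs <;> simp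
    rw [e1]
    rcases hB.2 with h1 | h1
    · rw [h.one B hB.1 h1, hnN, hdd1 B h1, h1]
      rw [Nat.cast_choose_two]
      push_cast
      field_simp
      ring
    · rw [h.two B hB.1 h1, hnN, hdd2 B h1, h1]
      push_cast
      field_simp
      norm_num
  have hcol0 : ∑ i, (1 - σ i) = (d.choose 2 : ℝ) := by
    have e1 : ∑ i, σ i = ∑ B ∈ S', (dd B : ℝ) := by
      simp only [σ]
      rw [Finset.sum_comm]
      exact Finset.sum_congr rfl hcol
    have e2 : ∑ B ∈ S', (dd B : ℝ) = N * d + (N.choose 2 : ℝ) := by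
      rw [hS', Finset.sum_union hdisj]
      have e3 : ∑ B ∈ S1, (dd B : ℝ) = N * d := by
        have : ∀ B ∈ S1, (dd B : ℝ) = d := by
          intro B hB
          rw [hS1, mem_powersetCard] at hB
          rw [hdd1 B hB.2]
        rw [Finset.sum_congr rfl this, Finset.sum_const, hS1, card_powersetCard, card_range,
          Nat.choose_one_right, nsmul_eq_mul]
      have e4 : ∑ B ∈ S2, (dd B : ℝ) = (N.choose 2 : ℝ) := by
        have : ∀ B ∈ S2, (dd B : ℝ) = 1 := by
          intro B hB
          rw [hS2, mem_powersetCard] at hB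
          rw [hdd2 B hB.2, Nat.cast_one]
        rw [Finset.sum_congr rfl this, Finset.sum_const, hS2, card_powersetCard, card_range,
          nsmul_eq_mul, mul_one]
      rw [e3, e4]
    rw [Finset.sum_sub_distrib, e1, e2, Finset.sum_const, Finset.card_univ, hI, nsmul_eq_mul, mul_one]
    have e5 : n - 1 = N + d := by omega
    rw [e5, Nat.cast_choose_two, Nat.cast_choose_two, Nat.cast_choose_two]
    push_cast
    ring
  have t0 : ∀ i (a : S), 0 ≤ w i a := by
    intro i a
    simp only [w]
    split_ifs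
    · linarith [hσle i]
    · exact hw0nn i _
  have t1 : ∀ i, ∑ a : S, w i a = 1 := by
    intro i
    have e1 : ∑ a : S, w i a = ∑ B ∈ S, (if B = ∅ then 1 - σ i else w0 i B) := by
      rw [← Finset.sum_coe_sort S (fun B => if B = ∅ then 1 - σ i else w0 i B)]
    rw [e1, hS, Finset.sum_insert hemp, if_pos rfl]
    have e2 : ∑ B ∈ S', (if B = ∅ then 1 - σ i else w0 i B) = σ i := by
      simp only [σ]
      refine Finset.sum_congr rfl fun B hB => ?_
      rw [if_neg]
      rintro rfl
      exact hemp hB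
    rw [e2]
    ring
  have t2 : ∀ a : S, ∑ i, w i a = (((fun a : S => dd a.1) a : ℕ) : ℝ) := by
    rintro ⟨B, hB⟩
    simp only [w]
    by_cases hB0 : B = ∅
    · subst hB0
      simp only [if_true]
      rw [hcol0, hdd0]
    · simp only [if_neg hB0]
      exact hcol B ((mem_insert.1 hB).resolve_left hB0)
  obtain ⟨g, hg1, hg2⟩ := transport w (fun a : S => dd a.1) t0 t1 t2
  -- properties of g
  set G : I → Finset ℕ := fun i => (g i).1 with hG
  have hGS : ∀ i, G i ∈ S := fun i => (g i).2
  have hGsub : ∀ i, G i ⊆ range N := by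
    intro i
    rcases mem_insert.1 (hGS i) with h1 | h1
    · rw [h1]; exact Finset.empty_subset _
    · exact ((hmemS' _).1 h1).1
  have hGcard : ∀ i, (G i).card ≤ 2 := by
    intro i
    rcases mem_insert.1 (hGS i) with h1 | h1
    · rw [h1]; simp
    · have := ((hmemS' _).1 h1).2
      omega
  have hGmem : ∀ i, G i ≠ ∅ → G i ∈ π i := by
    intro i hi
    have h1 := hg1 i
    simp only [w] at h1
    rw [if_neg hi] at h1
    by_contra hcon
    simp only [w0] at h1
    rw [if_neg hcon] at h1
    exact lt_irrefl _ h1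
  have hGemp : ∀ i, G i = ∅ → 3 * (π i).card + 3 ≤ n := by
    intro i hi
    have h1 := hg1 i
    simp only [w] at h1
    rw [if_pos hi, hσ] at h1
    have h2 : (3 * ((π i).card : ℝ) - N) / ((d : ℝ) + 1) < 1 := by linarith
    rw [div_lt_one hd0] at h2
    have h4 : (3 * ((π i).card : ℝ)) < (N : ℝ) + (d + 1) := by linarith
    have h5 : 3 * (π i).card < N + (d + 1) := by exact_mod_cast h4
    obtain ⟨k, hk⟩ := h3
    omega
  have hNG : ∀ i, N ∉ G i := fun i hi => by
    have := hGsub i hi
    simp at this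
  have hNπ : ∀ i, ∀ A ∈ π i, N ∉ A := fun i A hA hi => by
    have := h.sub i A hA hi
    simp at this
  have hgcnt : ∀ B ∈ S, cnt (fun i => G i = B) = dd B := by
    intro B hB
    rw [← hg2 ⟨B, hB⟩]
    apply cnt_congr
    intro i
    simp only [hG]
    constructor
    · intro h1
      exact Subtype.ext h1
    · intro h1
      rw [h1]
  set π' : I → Finset (Finset ℕ) := fun i => insert (insert N (G i)) ((π i).erase (G i)) with hπ'
  have hmem' : ∀ i A, A ∈ π' i ↔ (A = insert N (G i) ∨ (A ≠ G i ∧ A ∈ π i)) := by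
    intro i A
    simp only [hπ', mem_insert, mem_erase]
  -- counting
  have hin : ∀ i A, A ⊆ range (N + 1) → N ∈ A → (A ∈ π' i ↔ G i = A.erase N) := by
    intro i A hA hNA
    rw [hmem']
    constructor
    · rintro (h1 | ⟨_, h1⟩)
      · rw [h1, Finset.erase_insert (hNG i)]
      · exact absurd hNA (hNπ i A h1)
    · intro h1
      left
      rw [h1, Finset.insert_erase hNA]
  have hout : ∀ i A, N ∉ A → (A ∈ π' i ↔ (A ∈ π i ∧ ¬ G i = A)) := by
    intro i A hNA
    rw [hmem']
    constructor
    · rintro (h1 | ⟨h1, h2⟩)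
      · exact absurd (h1 ▸ Finset.mem_insert_self _ _) hNA
      · exact ⟨h2, fun hc => h1 hc.symm⟩
    · rintro ⟨h1, h2⟩
      exact Or.inr ⟨fun hc => h2 hc.symm, h1⟩
  have hsub' : ∀ A : Finset ℕ, A ⊆ range (N + 1) → N ∉ A → A ⊆ range N := by
    intro A hA hNA x hx
    have h1 := mem_range.1 (hA hx)
    have h2 : x ≠ N := fun hc => hNA (hc ▸ hx)
    exact mem_range.2 (by omega)
  have hers : ∀ A : Finset ℕ, A ⊆ range (N + 1) → A.erase N ⊆ range N := by
    intro A hA
    apply hsub' _ ((Finset.erase_subset _ _).trans hA)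
    simp
  have hsplitG : ∀ A, A ≠ ∅ → cnt (fun i => A ∈ π i) =
      cnt (fun i => A ∈ π i ∧ ¬ G i = A) + cnt (fun i => G i = A) := by
    intro A hA0
    rw [cnt_split (fun i => A ∈ π i) (fun i => G i = A), add_comm]
    congr 1
    apply cnt_congr
    intro i
    constructor
    · exact fun h1 => h1.2
    · intro h1
      refine ⟨?_, h1⟩
      have := hGmem i (by rw [h1]; exact hA0)
      rwa [h1] at this
  refine ⟨π', ⟨?_, ?_, ?_, ?_, ?_, ?_, ?_, ?_, ?_⟩, ?_⟩
  · intro i A hA
    rcases (hmem' i A).1 hA with h1 | ⟨_, h1⟩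
    · rw [h1]
      intro x hx
      rcases mem_insert.1 hx with h2 | h2
      · rw [h2]; simp
      · have := mem_range.1 (hGsub i h2)
        exact mem_range.2 (by omega)
    · intro x hx
      have := mem_range.1 (h.sub i A h1 hx)
      exact mem_range.2 (by omega)
  · intro i A hA
    rcases (hmem' i A).1 hA with h1 | ⟨_, h1⟩
    · rw [h1]; exact Finset.insert_nonempty _ _
    · exact h.ne i A h1
  · intro i A hA
    rcases (hmem' i A).1 hA with h1 | ⟨_, h1⟩
    · rw [h1, Finset.card_insert_of_notMem (hNG i)]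
      have := hGcard i
      omega
    · exact h.le i A h1
  · have key : ∀ i B, B ≠ G i → B ∈ π i → Disjoint (insert N (G i)) B := by
      intro i B hB1 hB2
      rw [Finset.disjoint_insert_left]
      refine ⟨hNπ i B hB2, ?_⟩
      by_cases h0 : G i = ∅
      · rw [h0]; exact Finset.disjoint_empty_left _
      · exact h.disj i _ (hGmem i h0) _ hB2 (Ne.symm hB1)
    intro i A hA B hB hAB
    rcases (hmem' i A).1 hA with h1 | ⟨h1, h1'⟩
    · rcases (hmem' i B).1 hB with h2 | ⟨h2, h2'⟩
      · exact absurd (h1.trans h2.symm) hAB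
      · rw [h1]; exact key i B h2 h2'
    · rcases (hmem' i B).1 hB with h2 | ⟨h2, h2'⟩
      · rw [h2]; exact (key i A h1 h1').symm
      · exact h.disj i A h1' B h2' hAB
  · intro i x hx
    by_cases hxN : x = N
    · exact ⟨insert N (G i), (hmem' i _).2 (Or.inl rfl), by rw [hxN]; exact mem_insert_self _ _⟩
    · obtain ⟨A, hA, hxA⟩ := h.cov i x (by omega)
      by_cases hAG : A = G i
      · exact ⟨insert N (G i), (hmem' i _).2 (Or.inl rfl),
          mem_insert_of_mem (hAG ▸ hxA)⟩
      · exact ⟨A, (hmem' i A).2 (Or.inr ⟨hAG, hA⟩), hxA⟩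
  · intro i
    have c1 : (π' i).card ≤ ((π i).erase (G i)).card + 1 := Finset.card_insert_le _ _
    by_cases h0 : G i = ∅
    · have c2 : ((π i).erase (G i)).card ≤ (π i).card := Finset.card_erase_le
      have := hGemp i h0
      omega
    · have c2 := Finset.card_erase_of_mem (hGmem i h0)
      have c3 : 0 < (π i).card := Finset.card_pos.2 ⟨_, hGmem i h0⟩
      have := h.parts i
      omega
  · intro A hA hA1
    rw [hnN1]
    by_cases hNA : N ∈ A
    · rw [cnt_congr (fun i => hin i A hA hNA)]
      have e1 : A.erase N = ∅ := by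
        rw [← Finset.card_eq_zero, Finset.card_erase_of_mem hNA, hA1]
      rw [e1, hgcnt ∅ (mem_insert_self _ _), hdd0]
    · rw [cnt_congr (fun i => hout i A hNA)]
      have hA' := hsub' A hA hNA
      have hA0 : A ≠ ∅ := by rintro rfl; simp at hA1
      have e1 := hsplitG A hA0
      rw [h.one A hA' hA1, hgcnt A (mem_insert_of_mem ((hmemS' A).2 ⟨hA', Or.inl hA1⟩)), hnN] at e1
      have e2 : dd A = d := hdd1 A hA1
      rw [e2] at e1
      have e3 : (d + 1).choose 2 = d + d.choose 2 := by
        rw [Nat.choose_succ_succ' d 1]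
        simp
      omega
  · intro A hA hA2
    rw [hnN1]
    by_cases hNA : N ∈ A
    · rw [cnt_congr (fun i => hin i A hA hNA)]
      have e1 : (A.erase N).card = 1 := by
        rw [Finset.card_erase_of_mem hNA, hA2]
      rw [hgcnt _ (mem_insert_of_mem ((hmemS' _).2 ⟨hers A hA, Or.inl e1⟩)), hdd1 _ e1]
    · rw [cnt_congr (fun i => hout i A hNA)]
      have hA' := hsub' A hA hNA
      have hA0 : A ≠ ∅ := by rintro rfl; simp at hA2
      have e1 := hsplitG A hA0
      rw [h.two A hA' hA2, hgcnt A (mem_insert_of_mem ((hmemS' A).2 ⟨hA', Or.inr hA2⟩)), hnN] at e1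
      have e2 : dd A = 1 := hdd2 A hA2
      rw [e2] at e1
      omega
  · intro A hA hA3
    by_cases hNA : N ∈ A
    · rw [cnt_congr (fun i => hin i A hA hNA)]
      have e1 : (A.erase N).card = 2 := by
        rw [Finset.card_erase_of_mem hNA, hA3]
      rw [hgcnt _ (mem_insert_of_mem ((hmemS' _).2 ⟨hers A hA, Or.inr e1⟩)), hdd2 _ e1]
    · rw [cnt_congr (fun i => hout i A hNA)]
      rw [← h.three A (hsub' A hA hNA) hA3]
      apply cnt_congr
      intro i
      constructor
      · exact fun h1 => h1.1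
      · intro h1
        refine ⟨h1, fun hc => ?_⟩
        have := hGcard i
        rw [hc] at this
        omega
  · intro i A hA hA3
    rw [hmem']
    right
    refine ⟨fun hc => ?_, hA⟩
    have := hGcard i
    rw [← hc] at this
    omega

end Pool.Agent.Work.MP_18db2a_co
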