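import Pool.Agent.Work.MP_18db2a_co.Basic

set_option autoImplicit false

/-!
# DTrans (size M, Mathlib only): a fractional assignment can be made integral (Hall's theorem)

Slots: `Σ a, Fin (d a)`.  The slot `(a, _)` may be given to `i` if `0 < w i a`.  Hall's condition
(`Finset.all_card_le_biUnion_card_iff_exists_injective`): for a finite set `s` of slots with the set `A'` of first components and the set `N` of all `i` with
`0 < w i a` for some `a ∈ A'`: `|s| ≤ ∑_{a ∈ A'} d a = ∑_{a ∈ A'} ∑ i, w i a = ∑_{i ∈ N} ∑_{a ∈ A'} w i a ≤ |N|`.  So there is an injective map from the slots to `I`; the number of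
slots is `∑ a, d a = ∑ a, ∑ i, w i a = card I`, so it is bijective; `g i` is the first component of the slot of `i`.
-/

namespace Pool.Agent.Work.MP_18db2a_co

open Finset

theorem transport {I A : Type} [Fintype I] [Fintype A] [DecidableEq I] [DecidableEq A] (w : I → A → ℝ) (d : A → ℕ)
    (h0 : ∀ i a, 0 ≤ w i a) (h1 : ∀ i, ∑ a, w i a = 1) (h2 : ∀ a, ∑ i, w i a = d a) :
    ∃ g : I → A, (∀ i, 0 < w i (g i)) ∧ ∀ a, cnt (fun i => g i = a) = d a := by
  classical
  set S : Type := Σ a : A, Fin (d a) with hS
  let t : S → Finset I := fun s => univ.filter fun i => 0 < w i s.1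
  have hall : ∀ s : Finset S, s.card ≤ (s.biUnion t).card := by
    intro s
    set A' := s.image Sigma.fst with hA'
    set N := s.biUnion t with hN
    have e1 : s.card ≤ ∑ a ∈ A', d a := by
      have hsub : s ⊆ A'.sigma (fun a => (univ : Finset (Fin (d a)))) := by
        intro x hx
        rw [Finset.mem_sigma]
        exact ⟨Finset.mem_image_of_mem _ hx, Finset.mem_univ _⟩
      refine (Finset.card_le_card hsub).trans (le_of_eq ?_)
      rw [Finset.card_sigma]
      simp
    have e2 : (∑ a ∈ A', (d a : ℝ)) ≤ N.card := by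
      have hz : ∀ a ∈ A', ∑ i, w i a = ∑ i ∈ N, w i a := by
        intro a ha
        symm
        refine Finset.sum_subset (Finset.subset_univ _) fun i _ hi => ?_
        by_contra hne
        apply hi
        obtain ⟨x, hx, hxa⟩ := Finset.mem_image.1 ha
        rw [hN, Finset.mem_biUnion]
        refine ⟨x, hx, ?_⟩
        simp only [t, Finset.mem_filter, Finset.mem_univ, true_and]
        rw [hxa]
        exact lt_of_le_of_ne (h0 i a) (Ne.symm hne)
      calc (∑ a ∈ A', (d a : ℝ)) = ∑ a ∈ A', ∑ i ∈ N, w i a :=
            Finset.sum_congr rfl fun a ha => by rw [← h2 a, hz a ha]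
        _ = ∑ i ∈ N, ∑ a ∈ A', w i a := Finset.sum_comm
        _ ≤ ∑ i ∈ N, ∑ a, w i a := Finset.sum_le_sum fun i _ =>
            Finset.sum_le_sum_of_subset_of_nonneg (Finset.subset_univ _) fun a _ _ => h0 i a
        _ = N.card := by
            rw [Finset.sum_congr rfl fun i _ => h1 i]
            simp
    have e3 : ((∑ a ∈ A', d a : ℕ) : ℝ) ≤ N.card := by
      push_cast
      exact e2
    exact e1.trans (by exact_mod_cast e3)
  obtain ⟨f, hf, hft⟩ := (Finset.all_card_le_biUnion_card_iff_exists_injective t).1 hall
  have hcard : Fintype.card S = Fintype.card I := by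
    have e4 : ((Fintype.card S : ℕ) : ℝ) = Fintype.card I := by
      have e5 : Fintype.card S = ∑ a, Fintype.card (Fin (d a)) := Fintype.card_sigma
      rw [e5]
      push_cast
      calc ∑ a, ((Fintype.card (Fin (d a)) : ℕ) : ℝ) = ∑ a, ∑ i, w i a :=
            Finset.sum_congr rfl fun a _ => by rw [h2 a, Fintype.card_fin]
        _ = ∑ i, ∑ a, w i a := Finset.sum_comm
        _ = Fintype.card I := by
            rw [Finset.sum_congr rfl fun i _ => h1 i]
            simp
    exact_mod_cast e4
  have hbij : Function.Bijective f := (Fintype.bijective_iff_injective_and_card f).2 ⟨hf, hcard⟩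
  let e := Equiv.ofBijective f hbij
  refine ⟨fun i => (e.symm i).1, fun i => ?_, fun a => ?_⟩
  · have h3 := hft (e.symm i)
    have h4 : f (e.symm i) = i := e.apply_symm_apply i
    rw [h4] at h3
    simpa [t] using h3
  · rw [cnt_equiv e.symm (fun s : S => s.1 = a), cnt_eq_sum, Fintype.sum_sigma]
    have h5 : ∀ x : A, (∑ _j : Fin (d x), if x = a then 1 else 0) = if x = a then d x else 0 := by
      intro x
      split_ifs <;> simp
    rw [Finset.sum_congr rfl fun x _ => h5 x]
    simp

end Pool.Agent.Work.MP_18db2a_co
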