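import Pool.Agent.Work.MP_18db2a_co.Basic

set_option autoImplicit false

/-!
# DatC (size M, Mathlib only): a proper colouring gives the data `Dat`

`m = card V`, `n = m + δ`.
`dvdT`: the triples of colour `i` are pairwise disjoint with union `cov3 c i`, so `|cov3 c i| = 3 * number` (`Finset.card_biUnion`).
`deg`: the map `i ↦` (the triple of colour `i` which contains `x`) is a bijection from `{i | x ∈ cov3 c i}` to the triples containing `x` (two triples containing `x` have
different colours); they correspond to the pairs of `V \ {x}`: `(m-1).choose 2` (`Finset.card_powersetCard`).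
`trip`: let `𝒥` be the set of all triples `e` with `J (c e)`; for every vertex `v`, `cnt (J i ∧ v ∈ cov3 c i) = ` number of the `e ∈ 𝒥` with `v ∈ e` (the same bijection).  Double
counting: `2 ∑_{v ∈ B} ... = ∑_{e ∈ 𝒥} 2 |e ∩ B|`, `∑_{x ∉ B} ... = ∑_{e ∈ 𝒥} (3 - |e ∩ B|)`, and `2 a ≤ (3 - a) + 3 a (a-1)/2` for `a = 0, 1, 2, 3`.  `∑_e a (a-1)`, `a = |e ∩ B|`, is the number
of the `(e, x, y)` with `x ≠ y ∈ e ∩ B`, at most `β (β-1) (m-2)`: for every ordered pair `x ≠ y` in `B` there are at most `m - 2` triples containing both.  So the excess is at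
most `3 β² m / 2 ≤ 2 β² m`.
-/

namespace Pool.Agent.Work.MP_18db2a_co

open Finset

/-- the triples -/
private def Tr (V : Type) [Fintype V] [DecidableEq V] : Finset (Finset V) := powersetCard 3 univ

private theorem mem_Tr {V : Type} [Fintype V] [DecidableEq V] (e : Finset V) : e ∈ Tr V ↔ e.card = 3 := by
  simp [Tr, mem_powersetCard]

private theorem mem_cov3 {V I : Type} [Fintype V] [DecidableEq V] (c : Finset V → I) (i : I) (x : V) :
    x ∈ cov3 c i ↔ ∃ e : Finset V, e.card = 3 ∧ c e = i ∧ x ∈ e := by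
  simp [cov3]

private theorem cnt_cov {V I : Type} [Fintype V] [DecidableEq V] [Fintype I] [DecidableEq I]
    (c : Finset V → I) (hc : Proper3 c) (J : I → Prop) [DecidablePred J] (v : V) :
    cnt (fun i => J i ∧ v ∈ cov3 c i) = ((Tr V).filter fun e => v ∈ e ∧ J (c e)).card := by
  classical
  rw [cnt_eq]
  have h1 : (univ.filter fun i => J i ∧ v ∈ cov3 c i) =
      ((Tr V).filter fun e => v ∈ e ∧ J (c e)).image c := by
    ext i
    simp only [mem_filter, mem_univ, true_and, mem_image, mem_cov3, mem_Tr]
    constructor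
    · rintro ⟨hJ, e, he, hi, hv⟩
      exact ⟨e, ⟨he, hv, by rwa [hi]⟩, hi⟩
    · rintro ⟨e, ⟨he, hv, hJ⟩, hi⟩
      exact ⟨by rwa [← hi], e, he, hi, hv⟩
  rw [h1, card_image_of_injOn]
  intro e he f hf hef
  rw [mem_coe, mem_filter, mem_Tr] at he hf
  by_contra hne
  have := hc e f he.1 hf.1 hne hef
  exact (disjoint_left.1 this) he.2.1 hf.2.1

private theorem card_pair {V : Type} [Fintype V] [DecidableEq V] (x y : V) (hxy : x ≠ y) :
    ((Tr V).filter fun e => x ∈ e ∧ y ∈ e).card ≤ Fintype.card V := by
  have h1 : ((Tr V).filter fun e => x ∈ e ∧ y ∈ e) ⊆ univ.image (fun z : V => ({x, y, z} : Finset V)) := by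
    intro e he
    rw [mem_filter, mem_Tr] at he
    obtain ⟨h3, hx, hy⟩ := he
    have h4 : ((e.erase x).erase y).card = 1 := by
      rw [card_erase_of_mem, card_erase_of_mem hx, h3]
      exact mem_erase.2 ⟨hxy.symm, hy⟩
    obtain ⟨z, hz⟩ := card_eq_one.1 h4
    rw [mem_image]
    refine ⟨z, mem_univ _, ?_⟩
    rw [← hz]
    ext w
    simp only [mem_insert, mem_erase]
    constructor
    · rintro (h | h | h)
      · rw [h]; exact hx
      · rw [h]; exact hy
      · exact h.2.2
    · intro hw
      by_cases h1 : w = x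
      · exact Or.inl h1
      · by_cases h2 : w = y
        · exact Or.inr (Or.inl h2)
        · exact Or.inr (Or.inr ⟨h2, h1, hw⟩)
  exact (card_le_card h1).trans card_image_le

private theorem card_one {V : Type} [Fintype V] [DecidableEq V] (x : V) :
    ((Tr V).filter fun e => x ∈ e).card = (Fintype.card V - 1).choose 2 := by
  have h1 : ((Tr V).filter fun e => x ∈ e) =
      (powersetCard 2 (univ.erase x)).image (fun f : Finset V => insert x f) := by
    ext e
    simp only [mem_filter, mem_Tr, mem_image, mem_powersetCard]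
    constructor
    · rintro ⟨h3, hx⟩
      refine ⟨e.erase x, ⟨erase_subset_erase _ (subset_univ _), ?_⟩, insert_erase hx⟩
      rw [card_erase_of_mem hx, h3]
    · rintro ⟨f, ⟨hf, h2⟩, rfl⟩
      have hxf : x ∉ f := fun h => by
        have := hf h
        simp at this
      exact ⟨by rw [card_insert_of_notMem hxf, h2], mem_insert_self _ _⟩
  rw [h1, card_image_of_injOn, card_powersetCard, card_erase_of_mem (mem_univ _), card_univ]
  intro f hf g hg hfg
  rw [mem_coe, mem_powersetCard] at hf hg
  have hxf : x ∉ f := fun h => by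
    have := hf.1 h
    simp at this
  have hxg : x ∉ g := fun h => by
    have := hg.1 h
    simp at this
  have h2 : (insert x f).erase x = (insert x g).erase x := by
    have : insert x f = insert x g := hfg
    rw [this]
  rwa [erase_insert hxf, erase_insert hxg] at h2

private theorem sum_inter {V : Type} [Fintype V] [DecidableEq V] (𝒥 : Finset (Finset V)) (B : Finset V) :
    ∑ v ∈ B, (𝒥.filter fun e => v ∈ e).card = ∑ e ∈ 𝒥, (e ∩ B).card := by
  simp only [card_filter]
  rw [sum_comm]
  refine sum_congr rfl fun e _ => ?_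
  rw [← card_filter]
  congr 1
  ext v
  simp only [mem_filter, mem_inter]
  tauto

private theorem sum_offDiag {V : Type} [Fintype V] [DecidableEq V] (𝒥 : Finset (Finset V)) (B : Finset V) :
    ∑ e ∈ 𝒥, (e ∩ B).offDiag.card = ∑ p ∈ B.offDiag, (𝒥.filter fun e => p.1 ∈ e ∧ p.2 ∈ e).card := by
  simp only [card_filter]
  rw [sum_comm]
  refine sum_congr rfl fun e _ => ?_
  rw [← card_filter]
  congr 1
  ext p
  simp only [mem_filter, mem_inter, mem_offDiag]
  tauto

theorem dat_of_proper {V I : Type} [Fintype V] [DecidableEq V] [Fintype I] [DecidableEq I] (δ : ℕ)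
    (h1 : Fintype.card V + 1 ≤ δ) (h2 : δ ≤ Fintype.card V + 3) (h3 : 3 ∣ Fintype.card V + δ)
    (hI : Fintype.card I = (Fintype.card V + δ - 1).choose 2) (c : Finset V → I) (hc : Proper3 c) :
    Dat (cov3 c) δ := by
  classical
  refine ⟨h1, h2, h3, hI, ?_, ?_, ?_⟩
  · intro i
    have h4 : cov3 c i = ((Tr V).filter fun e => c e = i).biUnion id := by
      ext x
      simp only [mem_cov3, mem_biUnion, mem_filter, mem_Tr, id]
      constructor
      · rintro ⟨e, he, hi, hx⟩
        exact ⟨e, ⟨he, hi⟩, hx⟩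
      · rintro ⟨e, ⟨he, hi⟩, hx⟩
        exact ⟨e, he, hi, hx⟩
    rw [h4, card_biUnion]
    · refine dvd_sum fun e he => ?_
      rw [mem_filter, mem_Tr] at he
      simp only [id]
      rw [he.1]
    · intro e he f hf hne
      rw [mem_coe, mem_filter, mem_Tr] at he hf
      exact hc e f he.1 hf.1 hne (he.2.trans hf.2.symm)
  · intro x
    have h4 := cnt_cov c hc (fun _ => True) x
    rw [← card_one x]
    simp only [true_and, and_true] at h4
    exact h4
  · intro B J
    set 𝒥 : Finset (Finset V) := (Tr V).filter fun e => J (c e) with h𝒥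
    have e1 : ∀ v, cnt (fun i => J i ∧ v ∈ cov3 c i) = (𝒥.filter fun e => v ∈ e).card := by
      intro v
      rw [cnt_cov c hc J v, h𝒥, filter_filter]
      congr 1
      ext e
      simp only [mem_filter]
      tauto
    simp only [e1]
    rw [sum_inter, sum_inter]
    have e2 : ∀ e ∈ 𝒥, 4 * (e ∩ B).card ≤ 2 * (e ∩ Bᶜ).card + 3 * (e ∩ B).offDiag.card := by
      intro e he
      rw [h𝒥, mem_filter, mem_Tr] at he
      have h5 : (e ∩ B).card + (e ∩ Bᶜ).card = 3 := by
        rw [← he.1, ← card_union_of_disjoint]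
        · congr 1
          ext x
          simp only [mem_union, mem_inter, mem_compl]
          tauto
        · rw [disjoint_left]
          intro x hx hx'
          simp only [mem_inter, mem_compl] at hx hx'
          exact hx'.2 hx.2
      rw [offDiag_card]
      have h6 : (e ∩ B).card ≤ 3 := by omega
      have h7 : (e ∩ Bᶜ).card = 3 - (e ∩ B).card := by omega
      rw [h7]
      interval_cases (e ∩ B).card <;> omega
    have e3 : ∑ e ∈ 𝒥, (e ∩ B).offDiag.card ≤ B.card ^ 2 * Fintype.card V := by
      rw [sum_offDiag]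
      have h5 : ∀ p ∈ B.offDiag, (𝒥.filter fun e => p.1 ∈ e ∧ p.2 ∈ e).card ≤ Fintype.card V := by
        intro p hp
        rw [mem_offDiag] at hp
        refine le_trans (card_le_card ?_) (card_pair p.1 p.2 hp.2.2)
        rw [h𝒥]
        exact filter_subset_filter _ (filter_subset _ _)
      refine (sum_le_sum h5).trans ?_
      rw [sum_const, smul_eq_mul]
      refine Nat.mul_le_mul_right _ ?_
      rw [offDiag_card, pow_two]
      exact Nat.sub_le _ _
    have e4 : 4 * ∑ e ∈ 𝒥, (e ∩ B).card ≤
        2 * ∑ e ∈ 𝒥, (e ∩ Bᶜ).card + 3 * ∑ e ∈ 𝒥, (e ∩ B).offDiag.card := by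
      rw [mul_sum, mul_sum, mul_sum, ← sum_add_distrib]
      exact sum_le_sum e2
    have e5 : 3 * ∑ e ∈ 𝒥, (e ∩ B).offDiag.card ≤ 4 * (B.card ^ 2 * Fintype.card V) := by omega
    have e6 : 2 * B.card ^ 2 * Fintype.card V = 2 * (B.card ^ 2 * Fintype.card V) := by ring
    rw [e6]
    omega

end Pool.Agent.Work.MP_18db2a_co
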