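import Mathlib

set_option autoImplicit false

/-!
# Definitions for MP_18db2a_co (extension of proper colourings of `K_m^3` to `K_n^3`, `n` just above `2 m`)

`V` is the vertex set of `K_m^3` (`m = Fintype.card V`), `I` the set of colours, `T i` the set of vertices covered
by the triples of colour `i`, `δ = n - m`.
-/

namespace Pool.Agent.Work.MP_18db2a_co

open scoped Classical in
/-- number of elements with the property `p` -/
noncomputable def cnt {A : Type} [Fintype A] (p : A → Prop) : ℕ := (Finset.univ.filter p).card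

/-- average of a function on a finite set -/
noncomputable def av {Ω : Type} [Fintype Ω] (f : Ω → ℝ) : ℝ := (∑ ω, f ω) / Fintype.card Ω

/-- probability of an event for the uniform distribution on a finite set -/
noncomputable def pr {Ω : Type} [Fintype Ω] (p : Ω → Prop) : ℝ := (cnt p : ℝ) / Fintype.card Ω

/-- `M` is (the symmetric relation of) a matching, all vertices of the edges are in `U` -/
structure IsMat {V : Type} (U : Finset V) (M : V → V → Prop) : Prop where
  symm : ∀ x y, M x y → M y x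
  irr : ∀ x, ¬ M x x
  uniq : ∀ x y z, M x y → M x z → y = z
  mem : ∀ x y, M x y → x ∈ U

/-- number of vertices covered by `M` (twice the number of edges of a matching) -/
noncomputable def nv {V : Type} [Fintype V] (M : V → V → Prop) : ℕ := cnt fun x => ∃ y, M x y

/-- `x` is not covered by `M` -/
def Unc {V : Type} (M : V → V → Prop) (x : V) : Prop := ∀ y, ¬ M x y

/-- load of the pair `x y`: number of colours which contain it -/
noncomputable def ld {V I : Type} [Fintype I] (F : I → V → V → Prop) (x y : V) : ℕ := cnt fun i => F i x y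

/-- `x` is a fractional matching with support in the pairs of `U`; entries at most `1 / |U|`, all loads of
vertices at most `1 - τ` -/
structure Wt {V : Type} [Fintype V] (U : Finset V) (x : V → V → ℝ) (τ : ℝ) : Prop where
  nonneg : ∀ a b, 0 ≤ x a b
  symm : ∀ a b, x a b = x b a
  diag : ∀ a, x a a = 0
  out : ∀ a b, a ∉ U → x a b = 0
  le : ∀ a b, x a b * (U.card : ℝ) ≤ 1
  cov : ∀ a, ∑ b, x a b ≤ 1 - τ

/-- a random matching `M` in `U` (on the finite probability space `Ω`) with the marginals `x` and with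
concentration of the size and of the numbers of free edges of another matching `N` -/
structure Pk {V Ω : Type} [Fintype V] [Fintype Ω] (U : Finset V) (x : V → V → ℝ) (τ : ℝ) (Q : ℕ)
    (M : Ω → V → V → Prop) : Prop where
  mat : ∀ ω, IsMat U (M ω)
  pos : ∀ ω a b, M ω a b → 0 < x a b
  marg : ∀ a b, a ≠ b → x a b ≤ pr (fun ω => M ω a b) ∧ pr (fun ω => M ω a b) ≤ x a b + 1 / (Q : ℝ)
  unc : ∀ a b, a ∈ U → b ∈ U → a ≠ b →
    τ ^ 2 - 20 / (U.card : ℝ) ≤ pr (fun ω => Unc (M ω) a ∧ Unc (M ω) b)
  size : ∀ t : ℝ, 0 ≤ t → pr (fun ω => t + 2 ≤ |(nv (M ω) : ℝ) - ∑ a, ∑ b, x a b|) ≤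
    2 * Real.exp (- t ^ 2 / (128 * (Fintype.card V : ℝ)))
  avail : ∀ N : V → V → Prop, IsMat Finset.univ N → ∀ t : ℝ, 0 ≤ t →
    pr (fun ω => (cnt (fun e : V × V => N e.1 e.2 ∧ e.1 ∈ U ∧ e.2 ∈ U ∧ Unc (M ω) e.1 ∧ Unc (M ω) e.2) : ℝ) ≤
      (τ ^ 2 - 20 / (U.card : ℝ)) * cnt (fun e : V × V => N e.1 e.2 ∧ e.1 ∈ U ∧ e.2 ∈ U) - t) ≤
      Real.exp (- t ^ 2 / (512 * (Fintype.card V : ℝ)))

/-- The abstract data of a proper colouring of `K_m^3` with `(n-1).choose 2` colours: `T i` is the set of
vertices covered by colour `i` and `n = card V + δ`. -/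
structure Dat {V I : Type} [Fintype V] [DecidableEq V] [Fintype I] (T : I → Finset V) (δ : ℕ) : Prop where
  lo : Fintype.card V + 1 ≤ δ
  hi : δ ≤ Fintype.card V + 3
  dvd : 3 ∣ Fintype.card V + δ
  card : Fintype.card I = (Fintype.card V + δ - 1).choose 2
  dvdT : ∀ i, 3 ∣ (T i).card
  deg : ∀ x, cnt (fun i => x ∈ T i) = (Fintype.card V - 1).choose 2
  trip : ∀ (B : Finset V) (J : I → Prop), 2 * ∑ v ∈ B, cnt (fun i => J i ∧ v ∈ T i) ≤
    ∑ x ∈ Bᶜ, cnt (fun i => J i ∧ x ∈ T i) + 2 * B.card ^ 2 * Fintype.card V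

/-- The matchings `F i` decompose the complete graph on `V` with all multiplicities `δ`, avoid `T i` and are
large enough. -/
structure Sol {V I : Type} [Fintype V] [DecidableEq V] [Fintype I] (T : I → Finset V) (δ : ℕ)
    (F : I → V → V → Prop) : Prop where
  mat : ∀ i, IsMat (T i)ᶜ (F i)
  load : ∀ x y, x ≠ y → ld F x y = δ
  size : ∀ i, 4 * (T i)ᶜ.card ≤ 3 * nv (F i) + 2 * δ

/-- `i` is a light colour -/
def Light {V I : Type} [Fintype V] (T : I → Finset V) (i : I) : Prop := 10 ^ 10 * (T i).card ≤ Fintype.card V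

/-- `i` is a heavy colour -/
def Heavy {V I : Type} [Fintype V] (T : I → Finset V) (i : I) : Prop := ¬ Light T i

/-- thresholds for the random matching: `x` times the number of pairs of `Fin u` -/
noncomputable def thr {u : ℕ} (x : Fin u → Fin u → ℝ) (a b : Fin u) : ℝ := x a b * ((u : ℝ) * ((u : ℝ) - 1) / 2)

/-- the random matching on `Fin u`: `σ` is the permutation of the positions, the pair `a b` is kept if
`{σ a, σ b} = {2 j, 2 j + 1}` with `j + s < y a b` -/
def rm {u : ℕ} (y : Fin u → Fin u → ℝ) (s : ℝ) (σ : Equiv.Perm (Fin u)) (a b : Fin u) : Prop :=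
  ∃ j : ℕ, (j : ℝ) + s < y a b ∧ (((σ a : ℕ) = 2 * j ∧ (σ b : ℕ) = 2 * j + 1) ∨
    ((σ a : ℕ) = 2 * j + 1 ∧ (σ b : ℕ) = 2 * j))

/-- colourings of the triples: distinct triples of the same colour are disjoint (only the values on
three-element sets matter) -/
def Proper3 {V I : Type} (c : Finset V → I) : Prop :=
  ∀ e f : Finset V, e.card = 3 → f.card = 3 → e ≠ f → c e = c f → Disjoint e f

open scoped Classical in
/-- vertices covered by the triples of colour `i` -/
noncomputable def cov3 {V I : Type} [Fintype V] (c : Finset V → I) (i : I) : Finset V :=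
  Finset.univ.filter fun x => ∃ e : Finset V, e.card = 3 ∧ c e = i ∧ x ∈ e

/-- stage `N` of the detachment: for every colour `i` a partition `π i` of `range N` into parts with at most
three members -/
structure St {I : Type} [Fintype I] (n N : ℕ) (π : I → Finset (Finset ℕ)) : Prop where
  sub : ∀ i, ∀ A ∈ π i, A ⊆ Finset.range N
  ne : ∀ i, ∀ A ∈ π i, A.Nonempty
  le : ∀ i, ∀ A ∈ π i, A.card ≤ 3
  disj : ∀ i, ∀ A ∈ π i, ∀ B ∈ π i, A ≠ B → Disjoint A B
  cov : ∀ i, ∀ x, x < N → ∃ A ∈ π i, x ∈ A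
  parts : ∀ i, 3 * (π i).card ≤ n
  one : ∀ A, A ⊆ Finset.range N → A.card = 1 → cnt (fun i => A ∈ π i) = (n - N).choose 2
  two : ∀ A, A ⊆ Finset.range N → A.card = 2 → cnt (fun i => A ∈ π i) = n - N
  three : ∀ A, A ⊆ Finset.range N → A.card = 3 → cnt (fun i => A ∈ π i) = 1

end Pool.Agent.Work.MP_18db2a_co
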