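import Pool.Agent.Work.MP_18db2a_co.Basic

set_option autoImplicit false

/-!
# Definitions for the two cases

Case N: at least `(1/2 + 10^(-6)) m²` heavy colours; weights `wt`, fractional solution `yN`.
Case E: fewer heavy colours; `Bad T`: vertices which are covered by many light colours; `FB`: matchings which contain all pairs that meet
`Bad T`; `G`: matchings of the heavy colours outside `Bad T`; `UU T FB i`: the vertices which are still free for colour `i`; `dem`: remaining
demand; `tI`: remaining number of edges needed in colour `i`.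
-/

namespace Pool.Agent.Work.MP_18db2a_co

open Finset

section

variable {V I : Type} [Fintype V] [DecidableEq V] [Fintype I]

open scoped Classical in
/-- weights of the colours -/
noncomputable def wt (T : I → Finset V) (i : I) : ℝ := if Light T i then 1 - 1 / 10 ^ 34 else 1

open scoped Classical in
/-- total weight of the colours which are free at `a` and `b` -/
noncomputable def WW (T : I → Finset V) (a b : V) : ℝ := ∑ i, if a ∉ T i ∧ b ∉ T i then wt T i else 0

open scoped Classical in
/-- the fractional solution in case N -/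
noncomputable def yN (T : I → Finset V) (δ : ℕ) (i : I) (a b : V) : ℝ :=
  if a ≠ b ∧ a ∉ T i ∧ b ∉ T i then δ * wt T i / WW T a b else 0

open scoped Classical in
/-- vertices covered by many light colours -/
noncomputable def Bad (T : I → Finset V) : Finset V :=
  univ.filter fun v => Fintype.card V ^ 2 ≤ 10 ^ 4 * cnt (fun i => Light T i ∧ v ∈ T i)

open scoped Classical in
/-- vertices outside `Bad T`, free for colour `i` -/
noncomputable def UU (T : I → Finset V) (FB : I → V → V → Prop) (i : I) : Finset V :=
  univ.filter fun x => x ∉ T i ∧ x ∉ Bad T ∧ Unc (FB i) x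

open scoped Classical in
/-- remaining demand of the pairs -/
noncomputable def dem (T : I → Finset V) (δ : ℕ) (G : I → V → V → Prop) (a b : V) : ℕ :=
  if a = b ∨ a ∈ Bad T ∨ b ∈ Bad T then 0 else δ - ld G a b

/-- the number of edges needed in colour `i`: `3 * bI = 2 |U i| - δ` -/
noncomputable def bI (T : I → Finset V) (δ : ℕ) (i : I) : ℤ := (2 * (((T i)ᶜ).card : ℤ) - δ) / 3

/-- remaining number of edges needed in colour `i` -/
noncomputable def tI (T : I → Finset V) (δ : ℕ) (FB : I → V → V → Prop) (i : I) : ℤ :=
  bI T δ i - (nv (FB i) : ℤ) / 2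

open scoped Classical in
/-- the fractional solution for the light colours in case E -/
noncomputable def yE (T : I → Finset V) (δ : ℕ) (FB G : I → V → V → Prop) (i : I) (a b : V) : ℝ :=
  if a ≠ b ∧ a ∈ UU T FB i ∧ b ∈ UU T FB i then
    (dem T δ G a b : ℝ) / cnt (fun j => Light T j ∧ a ∈ UU T FB j ∧ b ∈ UU T FB j) else 0

/-- the type of the light colours -/
def LI (T : I → Finset V) : Type := {i : I // Light T i}

noncomputable instance instFintypeLI (T : I → Finset V) : Fintype (LI T) := by
  classical
  exact inferInstanceAs (Fintype {i : I // Light T i})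

noncomputable instance instDecLI (T : I → Finset V) : DecidableEq (LI T) := Classical.decEq _

open scoped Classical in
theorem sum_LI (T : I → Finset V) (f : I → ℝ) : ∑ i : LI T, f i.1 = ∑ i, if Light T i then f i else 0 := by
  rw [← Finset.sum_filter]
  refine (Finset.sum_subtype _ (fun x => ?_) f).symm
  simp

open scoped Classical in
theorem sum_LI_int (T : I → Finset V) (f : I → ℤ) : ∑ i : LI T, f i.1 = ∑ i, if Light T i then f i else 0 := by
  rw [← Finset.sum_filter]
  refine (Finset.sum_subtype _ (fun x => ?_) f).symm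
  simp

theorem cnt_LI (T : I → Finset V) (p : I → Prop) :
    cnt (fun i : LI T => p i.1) = cnt (fun i => Light T i ∧ p i) := by
  classical
  refine le_antisymm (cnt_le_of_inj (fun i => i.1) (fun i hi => ⟨i.2, hi⟩) fun i j _ _ h => Subtype.ext h) ?_
  rw [cnt_eq, cnt_eq]
  refine (Finset.card_le_card_of_surjOn (fun i : LI T => i.1) ?_)
  intro i hi
  have hi' := (mem_filter.1 (by exact_mod_cast hi)).2
  exact ⟨⟨i, hi'.1⟩, by simpa using hi'.2, rfl⟩

/-- case E -/
def CaseE (T : I → Finset V) : Prop :=
  (cnt (fun i => Heavy T i) : ℝ) < (1 / 2 + 1 / 10 ^ 6) * (Fintype.card V : ℝ) ^ 2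

/-- the matchings `FB` -/
structure IsFB (T : I → Finset V) (δ : ℕ) (FB : I → V → V → Prop) : Prop where
  mat : ∀ i, IsMat (T i)ᶜ (FB i)
  bad : ∀ i a b, FB i a b → a ∈ Bad T ∨ b ∈ Bad T
  load : ∀ a b, a ≠ b → (a ∈ Bad T ∨ b ∈ Bad T) → ld FB a b = δ

/-- the matchings `G` -/
structure IsG (T : I → Finset V) (δ : ℕ) (FB G : I → V → V → Prop) : Prop where
  mat : ∀ i, IsMat (UU T FB i) (G i)
  light : ∀ i, Light T i → ∀ a b, ¬ G i a b
  size : ∀ i, Heavy T i → nv (G i) = 2 * (tI T δ FB i).toNat
  load : ∀ a b, 10 ^ 4 * ld G a b ≤ Fintype.card V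

end

end Pool.Agent.Work.MP_18db2a_co
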