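import Pool.Agent.Work.MP_18db2a_co.DefsE
import Pool.Agent.Work.MP_18db2a_co.Cnt

set_option autoImplicit false

/-!
# EBd (size M, uses the statement of Cnt): sizes of the classes in case E

`m = card V`, `γ = 10^(-10)`, `card I ≤ 2.1 m²` for large `m`.
(1) `∑_{v ∈ Bad T} cnt (Light ∧ v ∈ T i) ≤ ∑_{i light} |T i| ≤ γ m * 2.1 m²`, and every summand on the left is `≥ 10^(-4) m²`: `|Bad T| ≤ 2.1 * 10^(-6) m`.
(2) `cnt Light = card I - cnt Heavy ≥ 2 m² - m - (1/2 + 10^(-6)) m² ≥ 1.4999 m²`.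
(3) `m³/2 - 1.5 m² ≤ ∑ |T i| ≤ m * cnt Heavy + γ m * 2.1 m²` (`sum_T`), so `cnt Heavy ≥ (1/2 - 2.1 γ) m² - 1.5 m`; `cnt Light ≤ 2 m² + 3 m + 1 - cnt Heavy ≤ 1.50001 m²`.
(4) `∑_{i heavy} (m - |T i|) ≤ m (1/2 + 10^(-6)) m² - (∑ |T i| - 2.1 γ m³) ≤ (10^(-6) + 2.1 γ) m³ + 1.5 m²`, and the members of the class have `m - |T i| ≥ m/2`: at most `2.001 * 10^(-6) m² + 3 m ≤ 2.5 * 10^(-6) m²` members.
-/

namespace Pool.Agent.Work.MP_18db2a_co

open Finset

theorem caseE_bounds : ∃ m₀ : ℕ, ∀ (V I : Type) [Fintype V] [DecidableEq V] [Fintype I] (T : I → Finset V) (δ : ℕ),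
    m₀ ≤ Fintype.card V → Dat T δ → CaseE T →
      10 ^ 5 * (Bad T).card ≤ Fintype.card V ∧
      14999 / 10000 * (Fintype.card V : ℝ) ^ 2 ≤ cnt (fun i => Light T i) ∧
      (cnt (fun i => Light T i) : ℝ) ≤ 150001 / 100000 * (Fintype.card V : ℝ) ^ 2 ∧
      4 * 10 ^ 5 * cnt (fun i => Heavy T i ∧ 2 * (T i).card ≤ Fintype.card V) ≤ Fintype.card V ^ 2 := by
  classical
  refine ⟨10 ^ 8, ?_⟩
  intro V I _ _ _ T δ hm hD hE
  obtain ⟨hk1, hk2⟩ := card_bounds hD (by omega)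
  have hS := sum_T hD
  have hE' : (cnt (fun i => Heavy T i) : ℝ) < (1 / 2 + 1 / 10 ^ 6) * (Fintype.card V : ℝ) ^ 2 := hE
  have hkk : (cnt (fun i => Light T i) : ℝ) + cnt (fun i => Heavy T i) = Fintype.card I := by
    exact_mod_cast cnt_add_not (fun i => Light T i)
  set m : ℝ := (Fintype.card V : ℝ) with hmdef
  have hm8 : (10 : ℝ) ^ 8 ≤ m := by
    rw [hmdef]
    exact_mod_cast hm
  set l : ℝ := (cnt (fun i => Light T i) : ℝ) with hl
  set h : ℝ := (cnt (fun i => Heavy T i) : ℝ) with hh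
  set k : ℝ := (Fintype.card I : ℝ) with hk
  have hl0 : 0 ≤ l := Nat.cast_nonneg _
  have hh0 : 0 ≤ h := Nat.cast_nonneg _
  have hTm : ∀ i, ((T i).card : ℝ) ≤ m := by
    intro i
    rw [hmdef]
    exact_mod_cast Finset.card_le_univ (T i)
  set SL : ℝ := ∑ i, (if Light T i then ((T i).card : ℝ) else 0) with hSL
  set SH : ℝ := ∑ i, (if Heavy T i then ((T i).card : ℝ) else 0) with hSH
  have hsplit : SL + SH = m * (m - 1) * (m - 2) / 2 := by
    rw [← hS, hSL, hSH, ← Finset.sum_add_distrib]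
    refine Finset.sum_congr rfl fun i _ => ?_
    by_cases hi : Light T i
    · have : ¬ Heavy T i := fun h => h hi
      rw [if_pos hi, if_neg this]
      ring
    · have : Heavy T i := hi
      rw [if_neg hi, if_pos this]
      ring
  have hSLle : SL ≤ l * (m / 10 ^ 10) := by
    rw [hSL, hl, cnt_coe, Finset.sum_mul]
    refine Finset.sum_le_sum fun i _ => ?_
    by_cases hi : Light T i
    · rw [if_pos hi, if_pos hi, one_mul, le_div_iff₀ (by norm_num)]
      have : (10 : ℝ) ^ 10 * ((T i).card : ℝ) ≤ m := by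
        rw [hmdef]
        exact_mod_cast hi
      linarith
    · rw [if_neg hi, if_neg hi]
      simp
  have hSHle : SH ≤ h * m := by
    rw [hSH, hh, cnt_coe, Finset.sum_mul]
    refine Finset.sum_le_sum fun i _ => ?_
    by_cases hi : Heavy T i
    · rw [if_pos hi, if_pos hi, one_mul]
      exact hTm i
    · rw [if_neg hi, if_neg hi]
      simp
  have hm2 : 0 < m ^ 2 := by positivity
  have hm0 : 0 < m := by linarith
  have hk3 : k ≤ 21 / 10 * m ^ 2 := by nlinarith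
  have hlk : l ≤ 21 / 10 * m ^ 2 := by linarith
  have hSL2 : SL ≤ 21 / 10 * m ^ 2 * (m / 10 ^ 10) :=
    hSLle.trans (mul_le_mul_of_nonneg_right hlk (by positivity))
  refine ⟨?_, ?_, ?_, ?_⟩
  · -- Bad
    have h1 : ((Bad T).card : ℝ) * (m ^ 2 / 10 ^ 4) ≤ SL := by
      have h2 : ∀ v ∈ Bad T, m ^ 2 / 10 ^ 4 ≤ (cnt (fun i => Light T i ∧ v ∈ T i) : ℝ) := by
        intro v hv
        have h5 : Fintype.card V ^ 2 ≤ 10 ^ 4 * cnt (fun i => Light T i ∧ v ∈ T i) := (mem_filter.1 hv).2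
        have h6 : m ^ 2 ≤ 10 ^ 4 * (cnt (fun i => Light T i ∧ v ∈ T i) : ℝ) := by
          rw [hmdef]
          exact_mod_cast h5
        rw [div_le_iff₀ (by norm_num)]
        linarith
      have h3 : ∑ v, cnt (fun i => Light T i ∧ v ∈ T i) = ∑ i, cnt (fun v => Light T i ∧ v ∈ T i) :=
        cnt_comm (fun v i => Light T i ∧ v ∈ T i)
      have h4 : ∀ i, (cnt (fun v => Light T i ∧ v ∈ T i) : ℝ) = if Light T i then ((T i).card : ℝ) else 0 := by
        intro i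
        by_cases hi : Light T i
        · rw [if_pos hi, ← cnt_mem (T i)]
          congr 1
          exact cnt_congr fun v => ⟨fun h => h.2, fun h => ⟨hi, h⟩⟩
        · rw [if_neg hi, cnt_eq_zero (fun v h => hi h.1)]
          simp
      calc ((Bad T).card : ℝ) * (m ^ 2 / 10 ^ 4) = ∑ v ∈ Bad T, m ^ 2 / 10 ^ 4 := by
            rw [Finset.sum_const, nsmul_eq_mul]
        _ ≤ ∑ v ∈ Bad T, (cnt (fun i => Light T i ∧ v ∈ T i) : ℝ) := Finset.sum_le_sum h2
        _ ≤ ∑ v, (cnt (fun i => Light T i ∧ v ∈ T i) : ℝ) :=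
            Finset.sum_le_sum_of_subset_of_nonneg (Finset.subset_univ _) fun _ _ _ => Nat.cast_nonneg _
        _ = ∑ i, (cnt (fun v => Light T i ∧ v ∈ T i) : ℝ) := by exact_mod_cast h3
        _ = SL := Finset.sum_congr rfl fun i _ => h4 i
    have h2 : ((Bad T).card : ℝ) * (m ^ 2 / 10 ^ 4) ≤ 21 / 10 ^ 7 * m * (m ^ 2 / 10 ^ 4) := by
      refine h1.trans (hSL2.trans (le_of_eq ?_))
      ring
    have h3 : ((Bad T).card : ℝ) ≤ 21 / 10 ^ 7 * m := le_of_mul_le_mul_right h2 (by positivity)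
    have h4 : (10 : ℝ) ^ 5 * ((Bad T).card : ℝ) ≤ m := by nlinarith
    rw [hmdef] at h4
    exact_mod_cast h4
  · nlinarith
  · have h1 : m * (m - 1) * (m - 2) / 2 ≤ h * m + 21 / 10 * m ^ 2 * (m / 10 ^ 10) := by linarith
    have h2 : m * ((m - 1) * (m - 2) / 2) ≤ m * (h + 21 / 10 * m * (m / 10 ^ 10)) := by
      refine le_trans (le_of_eq ?_) (h1.trans (le_of_eq ?_)) <;> ring
    have h3 : (m - 1) * (m - 2) / 2 ≤ h + 21 / 10 * m * (m / 10 ^ 10) := le_of_mul_le_mul_left h2 hm0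
    nlinarith
  · set M : ℝ := (cnt (fun i => Heavy T i ∧ 2 * (T i).card ≤ Fintype.card V) : ℝ) with hM
    have h1 : M * (m / 2) ≤ h * m - SH := by
      rw [hM, hh, hSH, cnt_coe, cnt_coe, Finset.sum_mul, Finset.sum_mul, ← Finset.sum_sub_distrib]
      refine Finset.sum_le_sum fun i _ => ?_
      by_cases hi : Heavy T i
      · rw [if_pos hi, if_pos hi]
        by_cases h2 : 2 * (T i).card ≤ Fintype.card V
        · rw [if_pos ⟨hi, h2⟩]
          have : (2 : ℝ) * ((T i).card : ℝ) ≤ m := by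
            rw [hmdef]
            exact_mod_cast h2
          linarith
        · rw [if_neg fun h => h2 h.2]
          have := hTm i
          linarith
      · rw [if_neg hi, if_neg hi, if_neg fun h => hi h.1]
        simp
    have h2 : M * (m / 2) ≤ (1 / 2 + 1 / 10 ^ 6) * m ^ 2 * m - (m * (m - 1) * (m - 2) / 2 -
        21 / 10 * m ^ 2 * (m / 10 ^ 10)) := by
      have h3 : h * m ≤ (1 / 2 + 1 / 10 ^ 6) * m ^ 2 * m := mul_le_mul_of_nonneg_right hE'.le hm0.le
      linarith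
    have h3 : M * (m / 2) ≤ (2 * ((1 / 10 ^ 6 + 21 / 10 ^ 11) * m ^ 2) + 3 * m) * (m / 2) := by
      refine h2.trans ?_
      nlinarith
    have h4 : M ≤ 2 * ((1 / 10 ^ 6 + 21 / 10 ^ 11) * m ^ 2) + 3 * m :=
      le_of_mul_le_mul_right h3 (by positivity)
    have h5 : 4 * (10 : ℝ) ^ 5 * M ≤ m ^ 2 := by nlinarith
    rw [hM, hmdef] at h5
    exact_mod_cast h5

end Pool.Agent.Work.MP_18db2a_co
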