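import Pool.Agent.Work.MP_18db2a_co.EMed

set_option autoImplicit false

/-!
# EFrac (size M-L, uses the statements of EBd, EMed, Cnt): the fractional solution for the light colours in case E

`m = card V`, `β = |Bad T| ≤ 10^(-5) m`, `Λ a b = cnt (Light j ∧ a ∈ UU j ∧ b ∈ UU j)`.
(0) `cover`: for `a ∉ Bad T` the number of the colours `j` with `¬ Unc (FB j) a` is `∑_{v ∈ Bad T} ld FB a v = δ β ≤ 2 * 10^(-5) m²`.
(1) For `a ≠ b`, both not in `Bad T`: `cnt Light - 2 * 10^(-4) m² - 4 * 10^(-5) m² ≤ Λ a b ≤ cnt Light`: a light `j` not counted has `a ∈ T j` or `b ∈ T j` (less than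
`10^(-4) m²` each since `a, b ∉ Bad T`) or `FB j` covers `a` or `b`.  So `1.4996 m² ≤ Λ a b ≤ 1.50001 m²`.
(2) `dem a b = δ - ld G a b ∈ [δ - 10^(-4) m, δ]` for these pairs; `0` for all others.
(3) `Wt`: entries `≤ (m + 3)/(1.4996 m²)`, so `le` and `cov` (`≤ 0.7`); symmetric, zero outside `UU`.
(4) `∑ i : LI T, yE = dem`: if `a ∉ Bad`, `b ∉ Bad`, `a ≠ b`: there are `Λ a b` summands `dem / Λ` (`cnt_LI`, `sum_LI`); otherwise both sides are `0` (`UU` avoids `Bad T`).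
(5) `|UU i| ≥ |(T i)ᶜ| - 2 β ≥ (1 - 10^(-10) - 2 * 10^(-5)) m` for light `i` (`UU_card`).
(6) `tI = bI - nv (FB i)/2` with `bI = (2 |(T i)ᶜ| - δ)/3 ∈ [m/3 - 10^(-10) m - 1, m/3]`, `0 ≤ nv (FB i) ≤ 2 β`; so `2 tI ∈ [0.6666 m - 2, 0.66667 m]`, in particular `tI ≥ m/4`.
(7) `∑∑ yE ≤ m² (m + 3)/(1.4996 m²) ≤ 0.66685 m + 3` and `∑∑ yE ≥ |UU|(|UU| - 1)(δ - 10^(-4) m)/(1.50001 m²) ≥ 0.6664 m - 2`.
So `|∑∑ yE - 2 tI| ≤ 0.0005 m + 5 ≤ m/500`.
-/

namespace Pool.Agent.Work.MP_18db2a_co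

open Finset

section

set_option linter.unusedSectionVars false

variable {V I : Type} [Fintype V] [DecidableEq V] [Fintype I] {T : I → Finset V} {δ : ℕ}
  {FB G : I → V → V → Prop}

private theorem ef_mem_UU {i : I} {x : V} :
    x ∈ UU T FB i ↔ x ∉ T i ∧ x ∉ Bad T ∧ Unc (FB i) x := by
  unfold UU
  simp only [mem_filter, mem_univ, true_and]

private theorem ef_notBad {a : V} (ha : a ∉ Bad T) :
    10 ^ 4 * cnt (fun i => Light T i ∧ a ∈ T i) ≤ Fintype.card V ^ 2 := by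
  by_contra h
  apply ha
  unfold Bad
  simp only [mem_filter, mem_univ, true_and]
  exact (not_le.1 h).le

private theorem ef_exists_le (B : Finset V) (R : V → I → Prop) :
    cnt (fun j => ∃ v ∈ B, R v j) ≤ ∑ v ∈ B, cnt (fun j => R v j) := by
  classical
  induction B using Finset.induction_on with
  | empty =>
    rw [cnt_eq_zero (fun x hx => by simp at hx)]
    simp
  | insert a s ha ih =>
    rw [Finset.sum_insert ha]
    refine le_trans (cnt_mono (q := fun j => R a j ∨ ∃ v ∈ s, R v j) fun j hj => ?_)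
      ((cnt_or_le _ _).trans (Nat.add_le_add_left ih _))
    obtain ⟨v, hv, hR⟩ := hj
    rcases Finset.mem_insert.1 hv with rfl | hv
    · exact Or.inl hR
    · exact Or.inr ⟨v, hv, hR⟩

private theorem ef_cover (hF : IsFB T δ FB) {a : V} (ha : a ∉ Bad T) :
    cnt (fun j => ¬ Unc (FB j) a) ≤ (Bad T).card * δ := by
  have h1 : cnt (fun j => ¬ Unc (FB j) a) ≤ cnt (fun j => ∃ v ∈ Bad T, FB j a v) := by
    refine cnt_mono fun j hj => ?_
    unfold Unc at hj
    push Not at hj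
    obtain ⟨v, hv⟩ := hj
    rcases hF.bad j a v hv with h | h
    · exact absurd h ha
    · exact ⟨v, h, hv⟩
  refine h1.trans ((ef_exists_le _ _).trans ?_)
  have h2 : ∀ v ∈ Bad T, cnt (fun j => FB j a v) = δ := fun v hv =>
    hF.load a v (fun h => ha (h ▸ hv)) (Or.inr hv)
  rw [Finset.sum_congr rfl h2, Finset.sum_const, smul_eq_mul]

private theorem ef_out (hF : IsFB T δ FB) {a : V} (ha : a ∉ Bad T) :
    cnt (fun j => Light T j ∧ a ∉ UU T FB j) ≤
      cnt (fun j => Light T j ∧ a ∈ T j) + (Bad T).card * δ := by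
  refine le_trans (cnt_mono (q := fun j => (Light T j ∧ a ∈ T j) ∨ ¬ Unc (FB j) a) fun j hj => ?_)
    ((cnt_or_le _ _).trans (Nat.add_le_add_left (ef_cover hF ha) _))
  by_cases h1 : a ∈ T j
  · exact Or.inl ⟨hj.1, h1⟩
  · refine Or.inr fun h2 => hj.2 ?_
    rw [ef_mem_UU]
    exact ⟨h1, ha, h2⟩

private theorem ef_lam (hF : IsFB T δ FB) {a b : V} (ha : a ∉ Bad T) (hb : b ∉ Bad T) :
    cnt (fun j => Light T j) ≤ cnt (fun j => Light T j ∧ a ∈ UU T FB j ∧ b ∈ UU T FB j) +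
      (cnt (fun j => Light T j ∧ a ∈ T j) + (Bad T).card * δ) +
      (cnt (fun j => Light T j ∧ b ∈ T j) + (Bad T).card * δ) := by
  have h1 := ef_out hF ha
  have h2 := ef_out hF hb
  have h3 : cnt (fun j => Light T j) ≤ cnt (fun j => (Light T j ∧ a ∈ UU T FB j ∧ b ∈ UU T FB j) ∨
      ((Light T j ∧ a ∉ UU T FB j) ∨ (Light T j ∧ b ∉ UU T FB j))) := by
    refine cnt_mono fun j hj => ?_
    by_cases h4 : a ∈ UU T FB j <;> by_cases h5 : b ∈ UU T FB j
    · exact Or.inl ⟨hj, h4, h5⟩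
    · exact Or.inr (Or.inr ⟨hj, h5⟩)
    · exact Or.inr (Or.inl ⟨hj, h4⟩)
    · exact Or.inr (Or.inl ⟨hj, h4⟩)
  have h4 := h3.trans ((cnt_or_le _ _).trans (Nat.add_le_add_left (cnt_or_le _ _) _))
  omega

private theorem ef_ld_symm (hG : IsG T δ FB G) (a b : V) : ld G a b = ld G b a :=
  cnt_congr fun i => ⟨(hG.mat i).symm a b, (hG.mat i).symm b a⟩

private theorem ef_dem_symm (hG : IsG T δ FB G) (a b : V) : dem T δ G a b = dem T δ G b a := by
  unfold dem
  rw [ef_ld_symm hG a b]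
  refine if_congr ?_ rfl rfl
  constructor
  · rintro (h | h | h)
    · exact Or.inl h.symm
    · exact Or.inr (Or.inr h)
    · exact Or.inr (Or.inl h)
  · rintro (h | h | h)
    · exact Or.inl h.symm
    · exact Or.inr (Or.inr h)
    · exact Or.inr (Or.inl h)

private theorem ef_yE_symm (hG : IsG T δ FB G) (i : I) (a b : V) :
    yE T δ FB G i a b = yE T δ FB G i b a := by
  unfold yE
  rw [ef_dem_symm hG a b, cnt_congr (q := fun j => Light T j ∧ b ∈ UU T FB j ∧ a ∈ UU T FB j)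
    (fun j => ⟨fun h => ⟨h.1, h.2.2, h.2.1⟩, fun h => ⟨h.1, h.2.2, h.2.1⟩⟩)]
  refine if_congr ?_ rfl rfl
  exact ⟨fun h => ⟨h.1.symm, h.2.2, h.2.1⟩, fun h => ⟨h.1.symm, h.2.2, h.2.1⟩⟩

private theorem ef_yE_out (i : I) {a b : V} (h : ¬ (a ≠ b ∧ a ∈ UU T FB i ∧ b ∈ UU T FB i)) :
    yE T δ FB G i a b = 0 := by
  unfold yE
  exact if_neg h

private theorem ef_yE_in (i : I) {a b : V} (h : a ≠ b ∧ a ∈ UU T FB i ∧ b ∈ UU T FB i) :
    yE T δ FB G i a b = (dem T δ G a b : ℝ) /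
      cnt (fun j => Light T j ∧ a ∈ UU T FB j ∧ b ∈ UU T FB j) := by
  unfold yE
  exact if_pos h

private theorem ef_dem_pos {a b : V} (h : 0 < dem T δ G a b) :
    a ≠ b ∧ a ∉ Bad T ∧ b ∉ Bad T := by
  by_contra hno
  have h1 : a = b ∨ a ∈ Bad T ∨ b ∈ Bad T := by
    by_contra h2
    push Not at h2
    exact hno h2
  unfold dem at h
  rw [if_pos h1] at h
  exact lt_irrefl _ h

private theorem ef_dem_val {a b : V} (h : a ≠ b) (ha : a ∉ Bad T) (hb : b ∉ Bad T) :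
    dem T δ G a b = δ - ld G a b := by
  unfold dem
  rw [if_neg]
  rintro (h1 | h1 | h1)
  · exact h h1
  · exact ha h1
  · exact hb h1

private theorem ef_sum (hab : V × V) (hne : hab.1 ≠ hab.2)
    (hpos : 0 < dem T δ G hab.1 hab.2 →
      0 < cnt (fun j => Light T j ∧ hab.1 ∈ UU T FB j ∧ hab.2 ∈ UU T FB j)) :
    ∑ i : LI T, yE T δ FB G i.1 hab.1 hab.2 = dem T δ G hab.1 hab.2 := by
  classical
  obtain ⟨a, b⟩ := hab
  simp only at hne hpos ⊢
  rw [sum_LI T (fun i => yE T δ FB G i a b)]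
  set Λ : ℕ := cnt (fun j => Light T j ∧ a ∈ UU T FB j ∧ b ∈ UU T FB j) with hΛ
  have h1 : ∀ i, (if Light T i then yE T δ FB G i a b else 0) =
      (if Light T i ∧ a ∈ UU T FB i ∧ b ∈ UU T FB i then (1 : ℝ) else 0) *
        ((dem T δ G a b : ℝ) / Λ) := by
    intro i
    by_cases hL : Light T i
    · by_cases hU : a ∈ UU T FB i ∧ b ∈ UU T FB i
      · rw [if_pos hL, if_pos ⟨hL, hU⟩, one_mul, ef_yE_in i ⟨hne, hU⟩]
      · rw [if_pos hL, if_neg (fun h => hU h.2), zero_mul, ef_yE_out i (fun h => hU h.2)]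
    · rw [if_neg hL, if_neg (fun h => hL h.1), zero_mul]
  rw [Finset.sum_congr rfl fun i _ => h1 i, ← Finset.sum_mul, ← cnt_coe, ← hΛ]
  rcases Nat.eq_zero_or_pos (dem T δ G a b) with h0 | h0
  · rw [h0]
    simp
  · have h2 : (0 : ℝ) < Λ := by exact_mod_cast hpos h0
    field_simp

end

theorem lights_frac : ∃ m₀ : ℕ, ∀ (V I : Type) [Fintype V] [DecidableEq V] [Fintype I] [DecidableEq I]
    (T : I → Finset V) (δ : ℕ) (FB G : I → V → V → Prop), m₀ ≤ Fintype.card V → Dat T δ → CaseE T →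
    IsFB T δ FB → IsG T δ FB G →
    (∀ i, Light T i → Wt (UU T FB i) (yE T δ FB G i) (3 / 10)) ∧
    (∀ a b, dem T δ G a b = dem T δ G b a) ∧
    (∀ a b, a ≠ b → ∑ i : LI T, yE T δ FB G i.1 a b = dem T δ G a b) ∧
    (∀ a b, 0 < dem T δ G a b → (Fintype.card V : ℝ) / 2 ≤ dem T δ G a b ∧
      (dem T δ G a b : ℝ) ≤ 2 * (Fintype.card V : ℝ) ∧
      (Fintype.card V : ℝ) ^ 2 ≤ cnt (fun i : LI T => a ∈ UU T FB i.1 ∧ b ∈ UU T FB i.1)) ∧
    (∀ i, Light T i → 99 / 100 * (Fintype.card V : ℝ) ≤ ((UU T FB i).card : ℝ)) ∧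
    (∀ i, Light T i → (Fintype.card V : ℝ) / 4 ≤ (tI T δ FB i : ℝ)) ∧
    (∀ i, Light T i → |∑ a, ∑ b, yE T δ FB G i a b - 2 * (tI T δ FB i : ℝ)| ≤ (Fintype.card V : ℝ) / 500) := by
  obtain ⟨m₁, hm₁⟩ := caseE_bounds
  refine ⟨max m₁ 100000, fun V I _ _ _ _ T δ FB G hm hD hE hF hG => ?_⟩
  classical
  have hmm : m₁ ≤ Fintype.card V := (le_max_left _ _).trans hm
  have hm2 : 100000 ≤ Fintype.card V := (le_max_right _ _).trans hm
  obtain ⟨hβ, hL1, hL2, -⟩ := hm₁ V I T δ hmm hD hE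
  have hlo := hD.lo
  have hhi := hD.hi
  set M : ℝ := (Fintype.card V : ℝ) with hM
  have hM0 : (100000 : ℝ) ≤ M := by rw [hM]; exact_mod_cast hm2
  have hβ' : (10 : ℝ) ^ 5 * ((Bad T).card : ℝ) ≤ M := by rw [hM]; exact_mod_cast hβ
  have hlo' : M + 1 ≤ (δ : ℝ) := by rw [hM]; exact_mod_cast hlo
  have hhi' : (δ : ℝ) ≤ M + 3 := by rw [hM]; exact_mod_cast hhi
  have hM2 : 0 < M ^ 2 := by positivity
  -- the numbers `Λ`
  have hβδ : ((Bad T).card : ℝ) * δ ≤ 2 / 10 ^ 5 * M ^ 2 := by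
    have h1 : ((Bad T).card : ℝ) ≤ M / 10 ^ 5 := by
      rw [le_div_iff₀ (by norm_num)]
      linarith
    calc ((Bad T).card : ℝ) * δ ≤ M / 10 ^ 5 * (M + 3) :=
          mul_le_mul h1 hhi' (Nat.cast_nonneg _) (by positivity)
      _ ≤ 2 / 10 ^ 5 * M ^ 2 := by nlinarith
  have hΛlo : ∀ a b, a ∉ Bad T → b ∉ Bad T → 14996 / 10000 * M ^ 2 ≤
      (cnt (fun j => Light T j ∧ a ∈ UU T FB j ∧ b ∈ UU T FB j) : ℝ) := by
    intro a b ha hb
    have h1 := ef_lam hF ha hb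
    have h2 := ef_notBad ha
    have h3 := ef_notBad hb
    have h1' : (cnt (fun j => Light T j) : ℝ) ≤
        (cnt (fun j => Light T j ∧ a ∈ UU T FB j ∧ b ∈ UU T FB j) : ℝ) +
        ((cnt (fun j => Light T j ∧ a ∈ T j) : ℝ) + ((Bad T).card : ℝ) * δ) +
        ((cnt (fun j => Light T j ∧ b ∈ T j) : ℝ) + ((Bad T).card : ℝ) * δ) := by
      exact_mod_cast h1
    have h2' : (10 : ℝ) ^ 4 * (cnt (fun i => Light T i ∧ a ∈ T i) : ℝ) ≤ M ^ 2 := by
      rw [hM]; exact_mod_cast h2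
    have h3' : (10 : ℝ) ^ 4 * (cnt (fun i => Light T i ∧ b ∈ T i) : ℝ) ≤ M ^ 2 := by
      rw [hM]; exact_mod_cast h3
    linarith
  have hΛhi : ∀ a b, (cnt (fun j => Light T j ∧ a ∈ UU T FB j ∧ b ∈ UU T FB j) : ℝ) ≤
      150001 / 100000 * M ^ 2 := by
    intro a b
    refine le_trans ?_ hL2
    have h1 : cnt (fun j => Light T j ∧ a ∈ UU T FB j ∧ b ∈ UU T FB j) ≤ cnt (fun j => Light T j) :=
      cnt_mono fun j hj => hj.1
    exact_mod_cast h1
  -- demands
  have hdem_le : ∀ a b, (dem T δ G a b : ℝ) ≤ δ := by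
    intro a b
    have h1 : dem T δ G a b ≤ δ := by
      unfold dem
      split_ifs
      · exact Nat.zero_le _
      · exact Nat.sub_le _ _
    exact_mod_cast h1
  have hdem_ge : ∀ a b, a ≠ b → a ∉ Bad T → b ∉ Bad T →
      (δ : ℝ) - M / 10 ^ 4 ≤ dem T δ G a b := by
    intro a b hab ha hb
    have h1 := hG.load a b
    have h1' : (10 : ℝ) ^ 4 * (ld G a b : ℝ) ≤ M := by rw [hM]; exact_mod_cast h1
    rw [ef_dem_val hab ha hb]
    have h2 : (δ : ℝ) ≤ ((δ - ld G a b : ℕ) : ℝ) + (ld G a b : ℝ) := by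
      have : δ ≤ (δ - ld G a b) + ld G a b := by omega
      exact_mod_cast this
    have h3 : (ld G a b : ℝ) ≤ M / 10 ^ 4 := by
      rw [le_div_iff₀ (by norm_num)]
      linarith
    linarith
  -- entries
  set c0 : ℝ := (M + 3) / (14996 / 10000 * M ^ 2) with hc0
  have hc0pos : 0 ≤ c0 := by positivity
  have hy_nonneg : ∀ i a b, 0 ≤ yE T δ FB G i a b := by
    intro i a b
    by_cases h : a ≠ b ∧ a ∈ UU T FB i ∧ b ∈ UU T FB i
    · rw [ef_yE_in i h]
      positivity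
    · rw [ef_yE_out i h]
  have hy_le : ∀ i a b, yE T δ FB G i a b ≤ c0 := by
    intro i a b
    by_cases h : a ≠ b ∧ a ∈ UU T FB i ∧ b ∈ UU T FB i
    · rw [ef_yE_in i h]
      have ha := (ef_mem_UU.1 h.2.1).2.1
      have hb := (ef_mem_UU.1 h.2.2).2.1
      exact div_le_div₀ (by positivity) ((hdem_le a b).trans hhi') (by positivity) (hΛlo a b ha hb)
    · rw [ef_yE_out i h]
      exact hc0pos
  have hc0M : c0 * M ≤ 7 / 10 := by
    rw [hc0, div_mul_eq_mul_div, div_le_iff₀ (by positivity)]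
    nlinarith
  have hrow : ∀ i a, ∑ b, yE T δ FB G i a b ≤ c0 * M := by
    intro i a
    calc ∑ b, yE T δ FB G i a b ≤ ∑ _b : V, c0 := Finset.sum_le_sum fun b _ => hy_le i a b
      _ = c0 * M := by rw [Finset.sum_const, nsmul_eq_mul, Finset.card_univ, mul_comm]
  -- sizes
  have hcard : ∀ i, Light T i → M - M / 10 ^ 10 ≤ (((T i)ᶜ).card : ℝ) ∧ (((T i)ᶜ).card : ℝ) ≤ M := by
    intro i hi
    have h1 : ((T i)ᶜ).card + (T i).card = Fintype.card V := by
      rw [add_comm]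
      exact Finset.card_add_card_compl (T i)
    have h1' : (((T i)ᶜ).card : ℝ) + ((T i).card : ℝ) = M := by rw [hM]; exact_mod_cast h1
    have h2 : (10 : ℝ) ^ 10 * ((T i).card : ℝ) ≤ M := by
      rw [hM]
      have h2' : 10 ^ 10 * (T i).card ≤ Fintype.card V := hi
      exact_mod_cast h2'
    have h3 : ((T i).card : ℝ) ≤ M / 10 ^ 10 := by
      rw [le_div_iff₀ (by norm_num)]
      linarith
    have h4 : (0 : ℝ) ≤ (T i).card := Nat.cast_nonneg _
    constructor <;> linarith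
  have hβ2 : ((Bad T).card : ℝ) ≤ M / 10 ^ 5 := by
    rw [le_div_iff₀ (by norm_num)]
    linarith
  have hU : ∀ i, Light T i → 99997 / 100000 * M ≤ ((UU T FB i).card : ℝ) := by
    intro i hi
    have h1 := UU_card hF i
    have h1' : (((T i)ᶜ).card : ℝ) ≤ ((UU T FB i).card : ℝ) + 2 * ((Bad T).card : ℝ) := by
      exact_mod_cast h1
    have h2 := (hcard i hi).1
    linarith
  have hUM : ∀ i, ((UU T FB i).card : ℝ) ≤ M := by
    intro i
    have h1 : (UU T FB i).card ≤ Fintype.card V := Finset.card_le_univ _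
    rw [hM]
    exact_mod_cast h1
  have ht : ∀ i, Light T i → (2 * (((T i)ᶜ).card : ℝ) - δ) / 3 - ((Bad T).card : ℝ) ≤ (tI T δ FB i : ℝ) ∧
      (tI T δ FB i : ℝ) ≤ (2 * (((T i)ᶜ).card : ℝ) - δ) / 3 := by
    intro i hi
    have h1 := bI_spec hD i
    have h2 := nv_FB_le hF i
    have h3 : tI T δ FB i = bI T δ i - (nv (FB i) : ℤ) / 2 := rfl
    have h4 : 2 * (((T i)ᶜ).card : ℤ) - δ - 3 * ((Bad T).card : ℤ) ≤ 3 * tI T δ FB i ∧
        3 * tI T δ FB i ≤ 2 * (((T i)ᶜ).card : ℤ) - δ := by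
      constructor <;> omega
    have h5 : 2 * (((T i)ᶜ).card : ℝ) - δ - 3 * ((Bad T).card : ℝ) ≤ 3 * (tI T δ FB i : ℝ) := by
      exact_mod_cast h4.1
    have h6 : 3 * (tI T δ FB i : ℝ) ≤ 2 * (((T i)ᶜ).card : ℝ) - δ := by
      exact_mod_cast h4.2
    constructor <;> linarith
  refine ⟨fun i hi => ⟨hy_nonneg i, ef_yE_symm hG i, fun a => ?_, fun a b ha => ?_, fun a b => ?_,
    fun a => ?_⟩, ef_dem_symm hG, fun a b hab => ?_, fun a b hab => ⟨?_, ?_, ?_⟩, fun i hi => ?_,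
    fun i hi => ?_, fun i hi => ?_⟩
  · exact ef_yE_out i fun h => h.1 rfl
  · exact ef_yE_out i fun h => ha h.2.1
  · calc yE T δ FB G i a b * ((UU T FB i).card : ℝ) ≤ c0 * M :=
          mul_le_mul (hy_le i a b) (hUM i) (Nat.cast_nonneg _) hc0pos
      _ ≤ 1 := by linarith
  · have := hrow i a
    linarith
  · refine ef_sum (a, b) hab fun hpos => ?_
    obtain ⟨-, ha, hb⟩ := ef_dem_pos hpos
    have h1 : (0 : ℝ) < (cnt (fun j => Light T j ∧ a ∈ UU T FB j ∧ b ∈ UU T FB j) : ℝ) :=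
      lt_of_lt_of_le (by positivity) (hΛlo a b ha hb)
    exact_mod_cast h1
  · obtain ⟨h1, ha, hb⟩ := ef_dem_pos hab
    have h2 := hdem_ge a b h1 ha hb
    linarith
  · have h2 := hdem_le a b
    linarith
  · obtain ⟨h1, ha, hb⟩ := ef_dem_pos hab
    rw [cnt_LI T (fun i => a ∈ UU T FB i ∧ b ∈ UU T FB i)]
    have h2 := hΛlo a b ha hb
    nlinarith
  · have h1 := hU i hi
    linarith
  · have h1 := (ht i hi).1
    have h2 := (hcard i hi).1
    linarith
  · -- the total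
    have h1 := (ht i hi).1
    have h2 := (ht i hi).2
    have h3 := (hcard i hi).1
    have h4 := (hcard i hi).2
    have hup : ∑ a, ∑ b, yE T δ FB G i a b ≤ (M + 3) / (14996 / 10000) := by
      calc ∑ a, ∑ b, yE T δ FB G i a b ≤ ∑ _a : V, c0 * M := Finset.sum_le_sum fun a _ => hrow i a
        _ = c0 * M * M := by rw [Finset.sum_const, nsmul_eq_mul, Finset.card_univ, mul_comm]
        _ = (M + 3) / (14996 / 10000) := by
            rw [hc0]
            have : M ≠ 0 := by positivity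
            field_simp
    set c1 : ℝ := ((δ : ℝ) - M / 10 ^ 4) / (150001 / 100000 * M ^ 2) with hc1
    have hc1a : 0 ≤ (δ : ℝ) - M / 10 ^ 4 := by linarith
    have hc1pos : 0 ≤ c1 := by positivity
    have hy_ge : ∀ a b, a ≠ b → a ∈ UU T FB i → b ∈ UU T FB i → c1 ≤ yE T δ FB G i a b := by
      intro a b hab ha hb
      rw [ef_yE_in i ⟨hab, ha, hb⟩]
      have ha' := (ef_mem_UU.1 ha).2.1
      have hb' := (ef_mem_UU.1 hb).2.1
      have hpos : (0 : ℝ) < (cnt (fun j => Light T j ∧ a ∈ UU T FB j ∧ b ∈ UU T FB j) : ℝ) :=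
        lt_of_lt_of_le (by positivity) (hΛlo a b ha' hb')
      exact div_le_div₀ (Nat.cast_nonneg _) (hdem_ge a b hab ha' hb') hpos (hΛhi a b)
    have hlow : ((UU T FB i).card : ℝ) * ((((UU T FB i).card : ℝ) - 1) * c1) ≤
        ∑ a, ∑ b, yE T δ FB G i a b := by
      have e1 : ∀ a ∈ UU T FB i, (((UU T FB i).card : ℝ) - 1) * c1 ≤ ∑ b, yE T δ FB G i a b := by
        intro a ha
        calc (((UU T FB i).card : ℝ) - 1) * c1 ≤ ∑ _b ∈ (UU T FB i).erase a, c1 := by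
              rw [Finset.sum_const, nsmul_eq_mul, Finset.card_erase_of_mem ha]
              have : 1 ≤ (UU T FB i).card := Finset.card_pos.2 ⟨a, ha⟩
              rw [Nat.cast_sub this, Nat.cast_one]
          _ ≤ ∑ b ∈ (UU T FB i).erase a, yE T δ FB G i a b := by
              refine Finset.sum_le_sum fun b hb => ?_
              rw [Finset.mem_erase] at hb
              exact hy_ge a b hb.1.symm ha hb.2
          _ ≤ ∑ b, yE T δ FB G i a b :=
              Finset.sum_le_sum_of_subset_of_nonneg (Finset.subset_univ _)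
                fun b _ _ => hy_nonneg i a b
      calc ((UU T FB i).card : ℝ) * ((((UU T FB i).card : ℝ) - 1) * c1) =
            ∑ _a ∈ UU T FB i, (((UU T FB i).card : ℝ) - 1) * c1 := by
              rw [Finset.sum_const, nsmul_eq_mul]
        _ ≤ ∑ a ∈ UU T FB i, ∑ b, yE T δ FB G i a b := Finset.sum_le_sum e1
        _ ≤ ∑ a, ∑ b, yE T δ FB G i a b :=
            Finset.sum_le_sum_of_subset_of_nonneg (Finset.subset_univ _)
              fun a _ _ => Finset.sum_nonneg fun b _ => hy_nonneg i a b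
    have hlow2 : 6665 / 10000 * M - 1 ≤ ∑ a, ∑ b, yE T δ FB G i a b := by
      refine le_trans ?_ hlow
      have e1 := hU i hi
      have e2 : (9999 / 10000) / (150001 / 100000 * M) ≤ c1 := by
        rw [hc1, div_le_div_iff₀ (by positivity) (by positivity)]
        have : (9999 / 10000 : ℝ) * M ≤ (δ : ℝ) - M / 10 ^ 4 := by linarith
        have e3 : (0 : ℝ) ≤ 150001 / 100000 * M := by positivity
        nlinarith [mul_le_mul_of_nonneg_right this e3]
      have e4 : (99997 / 100000 * M) * ((99997 / 100000 * M - 1) * ((9999 / 10000) / (150001 / 100000 * M))) ≤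
          ((UU T FB i).card : ℝ) * ((((UU T FB i).card : ℝ) - 1) * c1) := by
        have f1 : (0 : ℝ) ≤ 99997 / 100000 * M - 1 := by linarith
        refine mul_le_mul e1 (mul_le_mul (by linarith) e2 (by positivity) (by linarith))
          (mul_nonneg f1 (by positivity)) (Nat.cast_nonneg _)
      refine le_trans ?_ e4
      have e5 : (99997 / 100000 * M) * ((99997 / 100000 * M - 1) * ((9999 / 10000) / (150001 / 100000 * M))) =
          (99997 / 100000) * (99997 / 100000 * M - 1) * ((9999 / 10000) / (150001 / 100000)) := by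
        have : M ≠ 0 := by positivity
        field_simp
      rw [e5]
      linarith
    have hup2 : (M + 3) / (14996 / 10000) ≤ 66685 / 100000 * M + 3 := by
      rw [div_le_iff₀ (by norm_num)]
      linarith
    rw [abs_le]
    constructor <;> linarith

end Pool.Agent.Work.MP_18db2a_co
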