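import Pool.Agent.Work.MP_18db2a_co.EBd

set_option autoImplicit false

/-!
# EIneq (size M-L, uses the statements of EBd and Cnt): the counting inequality of case E

Let `m = card V`, `B = Bad T`, `β = |B| ≤ 10^(-5) m`, `u j = |(T j)ᶜ|`, `f j = nv (F j)/2`, `g j = 3 f j - 2 u j + δ`, `D = (m-1)(m-2)/2`.
* `f j ≤ β`: every edge has an end in `B`.
* `H = {j | 2 u j - δ < 3 β}`.  For `j ∈ H`: `|T j| = m - u j > m - (3 β + δ)/2 ≥ m/3`, so `j` is heavy.  For heavy `j ∉ H`: `g j ≤ 3 β - 2 u j + δ ≤ 0`.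
* `M = {j ∈ H | 2 u j > δ}` is contained in the class of `EBd` (4) (`2 u j > δ > m`), so `|M| ≤ 10^(-5) m²`.  For `j ∈ H \ M`, `g j ≥ 0`; for `j ∈ M`, `g j ≥ - 3 β`.
  Hence the left side is at most `∑_{j ∈ H} g j + 3 β |M| = 3 ∑_H f j - 2 ∑_H u j + δ |H| + 3 β |M|`.
* Write `|H| = D + θ` (real numbers) and `τ x = cnt (j ∉ H ∧ x ∈ T j)`; as `cnt (x ∈ T j) = D`, `cnt (j ∈ H ∧ x ∉ T j) = θ + τ x`.  So
  `∑_H u j = ∑ x, (θ + τ x) = P + Q` with `P = ∑_{x ∉ B} (θ + τ x) = (m - β) θ + t`, `t = ∑_{x ∉ B} τ x`, `Q = ∑_{x ∈ B} (θ + τ x) = ∑_H |B \ T j|`.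
* `3 f j ≤ 2 |B \ T j| + |Bᶜ \ T j|`: let `p`, `q` be the numbers of covered vertices in `B`, outside `B`; `q ≤ p` (the partner of a covered vertex outside `B` is in `B`),
  `3 f j = (3/2)(p + q) ≤ 2 p + q`.  Hence `3 ∑_H f j ≤ 2 Q + P`.
* Together the left side is at most `δ D + (δ - m + β) θ - t + 3 β |M|`.
* `t ≥ ∑_{x ∉ B} cnt (Light ∧ x ∈ T j) ≥ 2 ∑_{v ∈ B} cnt (Light ∧ v ∈ T j) - 2 β² m ≥ 2 * 10^(-4) β m² - 2 β² m ≥ 1.8 * 10^(-4) β m²` (`Dat.trip` with `J = Light`, definition of `Bad`).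
* `θ ≤ cnt Heavy - D ≤ 10^(-6) m² + 1.5 m ≤ 2 * 10^(-6) m²`.  With `r = δ - m ∈ {1, 2, 3}`: `δ (δ-1)(δ-2)/2 - δ D = δ (r (m-1) + r (r-1)/2) ≥ r (m² - 1)`.  So
  `(r + β) θ + 3 β |M| - t ≤ r * 2 * 10^(-6) m² + β m² (2 * 10^(-6) + 3 * 10^(-5) - 1.8 * 10^(-4)) ≤ r (m² - 1)` if `θ ≥ 0`, and it is `≤ 0` if `θ < 0`.
-/

namespace Pool.Agent.Work.MP_18db2a_co

open Finset

private theorem mat_bounds {V : Type} [Fintype V] [DecidableEq V] (U B : Finset V) (M : V → V → Prop)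
    (hM : IsMat U M) (hB : ∀ a b, M a b → a ∈ B ∨ b ∈ B) :
    nv M ≤ 2 * cnt (fun x => x ∈ B ∧ x ∈ U) ∧
      3 * nv M ≤ 4 * cnt (fun x => x ∈ B ∧ x ∈ U) + 2 * cnt (fun x => x ∉ B ∧ x ∈ U) := by
  classical
  have h1 : nv M = cnt (fun x => (∃ y, M x y) ∧ x ∈ B) + cnt (fun x => (∃ y, M x y) ∧ x ∉ B) := by
    rw [nv]
    exact cnt_split _ _
  have h2 : cnt (fun x => (∃ y, M x y) ∧ x ∉ B) ≤ cnt (fun x => (∃ y, M x y) ∧ x ∈ B) := by
    refine cnt_le_of_inj (fun x => if h : ∃ y, M x y then h.choose else x) ?_ ?_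
    · rintro x ⟨hx, hxB⟩
      rw [dif_pos hx]
      have hc := hx.choose_spec
      refine ⟨⟨x, hM.symm _ _ hc⟩, ?_⟩
      rcases hB _ _ hc with h | h
      · exact absurd h hxB
      · exact h
    · rintro x y ⟨hx, _⟩ ⟨hy, _⟩ hxy
      rw [dif_pos hx, dif_pos hy] at hxy
      have h3 := hM.symm _ _ hx.choose_spec
      have h4 := hM.symm _ _ hy.choose_spec
      rw [← hxy] at h4
      exact hM.uniq _ _ _ h3 h4
  have h3 : cnt (fun x => (∃ y, M x y) ∧ x ∈ B) ≤ cnt (fun x => x ∈ B ∧ x ∈ U) :=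
    cnt_mono fun x ⟨⟨y, hy⟩, hx⟩ => ⟨hx, hM.mem _ _ hy⟩
  have h4 : cnt (fun x => (∃ y, M x y) ∧ x ∉ B) ≤ cnt (fun x => x ∉ B ∧ x ∈ U) :=
    cnt_mono fun x ⟨⟨y, hy⟩, hx⟩ => ⟨hx, hM.mem _ _ hy⟩
  omega

private theorem final_arith (m δ β θ t M D : ℝ) (hm : 10 ^ 7 ≤ m) (h1 : m + 1 ≤ δ) (h2 : δ ≤ m + 3)
    (hβ : 0 ≤ β) (hβ1 : 10 ^ 5 * β ≤ m) (hθ : θ ≤ 2 / 10 ^ 6 * m ^ 2) (hM0 : 0 ≤ M) (hM : 4 * 10 ^ 5 * M ≤ m ^ 2)
    (ht : 2 * β * (m ^ 2 / 10 ^ 4) - 2 * β ^ 2 * m ≤ t) (hD : D = (m - 1) * (m - 2) / 2) :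
    δ * D + (δ - m + β) * θ - t + 3 * β * M ≤ δ * (δ - 1) * (δ - 2) / 2 := by
  obtain ⟨r, hr⟩ : ∃ r, r = δ - m := ⟨_, rfl⟩
  have hδ : δ = m + r := by linarith
  have hr1 : 1 ≤ r := by linarith
  have hr3 : r ≤ 3 := by linarith
  have hm2 : 0 ≤ m ^ 2 := sq_nonneg m
  have e1 : δ * (δ - 1) * (δ - 2) / 2 - δ * D = δ * (r * (2 * m - 3 + r)) / 2 := by
    rw [hD, hδ]
    ring
  have e2 : r * (m * (m - 1)) ≤ δ * (r * (2 * m - 3 + r)) / 2 := by
    have h3 : r * (m - 1) ≤ r * (2 * m - 3 + r) / 2 := by nlinarith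
    have h4 : 0 ≤ r * (m - 1) := by
      apply mul_nonneg <;> linarith
    calc r * (m * (m - 1)) = m * (r * (m - 1)) := by ring
      _ ≤ δ * (r * (m - 1)) := mul_le_mul_of_nonneg_right (by linarith) h4
      _ ≤ δ * (r * (2 * m - 3 + r) / 2) := mul_le_mul_of_nonneg_left h3 (by linarith)
      _ = δ * (r * (2 * m - 3 + r)) / 2 := by ring
  have e3 : 3 * β * M ≤ β * (3 / (4 * 10 ^ 5) * m ^ 2) := by
    have : M ≤ m ^ 2 / (4 * 10 ^ 5) := by
      rw [le_div_iff₀ (by norm_num)]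
      linarith
    nlinarith
  have e4 : 2 * β ^ 2 * m ≤ β * (2 / 10 ^ 5 * m ^ 2) := by
    have : β ≤ m / 10 ^ 5 := by
      rw [le_div_iff₀ (by norm_num)]
      linarith
    have h5 : 0 ≤ β * m := by
      apply mul_nonneg <;> linarith
    nlinarith
  have e5 : 0 ≤ β * m ^ 2 := mul_nonneg hβ hm2
  have key : (r + β) * θ - t + 3 * β * M ≤ r * (m * (m - 1)) := by
    have h0 : 0 ≤ m * (m - 1) := by nlinarith
    have hrr : 0 ≤ r * (m * (m - 1)) := mul_nonneg (by linarith) h0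
    rcases le_or_gt θ 0 with h | h
    · have h6 : (r + β) * θ ≤ 0 := mul_nonpos_of_nonneg_of_nonpos (by linarith) h
      nlinarith
    · have h7 : r * θ ≤ r * (m * (m - 1)) := by
        apply mul_le_mul_of_nonneg_left _ (by linarith)
        nlinarith
      have h8 : β * θ ≤ β * (2 / 10 ^ 6 * m ^ 2) := mul_le_mul_of_nonneg_left hθ hβ
      nlinarith
  have e6 : δ - m + β = r + β := by rw [hr]
  rw [e6]
  linarith

theorem count_ineq : ∃ m₀ : ℕ, ∀ (V I : Type) [Fintype V] [DecidableEq V] [Fintype I] (T : I → Finset V) (δ : ℕ),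
    m₀ ≤ Fintype.card V → Dat T δ → CaseE T → ∀ F : I → V → V → Prop, (∀ i, IsMat (T i)ᶜ (F i)) →
      (∀ i a b, F i a b → a ∈ Bad T ∨ b ∈ Bad T) → ∀ s : Finset I, (∀ i ∈ s, Heavy T i) →
      ∑ i ∈ s, max 0 (3 * ((nv (F i) : ℝ) / 2) - 2 * (((T i)ᶜ).card : ℝ) + δ) ≤
        (δ : ℝ) * ((δ : ℝ) - 1) * ((δ : ℝ) - 2) / 2 := by
  classical
  obtain ⟨m₁, hm₁⟩ := caseE_bounds
  refine ⟨max m₁ (10 ^ 7), ?_⟩
  intro V I _ _ _ T δ hm hD hE F hF hFB s hs
  obtain ⟨hβn, -, -, hMn⟩ := hm₁ V I T δ (le_trans (le_max_left _ _) hm) hD hE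
  have hm7 : 10 ^ 7 ≤ Fintype.card V := le_trans (le_max_right _ _) hm
  set m : ℝ := (Fintype.card V : ℝ) with hmdef
  have hm7r : (10 : ℝ) ^ 7 ≤ m := by
    rw [hmdef]
    exact_mod_cast hm7
  set β : ℝ := ((Bad T).card : ℝ) with hβdef
  have hβ0 : 0 ≤ β := Nat.cast_nonneg _
  have hβ1 : 10 ^ 5 * β ≤ m := by
    rw [hβdef, hmdef]
    exact_mod_cast hβn
  have hlo : m + 1 ≤ (δ : ℝ) := by
    rw [hmdef]
    exact_mod_cast hD.lo
  have hhi : (δ : ℝ) ≤ m + 3 := by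
    rw [hmdef]
    exact_mod_cast hD.hi
  set qB : I → ℕ := fun j => cnt (fun x => x ∈ Bad T ∧ x ∈ (T j)ᶜ) with hqB
  set qV : I → ℕ := fun j => cnt (fun x => x ∉ Bad T ∧ x ∈ (T j)ᶜ) with hqV
  have hu : ∀ j, (((T j)ᶜ).card : ℝ) = qB j + qV j := by
    intro j
    have h1 : ((T j)ᶜ).card = cnt (fun x => x ∈ (T j)ᶜ ∧ x ∈ Bad T) + cnt (fun x => x ∈ (T j)ᶜ ∧ x ∉ Bad T) := by
      rw [← cnt_mem ((T j)ᶜ)]
      exact cnt_split _ _
    have h2 : qB j = cnt (fun x => x ∈ (T j)ᶜ ∧ x ∈ Bad T) := cnt_congr fun x => and_comm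
    have h3 : qV j = cnt (fun x => x ∈ (T j)ᶜ ∧ x ∉ Bad T) := cnt_congr fun x => and_comm
    rw [h2, h3, h1]
    push_cast
    ring
  have hut : ∀ j, (((T j)ᶜ).card : ℝ) = m - ((T j).card : ℝ) := by
    intro j
    have := Finset.card_add_card_compl (T j)
    have h2 : ((T j).card : ℝ) + (((T j)ᶜ).card : ℝ) = m := by
      rw [hmdef]
      exact_mod_cast this
    linarith
  have hb := fun j => mat_bounds ((T j)ᶜ) (Bad T) (F j) (hF j) (hFB j)
  have hf1 : ∀ j, (nv (F j) : ℝ) / 2 ≤ β := by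
    intro j
    have h1 : nv (F j) ≤ 2 * (Bad T).card := by
      refine (hb j).1.trans (Nat.mul_le_mul_left 2 ?_)
      rw [← cnt_mem (Bad T)]
      exact cnt_mono fun x hx => hx.1
    have h2 : (nv (F j) : ℝ) ≤ 2 * β := by
      rw [hβdef]
      exact_mod_cast h1
    linarith
  have hf3 : ∀ j, 3 * ((nv (F j) : ℝ) / 2) ≤ 2 * qB j + qV j := by
    intro j
    have h1 : (3 : ℝ) * nv (F j) ≤ 4 * qB j + 2 * qV j := by exact_mod_cast (hb j).2
    linarith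
  set H : I → Prop := fun j => 2 * (((T j)ᶜ).card : ℝ) - δ < 3 * β with hH
  set Hs : Finset I := univ.filter H with hHs
  set MM : I → Prop := fun j => H j ∧ (δ : ℝ) < 2 * (((T j)ᶜ).card : ℝ) with hMM
  set g : I → ℝ := fun j => 3 * ((nv (F j) : ℝ) / 2) - 2 * (((T j)ᶜ).card : ℝ) + δ with hg
  -- heavy
  have hHheavy : ∀ j, H j → Heavy T j := by
    intro j hj hL
    have hL' : (10 : ℝ) ^ 10 * ((T j).card : ℝ) ≤ m := by
      rw [hmdef]
      exact_mod_cast hL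
    have h1 : 2 * (((T j)ᶜ).card : ℝ) - δ < 3 * β := hj
    rw [hut j] at h1
    nlinarith
  -- step A
  have stepA : ∑ j ∈ s, max 0 (g j) ≤ ∑ j ∈ Hs, (g j + 3 * β * (if MM j then 1 else 0)) := by
    have h1 : ∀ j, j ∈ Hs → max 0 (g j) ≤ g j + 3 * β * (if MM j then 1 else 0) := by
      intro j hj
      have hj' : H j := (mem_filter.1 hj).2
      have hnv : (0 : ℝ) ≤ nv (F j) := Nat.cast_nonneg _
      by_cases hMj : MM j
      · rw [if_pos hMj]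
        have h2 : 2 * (((T j)ᶜ).card : ℝ) - δ < 3 * β := hj'
        have h3 : - (3 * β) ≤ g j := by
          rw [hg]
          simp only
          linarith
        apply max_le
        · linarith
        · linarith
      · rw [if_neg hMj]
        have h2 : 2 * (((T j)ᶜ).card : ℝ) ≤ δ := by
          by_contra h3
          exact hMj ⟨hj', lt_of_not_ge h3⟩
        have h3 : 0 ≤ g j := by
          rw [hg]
          simp only
          linarith
        apply max_le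
        · linarith
        · linarith
    have h2 : ∀ j, j ∉ Hs → max 0 (g j) = 0 := by
      intro j hj
      have hj' : ¬ H j := fun h => hj (mem_filter.2 ⟨mem_univ _, h⟩)
      have h3 : 3 * β ≤ 2 * (((T j)ᶜ).card : ℝ) - δ := le_of_not_gt hj'
      apply max_eq_left
      have := hf1 j
      rw [hg]
      simp only
      linarith
    calc ∑ j ∈ s, max 0 (g j) ≤ ∑ j, max 0 (g j) :=
          Finset.sum_le_sum_of_subset_of_nonneg (Finset.subset_univ _) fun j _ _ => le_max_left _ _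
      _ = ∑ j ∈ Hs, max 0 (g j) := by
          symm
          apply Finset.sum_subset (Finset.subset_univ _)
          intro j _ hj
          exact h2 j hj
      _ ≤ _ := Finset.sum_le_sum fun j hj => h1 j hj
  -- step B
  set P : ℝ := ∑ j ∈ Hs, (qV j : ℝ) with hP
  have stepB : ∑ j ∈ Hs, g j ≤ - P + δ * Hs.card := by
    have h1 : ∀ j ∈ Hs, g j ≤ - (qV j : ℝ) + δ := by
      intro j _
      have h2 := hf3 j
      rw [hg]
      simp only
      rw [hu j]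
      linarith
    refine (Finset.sum_le_sum h1).trans (le_of_eq ?_)
    rw [Finset.sum_add_distrib, Finset.sum_neg_distrib, Finset.sum_const, nsmul_eq_mul, hP]
    ring
  set M : ℝ := (cnt MM : ℝ) with hM
  have stepM : ∑ j ∈ Hs, 3 * β * (if MM j then (1 : ℝ) else 0) ≤ 3 * β * M := by
    rw [← Finset.mul_sum]
    apply mul_le_mul_of_nonneg_left _ (by linarith)
    rw [hM, cnt_coe]
    apply Finset.sum_le_sum_of_subset_of_nonneg (Finset.subset_univ _)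
    intro j _ _
    split_ifs <;> norm_num
  have hM0 : 0 ≤ M := Nat.cast_nonneg _
  have hM1 : 4 * 10 ^ 5 * M ≤ m ^ 2 := by
    have h1 : cnt MM ≤ cnt (fun i => Heavy T i ∧ 2 * (T i).card ≤ Fintype.card V) := by
      apply cnt_mono
      rintro j ⟨h1, h2⟩
      refine ⟨hHheavy j h1, ?_⟩
      rw [hut j] at h2
      have h3 : (2 : ℝ) * ((T j).card : ℝ) ≤ m := by linarith
      rw [hmdef] at h3
      exact_mod_cast h3
    have h2 : 4 * 10 ^ 5 * cnt MM ≤ Fintype.card V ^ 2 := le_trans (Nat.mul_le_mul_left _ h1) hMn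
    rw [hM, hmdef]
    exact_mod_cast h2
  -- P
  set D : ℝ := (((Fintype.card V - 1).choose 2 : ℕ) : ℝ) with hDdef
  have hDval : D = (m - 1) * (m - 2) / 2 := by
    rw [hDdef, Nat.cast_choose_two, Nat.cast_sub (by omega), hmdef]
    push_cast
    ring
  set lam : V → ℕ := fun x => cnt (fun i => Light T i ∧ x ∈ T i) with hlam
  have hPx : ∀ x, (Hs.card : ℝ) - D + lam x ≤ (cnt (fun j => H j ∧ x ∉ T j) : ℝ) := by
    intro x
    have h1 : cnt H = cnt (fun j => H j ∧ x ∈ T j) + cnt (fun j => H j ∧ ¬ x ∈ T j) := cnt_split _ _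
    have h2 : cnt (fun j => x ∈ T j) = cnt (fun j => x ∈ T j ∧ H j) + cnt (fun j => x ∈ T j ∧ ¬ H j) :=
      cnt_split _ _
    have h3 : cnt (fun j => x ∈ T j ∧ H j) = cnt (fun j => H j ∧ x ∈ T j) := cnt_congr fun j => and_comm
    have h4 : lam x ≤ cnt (fun j => x ∈ T j ∧ ¬ H j) :=
      cnt_mono fun j ⟨hj1, hj2⟩ => ⟨hj2, fun hj3 => hHheavy j hj3 hj1⟩
    have h5 : Hs.card = cnt H := by
      rw [hHs, cnt_eq]
    have h6 := hD.deg x
    have h7 : Hs.card + lam x ≤ cnt (fun j => H j ∧ x ∉ T j) + (Fintype.card V - 1).choose 2 := by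
      rw [h5]
      omega
    have h8 : (Hs.card : ℝ) + lam x ≤ (cnt (fun j => H j ∧ x ∉ T j) : ℝ) + D := by
      rw [hDdef]
      exact_mod_cast h7
    linarith
  have hPsum : P = ∑ x ∈ (Bad T)ᶜ, (cnt (fun j => H j ∧ x ∉ T j) : ℝ) := by
    rw [hP]
    have hcomp : (Bad T)ᶜ = univ.filter (fun x => x ∉ Bad T) := by
      ext x
      simp
    have h1 : ∀ j, (qV j : ℝ) = ∑ x ∈ (Bad T)ᶜ, if x ∉ T j then (1 : ℝ) else 0 := by
      intro j
      rw [hqV]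
      simp only
      rw [cnt_coe, hcomp, Finset.sum_filter]
      refine Finset.sum_congr rfl fun x _ => ?_
      by_cases h1 : x ∈ Bad T <;> by_cases h2 : x ∈ T j <;> simp [h1, h2]
    rw [Finset.sum_congr rfl fun j _ => h1 j, Finset.sum_comm]
    refine Finset.sum_congr rfl fun x _ => ?_
    rw [cnt_coe, hHs, Finset.sum_filter]
    refine Finset.sum_congr rfl fun j _ => ?_
    by_cases h1 : H j
    · rw [if_pos h1]
      by_cases h2 : x ∈ T j
      · rw [if_neg (not_not.2 h2), if_neg (fun h => h.2 h2)]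
      · rw [if_pos h2, if_pos ⟨h1, h2⟩]
    · rw [if_neg h1, if_neg (fun h => h1 h.1)]
  set θ : ℝ := (Hs.card : ℝ) - D with hθdef
  set t : ℝ := ∑ x ∈ (Bad T)ᶜ, (lam x : ℝ) with htdef
  have hPge : (m - β) * θ + t ≤ P := by
    rw [hPsum, htdef]
    have h1 : (((Bad T)ᶜ).card : ℝ) = m - β := by
      have := Finset.card_add_card_compl (Bad T)
      have h2 : β + (((Bad T)ᶜ).card : ℝ) = m := by
        rw [hmdef, hβdef]
        exact_mod_cast this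
      linarith
    calc (m - β) * θ + ∑ x ∈ (Bad T)ᶜ, (lam x : ℝ) = ∑ x ∈ (Bad T)ᶜ, (θ + lam x) := by
          rw [Finset.sum_add_distrib, Finset.sum_const, nsmul_eq_mul, h1]
      _ ≤ _ := Finset.sum_le_sum fun x _ => hPx x
  have ht : 2 * β * (m ^ 2 / 10 ^ 4) - 2 * β ^ 2 * m ≤ t := by
    have h1 := hD.trip (Bad T) (Light T)
    have h2 : (2 : ℝ) * ∑ v ∈ Bad T, (lam v : ℝ) ≤ t + 2 * β ^ 2 * m := by
      rw [htdef, hβdef, hmdef]
      exact_mod_cast h1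
    have h3 : β * (m ^ 2 / 10 ^ 4) ≤ ∑ v ∈ Bad T, (lam v : ℝ) := by
      have h4 : ∀ v ∈ Bad T, m ^ 2 / 10 ^ 4 ≤ (lam v : ℝ) := by
        intro v hv
        have h5 : Fintype.card V ^ 2 ≤ 10 ^ 4 * lam v := by
          have h6 := (mem_filter.1 hv).2
          exact h6
        have h6 : m ^ 2 ≤ 10 ^ 4 * (lam v : ℝ) := by
          rw [hmdef]
          exact_mod_cast h5
        rw [div_le_iff₀ (by norm_num)]
        linarith
      calc β * (m ^ 2 / 10 ^ 4) = ∑ v ∈ Bad T, m ^ 2 / 10 ^ 4 := by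
            rw [Finset.sum_const, nsmul_eq_mul]
        _ ≤ _ := Finset.sum_le_sum h4
    linarith
  have hθ : θ ≤ 2 / 10 ^ 6 * m ^ 2 := by
    have h1 : (Hs.card : ℝ) ≤ (1 / 2 + 1 / 10 ^ 6) * m ^ 2 := by
      have h2 : Hs.card ≤ cnt (fun i => Heavy T i) := by
        rw [hHs, ← cnt_eq]
        exact cnt_mono fun j hj => hHheavy j hj
      have h3 : (cnt (fun i => Heavy T i) : ℝ) < (1 / 2 + 1 / 10 ^ 6) * m ^ 2 := hE
      have h4 : (Hs.card : ℝ) ≤ (cnt (fun i => Heavy T i) : ℝ) := by exact_mod_cast h2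
      linarith
    rw [hθdef, hDval]
    nlinarith
  have hfin := final_arith m δ β θ t M D hm7r hlo hhi hβ0 hβ1 hθ hM0 hM1 ht hDval
  have hsplit : ∑ j ∈ Hs, (g j + 3 * β * (if MM j then 1 else 0)) =
      ∑ j ∈ Hs, g j + ∑ j ∈ Hs, 3 * β * (if MM j then (1 : ℝ) else 0) := Finset.sum_add_distrib
  have hHcard : (Hs.card : ℝ) = D + θ := by
    rw [hθdef]
    ring
  rw [hHcard] at stepB
  have e1 : - P + (δ : ℝ) * (D + θ) ≤ δ * D + (δ - m + β) * θ - t := by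
    nlinarith [hPge]
  calc ∑ i ∈ s, max 0 (3 * ((nv (F i) : ℝ) / 2) - 2 * (((T i)ᶜ).card : ℝ) + δ) = ∑ j ∈ s, max 0 (g j) := rfl
    _ ≤ _ := stepA
    _ = _ := hsplit
    _ ≤ (δ * D + (δ - m + β) * θ - t) + 3 * β * M := by linarith
    _ = δ * D + (δ - m + β) * θ - t + 3 * β * M := rfl
    _ ≤ _ := hfin

end Pool.Agent.Work.MP_18db2a_co
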