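import Pool.Agent.Work.MP_18db2a_co.Basic

set_option autoImplicit false

/-!
# Med (size S-M, Mathlib only): small system of matchings with small loads

Induction on `∑ q` (all `q' ≤ q`, same `h1`, `h2` for the original `q`; e.g. prove for all `n` and all `q'` with `q' j ≤ q j`, `∑ q' = n`).  `∑ q' = 0`: empty matchings.  If `q' j > 0`
take the system for `q'` with `q' j` replaced by `q' j - 1`, and add one edge to colour `j`: the set `W'` of the vertices of `W j` not covered by
`G j` has at least `|W j| - 2 (q j - 1) ≥ m/4 + 2` members (`m = card V`), so there are at least `(m/4)²` ordered pairs `a ≠ b` in `W'`.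
The number of the ordered pairs with load `≥ Lc` is at most `2 ∑ q' / Lc ≤ 2 ∑ q / Lc ≤ m²/16` and in fact `< (number of pairs in W')`:
`∑_{a,b} ld G a b = ∑ j, nv (G j) = 2 ∑ q'' < 2 ∑ q` (here `q''` = sizes before the addition).  So some pair in `W'` has load `< Lc`; add it (both orders).
-/

namespace Pool.Agent.Work.MP_18db2a_co

open Finset

private theorem sum_ld {V J : Type} [Fintype V] [Fintype J] (W : J → Finset V) (G : J → V → V → Prop)
    (h : ∀ j, IsMat (W j) (G j)) : ∑ a, ∑ b, ld G a b = ∑ j, nv (G j) := by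
  have h1 : ∀ a, ∑ b, ld G a b = ∑ j, cnt (fun b => G j a b) := fun a =>
    (cnt_comm (fun (j : J) (b : V) => G j a b)).symm
  simp only [h1]
  rw [Finset.sum_comm]
  refine Finset.sum_congr rfl fun j _ => ?_
  rw [(h j).nv_eq, cnt_prod]

private theorem step {V J : Type} [Fintype V] [DecidableEq V] [Fintype J] [DecidableEq J] (W : J → Finset V)
    (q' : J → ℕ) (Lc : ℕ) (j0 : J) (G : J → V → V → Prop) (hG : ∀ j, IsMat (W j) (G j))
    (hn : ∀ j, nv (G j) = 2 * q' j) (hl : ∀ a b, ld G a b ≤ Lc)
    (hW : 8 * (q' j0 + 1) + Fintype.card V ≤ 4 * (W j0).card)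
    (hq : 32 * (∑ j, q' j + 1) ≤ Lc * Fintype.card V ^ 2) :
    ∃ G' : J → V → V → Prop, (∀ j, IsMat (W j) (G' j)) ∧
      (∀ j, nv (G' j) = 2 * (Function.update q' j0 (q' j0 + 1)) j) ∧ ∀ a b, ld G' a b ≤ Lc := by
  classical
  set W' : Finset V := (W j0).filter fun v => Unc (G j0) v with hW'
  have hcard : (W j0).card ≤ W'.card + nv (G j0) := by
    have h1 : W'.card + ((W j0).filter fun v => ¬ Unc (G j0) v).card = (W j0).card := by
      rw [hW']
      convert Finset.card_filter_add_card_filter_not (s := W j0) (fun v => Unc (G j0) v)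
    have h2 : ((W j0).filter fun v => ¬ Unc (G j0) v).card ≤ nv (G j0) := by
      rw [nv, cnt_eq]
      refine Finset.card_le_card fun v hv => ?_
      rw [mem_filter] at hv ⊢
      refine ⟨mem_univ _, ?_⟩
      have h3 := hv.2
      rw [Unc] at h3
      push Not at h3
      exact h3
    omega
  rw [hn j0] at hcard
  have h4 : Fintype.card V + 8 ≤ 4 * W'.card := by omega
  have hex : ∃ a b, a ∈ W' ∧ b ∈ W' ∧ a ≠ b ∧ ld G a b < Lc := by
    by_contra hno
    push Not at hno
    have h5 : W'.offDiag.card * Lc ≤ ∑ a, ∑ b, ld G a b := by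
      rw [← Finset.sum_product', ← smul_eq_mul]
      refine le_trans (Finset.card_nsmul_le_sum _ _ _ fun p hp => ?_)
        (Finset.sum_le_sum_of_subset (f := fun p : V × V => ld G p.1 p.2) fun p _ => by simp)
      rw [Finset.mem_offDiag] at hp
      exact hno _ _ hp.1 hp.2.1 hp.2.2
    rw [sum_ld W G hG, Finset.sum_congr rfl fun j _ => hn j, ← Finset.mul_sum,
      Finset.offDiag_card] at h5
    obtain ⟨w, hw⟩ : ∃ w, W'.card = w + 1 := ⟨W'.card - 1, by omega⟩
    rw [hw] at h5 h4
    have h6 : (w + 1) * (w + 1) - (w + 1) = w * (w + 1) := by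
      have : (w + 1) * (w + 1) = w * (w + 1) + (w + 1) := by ring
      omega
    rw [h6] at h5
    set m := Fintype.card V with hm
    set S := ∑ j, q' j with hS
    have hLc : 0 < Lc := by
      rcases Nat.eq_zero_or_pos Lc with h0 | h0
      · rw [h0] at hq; simp at hq
      · exact h0
    have h7 : m ^ 2 ≤ 16 * (w * (w + 1)) := by nlinarith
    have h8 : Lc * m ^ 2 ≤ Lc * (16 * (w * (w + 1))) := Nat.mul_le_mul_left _ h7
    nlinarith
  obtain ⟨a, b, ha, hb, hab, hlt⟩ := hex
  have haW := (mem_filter.1 ha).1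
  have hbW := (mem_filter.1 hb).1
  have haU : Unc (G j0) a := (mem_filter.1 ha).2
  have hbU : Unc (G j0) b := (mem_filter.1 hb).2
  set N : V → V → Prop := fun x y => (x = a ∧ y = b) ∨ (x = b ∧ y = a) with hN
  have hNmat : IsMat (W j0) N := by
    refine ⟨?_, ?_, ?_, ?_⟩
    · rintro x y (⟨h1, h2⟩ | ⟨h1, h2⟩)
      · exact Or.inr ⟨h2, h1⟩
      · exact Or.inl ⟨h2, h1⟩
    · rintro x (⟨h1, h2⟩ | ⟨h1, h2⟩)
      · exact hab (h1 ▸ h2)
      · exact hab (h2 ▸ h1)
    · rintro x y z (⟨h1, h2⟩ | ⟨h1, h2⟩) (⟨h3, h4⟩ | ⟨h3, h4⟩)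
      · exact h2.trans h4.symm
      · exact absurd (h1.symm.trans h3) hab
      · exact absurd (h3.symm.trans h1) hab
      · exact h2.trans h4.symm
    · rintro x y (⟨h1, h2⟩ | ⟨h1, h2⟩)
      · exact h1 ▸ haW
      · exact h1 ▸ hbW
  have hdis : ∀ x y z, G j0 x y → ¬ N x z := by
    rintro x y z h (⟨h1, h2⟩ | ⟨h1, h2⟩)
    · exact haU y (h1 ▸ h)
    · exact hbU y (h1 ▸ h)
  refine ⟨fun j x y => G j x y ∨ (j = j0 ∧ N x y), fun j => ?_, fun j => ?_, fun x y => ?_⟩
  · by_cases hj : j = j0
    · subst hj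
      have := (hG j).or hNmat hdis
      convert this using 4
      simp
    · have : (fun x y => G j x y ∨ (j = j0 ∧ N x y)) = G j := by
        funext x y
        simp [hj]
      show IsMat (W j) (fun x y => G j x y ∨ (j = j0 ∧ N x y))
      rw [this]
      exact hG j
  · by_cases hj : j = j0
    · subst hj
      rw [Function.update_self]
      have e1 : nv (fun x y => G j x y ∨ (j = j ∧ N x y)) =
          cnt (fun x => (∃ y, G j x y) ∨ (x ∈ ({a, b} : Finset V))) := by
        refine cnt_congr fun x => ?_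
        constructor
        · rintro ⟨y, h | ⟨-, ⟨h1, h2⟩ | ⟨h1, h2⟩⟩⟩
          · exact Or.inl ⟨y, h⟩
          · exact Or.inr (by simp [h1])
          · exact Or.inr (by simp [h1])
        · rintro (⟨y, h⟩ | h)
          · exact ⟨y, Or.inl h⟩
          · rw [Finset.mem_insert, Finset.mem_singleton] at h
            rcases h with h | h
            · exact ⟨b, Or.inr ⟨rfl, Or.inl ⟨h, rfl⟩⟩⟩
            · exact ⟨a, Or.inr ⟨rfl, Or.inr ⟨h, rfl⟩⟩⟩
      have e2 := cnt_or_add_and (fun x : V => ∃ y, G j x y) (fun x => x ∈ ({a, b} : Finset V))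
      have e3 : cnt (fun x : V => (∃ y, G j x y) ∧ x ∈ ({a, b} : Finset V)) = 0 := by
        refine cnt_eq_zero ?_
        rintro x ⟨⟨y, h⟩, h2⟩
        rw [Finset.mem_insert, Finset.mem_singleton] at h2
        rcases h2 with h2 | h2
        · exact haU y (h2 ▸ h)
        · exact hbU y (h2 ▸ h)
      have e4 : cnt (fun x => x ∈ ({a, b} : Finset V)) = 2 := by
        rw [cnt_mem, Finset.card_pair hab]
      have e5 : cnt (fun x : V => ∃ y, G j x y) = 2 * q' j := hn j
      rw [e1]
      omega
    · rw [Function.update_of_ne hj]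
      have : (fun x y => G j x y ∨ (j = j0 ∧ N x y)) = G j := by
        funext x y
        simp [hj]
      show nv (fun x y => G j x y ∨ (j = j0 ∧ N x y)) = 2 * q' j
      rw [this]
      exact hn j
  · by_cases hxy : N x y
    · have hlt' : ld G x y < Lc := by
        rcases hxy with ⟨h1, h2⟩ | ⟨h1, h2⟩
        · rw [h1, h2]; exact hlt
        · rw [h1, h2]
          have : ld G b a = ld G a b :=
            cnt_congr fun i => ⟨fun h => (hG i).symm _ _ h, fun h => (hG i).symm _ _ h⟩
          rw [this]; exact hlt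
      have h1 : ld (fun j x y => G j x y ∨ (j = j0 ∧ N x y)) x y ≤
          ld G x y + cnt (fun i : J => i = j0 ∧ N x y) := cnt_or_le _ _
      have h2 : cnt (fun i : J => i = j0 ∧ N x y) ≤ 1 := by
        refine (cnt_mono (q := fun i => i ∈ ({j0} : Finset J)) fun i hi => by simp [hi.1]).trans ?_
        rw [cnt_mem, Finset.card_singleton]
      omega
    · have : ld (fun j x y => G j x y ∨ (j = j0 ∧ N x y)) x y = ld G x y :=
        cnt_congr fun i => by simp [hxy]
      rw [this]
      exact hl x y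

theorem medium {V J : Type} [Fintype V] [DecidableEq V] [Fintype J] [DecidableEq J] (W : J → Finset V) (q : J → ℕ)
    (Lc : ℕ) (h1 : ∀ j, 0 < q j → 8 * q j + Fintype.card V ≤ 4 * (W j).card)
    (h2 : 32 * ∑ j, q j ≤ Lc * Fintype.card V ^ 2) :
    ∃ G : J → V → V → Prop, (∀ j, IsMat (W j) (G j)) ∧ (∀ j, nv (G j) = 2 * q j) ∧ ∀ a b, ld G a b ≤ Lc := by
  have main : ∀ n : ℕ, ∀ q' : J → ℕ, (∀ j, q' j ≤ q j) → ∑ j, q' j = n →
      ∃ G : J → V → V → Prop, (∀ j, IsMat (W j) (G j)) ∧ (∀ j, nv (G j) = 2 * q' j) ∧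
        ∀ a b, ld G a b ≤ Lc := by
    intro n
    induction n with
    | zero =>
      intro q' _ hs
      refine ⟨fun _ _ _ => False, fun j => isMat_false _, fun j => ?_, fun a b => ?_⟩
      · have h0 : q' j = 0 := (Finset.sum_eq_zero_iff.1 hs) j (Finset.mem_univ j)
        rw [h0, nv]
        exact cnt_eq_zero fun x hx => hx.choose_spec
      · rw [ld, cnt_eq_zero fun i hi => hi]
        exact Nat.zero_le _
    | succ n ih =>
      intro q' hle hs
      obtain ⟨j0, -, hj0⟩ : ∃ j ∈ (Finset.univ : Finset J), q' j ≠ 0 := by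
        by_contra hno
        push Not at hno
        rw [Finset.sum_eq_zero hno] at hs
        omega
      set q'' : J → ℕ := Function.update q' j0 (q' j0 - 1) with hq''
      have hq0 : q'' j0 = q' j0 - 1 := Function.update_self ..
      have hne : ∀ j, j ≠ j0 → q'' j = q' j := fun j hj => Function.update_of_ne hj ..
      have hback : Function.update q'' j0 (q'' j0 + 1) = q' := by
        funext j
        by_cases hj : j = j0
        · subst hj
          rw [Function.update_self, hq0]
          omega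
        · rw [Function.update_of_ne hj, hne j hj]
      have hsum : ∑ j, q'' j = n := by
        have e1 : ∑ j, q' j = q' j0 + ∑ j ∈ Finset.univ.erase j0, q' j :=
          (Finset.add_sum_erase _ _ (Finset.mem_univ j0)).symm
        have e2 : ∑ j, q'' j = q'' j0 + ∑ j ∈ Finset.univ.erase j0, q'' j :=
          (Finset.add_sum_erase _ _ (Finset.mem_univ j0)).symm
        have e3 : ∑ j ∈ Finset.univ.erase j0, q'' j = ∑ j ∈ Finset.univ.erase j0, q' j :=
          Finset.sum_congr rfl fun j hj => hne j (Finset.mem_erase.1 hj).1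
        omega
      have hle'' : ∀ j, q'' j ≤ q j := by
        intro j
        by_cases hj : j = j0
        · rw [hj, hq0]
          exact (Nat.sub_le _ _).trans (hle j0)
        · rw [hne j hj]
          exact hle j
      obtain ⟨G, hG, hn, hl⟩ := ih q'' hle'' hsum
      have hqj : 0 < q j0 := lt_of_lt_of_le (Nat.pos_of_ne_zero hj0) (hle j0)
      have hW : 8 * (q'' j0 + 1) + Fintype.card V ≤ 4 * (W j0).card := by
        have := h1 j0 hqj
        have h3 := hle j0
        rw [hq0]
        omega
      have hS : ∑ j, q' j ≤ ∑ j, q j := Finset.sum_le_sum fun j _ => hle j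
      have hq : 32 * (∑ j, q'' j + 1) ≤ Lc * Fintype.card V ^ 2 := by
        rw [hsum]
        omega
      obtain ⟨G', hG', hn', hl'⟩ := step W q'' Lc j0 G hG hn hl hW hq
      rw [hback] at hn'
      exact ⟨G', hG', hn', hl'⟩
  exact main _ q (fun j => le_rfl) rfl

end Pool.Agent.Work.MP_18db2a_co
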