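import Pool.Agent.Work.MP_18db2a_co.EBd
import Pool.Agent.Work.MP_18db2a_co.Med

set_option autoImplicit false

/-!
# EMed (size M, uses the statements of EBd, Med): the heavy colours in case E

`m = card V`, `B = Bad T`, `β = |B| ≤ 10^(-5) m`.  `bI_spec`: `3 ∣ m + δ`, `3 ∣ |T i|`, so `2 |(T i)ᶜ| - δ = 2 (m - |T i|) - δ = 3 m - (m + δ) - 2 |T i|` is divisible by `3`.
`UU_card`: `|UU T FB i| ≥ |(T i)ᶜ| - 2 β`: a vertex `x ∉ T i` outside `UU` is in `B` or covered by an edge of `FB i`; in the latter case, if `x ∉ B`, its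
partner is in `B` (`IsFB.bad`), and different `x` have different partners.  `nv_FB_le`: `nv (FB i) ≤ 2 β` for the same reason.
`exists_G`: apply `medium` with `J = I`, `W = UU T FB`, `q i = (tI T δ FB i).toNat` for heavy `i`, `q i = 0` for light `i`, `Lc = m / 10⁴`.  If `q i > 0` then
`2 q i ≤ 2 bI = (4 u - 2 δ)/3`, `u = |(T i)ᶜ| ≤ m`, so `|UU| - 2 q i ≥ (2 δ - u)/3 - 2 β ≥ m/3 - 2 β ≥ m/4`.  Moreover `2 u > δ > m`, so `2 |T i| ≤ m`, and `q i ≤ m/3`; by `EBd` there are at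
most `2.5 * 10^(-6) m²` such `i`: `32 ∑ q ≤ 32 * 2.5 * 10^(-6) m³/3 ≤ Lc m²`.
-/

namespace Pool.Agent.Work.MP_18db2a_co

open Finset

theorem bI_spec {V I : Type} [Fintype V] [DecidableEq V] [Fintype I] {T : I → Finset V} {δ : ℕ} (h : Dat T δ)
    (i : I) : 3 * bI T δ i = 2 * (((T i)ᶜ).card : ℤ) - δ := by
  have h1 := h.dvd
  have h2 := h.dvdT i
  have h3 : ((T i)ᶜ).card + (T i).card = Fintype.card V := by
    rw [add_comm]
    exact Finset.card_add_card_compl (T i)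
  unfold bI
  omega

private theorem em_bad {V I : Type} [Fintype V] [DecidableEq V] [Fintype I] {T : I → Finset V} {δ : ℕ}
    {FB : I → V → V → Prop} (hF : IsFB T δ FB) (i : I) :
    cnt (fun x => x ∉ Bad T ∧ ∃ y, FB i x y) ≤ (Bad T).card := by
  classical
  rw [← cnt_mem (Bad T)]
  refine cnt_le_of_inj (fun x => if hx : ∃ y, FB i x y then hx.choose else x) (fun x hx => ?_)
    fun x y hx hy hxy => ?_
  · obtain ⟨hxB, hx⟩ := hx
    simp only [dif_pos hx]
    rcases hF.bad i x _ hx.choose_spec with h | h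
    · exact absurd h hxB
    · exact h
  · simp only [dif_pos hx.2, dif_pos hy.2] at hxy
    have h1 := hx.2.choose_spec
    have h2 := hy.2.choose_spec
    rw [← hxy] at h2
    exact (hF.mat i).uniq _ _ _ ((hF.mat i).symm _ _ h1) ((hF.mat i).symm _ _ h2)

theorem UU_card {V I : Type} [Fintype V] [DecidableEq V] [Fintype I] {T : I → Finset V} {δ : ℕ}
    {FB : I → V → V → Prop} (hF : IsFB T δ FB) (i : I) :
    ((T i)ᶜ).card ≤ (UU T FB i).card + 2 * (Bad T).card := by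
  have h1 : ((T i)ᶜ).card ≤ cnt (fun x => x ∈ UU T FB i ∨
      (x ∈ Bad T ∨ (x ∉ Bad T ∧ ∃ y, FB i x y))) := by
    rw [← cnt_mem ((T i)ᶜ)]
    refine cnt_mono fun x hx => ?_
    rw [Finset.mem_compl] at hx
    by_cases hB : x ∈ Bad T
    · exact Or.inr (Or.inl hB)
    · by_cases hy : ∃ y, FB i x y
      · exact Or.inr (Or.inr ⟨hB, hy⟩)
      · refine Or.inl ?_
        unfold UU
        simp only [mem_filter, mem_univ, true_and]
        exact ⟨hx, hB, fun y h => hy ⟨y, h⟩⟩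
  have h2 := (h1.trans (cnt_or_le _ _)).trans (Nat.add_le_add_left (cnt_or_le _ _) _)
  rw [cnt_mem, cnt_mem] at h2
  have h3 := em_bad hF i
  omega

theorem nv_FB_le {V I : Type} [Fintype V] [DecidableEq V] [Fintype I] {T : I → Finset V} {δ : ℕ}
    {FB : I → V → V → Prop} (hF : IsFB T δ FB) (i : I) : nv (FB i) ≤ 2 * (Bad T).card := by
  have h1 : nv (FB i) ≤ cnt (fun x => x ∈ Bad T ∨ (x ∉ Bad T ∧ ∃ y, FB i x y)) :=
    cnt_mono fun x hx => by
      by_cases hB : x ∈ Bad T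
      · exact Or.inl hB
      · exact Or.inr ⟨hB, hx⟩
  have h2 := h1.trans (cnt_or_le _ _)
  rw [cnt_mem] at h2
  have h3 := em_bad hF i
  omega

theorem exists_G : ∃ m₀ : ℕ, ∀ (V I : Type) [Fintype V] [DecidableEq V] [Fintype I] [DecidableEq I]
    (T : I → Finset V) (δ : ℕ) (FB : I → V → V → Prop), m₀ ≤ Fintype.card V → Dat T δ → CaseE T → IsFB T δ FB →
    ∃ G : I → V → V → Prop, IsG T δ FB G := by
  obtain ⟨m₁, hm₁⟩ := caseE_bounds
  refine ⟨max m₁ 20000, fun V I _ _ _ _ T δ FB hm hD hE hF => ?_⟩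
  classical
  have hmm : m₁ ≤ Fintype.card V := (le_max_left _ _).trans hm
  have hm2 : 20000 ≤ Fintype.card V := (le_max_right _ _).trans hm
  obtain ⟨hβ, -, -, hmany⟩ := hm₁ V I T δ hmm hD hE
  set m := Fintype.card V with hmdef
  set q : I → ℕ := fun i => if Heavy T i then (tI T δ FB i).toNat else 0 with hq
  have hlo := hD.lo
  have hkey : ∀ j, 0 < q j → Heavy T j ∧ 3 * q j + δ ≤ 2 * ((T j)ᶜ).card := by
    intro j hj
    have hH : Heavy T j := by
      by_contra hH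
      simp only [hq, if_neg hH] at hj
      exact lt_irrefl _ hj
    refine ⟨hH, ?_⟩
    have h1 : q j = (tI T δ FB j).toNat := by simp only [hq, if_pos hH]
    rw [h1] at hj ⊢
    have h2 := bI_spec hD j
    have h3 : tI T δ FB j = bI T δ j - (nv (FB j) : ℤ) / 2 := rfl
    omega
  have hcompl : ∀ j, ((T j)ᶜ).card + (T j).card = m := fun j => by
    rw [add_comm]
    exact Finset.card_add_card_compl (T j)
  have h1 : ∀ j, 0 < q j → 8 * q j + m ≤ 4 * (UU T FB j).card := by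
    intro j hj
    obtain ⟨-, h2⟩ := hkey j hj
    have h3 := UU_card hF j
    have h4 := hcompl j
    omega
  have hsum : ∑ j, q j ≤ (m / 3) * cnt (fun i => Heavy T i ∧ 2 * (T i).card ≤ m) := by
    rw [cnt_eq_sum, Finset.mul_sum]
    refine Finset.sum_le_sum fun j _ => ?_
    rcases Nat.eq_zero_or_pos (q j) with h0 | h0
    · rw [h0]
      exact Nat.zero_le _
    · obtain ⟨hH, h2⟩ := hkey j h0
      have h4 := hcompl j
      have h5 : 2 * (T j).card ≤ m := by omega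
      rw [if_pos ⟨hH, h5⟩, mul_one]
      omega
  have h2 : 32 * ∑ j, q j ≤ m / 10 ^ 4 * m ^ 2 := by
    set c := cnt (fun i => Heavy T i ∧ 2 * (T i).card ≤ m) with hc
    have h3 : (3 : ℕ) * (m / 3) ≤ m := Nat.mul_div_le m 3
    have h4 : m < 10 ^ 4 * (m / 10 ^ 4 + 1) := by
      have := Nat.lt_mul_div_succ m (show 0 < 10 ^ 4 by norm_num)
      exact this
    have h3' : (3 : ℝ) * ((m / 3 : ℕ) : ℝ) ≤ m := by exact_mod_cast h3
    have h4' : (m : ℝ) < 10 ^ 4 * (((m / 10 ^ 4 : ℕ) : ℝ) + 1) := by exact_mod_cast h4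
    have h5' : (4 : ℝ) * 10 ^ 5 * c ≤ (m : ℝ) ^ 2 := by exact_mod_cast hmany
    have h6' : ((∑ j, q j : ℕ) : ℝ) ≤ ((m / 3 : ℕ) : ℝ) * c := by exact_mod_cast hsum
    have h7 : (20000 : ℝ) ≤ m := by exact_mod_cast hm2
    have h8 : (32 : ℝ) * ((∑ j, q j : ℕ) : ℝ) ≤ ((m / 10 ^ 4 : ℕ) : ℝ) * (m : ℝ) ^ 2 := by
      have hc0 : (0 : ℝ) ≤ c := Nat.cast_nonneg _
      have e1 : ((m / 3 : ℕ) : ℝ) * c ≤ (m : ℝ) / 3 * ((m : ℝ) ^ 2 / (4 * 10 ^ 5)) := by
        refine mul_le_mul (by linarith) ?_ hc0 (by positivity)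
        rw [le_div_iff₀ (by norm_num)]
        linarith
      have e2 : ((m : ℝ) / 10 ^ 4 - 1) * (m : ℝ) ^ 2 ≤ ((m / 10 ^ 4 : ℕ) : ℝ) * (m : ℝ) ^ 2 := by
        refine mul_le_mul_of_nonneg_right ?_ (by positivity)
        linarith
      have e3 : 32 * ((m : ℝ) / 3 * ((m : ℝ) ^ 2 / (4 * 10 ^ 5))) ≤ ((m : ℝ) / 10 ^ 4 - 1) * (m : ℝ) ^ 2 := by
        have : (0 : ℝ) ≤ (m : ℝ) ^ 2 * ((m : ℝ) - 20000) :=
          mul_nonneg (by positivity) (by linarith)
        nlinarith [this, sq_nonneg (m : ℝ)]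
      linarith
    exact_mod_cast h8
  obtain ⟨G, hG1, hG2, hG3⟩ := medium (UU T FB) q (m / 10 ^ 4) h1 h2
  refine ⟨G, hG1, fun i hi a b hab => ?_, fun i hi => ?_, fun a b => ?_⟩
  · have h3 := hG2 i
    have h4 : q i = 0 := by
      simp only [hq]
      rw [if_neg (fun hH : Heavy T i => hH hi)]
    rw [h4, mul_zero] at h3
    have h5 : 0 < nv (G i) := cnt_pos a ⟨b, hab⟩
    omega
  · rw [hG2 i]
    simp only [hq, if_pos hi]
  · calc 10 ^ 4 * ld G a b ≤ 10 ^ 4 * (m / 10 ^ 4) := Nat.mul_le_mul_left _ (hG3 a b)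
      _ ≤ m := Nat.mul_div_le m _

end Pool.Agent.Work.MP_18db2a_co
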