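import Pool.Agent.Work.MP_18db2a_co.EIneq
import Pool.Agent.Work.MP_18db2a_co.EMed

set_option autoImplicit false

/-!
# ETot (size M, uses the statements of EIneq, EMed, Cnt): the total demand is large enough for the light colours

`m = card V`, `β = |Bad T|`.  All sums over ordered pairs `a ≠ b`.
`∑ i, nv (FB i) = ∑∑ ld FB a b = δ (m (m-1) - (m-β)(m-β-1))`, `∑ i, nv (G i) = ∑∑ ld G a b` (only pairs outside `Bad T`), so
`∑∑ dem = δ (m-β)(m-β-1) - ∑ nv (G i) = δ m (m-1) - ∑ nv (FB i) - ∑ nv (G i)` (`ld G a b ≤ δ`).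
For heavy `i`, `nv (FB i) + nv (G i) = 2 bI + 2 (nv (FB i)/2 - bI)⁺` (`nv (FB i)` is even), and `3 (nv (FB i)/2 - bI) = 3 nv (FB i)/2 - 2 |(T i)ᶜ| + δ`; for light `i`, `nv (G i) = 0` and
`2 tI = 2 bI - nv (FB i)`.  So the claim `2 ∑_{light} tI ≤ ∑∑ dem` is equivalent to
`2 ∑_{all} bI + 2 ∑_{heavy} (nv (FB i)/2 - bI)⁺ ≤ δ m (m-1)`; multiply by `3`: `3 bI = 2 |(T i)ᶜ| - δ` (`bI_spec`), `∑ |(T i)ᶜ| = m (card I) - ∑ |T i| = m δ (2 m + δ - 3)/2`
(`sum_T`, `Dat.card`; or `∑ x, list_one`), `card I = (m + δ - 1)(m + δ - 2)/2`, and `count_ineq` gives `∑_{heavy} (..)⁺ ≤ δ (δ-1)(δ-2)/2`.  The remaining identity is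
`2 [m δ (2 m + δ - 3) - δ (m + δ - 1)(m + δ - 2)/2] + δ (δ-1)(δ-2) = 3 δ m (m-1)`.
-/

namespace Pool.Agent.Work.MP_18db2a_co

open Finset

private theorem sum_ld {V I : Type} [Fintype V] [Fintype I] (U : I → Finset V) (F : I → V → V → Prop)
    (hF : ∀ i, IsMat (U i) (F i)) : ∑ a, ∑ b, ld F a b = ∑ i, nv (F i) := by
  have h1 : ∀ i, nv (F i) = cnt (fun p : V × V => F i p.1 p.2) := fun i => (hF i).nv_eq
  rw [Finset.sum_congr rfl fun i _ => h1 i, cnt_comm (fun i (p : V × V) => F i p.1 p.2),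
    Fintype.sum_prod_type]
  rfl

private theorem ld_self {V I : Type} [Fintype V] [Fintype I] (U : I → Finset V) (F : I → V → V → Prop)
    (hF : ∀ i, IsMat (U i) (F i)) (a : V) : ld F a a = 0 :=
  cnt_eq_zero fun i h => (hF i).irr _ h

private theorem dem_add {V I : Type} [Fintype V] [DecidableEq V] [Fintype I] (T : I → Finset V) (δ : ℕ)
    (FB G : I → V → V → Prop) (hD : Dat T δ) (hFB : IsFB T δ FB) (hG : IsG T δ FB G) (a b : V) (hab : a ≠ b) :
    dem T δ G a b + ld G a b + ld FB a b = δ := by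
  classical
  have hUU : ∀ i x, x ∈ UU T FB i → x ∉ Bad T := fun i x hx => (mem_filter.1 hx).2.2.1
  unfold dem
  by_cases h : a ∈ Bad T ∨ b ∈ Bad T
  · rw [if_pos (Or.inr h), hFB.load a b hab h]
    have h1 : ld G a b = 0 := by
      apply cnt_eq_zero
      intro i hi
      rcases h with h | h
      · exact hUU i a ((hG.mat i).mem _ _ hi) h
      · exact hUU i b ((hG.mat i).mem' hi) h
    rw [h1]
    omega
  · rw [if_neg (by
      rintro (h1 | h1)
      · exact hab h1
      · exact h h1)]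
    have h1 : ld FB a b = 0 := by
      apply cnt_eq_zero
      intro i hi
      exact h (hFB.bad i a b hi)
    have h2 := hG.load a b
    have h3 := hD.lo
    rw [h1]
    omega

theorem lights_total : ∃ m₀ : ℕ, ∀ (V I : Type) [Fintype V] [DecidableEq V] [Fintype I] [DecidableEq I]
    (T : I → Finset V) (δ : ℕ) (FB G : I → V → V → Prop), m₀ ≤ Fintype.card V → Dat T δ → CaseE T →
    IsFB T δ FB → IsG T δ FB G →
    2 * ∑ i : LI T, tI T δ FB i.1 ≤ ∑ a, ∑ b, (dem T δ G a b : ℤ) := by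
  classical
  obtain ⟨m₁, hm₁⟩ := count_ineq
  refine ⟨max m₁ 2, ?_⟩
  intro V I _ _ _ _ T δ FB G hm hD hE hFB hG
  have hcount := hm₁ V I T δ (le_trans (le_max_left _ _) hm) hD hE FB hFB.mat hFB.bad
    (univ.filter fun i => Heavy T i) (fun i hi => (mem_filter.1 hi).2)
  have hm2 : 2 ≤ Fintype.card V := le_trans (le_max_right _ _) hm
  set m : ℝ := (Fintype.card V : ℝ) with hmdef
  -- total demand
  have hdem : (∑ a, ∑ b, (dem T δ G a b : ℝ)) + ∑ i, (nv (G i) : ℝ) + ∑ i, (nv (FB i) : ℝ) =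
      δ * (m * (m - 1)) := by
    have h1 : (∑ a, ∑ b, (dem T δ G a b : ℝ)) + ∑ i, (nv (G i) : ℝ) + ∑ i, (nv (FB i) : ℝ) =
        ∑ a, ∑ b, ((dem T δ G a b + ld G a b + ld FB a b : ℕ) : ℝ) := by
      have h2 : ∑ i, (nv (G i) : ℝ) = ∑ a, ∑ b, (ld G a b : ℝ) := by
        exact_mod_cast (sum_ld (UU T FB) G hG.mat).symm
      have h3 : ∑ i, (nv (FB i) : ℝ) = ∑ a, ∑ b, (ld FB a b : ℝ) := by
        exact_mod_cast (sum_ld (fun i => (T i)ᶜ) FB hFB.mat).symm
      rw [h2, h3, ← Finset.sum_add_distrib, ← Finset.sum_add_distrib]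
      refine Finset.sum_congr rfl fun a _ => ?_
      rw [← Finset.sum_add_distrib, ← Finset.sum_add_distrib]
      refine Finset.sum_congr rfl fun b _ => ?_
      push_cast
      ring
    rw [h1]
    have h4 : ∀ a : V, ∑ b, ((dem T δ G a b + ld G a b + ld FB a b : ℕ) : ℝ) = δ * (m - 1) := by
      intro a
      have h5 : ∀ b, ((dem T δ G a b + ld G a b + ld FB a b : ℕ) : ℝ) = δ - (if b = a then (δ : ℝ) else 0) := by
        intro b
        by_cases hab : b = a
        · rw [if_pos hab, hab]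
          have h6 : dem T δ G a a = 0 := by
            unfold dem
            rw [if_pos (Or.inl rfl)]
          rw [h6, ld_self (UU T FB) G hG.mat, ld_self (fun i => (T i)ᶜ) FB hFB.mat]
          simp
        · rw [if_neg hab, dem_add T δ FB G hD hFB hG a b (Ne.symm hab)]
          ring
      rw [Finset.sum_congr rfl fun b _ => h5 b, Finset.sum_sub_distrib, Finset.sum_const, nsmul_eq_mul,
        Finset.card_univ, ← hmdef]
      simp
      ring
    rw [Finset.sum_congr rfl fun a _ => h4 a, Finset.sum_const, nsmul_eq_mul, Finset.card_univ, ← hmdef]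
    ring
  -- each colour
  have htI : ∀ i, (tI T δ FB i : ℝ) = (bI T δ i : ℝ) - (nv (FB i) : ℝ) / 2 := by
    intro i
    obtain ⟨k, hk⟩ := (hFB.mat i).even
    have h1 : tI T δ FB i = bI T δ i - k := by
      unfold tI
      rw [hk]
      push_cast
      omega
    rw [h1, hk]
    push_cast
    ring
  have hbI : ∀ i, 3 * (bI T δ i : ℝ) = 2 * (((T i)ᶜ).card : ℝ) - δ := by
    intro i
    exact_mod_cast bI_spec hD i
  have hcol : ∀ i, 3 * ((if Light T i then 2 * (tI T δ FB i : ℝ) else 0) + nv (FB i) + nv (G i)) =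
      (4 * (((T i)ᶜ).card : ℝ) - 2 * δ) +
        2 * (if Heavy T i then max 0 (3 * ((nv (FB i) : ℝ) / 2) - 2 * (((T i)ᶜ).card : ℝ) + δ) else 0) := by
    intro i
    by_cases hL : Light T i
    · have hnH : ¬ Heavy T i := fun h => h hL
      rw [if_pos hL, if_neg hnH, htI i]
      have h1 : nv (G i) = 0 := by
        apply cnt_eq_zero
        rintro x ⟨y, hy⟩
        exact hG.light i hL x y hy
      rw [h1]
      have := hbI i
      push_cast
      linarith
    · have hHv : Heavy T i := hL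
      rw [if_neg hL, if_pos hHv, hG.size i hL]
      have h1 := hbI i
      have h2 := htI i
      have h3 : (((tI T δ FB i).toNat : ℕ) : ℝ) = max (tI T δ FB i : ℝ) 0 := by
        have : (((tI T δ FB i).toNat : ℤ) : ℝ) = ((max (tI T δ FB i) 0 : ℤ) : ℝ) := by
          rw [Int.toNat_eq_max]
        rw [Int.cast_natCast] at this
        rw [this]
        push_cast
        rfl
      push_cast
      rw [h3]
      rcases le_total (tI T δ FB i : ℝ) 0 with h4 | h4
      · rw [max_eq_right h4, max_eq_right (by linarith)]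
        linarith
      · rw [max_eq_left h4, max_eq_left (by linarith)]
        linarith
  have hsum : 3 * (2 * (∑ i : LI T, (tI T δ FB i.1 : ℝ)) + ∑ i, (nv (FB i) : ℝ) + ∑ i, (nv (G i) : ℝ)) =
      ∑ i, (4 * (((T i)ᶜ).card : ℝ) - 2 * δ) +
        2 * ∑ i ∈ univ.filter (fun i => Heavy T i),
          max 0 (3 * ((nv (FB i) : ℝ) / 2) - 2 * (((T i)ᶜ).card : ℝ) + δ) := by
    rw [sum_LI T (fun i => (tI T δ FB i : ℝ)), Finset.sum_filter, Finset.mul_sum, Finset.mul_sum,
      ← Finset.sum_add_distrib, ← Finset.sum_add_distrib, ← Finset.sum_add_distrib, Finset.mul_sum]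
    refine Finset.sum_congr rfl fun i _ => ?_
    rw [← hcol i]
    split_ifs <;> ring
  have hcompl : ∀ i, (((T i)ᶜ).card : ℝ) = m - ((T i).card : ℝ) := by
    intro i
    have := Finset.card_add_card_compl (T i)
    have h2 : ((T i).card : ℝ) + (((T i)ᶜ).card : ℝ) = m := by
      rw [hmdef]
      exact_mod_cast this
    linarith
  have hI : (Fintype.card I : ℝ) = (m + δ - 1) * (m + δ - 2) / 2 := by
    rw [hD.card, Nat.cast_choose_two, Nat.cast_sub (by omega), hmdef]
    push_cast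
    ring
  have h4u : ∑ i, (4 * (((T i)ᶜ).card : ℝ) - 2 * δ) =
      4 * (m * ((m + δ - 1) * (m + δ - 2) / 2) - m * (m - 1) * (m - 2) / 2) -
        2 * δ * ((m + δ - 1) * (m + δ - 2) / 2) := by
    rw [Finset.sum_sub_distrib, ← Finset.mul_sum, Finset.sum_congr rfl fun i _ => hcompl i,
      Finset.sum_sub_distrib, sum_T hD, Finset.sum_const, Finset.sum_const, nsmul_eq_mul, nsmul_eq_mul,
      Finset.card_univ, hI, ← hmdef]
    ring
  have hfinal : 2 * (∑ i : LI T, (tI T δ FB i.1 : ℝ)) ≤ ∑ a, ∑ b, (dem T δ G a b : ℝ) := by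
    have e1 : 4 * (m * ((m + δ - 1) * (m + δ - 2) / 2) - m * (m - 1) * (m - 2) / 2) -
        2 * δ * ((m + δ - 1) * (m + δ - 2) / 2) + δ * (δ - 1) * (δ - 2) = 3 * (δ * (m * (m - 1))) := by
      ring
    linarith [hcount, hsum, h4u, hdem]
  exact_mod_cast hfinal

end Pool.Agent.Work.MP_18db2a_co
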