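import Pool.Agent.Work.MP_18db2a_co.GrCh

set_option autoImplicit false

/-!
# Trans (size M-L, uses the statement of GrCh): moving edges from large to small matchings

`nv (F i)` is even (`IsMat.even`); put `n i = nv (F i) / 2`, `def i = (t i - n i)⁺`, `sur i = (n i - t i)⁺` (natural numbers, both `≤ D`; at most one of them is
positive) and `∑ def ≤ ∑ sur` by `h2`.  Let `P = Σ i, Fin (def i)`, `R = Σ i, Fin (sur i)`; there is an injection `φ : P → R`; for `p : P` put `i_p = p.1`,
`j_p = (φ p).1` (`i_p ≠ j_p`).  Every `i` is `i_p` for `def i ≤ D` many `p`, every `j` is `j_p` for at most `sur j ≤ D` many `p`.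
`Z p` = set of the pairs `e` counted in `h3` for `i = i_p`, `j = j_p` (more than `6 D`).  `bad p p' e'`: the pairs `e` of `F (j_p)` such that
(`j_p = j_p'` and `e = e'` or `e = e'.swap`) or (`i_p = i_p'` and `e` has a common member with `e'`).  As `F (j_p)` is a matching, the first kind has at most `2`
members, the second at most `4`; `w p p' = 2 [j_p = j_p'] + 4 [i_p = i_p']` for `p ≠ p'` and `0` for `p = p'`, `∑ p', w p p' ≤ 6 D`.
(For the symmetry of `bad` it is convenient to define `bad p p' e'` as the set of all `e ∈ Z p` with these properties if `e' ∈ Z p'`, and empty otherwise.)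
`greedy_choice` gives edges `e p`.  Define `F' i a b` iff (`F i a b` and there is no `p` with `j_p = i`, `e p ∈ {(a,b),(b,a)}`) or there is a `p` with `i_p = i`,
`e p ∈ {(a, b), (b, a)}`.
* matching: new edges of colour `i` are inside `U i`, uncovered by `F i`, pairwise disjoint.
* loads: for a fixed pair `a b` the `p` with `e p ∈ {(a,b),(b,a)}` have distinct `j_p` (colours which lose the pair) and distinct `i_p`
  (colours which get it, and which did not have it, as `a` is uncovered by `F (i_p)`).
* sizes: if `def i > 0` then nothing is removed and `2 def i` vertices are added, `nv (F' i) = 2 t i`; otherwise nothing is added and at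
  most `sur i` edges are removed, `nv (F' i) ≥ 2 n i - 2 sur i = 2 t i`.
-/

namespace Pool.Agent.Work.MP_18db2a_co

open Finset

/-- number of values of an injective function -/
private theorem cnt_ex {P I : Type} [Fintype P] [Fintype I] (f : P → I) (q : P → Prop)
    (hinj : ∀ x y, q x → q y → f x = f y → x = y) : cnt (fun i => ∃ p, f p = i ∧ q p) = cnt q := by
  classical
  refine le_antisymm ?_ (cnt_le_of_inj f (fun x hx => ⟨x, rfl, hx⟩) hinj)
  by_cases hP : Nonempty P
  · refine cnt_le_of_inj (fun i => if h : ∃ p, f p = i ∧ q p then h.choose else hP.some) ?_ ?_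
    · intro i hi
      rw [dif_pos hi]
      exact hi.choose_spec.2
    · intro i j hi hj hij
      rw [dif_pos hi, dif_pos hj] at hij
      rw [← hi.choose_spec.1, ← hj.choose_spec.1, hij]
  · rw [cnt_eq_zero fun i hi => hP ⟨hi.choose⟩]
    exact Nat.zero_le _

private theorem cnt_sigma {I : Type} [Fintype I] [DecidableEq I] (d : I → ℕ) (i : I) :
    cnt (fun p : Σ i, Fin (d i) => p.1 = i) = d i := by
  classical
  rw [cnt_eq_sum, Fintype.sum_sigma]
  have h1 : ∀ j : I, (∑ _x : Fin (d j), (if j = i then 1 else 0)) = if j = i then d i else 0 := by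
    intro j
    by_cases hj : j = i
    · subst hj
      simp
    · simp [hj]
  rw [Finset.sum_congr rfl fun j _ => h1 j]
  simp

theorem transfer {V I : Type} [Fintype V] [DecidableEq V] [Fintype I] [DecidableEq I] (U : I → Finset V)
    (F : I → V → V → Prop) (hF : ∀ i, IsMat (U i) (F i)) (t : I → ℤ) (D : ℕ)
    (h1 : ∀ i, |(nv (F i) : ℤ) - 2 * t i| ≤ 2 * D) (h2 : 2 * ∑ i, t i ≤ ∑ i, (nv (F i) : ℤ))
    (h3 : ∀ i j, i ≠ j → 6 * D <
      cnt (fun e : V × V => F j e.1 e.2 ∧ e.1 ∈ U i ∧ e.2 ∈ U i ∧ Unc (F i) e.1 ∧ Unc (F i) e.2)) :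
    ∃ F' : I → V → V → Prop, (∀ i, IsMat (U i) (F' i)) ∧ (∀ a b, ld F' a b = ld F a b) ∧
      ∀ i, 2 * t i ≤ (nv (F' i) : ℤ) := by
  classical
  -- half sizes
  obtain ⟨n, hn⟩ : ∃ n : I → ℕ, ∀ i, nv (F i) = 2 * n i :=
    ⟨fun i => nv (F i) / 2, fun i => by
      have := (hF i).even
      obtain ⟨k, hk⟩ := this
      show nv (F i) = 2 * (nv (F i) / 2)
      omega⟩
  set df : I → ℕ := fun i => (t i - n i).toNat with hdf
  set sr : I → ℕ := fun i => ((n i : ℤ) - t i).toNat with hsr
  have hdfD : ∀ i, df i ≤ D := by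
    intro i
    have := h1 i
    rw [hn, abs_le] at this
    push_cast at this
    simp only [hdf]
    omega
  have hsrD : ∀ i, sr i ≤ D := by
    intro i
    have := h1 i
    rw [hn, abs_le] at this
    push_cast at this
    simp only [hsr]
    omega
  have hds : ∀ i, (df i : ℤ) - sr i = t i - n i := by
    intro i
    simp only [hdf, hsr]
    omega
  have hone : ∀ i, df i = 0 ∨ sr i = 0 := by
    intro i
    simp only [hdf, hsr]
    omega
  have hsum : ∑ i, df i ≤ ∑ i, sr i := by
    have h4 : ∑ i, ((df i : ℤ) - sr i) = ∑ i, (t i - n i) := Finset.sum_congr rfl fun i _ => hds i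
    rw [Finset.sum_sub_distrib, Finset.sum_sub_distrib] at h4
    have h5 : ∑ i, (nv (F i) : ℤ) = 2 * ∑ i, (n i : ℤ) := by
      rw [Finset.mul_sum]
      exact Finset.sum_congr rfl fun i _ => by rw [hn]; push_cast; ring
    rw [h5] at h2
    have h6 : (∑ i, (df i : ℤ)) ≤ ∑ i, (sr i : ℤ) := by linarith
    exact_mod_cast h6
  obtain ⟨φ⟩ : Nonempty ((Σ i, Fin (df i)) ↪ (Σ i, Fin (sr i))) := by
    refine Function.Embedding.nonempty_of_card_le ?_
    simp only [Fintype.card_sigma, Fintype.card_fin]
    exact hsum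
  set ip : (Σ i, Fin (df i)) → I := fun p => p.1 with hip
  set jp : (Σ i, Fin (df i)) → I := fun p => (φ p).1 with hjp
  have hij : ∀ p, ip p ≠ jp p := by
    intro p hp
    have h4 : 0 < df (ip p) := lt_of_le_of_lt (Nat.zero_le _) p.2.2
    have h5 : 0 < sr (jp p) := lt_of_le_of_lt (Nat.zero_le _) (φ p).2.2
    rw [← hp] at h5
    rcases hone (ip p) with h6 | h6 <;> omega
  have hcip : ∀ i, cnt (fun p => ip p = i) = df i := fun i => cnt_sigma df i
  have hcjp : ∀ i, cnt (fun p => jp p = i) ≤ sr i := fun i => by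
    rw [← cnt_sigma sr i]
    exact cnt_le_of_inj φ (fun x hx => hx) fun x y _ _ h => φ.injective h
  set Z : (Σ i, Fin (df i)) → Finset (V × V) := fun p => univ.filter fun e : V × V =>
    F (jp p) e.1 e.2 ∧ e.1 ∈ U (ip p) ∧ e.2 ∈ U (ip p) ∧ Unc (F (ip p)) e.1 ∧ Unc (F (ip p)) e.2 with hZ
  have hZm : ∀ p e, e ∈ Z p ↔ (F (jp p) e.1 e.2 ∧ e.1 ∈ U (ip p) ∧ e.2 ∈ U (ip p) ∧
      Unc (F (ip p)) e.1 ∧ Unc (F (ip p)) e.2) := fun p e => by
    simp only [hZ, mem_filter, mem_univ, true_and]
  have hZc : ∀ p, 6 * D < (Z p).card := by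
    intro p
    have := h3 (ip p) (jp p) (hij p)
    rw [cnt_eq] at this
    exact this
  set R : (Σ i, Fin (df i)) → (Σ i, Fin (df i)) → V × V → V × V → Prop := fun p p' e e' =>
    (jp p = jp p' ∧ (e = e' ∨ e = e'.swap)) ∨
      (ip p = ip p' ∧ (e.1 = e'.1 ∨ e.1 = e'.2 ∨ e.2 = e'.1 ∨ e.2 = e'.2)) with hR
  set bad : (Σ i, Fin (df i)) → (Σ i, Fin (df i)) → V × V → Finset (V × V) := fun p p' e' =>
    if e' ∈ Z p' then (Z p).filter (fun e => R p p' e e') else ∅ with hbad
  have hbm : ∀ p p' e e', e ∈ bad p p' e' ↔ (e' ∈ Z p' ∧ e ∈ Z p ∧ R p p' e e') := by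
    intro p p' e e'
    simp only [hbad]
    split_ifs with h4
    · rw [mem_filter]
      exact ⟨fun h => ⟨h4, h⟩, fun h => h.2⟩
    · simp [h4]
  set w : (Σ i, Fin (df i)) → (Σ i, Fin (df i)) → ℕ := fun p p' =>
    (if jp p' = jp p then 2 else 0) + (if ip p' = ip p then 4 else 0) with hw
  obtain ⟨e, he1, he2⟩ := greedy_choice Z bad w (by
    intro p p' e' _
    -- e is determined by one member
    have hd1 : ∀ a, ((Z p).filter fun e => e.1 = a).card ≤ 1 := by
      intro a
      rw [Finset.card_le_one]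
      intro x hx y hy
      rw [mem_filter, hZm] at hx hy
      have h4 := hx.1.1
      have h5 := hy.1.1
      rw [hx.2] at h4
      rw [hy.2] at h5
      exact Prod.ext (hx.2.trans hy.2.symm) ((hF _).uniq _ _ _ h4 h5)
    have hd2 : ∀ a, ((Z p).filter fun e => e.2 = a).card ≤ 1 := by
      intro a
      rw [Finset.card_le_one]
      intro x hx y hy
      rw [mem_filter, hZm] at hx hy
      have h4 := (hF _).symm _ _ hx.1.1
      have h5 := (hF _).symm _ _ hy.1.1
      rw [hx.2] at h4
      rw [hy.2] at h5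
      exact Prod.ext ((hF _).uniq _ _ _ h4 h5) (hx.2.trans hy.2.symm)
    have hsub : bad p p' e' ⊆ (if jp p' = jp p then {e', e'.swap} else ∅) ∪
        (if ip p' = ip p then ((Z p).filter fun e => e.1 = e'.1) ∪ (((Z p).filter fun e => e.1 = e'.2) ∪
          (((Z p).filter fun e => e.2 = e'.1) ∪ ((Z p).filter fun e => e.2 = e'.2))) else ∅) := by
      intro x hx
      rw [hbm] at hx
      obtain ⟨-, h4, h5⟩ := hx
      rw [mem_union]
      rcases h5 with ⟨h6, h7⟩ | ⟨h6, h7⟩
      · left
        rw [if_pos h6.symm]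
        rw [mem_insert, mem_singleton]
        exact h7
      · right
        rw [if_pos h6.symm]
        simp only [mem_union, mem_filter]
        rcases h7 with h7 | h7 | h7 | h7
        · exact Or.inl ⟨h4, h7⟩
        · exact Or.inr (Or.inl ⟨h4, h7⟩)
        · exact Or.inr (Or.inr (Or.inl ⟨h4, h7⟩))
        · exact Or.inr (Or.inr (Or.inr ⟨h4, h7⟩))
    refine (Finset.card_le_card hsub).trans ((Finset.card_union_le _ _).trans ?_)
    simp only [hw]
    refine Nat.add_le_add ?_ ?_
    · split_ifs
      · exact Finset.card_le_two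
      · simp
    · split_ifs
      · have a1 := Finset.card_union_le ((Z p).filter fun e => e.1 = e'.1)
          (((Z p).filter fun e => e.1 = e'.2) ∪
          (((Z p).filter fun e => e.2 = e'.1) ∪ ((Z p).filter fun e => e.2 = e'.2)))
        have a2 := Finset.card_union_le ((Z p).filter fun e => e.1 = e'.2)
          (((Z p).filter fun e => e.2 = e'.1) ∪ ((Z p).filter fun e => e.2 = e'.2))
        have a3 := Finset.card_union_le ((Z p).filter fun e => e.2 = e'.1)
          ((Z p).filter fun e => e.2 = e'.2)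
        have b1 := hd1 e'.1
        have b2 := hd1 e'.2
        have b3 := hd2 e'.1
        have b4 := hd2 e'.2
        omega
      · simp) (by
    intro p p' x y _ h
    rw [hbm] at h ⊢
    refine ⟨h.2.1, h.1, ?_⟩
    rcases h.2.2 with ⟨h6, h7⟩ | ⟨h6, h7⟩
    · refine Or.inl ⟨h6.symm, ?_⟩
      rcases h7 with h7 | h7
      · exact Or.inl h7.symm
      · refine Or.inr ?_
        rw [h7, Prod.swap_swap]
    · refine Or.inr ⟨h6.symm, ?_⟩
      rcases h7 with h7 | h7 | h7 | h7
      · exact Or.inl h7.symm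
      · exact Or.inr (Or.inr (Or.inl h7.symm))
      · exact Or.inr (Or.inl h7.symm)
      · exact Or.inr (Or.inr (Or.inr h7.symm))) (by
    intro p
    refine lt_of_le_of_lt ?_ (hZc p)
    simp only [hw]
    rw [Finset.sum_add_distrib]
    have a1 : ∑ p', (if jp p' = jp p then 2 else 0) = 2 * cnt (fun p' => jp p' = jp p) := by
      rw [cnt_eq_sum, Finset.mul_sum]
      exact Finset.sum_congr rfl fun x _ => by split_ifs <;> simp
    have a2 : ∑ p', (if ip p' = ip p then 4 else 0) = 4 * cnt (fun p' => ip p' = ip p) := by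
      rw [cnt_eq_sum, Finset.mul_sum]
      exact Finset.sum_congr rfl fun x _ => by split_ifs <;> simp
    rw [a1, a2, hcip]
    have := hcjp (jp p)
    have := hsrD (jp p)
    have := hdfD (ip p)
    omega)
  have heZ : ∀ p, F (jp p) (e p).1 (e p).2 ∧ (e p).1 ∈ U (ip p) ∧ (e p).2 ∈ U (ip p) ∧
      Unc (F (ip p)) (e p).1 ∧ Unc (F (ip p)) (e p).2 := fun p => (hZm p _).1 (he1 p)
  have heR : ∀ p p', p ≠ p' → ¬ R p p' (e p) (e p') := fun p p' h hh =>
    he2 p p' h ((hbm _ _ _ _).2 ⟨he1 p', he1 p, hh⟩)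
  have hene : ∀ p, (e p).1 ≠ (e p).2 := fun p => (hF _).ne (heZ p).1
  -- pairs with the edge `e p`
  set q : V → V → (Σ i, Fin (df i)) → Prop := fun a b p => e p = (a, b) ∨ e p = (b, a) with hq
  have hqs : ∀ a b p, q a b p → q b a p := fun a b p h => h.elim Or.inr Or.inl
  have hqF : ∀ a b p, q a b p → F (jp p) a b := by
    rintro a b p (h | h)
    · have := (heZ p).1
      rw [h] at this
      exact this
    · have := (heZ p).1
      rw [h] at this
      exact (hF _).symm _ _ this
  have hqU : ∀ a b p, q a b p → a ∈ U (ip p) := by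
    rintro a b p (h | h)
    · have := (heZ p).2.1
      rw [h] at this
      exact this
    · have := (heZ p).2.2.1
      rw [h] at this
      exact this
  have hqUnc : ∀ a b p, q a b p → Unc (F (ip p)) a := by
    rintro a b p (h | h)
    · have := (heZ p).2.2.2.1
      rw [h] at this
      exact this
    · have := (heZ p).2.2.2.2
      rw [h] at this
      exact this
  have hqi : ∀ a b c p p', q a b p → q a c p' → ip p = ip p' → p = p' := by
    intro a b c p p' h h' hi
    by_contra hne
    refine heR p p' hne (Or.inr ⟨hi, ?_⟩)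
    rcases h with h | h <;> rcases h' with h' | h' <;> rw [h, h'] <;> simp
  have hqj : ∀ a b p p', q a b p → q a b p' → jp p = jp p' → p = p' := by
    intro a b p p' h h' hi
    by_contra hne
    refine heR p p' hne (Or.inl ⟨hi, ?_⟩)
    rcases h with h | h <;> rcases h' with h' | h' <;> rw [h, h'] <;> simp
  have hquniq : ∀ a b c p, q a b p → q a c p → b = c := by
    intro a b c p h h'
    have h4 := hene p
    rcases h with h | h <;> rcases h' with h' | h' <;> rw [h] at h' h4 <;>
      rw [Prod.mk.injEq] at h'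
    · exact h'.2
    · exact absurd h'.2.symm h4
    · exact absurd h'.1 h4
    · exact h'.1
  set M : I → V → V → Prop := fun i a b => F i a b ∧ ¬ ∃ p, jp p = i ∧ q a b p with hM
  set N : I → V → V → Prop := fun i a b => ∃ p, ip p = i ∧ q a b p with hN
  have hMm : ∀ i, IsMat (U i) (M i) := fun i => (hF i).sub
    (fun x y h => ⟨(hF i).symm _ _ h.1, fun ⟨p, hp, hp'⟩ => h.2 ⟨p, hp, hqs _ _ _ hp'⟩⟩) fun x y h => h.1
  have hNm : ∀ i, IsMat (U i) (N i) := by
    intro i
    refine ⟨?_, ?_, ?_, ?_⟩
    · rintro x y ⟨p, hp, hp'⟩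
      exact ⟨p, hp, hqs _ _ _ hp'⟩
    · rintro x ⟨p, hp, hp'⟩
      exact (hF _).irr _ (hqF _ _ _ hp')
    · rintro x y z ⟨p, hp, hp'⟩ ⟨p2, hp2, hp2'⟩
      have h4 := hqi _ _ _ _ _ hp' hp2' (hp.trans hp2.symm)
      subst h4
      exact hquniq _ _ _ _ hp' hp2'
    · rintro x y ⟨p, hp, hp'⟩
      subst hp
      exact hqU _ _ _ hp'
  have hMN : ∀ i x y z, M i x y → ¬ N i x z := by
    rintro i x y z h ⟨p, hp, hp'⟩
    subst hp
    exact hqUnc _ _ _ hp' y h.1
  have hm : ∀ i, IsMat (U i) (fun x y => M i x y ∨ N i x y) := fun i => (hMm i).or (hNm i) (hMN i)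
  refine ⟨fun i x y => M i x y ∨ N i x y, hm, ?_, ?_⟩
  · intro a b
    simp only [ld]
    rw [cnt_split (fun i => M i a b ∨ N i a b) (fun i => N i a b),
      cnt_split (fun i => F i a b) (fun i => ∃ p, jp p = i ∧ q a b p)]
    have a1 : cnt (fun i => (M i a b ∨ N i a b) ∧ N i a b) = cnt (q a b) := by
      rw [← cnt_ex ip (q a b) fun x y hx hy h => hqi _ _ _ _ _ hx hy h]
      exact cnt_congr fun i => ⟨fun h => h.2, fun h => ⟨Or.inr h, h⟩⟩
    have a2 : cnt (fun i => F i a b ∧ ∃ p, jp p = i ∧ q a b p) = cnt (q a b) := by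
      rw [← cnt_ex jp (q a b) fun x y hx hy h => hqj _ _ _ _ hx hy h]
      refine cnt_congr fun i => ⟨fun h => h.2, fun h => ⟨?_, h⟩⟩
      obtain ⟨p, hp, hp'⟩ := h
      subst hp
      exact hqF _ _ _ hp'
    rw [a1, a2]
    congr 1
    refine cnt_congr fun i => ⟨fun h => ?_, fun h => ⟨Or.inl h, hMN i _ _ _ h⟩⟩
    exact h.1.resolve_right h.2
  · intro i
    have b0 : nv (fun x y => M i x y ∨ N i x y) = cnt fun p : V × V => M i p.1 p.2 ∨ N i p.1 p.2 := (hm i).nv_eq
    have b1 : cnt (fun p : V × V => M i p.1 p.2 ∨ N i p.1 p.2) =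
        cnt (fun p : V × V => N i p.1 p.2) + cnt (fun p : V × V => M i p.1 p.2) := by
      rw [cnt_split _ (fun p : V × V => N i p.1 p.2)]
      congr 1
      · exact cnt_congr fun p => ⟨fun h => h.2, fun h => ⟨Or.inr h, h⟩⟩
      · exact cnt_congr fun p => ⟨fun h => h.1.resolve_right h.2, fun h => ⟨Or.inl h, hMN i _ _ _ h⟩⟩
    have b2 : 2 * n i = cnt (fun p : V × V => F i p.1 p.2) := by
      rw [← hn, (hF i).nv_eq]
    have b3 : cnt (fun p : V × V => F i p.1 p.2) =
        cnt (fun p : V × V => F i p.1 p.2 ∧ ∃ r, jp r = i ∧ q p.1 p.2 r) +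
          cnt (fun p : V × V => M i p.1 p.2) := cnt_split _ (fun p : V × V => ∃ r, jp r = i ∧ q p.1 p.2 r)
    have b4 : cnt (fun p : V × V => F i p.1 p.2 ∧ ∃ r, jp r = i ∧ q p.1 p.2 r) ≤ 2 * sr i := by
      have c1 : cnt (fun p : V × V => F i p.1 p.2 ∧ ∃ r, jp r = i ∧ q p.1 p.2 r) ≤
          ((univ.filter fun r => jp r = i).image e ∪ (univ.filter fun r => jp r = i).image fun r => (e r).swap).card := by
        rw [cnt_eq]
        refine Finset.card_le_card fun x hx => ?_
        rw [mem_filter] at hx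
        obtain ⟨-, -, r, hr, hr'⟩ := hx
        rw [mem_union, mem_image, mem_image]
        rcases hr' with h | h
        · exact Or.inl ⟨r, by simp [hr], h⟩
        · exact Or.inr ⟨r, by simp [hr], by rw [h]; rfl⟩
      have c2 := hcjp i
      rw [cnt_eq] at c2
      have c3 := Finset.card_union_le ((univ.filter fun r => jp r = i).image e)
        ((univ.filter fun r => jp r = i).image fun r => (e r).swap)
      have c4 : ((univ.filter fun r => jp r = i).image e).card ≤ _ := Finset.card_image_le
      have c5 : ((univ.filter fun r => jp r = i).image fun r => (e r).swap).card ≤ _ := Finset.card_image_le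
      omega
    have b5 : 2 * df i ≤ cnt (fun p : V × V => N i p.1 p.2) := by
      have c1 : 2 * df i = cnt (fun x : (Σ i, Fin (df i)) × Bool => ip x.1 = i) := by
        rw [cnt_prod (fun (x : Σ i, Fin (df i)) (_ : Bool) => ip x = i)]
        rw [← hcip i, cnt_eq_sum, Finset.mul_sum]
        refine Finset.sum_congr rfl fun x _ => ?_
        by_cases hx : ip x = i
        · rw [if_pos hx, cnt_congr (q := fun _ : Bool => True) fun _ => ⟨fun _ => trivial, fun _ => hx⟩, cnt_true]
          simp
        · rw [if_neg hx, cnt_eq_zero fun _ => hx, mul_zero]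
      rw [c1]
      refine cnt_le_of_inj (fun x => if x.2 then e x.1 else (e x.1).swap) ?_ ?_
      · rintro ⟨x, s⟩ hx
        cases s
        · exact ⟨x, hx, Or.inr rfl⟩
        · exact ⟨x, hx, Or.inl rfl⟩
      · rintro ⟨x, s⟩ ⟨y, r⟩ hx hy h
        have hxy : x = y := by
          cases s <;> cases r
          · have h5 : (e x).swap = (e y).swap := h
            exact hqi (e x).1 (e x).2 (e x).2 x y (Or.inl rfl)
              (Or.inl (by rw [← Prod.swap_swap (e y), ← h5]; rfl)) (hx.trans hy.symm)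
          · have h5 : (e x).swap = e y := h
            exact hqi (e x).1 (e x).2 (e x).2 x y (Or.inl rfl) (Or.inr (by rw [← h5]; rfl)) (hx.trans hy.symm)
          · have h5 : e x = (e y).swap := h
            exact hqi (e x).1 (e x).2 (e x).2 x y (Or.inl rfl)
              (Or.inr (by rw [h5]; rfl)) (hx.trans hy.symm)
          · have h5 : e x = e y := h
            exact hqi (e x).1 (e x).2 (e x).2 x y (Or.inl rfl) (Or.inl (by rw [← h5])) (hx.trans hy.symm)
        subst hxy
        have hsr : s = r := by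
          cases s <;> cases r
          · rfl
          · have h5 : (e x).swap = e x := h
            exact absurd (congrArg Prod.fst h5) (fun h6 => hene x h6.symm)
          · have h5 : e x = (e x).swap := h
            exact absurd (congrArg Prod.fst h5) (fun h6 => hene x h6)
          · rfl
        rw [hsr]
    have b6 := hds i
    have b7 : nv (fun x y => M i x y ∨ N i x y) + 2 * sr i ≥ 2 * n i + 2 * df i := by
      rw [b0, b1]
      omega
    have b8 : ((nv (fun x y => M i x y ∨ N i x y) : ℕ) : ℤ) + 2 * sr i ≥ 2 * n i + 2 * df i := by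
      exact_mod_cast b7
    linarith

end Pool.Agent.Work.MP_18db2a_co
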