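import Pool.Agent.Work.MP_18db2a_co.RL
import Pool.Agent.Work.MP_18db2a_co.Compl
import Pool.Agent.Work.MP_18db2a_co.Trans

set_option autoImplicit false

/-!
# RoundE (size M-L, uses the statements of RL, Compl, Trans): from a fractional solution to a solution with exact sizes

`m = card V`, `η = 10^(-8)`, `ε = 10^(-9)`, `τ = 3/10`, `K = ⌈m/10⁴⌉`, `x i a b = (1 - η) y i a b`, `F⁰` from `random_matchings ε`.
* pairs with `dem a b = 0`: all `y i a b = 0`, so `x i a b = 0` and no `F⁰ i a b`.  Pairs with `dem a b > 0`: `dem ≥ m/2`, so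
  `ld F⁰ a b ≤ (1 - η) dem + ε m ≤ dem`, and `res a b = dem a b - ld F⁰ a b ≤ η * 2 m + ε m ≤ 3 η m` (`res a a = 0`).
* lists: `cnt (a, b ∈ U i uncovered) ≥ τ² m² - ε m² ≥ 0.08 m²` (all `|U i| ≥ ε m`).  `complete` with `Δ = ⌈3 η m²⌉`: `2 Δ K + ∑ res ≤ (6 η m² + 2) K + 3 η m³ < 0.08 m² K`,
  as `K ≥ m/10⁴`.  It gives `F¹`, loads `dem`, at most `2 K` newly covered vertices in every colour.
* `|nv (F⁰ i) - ∑∑ y| ≤ (η + ε) m` (`∑∑ y ≤ m`), `|nv (F¹ i) - 2 t i| ≤ m/500 + (η + ε) m + 2 K ≤ 0.0023 m ≤ 2 D` with `D = ⌈0.00115 m⌉`.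
* `h2` of `transfer`: `∑ i, nv (F¹ i) = ∑ a, ∑ b, ld F¹ a b = ∑ a, ∑ b, dem a b ≥ 2 ∑ t i`.
* `h3`: the number of the ordered pairs of `F⁰ j` inside `U i` is at least `nv (F⁰ j) - 2 * m/100` (every vertex outside `U i` is in at most one edge)
  `≥ 2 t j - m/500 - (η+ε) m - m/50 ≥ 0.47 m`.  RL: at least `0.09 * 0.47 m - ε m` of them are uncovered by `F⁰ i`.  At most `2 * 2 K` of these ordered pairs meet
  the at most `2 K` newly covered vertices of `F¹ i`.  All are pairs of `F¹ j`.  So the number for `F¹` is at least `0.042 m - 4 K - ε m ≥ 0.04 m > 6 D`.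
`transfer` gives the result.
-/

namespace Pool.Agent.Work.MP_18db2a_co

open Finset

private theorem nv_mono' {V : Type} [Fintype V] {M N : V → V → Prop} (h : ∀ a b, M a b → N a b) : nv M ≤ nv N :=
  cnt_mono fun _ ⟨y, hy⟩ => ⟨y, h _ _ hy⟩

private theorem inj1 {V : Type} [Fintype V] {U : Finset V} {M : V → V → Prop} (hM : IsMat U M) (p : V → Prop) :
    cnt (fun e : V × V => M e.1 e.2 ∧ p e.1) ≤ cnt p := by
  refine cnt_le_of_inj (fun e => e.1) (fun e he => he.2) ?_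
  rintro ⟨a, b⟩ ⟨c, d⟩ h1 h2 h3
  simp only at h1 h2 h3
  subst h3
  rw [hM.uniq _ _ _ h1.1 h2.1]

private theorem inj2 {V : Type} [Fintype V] {U : Finset V} {M : V → V → Prop} (hM : IsMat U M) (p : V → Prop) :
    cnt (fun e : V × V => M e.1 e.2 ∧ p e.2) ≤ cnt p := by
  refine cnt_le_of_inj (fun e => e.2) (fun e he => he.2) ?_
  rintro ⟨a, b⟩ ⟨c, d⟩ h1 h2 h3
  simp only at h1 h2 h3
  subst h3
  rw [hM.uniq _ _ _ (hM.symm _ _ h1.1) (hM.symm _ _ h2.1)]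

private theorem nv_le_add {V : Type} [Fintype V] (M N : V → V → Prop) :
    nv N ≤ nv M + cnt (fun a => Unc M a ∧ ¬ Unc N a) := by
  refine (cnt_mono (q := fun x => (∃ y, M x y) ∨ (Unc M x ∧ ¬ Unc N x)) ?_).trans (cnt_or_le _ _)
  rintro x ⟨y, hy⟩
  by_cases h : ∃ y, M x y
  · exact Or.inl h
  · refine Or.inr ⟨fun z hz => h ⟨z, hz⟩, fun hn => hn y hy⟩

private theorem inside_ge {V : Type} [Fintype V] [DecidableEq V] {U W : Finset V} {M : V → V → Prop} (hM : IsMat U M) :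
    nv M ≤ cnt (fun e : V × V => M e.1 e.2 ∧ e.1 ∈ W ∧ e.2 ∈ W) + 2 * cnt (fun x => x ∉ W) := by
  rw [hM.nv_eq]
  have h1 : cnt (fun e : V × V => M e.1 e.2) ≤
      cnt (fun e : V × V => (M e.1 e.2 ∧ e.1 ∈ W ∧ e.2 ∈ W) ∨
        ((M e.1 e.2 ∧ e.1 ∉ W) ∨ (M e.1 e.2 ∧ e.2 ∉ W))) := by
    refine cnt_mono fun e he => ?_
    by_cases h1 : e.1 ∈ W
    · by_cases h2 : e.2 ∈ W
      · exact Or.inl ⟨he, h1, h2⟩
      · exact Or.inr (Or.inr ⟨he, h2⟩)
    · exact Or.inr (Or.inl ⟨he, h1⟩)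
  have h2 := cnt_or_le (fun e : V × V => M e.1 e.2 ∧ e.1 ∈ W ∧ e.2 ∈ W)
    (fun e => (M e.1 e.2 ∧ e.1 ∉ W) ∨ (M e.1 e.2 ∧ e.2 ∉ W))
  have h3 := cnt_or_le (fun e : V × V => M e.1 e.2 ∧ e.1 ∉ W) (fun e => M e.1 e.2 ∧ e.2 ∉ W)
  have h4 := inj1 hM (fun x => x ∉ W)
  have h5 := inj2 hM (fun x => x ∉ W)
  omega

private theorem unc_ge {V : Type} [Fintype V] [DecidableEq V] {U W : Finset V} {M M' N N' : V → V → Prop}
    (hM : IsMat U M) (hMM : ∀ a b, M a b → M' a b) :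
    cnt (fun e : V × V => M e.1 e.2 ∧ e.1 ∈ W ∧ e.2 ∈ W ∧ Unc N e.1 ∧ Unc N e.2) ≤
      cnt (fun e : V × V => M' e.1 e.2 ∧ e.1 ∈ W ∧ e.2 ∈ W ∧ Unc N' e.1 ∧ Unc N' e.2) +
        2 * cnt (fun x => Unc N x ∧ ¬ Unc N' x) := by
  have h1 : cnt (fun e : V × V => M e.1 e.2 ∧ e.1 ∈ W ∧ e.2 ∈ W ∧ Unc N e.1 ∧ Unc N e.2) ≤
      cnt (fun e : V × V => (M' e.1 e.2 ∧ e.1 ∈ W ∧ e.2 ∈ W ∧ Unc N' e.1 ∧ Unc N' e.2) ∨
        ((M e.1 e.2 ∧ (Unc N e.1 ∧ ¬ Unc N' e.1)) ∨ (M e.1 e.2 ∧ (Unc N e.2 ∧ ¬ Unc N' e.2)))) := by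
    refine cnt_mono fun e he => ?_
    obtain ⟨a1, a2, a3, a4, a5⟩ := he
    by_cases h1 : Unc N' e.1
    · by_cases h2 : Unc N' e.2
      · exact Or.inl ⟨hMM _ _ a1, a2, a3, h1, h2⟩
      · exact Or.inr (Or.inr ⟨a1, a5, h2⟩)
    · exact Or.inr (Or.inl ⟨a1, a4, h1⟩)
  have h2 := cnt_or_le (fun e : V × V => M' e.1 e.2 ∧ e.1 ∈ W ∧ e.2 ∈ W ∧ Unc N' e.1 ∧ Unc N' e.2)
    (fun e => (M e.1 e.2 ∧ (Unc N e.1 ∧ ¬ Unc N' e.1)) ∨ (M e.1 e.2 ∧ (Unc N e.2 ∧ ¬ Unc N' e.2)))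
  have h3 := cnt_or_le (fun e : V × V => M e.1 e.2 ∧ (Unc N e.1 ∧ ¬ Unc N' e.1))
    (fun e => M e.1 e.2 ∧ (Unc N e.2 ∧ ¬ Unc N' e.2))
  have h4 := inj1 hM (fun x => Unc N x ∧ ¬ Unc N' x)
  have h5 := inj2 hM (fun x => Unc N x ∧ ¬ Unc N' x)
  omega

private theorem ld_comm {V I : Type} [Fintype I] {U : I → Finset V} {F : I → V → V → Prop}
    (hF : ∀ i, IsMat (U i) (F i)) (a b : V) : ld F a b = ld F b a :=
  cnt_congr fun i => ⟨(hF i).symm _ _, (hF i).symm _ _⟩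

private theorem sum_nv {V I : Type} [Fintype V] [Fintype I] {U : I → Finset V} {F : I → V → V → Prop}
    (hF : ∀ i, IsMat (U i) (F i)) : ∑ i, nv (F i) = ∑ a, ∑ b, ld F a b := by
  have h1 : ∀ i, nv (F i) = ∑ a, cnt (fun b => F i a b) := fun i => by
    rw [(hF i).nv_eq, cnt_prod (F i)]
  rw [Finset.sum_congr rfl fun i _ => h1 i, Finset.sum_comm]
  exact Finset.sum_congr rfl fun a _ => cnt_comm fun i b => F i a b

theorem round_exact : ∃ m₀ : ℕ, ∀ (V I : Type) [Fintype V] [DecidableEq V] [Fintype I] [DecidableEq I]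
    (U : I → Finset V) (y : I → V → V → ℝ) (dm : V → V → ℕ) (t : I → ℤ), m₀ ≤ Fintype.card V →
    Fintype.card I ≤ 3 * Fintype.card V ^ 2 → (∀ i, Wt (U i) (y i) (3 / 10)) →
    (∀ a b, dm a b = dm b a) → (∀ a, dm a a = 0) → (∀ a b, a ≠ b → ∑ i, y i a b = dm a b) →
    (∀ a b, 0 < dm a b → (Fintype.card V : ℝ) / 2 ≤ dm a b ∧ (dm a b : ℝ) ≤ 2 * (Fintype.card V : ℝ) ∧
      (Fintype.card V : ℝ) ^ 2 ≤ cnt (fun i => a ∈ U i ∧ b ∈ U i)) →
    (∀ i, 99 / 100 * (Fintype.card V : ℝ) ≤ ((U i).card : ℝ)) →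
    (∀ i, (Fintype.card V : ℝ) / 4 ≤ (t i : ℝ)) →
    (∀ i, |∑ a, ∑ b, y i a b - 2 * (t i : ℝ)| ≤ (Fintype.card V : ℝ) / 500) →
    (2 * ∑ i, t i ≤ ∑ a, ∑ b, (dm a b : ℤ)) →
    ∃ F : I → V → V → Prop, (∀ i, IsMat (U i) (F i)) ∧ (∀ a b, a ≠ b → ld F a b = dm a b) ∧
      ∀ i, 2 * t i ≤ (nv (F i) : ℤ) := by
  obtain ⟨m₁, hRL⟩ := random_matchings (1 / 10 ^ 9) (by norm_num) (by norm_num)
  refine ⟨max m₁ (10 ^ 9), ?_⟩
  intro V I _ _ _ _ U y dm t hm hI hW hsym hdiag hload hdem hcard ht hsize htot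
  have hm1 : m₁ ≤ Fintype.card V := (le_max_left _ _).trans hm
  have hm2 : (10 : ℝ) ^ 9 ≤ (Fintype.card V : ℝ) := by
    exact_mod_cast (le_max_right _ _).trans hm
  set m : ℝ := (Fintype.card V : ℝ) with hmdef
  have hm0 : 0 < m := by linarith [show (0 : ℝ) < 10 ^ 9 by norm_num]
  -- the scaled weights
  have hx : ∀ i, Wt (U i) (fun a b => (1 - 1 / 10 ^ 8) * y i a b) (3 / 10) := by
    intro i
    have h := hW i
    refine ⟨fun a b => mul_nonneg (by norm_num) (h.nonneg a b), fun a b => by rw [h.symm a b],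
      fun a => by rw [h.diag a, mul_zero], fun a b ha => by rw [h.out a b ha, mul_zero], ?_, ?_⟩
    · intro a b
      have h1 := h.le a b
      have h2 : 0 ≤ y i a b * ((U i).card : ℝ) := mul_nonneg (h.nonneg a b) (Nat.cast_nonneg _)
      nlinarith
    · intro a
      rw [← Finset.mul_sum]
      have h1 := h.cov a
      have h2 : 0 ≤ ∑ b, y i a b := Finset.sum_nonneg fun b _ => h.nonneg a b
      nlinarith
  have hsx : ∀ a b, a ≠ b → ∑ i, (1 - 1 / 10 ^ 8) * y i a b = (1 - 1 / 10 ^ 8) * (dm a b : ℝ) := by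
    intro a b hab
    rw [← Finset.mul_sum, hload a b hab]
  have hdm2 : ∀ a b, (dm a b : ℝ) ≤ 2 * m := by
    intro a b
    rcases Nat.eq_zero_or_pos (dm a b) with h | h
    · rw [h]
      push_cast
      linarith
    · exact (hdem a b h).2.1
  obtain ⟨F, hM, hpos, hld, hnv, hunc, hav⟩ := hRL V I U (fun i a b => (1 - 1 / 10 ^ 8) * y i a b) (3 / 10) hm1 hI
    (by norm_num) (by norm_num) hx (by
      intro a b hab
      rw [hsx a b hab]
      have := hdm2 a b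
      have h0 : (0 : ℝ) ≤ dm a b := Nat.cast_nonneg _
      nlinarith)
  have hlddm : ∀ a b, a ≠ b → ld F a b ≤ dm a b ∧ (dm a b : ℝ) - ld F a b ≤ 3 / 10 ^ 8 * m := by
    intro a b hab
    have h1 := hld a b hab
    rw [hsx a b hab] at h1
    rcases Nat.eq_zero_or_pos (dm a b) with h | h
    · have hz : ∑ i, y i a b = 0 := by rw [hload a b hab, h, Nat.cast_zero]
      have hz' : ∀ i, y i a b = 0 := fun i =>
        (Finset.sum_eq_zero_iff_of_nonneg (fun i _ => (hW i).nonneg a b)).1 hz i (Finset.mem_univ i)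
      have : ld F a b = 0 := cnt_eq_zero fun i hi => by
        have h3 := hpos i a b hi
        simp only [hz' i, mul_zero, lt_self_iff_false] at h3
      rw [this, h]
      refine ⟨le_rfl, ?_⟩
      push_cast
      linarith
    · obtain ⟨h2, h3, -⟩ := hdem a b h
      rw [abs_le] at h1
      constructor
      · have : (ld F a b : ℝ) ≤ dm a b := by linarith
        exact_mod_cast this
      · linarith
  set res : V → V → ℕ := fun a b => if a = b then 0 else dm a b - ld F a b with hres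
  have hres_s : ∀ a b, res a b = res b a := by
    intro a b
    simp only [hres]
    by_cases h : a = b
    · simp [h]
    · rw [if_neg h, if_neg (Ne.symm h), hsym a b, ld_comm hM a b]
  have hres_d : ∀ a, res a a = 0 := fun a => by simp [hres]
  have hres_ne : ∀ a b, a ≠ b → ld F a b + res a b = dm a b := by
    intro a b hab
    simp only [hres, if_neg hab]
    have := (hlddm a b hab).1
    omega
  have hres_le : ∀ a b, (res a b : ℝ) ≤ 3 / 10 ^ 8 * m := by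
    intro a b
    by_cases h : a = b
    · simp only [hres, if_pos h]
      push_cast
      positivity
    · have h1 := hres_ne a b h
      have h2 := (hlddm a b h).2
      have h3 : (ld F a b : ℝ) + res a b = dm a b := by exact_mod_cast h1
      linarith
  have hrow : ∀ a, ((∑ b, res a b : ℕ) : ℝ) ≤ 3 / 10 ^ 8 * m ^ 2 := by
    intro a
    push_cast
    refine (Finset.sum_le_sum fun b _ => hres_le a b).trans ?_
    rw [Finset.sum_const, nsmul_eq_mul, Finset.card_univ, ← hmdef]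
    nlinarith
  have htotr : ((∑ a, ∑ b, res a b : ℕ) : ℝ) ≤ 3 / 10 ^ 8 * m ^ 3 := by
    push_cast
    have : ∀ a ∈ (Finset.univ : Finset V), (∑ b, (res a b : ℝ)) ≤ 3 / 10 ^ 8 * m ^ 2 := fun a _ => by
      have := hrow a
      push_cast at this
      exact this
    refine (Finset.sum_le_sum this).trans ?_
    rw [Finset.sum_const, nsmul_eq_mul, Finset.card_univ, ← hmdef]
    apply le_of_eq
    ring
  set Δ : ℕ := ⌈3 / 10 ^ 8 * m ^ 2⌉₊ with hΔdef
  set K : ℕ := ⌈m / 10 ^ 4⌉₊ with hKdef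
  have hΔ1 : 3 / 10 ^ 8 * m ^ 2 ≤ Δ := Nat.le_ceil _
  have hΔ2 : (Δ : ℝ) ≤ 3 / 10 ^ 8 * m ^ 2 + 1 := (Nat.ceil_lt_add_one (by positivity)).le
  have hK1 : m / 10 ^ 4 ≤ K := Nat.le_ceil _
  have hK2 : (K : ℝ) ≤ m / 10 ^ 4 + 1 := (Nat.ceil_lt_add_one (by positivity)).le
  have hKpos : (0 : ℝ) < K := lt_of_lt_of_le (by positivity) hK1
  have hbig : ∀ i, 1 / 10 ^ 9 * m ≤ ((U i).card : ℝ) := fun i => by
    have := hcard i
    linarith
  obtain ⟨F', hM', hsub, hld', hnew⟩ := complete U F hM res hres_s hres_d Δ K (by exact_mod_cast hKpos)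
    (fun a => by
      have := (hrow a).trans hΔ1
      exact_mod_cast this)
    (by
      intro a b hab
      have hne : a ≠ b := by
        rintro rfl
        rw [hres_d a] at hab
        exact lt_irrefl _ hab
      have hdp : 0 < dm a b := by
        have := hres_ne a b hne
        omega
      have h1 := (hdem a b hdp).2.2
      have h2 := hunc a b hne
      rw [cnt_congr (q := fun i => a ∈ U i ∧ b ∈ U i) fun i =>
        ⟨fun h => ⟨h.1, h.2.1⟩, fun h => ⟨h.1, h.2, hbig i⟩⟩] at h2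
      have h3 : 8 / 100 * m ^ 2 ≤ (cnt (fun i => a ∈ U i ∧ b ∈ U i ∧ Unc (F i) a ∧ Unc (F i) b) : ℝ) := by
        nlinarith
      have h4 : 3 / 10 ^ 8 * m ^ 3 ≤ 3 / 10 ^ 4 * m ^ 2 * K := by
        have h5 : m ≤ 10 ^ 4 * K := by
          rw [div_le_iff₀ (by norm_num)] at hK1
          linarith
        have h6 : 0 ≤ m ^ 2 := by positivity
        nlinarith
      have h5 : 2 * (Δ : ℝ) * K ≤ (6 / 10 ^ 8 * m ^ 2 + 2) * K := by
        nlinarith
      have h6 : (2 * Δ * K + ∑ a, ∑ b, res a b : ℝ) <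
          (cnt (fun i => a ∈ U i ∧ b ∈ U i ∧ Unc (F i) a ∧ Unc (F i) b) : ℝ) * K := by
        have h7 : (6 / 10 ^ 8 * m ^ 2 + 2) * (K : ℝ) + 3 / 10 ^ 4 * m ^ 2 * K < 8 / 100 * m ^ 2 * K := by
          have h8 : (6 / 10 ^ 8 * m ^ 2 + 2) + 3 / 10 ^ 4 * m ^ 2 < 8 / 100 * m ^ 2 := by nlinarith
          nlinarith
        have h9 : 8 / 100 * m ^ 2 * (K : ℝ) ≤
            (cnt (fun i => a ∈ U i ∧ b ∈ U i ∧ Unc (F i) a ∧ Unc (F i) b) : ℝ) * K :=
          mul_le_mul_of_nonneg_right h3 hKpos.le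
        have h10 : (∑ a, ∑ b, (res a b : ℝ)) ≤ 3 / 10 ^ 8 * m ^ 3 := by
          have := htotr
          push_cast at this
          exact this
        linarith
      exact_mod_cast h6)
  have hldF' : ∀ a b, a ≠ b → ld F' a b = dm a b := fun a b hab => by
    rw [hld' a b hab, hres_ne a b hab]
  -- sizes
  have hYle : ∀ i, ∑ a, ∑ b, y i a b ≤ m := by
    intro i
    have : ∀ a ∈ (Finset.univ : Finset V), ∑ b, y i a b ≤ 1 := fun a _ => by
      have := (hW i).cov a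
      linarith
    refine (Finset.sum_le_sum this).trans ?_
    rw [Finset.sum_const, nsmul_eq_mul, Finset.card_univ, ← hmdef, mul_one]
  have hYge : ∀ i, 0 ≤ ∑ a, ∑ b, y i a b := fun i =>
    Finset.sum_nonneg fun a _ => Finset.sum_nonneg fun b _ => (hW i).nonneg a b
  have hsz : ∀ i, |(nv (F i) : ℝ) - 2 * (t i : ℝ)| ≤ m / 500 + 11 / 10 ^ 9 * m := by
    intro i
    have h1 := hnv i
    have h2 : ∑ a, ∑ b, (1 - 1 / 10 ^ 8) * y i a b = (1 - 1 / 10 ^ 8) * ∑ a, ∑ b, y i a b := by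
      rw [Finset.mul_sum]
      exact Finset.sum_congr rfl fun a _ => by rw [Finset.mul_sum]
    rw [h2] at h1
    have h3 := hsize i
    have h4 := hYle i
    have h5 := hYge i
    rw [abs_le] at h1 h3 ⊢
    constructor <;> linarith
  have hnvle : ∀ i, (nv (F' i) : ℝ) ≤ nv (F i) + 2 * K := by
    intro i
    have h1 := nv_le_add (F i) (F' i)
    have h2 := hnew i
    have h3 : nv (F' i) ≤ nv (F i) + 2 * K := by omega
    exact_mod_cast h3
  have hnvge : ∀ i, (nv (F i) : ℝ) ≤ nv (F' i) := fun i => by exact_mod_cast nv_mono' (hsub i)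
  set D : ℕ := ⌈115 / 10 ^ 5 * m⌉₊ with hDdef
  have hD1 : 115 / 10 ^ 5 * m ≤ D := Nat.le_ceil _
  have hD2 : (D : ℝ) ≤ 115 / 10 ^ 5 * m + 1 := (Nat.ceil_lt_add_one (by positivity)).le
  obtain ⟨F'', hM'', hld'', hnv''⟩ := transfer U F' hM' t D
    (by
      intro i
      have h1 := hsz i
      have h2 := hnvle i
      have h3 := hnvge i
      have h4 : |(nv (F' i) : ℝ) - 2 * (t i : ℝ)| ≤ 2 * D := by
        rw [abs_le] at h1 ⊢
        constructor <;> linarith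
      exact_mod_cast h4)
    (by
      have h1 : (∑ i, (nv (F' i) : ℤ)) = ∑ a, ∑ b, (dm a b : ℤ) := by
        have h2 := sum_nv hM'
        have h3 : ∑ a, ∑ b, ld F' a b = ∑ a, ∑ b, dm a b := by
          refine Finset.sum_congr rfl fun a _ => Finset.sum_congr rfl fun b _ => ?_
          by_cases hab : a = b
          · subst hab
            rw [hdiag a]
            exact cnt_eq_zero fun i => (hM' i).irr a
          · exact hldF' a b hab
        rw [h3] at h2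
        exact_mod_cast h2
      rw [h1]
      exact htot)
    (by
      intro i j hij
      have h1 : nv (F j) ≤ cnt (fun e : V × V => F j e.1 e.2 ∧ e.1 ∈ U i ∧ e.2 ∈ U i) +
        2 * cnt (fun x => x ∉ U i) := inside_ge (hM j)
      have h2 : cnt (fun x => x ∈ U i) + cnt (fun x => ¬ x ∈ U i) = Fintype.card V := cnt_add_not _
      rw [cnt_mem] at h2
      have h1' : (nv (F j) : ℝ) ≤ cnt (fun e : V × V => F j e.1 e.2 ∧ e.1 ∈ U i ∧ e.2 ∈ U i) +
        2 * cnt (fun x => x ∉ U i) := by exact_mod_cast h1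
      have h2' : ((U i).card : ℝ) + cnt (fun x => ¬ x ∈ U i) = m := by
        rw [hmdef]
        exact_mod_cast h2
      have h3 := hcard i
      have h4 := hsz j
      have h5 := ht j
      have h6 := hav i j hij (hbig i)
      have h7 : cnt (fun e : V × V => F j e.1 e.2 ∧ e.1 ∈ U i ∧ e.2 ∈ U i ∧ Unc (F i) e.1 ∧ Unc (F i) e.2) ≤
        cnt (fun e : V × V => F' j e.1 e.2 ∧ e.1 ∈ U i ∧ e.2 ∈ U i ∧ Unc (F' i) e.1 ∧ Unc (F' i) e.2) +
          2 * cnt (fun x => Unc (F i) x ∧ ¬ Unc (F' i) x) := unc_ge (hM j) (hsub j)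
      have h8 := hnew i
      have h9 : cnt (fun e : V × V => F j e.1 e.2 ∧ e.1 ∈ U i ∧ e.2 ∈ U i ∧ Unc (F i) e.1 ∧ Unc (F i) e.2) ≤
        cnt (fun e : V × V => F' j e.1 e.2 ∧ e.1 ∈ U i ∧ e.2 ∈ U i ∧ Unc (F' i) e.1 ∧ Unc (F' i) e.2) + 4 * K := by
        omega
      have h9' : (cnt (fun e : V × V => F j e.1 e.2 ∧ e.1 ∈ U i ∧ e.2 ∈ U i ∧ Unc (F i) e.1 ∧ Unc (F i) e.2) : ℝ) ≤
        cnt (fun e : V × V => F' j e.1 e.2 ∧ e.1 ∈ U i ∧ e.2 ∈ U i ∧ Unc (F' i) e.1 ∧ Unc (F' i) e.2) + 4 * K := by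
        exact_mod_cast h9
      rw [abs_le] at h4
      have h10 : (6 * D : ℝ) <
        cnt (fun e : V × V => F' j e.1 e.2 ∧ e.1 ∈ U i ∧ e.2 ∈ U i ∧ Unc (F' i) e.1 ∧ Unc (F' i) e.2) := by
        have h11 : 47 / 100 * m ≤ cnt (fun e : V × V => F j e.1 e.2 ∧ e.1 ∈ U i ∧ e.2 ∈ U i) := by linarith
        have h12 : 42 / 1000 * m ≤
          cnt (fun e : V × V => F j e.1 e.2 ∧ e.1 ∈ U i ∧ e.2 ∈ U i ∧ Unc (F i) e.1 ∧ Unc (F i) e.2) := by
          linarith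
        linarith
      exact_mod_cast h10)
  refine ⟨F'', hM'', fun a b hab => ?_, hnv''⟩
  rw [hld'' a b, hldF' a b hab]

end Pool.Agent.Work.MP_18db2a_co
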