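import Pool.Agent.Work.MP_18db2a_co.EFrac
import Pool.Agent.Work.MP_18db2a_co.ETot
import Pool.Agent.Work.MP_18db2a_co.RoundE
import Pool.Agent.Work.MP_18db2a_co.BEdge

set_option autoImplicit false

/-!
# EMain (size M, uses the statements of EBd, BEdge, EMed, EFrac, ETot, RoundE, Cnt): case E

`bEdges` with `B = Bad T` (`list_ge`; `4 |B| ≤ m`) gives `FB` with `IsFB`; `exists_G` gives `G`; `round_exact` for the colours `LI T`, `U i = UU T FB i`, `y i = yE i`, `dm = dem`, `t i = tI i`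
gives `F⁰` (`card (LI T) ≤ card I ≤ 3 m²`).  Put `F i a b` iff `FB i a b` or `G i a b` or `∃ h : Light T i, F⁰ ⟨i, h⟩ a b`.
* matching in `(T i)ᶜ`: `IsMat.or` twice; the edges of `G i` and `F⁰ i` are inside `UU T FB i`, i.e. they do not meet the edges of `FB i`; for light `i`
  there is no edge of `G i`, for heavy `i` none of `F⁰`.
* load of `a ≠ b`: if `a ∈ Bad T` or `b ∈ Bad T` only `FB` contributes: `δ`.  Otherwise `FB` does not contribute (`IsFB.bad`), and the load is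
  `ld G a b + ld F⁰ a b = ld G a b + (δ - ld G a b) = δ` (`ld G ≤ m/10⁴ ≤ δ`; a light and a heavy colour are different, `cnt_LI`).
* size, light `i`: `nv (F i) = nv (FB i) + nv (F⁰ i) ≥ nv (FB i) + 2 tI = 2 bI` (`nv (FB i)` even); heavy `i`: `nv (F i) = nv (FB i) + 2 (tI)⁺ ≥ 2 bI`.  `3 * 2 bI = 4 |(T i)ᶜ| - 2 δ`.
-/

namespace Pool.Agent.Work.MP_18db2a_co

open Finset

private theorem cnt_or_disj {A : Type} [Fintype A] {p q : A → Prop} (h : ∀ x, p x → ¬ q x) :
    cnt (fun x => p x ∨ q x) = cnt p + cnt q := by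
  have h1 := cnt_or_add_and p q
  rw [cnt_eq_zero (p := fun x => p x ∧ q x) fun x hx => h x hx.1 hx.2] at h1
  exact h1

private theorem nv_or {V : Type} [Fintype V] {M N : V → V → Prop} (h : ∀ x y z, M x y → ¬ N x z) :
    nv (fun x y => M x y ∨ N x y) = nv M + nv N := by
  rw [nv, nv, nv, ← cnt_or_disj (p := fun x => ∃ y, M x y) (q := fun x => ∃ y, N x y)
    (fun x ⟨y, hy⟩ ⟨z, hz⟩ => h x y z hy hz)]
  exact cnt_congr fun x => exists_or

private theorem emain_dem_add {V I : Type} [Fintype V] [DecidableEq V] [Fintype I] (T : I → Finset V) (δ : ℕ)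
    (FB G : I → V → V → Prop) (hD : Dat T δ) (hFB : IsFB T δ FB) (hG : IsG T δ FB G) (a b : V) (hab : a ≠ b) :
    ld FB a b + (ld G a b + dem T δ G a b) = δ := by
  classical
  have hUU : ∀ i x, x ∈ UU T FB i → x ∉ Bad T := fun i x hx => (mem_filter.1 hx).2.2.1
  unfold dem
  by_cases h : a ∈ Bad T ∨ b ∈ Bad T
  · rw [if_pos (Or.inr h), hFB.load a b hab h]
    have h1 : ld G a b = 0 := by
      apply cnt_eq_zero
      intro i hi
      rcases h with h | h
      · exact hUU i a ((hG.mat i).mem _ _ hi) h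
      · exact hUU i b ((hG.mat i).mem' hi) h
    rw [h1]
    rfl
  · rw [if_neg (by
      rintro (h1 | h1)
      · exact hab h1
      · exact h h1)]
    have h1 : ld FB a b = 0 := by
      apply cnt_eq_zero
      intro i hi
      exact h (hFB.bad i a b hi)
    have h2 := hG.load a b
    have h3 := hD.lo
    rw [h1]
    omega

private theorem dem_self {V I : Type} [Fintype V] [DecidableEq V] [Fintype I] (T : I → Finset V) (δ : ℕ)
    (G : I → V → V → Prop) (a : V) : dem T δ G a a = 0 := by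
  unfold dem
  rw [if_pos (Or.inl rfl)]

theorem caseE_sol : ∃ m₀ : ℕ, ∀ (V I : Type) [Fintype V] [DecidableEq V] [Fintype I] [DecidableEq I]
    (T : I → Finset V) (δ : ℕ), m₀ ≤ Fintype.card V → Dat T δ → CaseE T → ∃ F : I → V → V → Prop, Sol T δ F := by
  classical
  obtain ⟨m₁, hm₁⟩ := caseE_bounds
  obtain ⟨m₂, hm₂⟩ := exists_G
  obtain ⟨m₃, hm₃⟩ := lights_frac
  obtain ⟨m₄, hm₄⟩ := lights_total
  obtain ⟨m₅, hm₅⟩ := round_exact
  refine ⟨m₁ + m₂ + m₃ + m₄ + m₅ + 10, ?_⟩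
  intro V I _ _ _ _ T δ hm hD hE
  obtain ⟨hβ, -, -, -⟩ := hm₁ V I T δ (by omega) hD hE
  have hδ1 : 1 ≤ δ := by
    have := hD.lo
    omega
  have hβ4 : 4 * (Bad T).card ≤ Fintype.card V := by
    have : 4 * (Bad T).card ≤ 10 ^ 5 * (Bad T).card := Nat.mul_le_mul_right _ (by norm_num)
    omega
  obtain ⟨FB, hFBm, hFBb, hFBl⟩ := bEdges T δ (Bad T) hδ1
    (fun a b hab => (Nat.le_add_right _ _).trans (list_ge hD (by omega) a b hab)) hβ4 (by omega)
  have hFB : IsFB T δ FB := ⟨hFBm, hFBb, hFBl⟩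
  obtain ⟨G, hG⟩ := hm₂ V I T δ FB (by omega) hD hE hFB
  obtain ⟨f1, f2, f3, f4, f5, f6, f7⟩ := hm₃ V I T δ FB G (by omega) hD hE hFB hG
  have htot := hm₄ V I T δ FB G (by omega) hD hE hFB hG
  have hcard : Fintype.card (LI T) ≤ 3 * Fintype.card V ^ 2 := by
    have h1 : Fintype.card (LI T) ≤ Fintype.card I :=
      Fintype.card_le_of_injective (fun i : LI T => i.1) (fun i j h => Subtype.ext h)
    have h2 := (card_bounds hD (by omega)).2
    have h3 : (10 : ℝ) ≤ Fintype.card V := by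
      have : 10 ≤ Fintype.card V := by omega
      exact_mod_cast this
    have h4 : (Fintype.card I : ℝ) ≤ 3 * (Fintype.card V : ℝ) ^ 2 := by nlinarith
    have h5 : Fintype.card I ≤ 3 * Fintype.card V ^ 2 := by exact_mod_cast h4
    omega
  obtain ⟨F0, g1, g2, g3⟩ := hm₅ V (LI T) (fun i => UU T FB i.1) (fun i => yE T δ FB G i.1)
    (dem T δ G) (fun i => tI T δ FB i.1) (by omega) hcard (fun i => f1 i.1 i.2) f2 (dem_self T δ G)
    f3 f4 (fun i => f5 i.1 i.2) (fun i => f6 i.1 i.2) (fun i => f7 i.1 i.2) htot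
  -- the matchings of the light colours
  have hNlight : ∀ i (h : Light T i),
      (fun a b => ∃ h : Light T i, F0 ⟨i, h⟩ a b) = F0 ⟨i, h⟩ := by
    intro i h
    funext a b
    exact propext ⟨fun ⟨_, h2⟩ => h2, fun h2 => ⟨h, h2⟩⟩
  have hN : ∀ i, IsMat (UU T FB i) (fun a b => ∃ h : Light T i, F0 ⟨i, h⟩ a b) := by
    intro i
    by_cases h : Light T i
    · rw [hNlight i h]
      exact g1 ⟨i, h⟩
    · exact ⟨fun a b ⟨h1, _⟩ => absurd h1 h, fun a ⟨h1, _⟩ => h h1, fun a b c ⟨h1, _⟩ => absurd h1 h,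
        fun a b ⟨h1, _⟩ => absurd h1 h⟩
  have hGN : ∀ i, IsMat (UU T FB i) (fun a b => G i a b ∨ ∃ h : Light T i, F0 ⟨i, h⟩ a b) :=
    fun i => (hG.mat i).or (hN i) (fun x y z h1 ⟨h2, _⟩ => hG.light i h2 x y h1)
  have hUc : ∀ i, UU T FB i ⊆ (T i)ᶜ := by
    intro i x hx
    rw [Finset.mem_compl]
    exact (mem_filter.1 hx).2.1
  have hUunc : ∀ i x, x ∈ UU T FB i → Unc (FB i) x := fun i x hx => (mem_filter.1 hx).2.2.2
  have hdis : ∀ i x y z, FB i x y → ¬ (G i x z ∨ ∃ h : Light T i, F0 ⟨i, h⟩ x z) :=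
    fun i x y z h1 h2 => hUunc i x ((hGN i).mem x z h2) y h1
  refine ⟨fun i a b => FB i a b ∨ (G i a b ∨ ∃ h : Light T i, F0 ⟨i, h⟩ a b), ?_, ?_, ?_⟩
  · intro i
    exact (hFB.mat i).or ((hGN i).mono (hUc i)) (hdis i)
  · intro x y hxy
    have e1 : ld (fun i a b => FB i a b ∨ (G i a b ∨ ∃ h : Light T i, F0 ⟨i, h⟩ a b)) x y =
        ld FB x y + (ld G x y + cnt (fun i => ∃ h : Light T i, F0 ⟨i, h⟩ x y)) := by
      have h1 : cnt (fun i => G i x y ∨ ∃ h : Light T i, F0 ⟨i, h⟩ x y) =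
          ld G x y + cnt (fun i => ∃ h : Light T i, F0 ⟨i, h⟩ x y) :=
        cnt_or_disj (fun i h1 ⟨h2, _⟩ => hG.light i h2 x y h1)
      have h2 : ld (fun i a b => FB i a b ∨ (G i a b ∨ ∃ h : Light T i, F0 ⟨i, h⟩ a b)) x y =
          ld FB x y + cnt (fun i => G i x y ∨ ∃ h : Light T i, F0 ⟨i, h⟩ x y) :=
        cnt_or_disj (fun i h1 h2 => hdis i x y y h1 h2)
      rw [h2, h1]
    have e2 : cnt (fun i => ∃ h : Light T i, F0 ⟨i, h⟩ x y) = ld F0 x y := by
      have h1 := cnt_LI T (fun i => ∃ h : Light T i, F0 ⟨i, h⟩ x y)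
      have h2 : cnt (fun i : LI T => ∃ h : Light T i.1, F0 ⟨i.1, h⟩ x y) = ld F0 x y :=
        cnt_congr fun i => ⟨fun ⟨_, h3⟩ => h3, fun h3 => ⟨i.2, h3⟩⟩
      have h3 : cnt (fun i => Light T i ∧ ∃ h : Light T i, F0 ⟨i, h⟩ x y) =
          cnt (fun i => ∃ h : Light T i, F0 ⟨i, h⟩ x y) :=
        cnt_congr fun i => ⟨fun h4 => h4.2, fun h4 => ⟨h4.1, h4⟩⟩
      rw [← h3, ← h1, h2]
    rw [e1, e2, g2 x y hxy]
    exact emain_dem_add T δ FB G hD hFB hG x y hxy
  · intro i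
    have e1 : nv (fun a b => FB i a b ∨ (G i a b ∨ ∃ h : Light T i, F0 ⟨i, h⟩ a b)) =
        nv (FB i) + (nv (G i) + nv (fun a b => ∃ h : Light T i, F0 ⟨i, h⟩ a b)) := by
      rw [nv_or (hdis i), nv_or (M := G i) (fun x y z h1 ⟨h2, _⟩ => hG.light i h2 x y h1)]
    obtain ⟨k, hk⟩ := (hFB.mat i).even
    have htI : tI T δ FB i = bI T δ i - k := by
      unfold tI
      rw [hk]
      push_cast
      omega
    have hb := bI_spec hD i
    have key : 2 * tI T δ FB i ≤ (nv (G i) : ℤ) + (nv (fun a b => ∃ h : Light T i, F0 ⟨i, h⟩ a b) : ℤ) := by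
      by_cases h : Light T i
      · rw [hNlight i h]
        have := g3 ⟨i, h⟩
        have h0 : (0 : ℤ) ≤ nv (G i) := Int.natCast_nonneg _
        have h1 : 2 * tI T δ FB i ≤ (nv (F0 ⟨i, h⟩) : ℤ) := this
        omega
      · have h1 := hG.size i h
        have h0 : (0 : ℤ) ≤ nv (fun a b => ∃ h : Light T i, F0 ⟨i, h⟩ a b) := Int.natCast_nonneg _
        omega
    rw [e1]
    have hk' : (nv (FB i) : ℤ) = k + k := by
      rw [hk]
      push_cast
      ring
    omega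

end Pool.Agent.Work.MP_18db2a_co
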