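import Pool.Agent.Work.MP_18db2a_co.PiAv

set_option autoImplicit false

/-!
# EvAvail (size S-M, uses the statement of PiAv): free edges of one matching in another colour

The event depends only on `ω i` and `ω j`: by `av_pi_eval2` its probability is the average over `b : Ω j` of the probability over `a : Ω i`.
For fixed `b` apply `Pk.avail` of colour `i` to the matching `N = M j b` and `t = ε m / 2` (`m = card V`): the number `c` of the pairs of `N` inside `U i` is at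
most `card V` (`IsMat.nv_eq`, `IsMat.nv_le`), `20/|U i| * c ≤ 20/(ε m) * m = 20/ε ≤ ε m/2` as `ε² m ≥ 40`, so the event
`Z < τ² c - ε m` implies `Z ≤ (τ² - 20/|U i|) c - t`.  Bound: `exp (- (ε m/2)²/(512 m)) = exp (- ε² m / 2048)`.
-/

namespace Pool.Agent.Work.MP_18db2a_co

open Finset

theorem ev_avail {V I : Type} [Fintype V] [Fintype I] [DecidableEq I] {Ω : I → Type} [∀ i, Fintype (Ω i)]
    [∀ i, Nonempty (Ω i)] (U : I → Finset V) (x : I → V → V → ℝ) (τ : ℝ) (Q : ℕ)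
    (M : ∀ i, Ω i → V → V → Prop) (hM : ∀ i, Pk (U i) (x i) τ Q (M i)) (ε : ℝ) (hε : 0 < ε)
    (hm : 40 ≤ ε ^ 2 * (Fintype.card V : ℝ)) (i j : I) (hij : i ≠ j)
    (hi : ε * (Fintype.card V : ℝ) ≤ ((U i).card : ℝ)) :
    pr (fun ω : (∀ i, Ω i) =>
      (cnt (fun e : V × V => M j (ω j) e.1 e.2 ∧ e.1 ∈ U i ∧ e.2 ∈ U i ∧ Unc (M i (ω i)) e.1 ∧
        Unc (M i (ω i)) e.2) : ℝ) <
        τ ^ 2 * cnt (fun e : V × V => M j (ω j) e.1 e.2 ∧ e.1 ∈ U i ∧ e.2 ∈ U i) - ε * (Fintype.card V : ℝ)) ≤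
      Real.exp (- ε ^ 2 * (Fintype.card V : ℝ) / 2048) := by
  classical
  have hm0 : (0 : ℝ) < (Fintype.card V : ℝ) := by
    rcases (Nat.cast_nonneg (Fintype.card V) : (0 : ℝ) ≤ _).lt_or_eq with h | h
    · exact h
    · rw [← h] at hm
      norm_num at hm
  have e1 : pr (fun ω : (∀ i, Ω i) =>
      (cnt (fun e : V × V => M j (ω j) e.1 e.2 ∧ e.1 ∈ U i ∧ e.2 ∈ U i ∧ Unc (M i (ω i)) e.1 ∧
        Unc (M i (ω i)) e.2) : ℝ) <
        τ ^ 2 * cnt (fun e : V × V => M j (ω j) e.1 e.2 ∧ e.1 ∈ U i ∧ e.2 ∈ U i) -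
          ε * (Fintype.card V : ℝ)) =
      av fun b : Ω j => pr fun a : Ω i =>
      (cnt (fun e : V × V => M j b e.1 e.2 ∧ e.1 ∈ U i ∧ e.2 ∈ U i ∧ Unc (M i a) e.1 ∧
        Unc (M i a) e.2) : ℝ) <
        τ ^ 2 * cnt (fun e : V × V => M j b e.1 e.2 ∧ e.1 ∈ U i ∧ e.2 ∈ U i) -
          ε * (Fintype.card V : ℝ) := by
    rw [pr_eq_av]
    have := av_pi_eval2 (Ω := Ω) i j hij (fun (a : Ω i) (b : Ω j) => if
      (cnt (fun e : V × V => M j b e.1 e.2 ∧ e.1 ∈ U i ∧ e.2 ∈ U i ∧ Unc (M i a) e.1 ∧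
        Unc (M i a) e.2) : ℝ) <
        τ ^ 2 * cnt (fun e : V × V => M j b e.1 e.2 ∧ e.1 ∈ U i ∧ e.2 ∈ U i) -
          ε * (Fintype.card V : ℝ) then (1 : ℝ) else 0)
    rw [this]
    refine congrArg av (funext fun b => ?_)
    rw [pr_eq_av]
  rw [e1]
  have key : ∀ b : Ω j, pr (fun a : Ω i =>
      (cnt (fun e : V × V => M j b e.1 e.2 ∧ e.1 ∈ U i ∧ e.2 ∈ U i ∧ Unc (M i a) e.1 ∧
        Unc (M i a) e.2) : ℝ) <
        τ ^ 2 * cnt (fun e : V × V => M j b e.1 e.2 ∧ e.1 ∈ U i ∧ e.2 ∈ U i) -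
          ε * (Fintype.card V : ℝ)) ≤ Real.exp (- ε ^ 2 * (Fintype.card V : ℝ) / 2048) := by
    intro b
    have hN : IsMat Finset.univ (M j b) := ((hM j).mat b).mono (Finset.subset_univ _)
    have ht : 0 ≤ ε * (Fintype.card V : ℝ) / 2 := by positivity
    have h1 := (hM i).avail (M j b) hN (ε * (Fintype.card V : ℝ) / 2) ht
    have e2 : - (ε * (Fintype.card V : ℝ) / 2) ^ 2 / (512 * (Fintype.card V : ℝ)) =
        - ε ^ 2 * (Fintype.card V : ℝ) / 2048 := by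
      field_simp
      ring
    rw [e2] at h1
    refine (pr_mono fun a ha => ?_).trans h1
    have ha' : (cnt (fun e : V × V => M j b e.1 e.2 ∧ e.1 ∈ U i ∧ e.2 ∈ U i ∧ Unc (M i a) e.1 ∧
        Unc (M i a) e.2) : ℝ) <
        τ ^ 2 * cnt (fun e : V × V => M j b e.1 e.2 ∧ e.1 ∈ U i ∧ e.2 ∈ U i) -
          ε * (Fintype.card V : ℝ) := ha
    have hc : (cnt (fun e : V × V => M j b e.1 e.2 ∧ e.1 ∈ U i ∧ e.2 ∈ U i) : ℝ) ≤
        (Fintype.card V : ℝ) := by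
      have h2 : cnt (fun e : V × V => M j b e.1 e.2 ∧ e.1 ∈ U i ∧ e.2 ∈ U i) ≤ Fintype.card V := by
        refine (cnt_mono (q := fun e : V × V => M j b e.1 e.2) fun e he => he.1).trans ?_
        rw [← hN.nv_eq]
        have := hN.nv_le
        rwa [Finset.card_univ] at this
      exact_mod_cast h2
    have hc0 : (0 : ℝ) ≤ cnt (fun e : V × V => M j b e.1 e.2 ∧ e.1 ∈ U i ∧ e.2 ∈ U i) :=
      Nat.cast_nonneg _
    have hU0 : (0 : ℝ) < ((U i).card : ℝ) := lt_of_lt_of_le (by positivity) hi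
    have h3 : 20 / ((U i).card : ℝ) * cnt (fun e : V × V => M j b e.1 e.2 ∧ e.1 ∈ U i ∧ e.2 ∈ U i) ≤
        ε * (Fintype.card V : ℝ) / 2 := by
      rw [div_mul_eq_mul_div, div_le_iff₀ hU0]
      have h4 : 20 * (Fintype.card V : ℝ) ≤
          ε * (Fintype.card V : ℝ) / 2 * (ε * (Fintype.card V : ℝ)) := by
        nlinarith [mul_le_mul_of_nonneg_right hm hm0.le]
      have h5 : ε * (Fintype.card V : ℝ) / 2 * (ε * (Fintype.card V : ℝ)) ≤
          ε * (Fintype.card V : ℝ) / 2 * ((U i).card : ℝ) := mul_le_mul_of_nonneg_left hi ht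
      linarith
    show (cnt (fun e : V × V => M j b e.1 e.2 ∧ e.1 ∈ U i ∧ e.2 ∈ U i ∧ Unc (M i a) e.1 ∧
        Unc (M i a) e.2) : ℝ) ≤ _
    rw [sub_mul]
    linarith
  exact (av_mono key).trans (av_const _).le

end Pool.Agent.Work.MP_18db2a_co
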