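import Pool.Agent.Work.MP_18db2a_co.Cher

set_option autoImplicit false

/-!
# EvLoad (size M, uses the statement of Cher): loads of the pairs

Let `X = ∑ i, x i a b`, `μ = ∑ i, pr (M i · a b)`.  `marg` gives `X ≤ μ ≤ X + card I / Q ≤ X + 3`.  If `|ld - X| > ε m` then `ld ≥ μ + ε m / 2` (as `ε m ≥ 6`)
or `ld ≤ μ - ε m / 2`.  Chernoff with `t = ε m / 2`, `l = ε/16`: `- l t + l² μ ≤ - ε² m / 32 + (ε²/256) (3 m + 3) ≤ - ε² m / 64` (`m ≥ 3`).
`ld (fun i => M i (ω i)) a b = cnt (fun i => M i (ω i) a b)` by definition.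
-/

namespace Pool.Agent.Work.MP_18db2a_co

open Finset

theorem ev_load {V I : Type} [Fintype V] [Fintype I] [DecidableEq I] {Ω : I → Type} [∀ i, Fintype (Ω i)]
    [∀ i, Nonempty (Ω i)] (U : I → Finset V) (x : I → V → V → ℝ) (τ : ℝ) (Q : ℕ)
    (M : ∀ i, Ω i → V → V → Prop) (hM : ∀ i, Pk (U i) (x i) τ Q (M i)) (ε : ℝ) (hε : 0 < ε) (hε1 : ε ≤ 1)
    (hQ : 0 < Q) (hQ1 : Fintype.card I ≤ 3 * Q) (hm : 6 ≤ ε * (Fintype.card V : ℝ)) (a b : V) (hab : a ≠ b)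
    (hsum : ∑ i, x i a b ≤ 3 * (Fintype.card V : ℝ)) :
    pr (fun ω : (∀ i, Ω i) => ε * (Fintype.card V : ℝ) < |(ld (fun i => M i (ω i)) a b : ℝ) - ∑ i, x i a b|) ≤
      2 * Real.exp (- ε ^ 2 * (Fintype.card V : ℝ) / 64) := by
  set m : ℝ := (Fintype.card V : ℝ) with hmdef
  set X : ℝ := ∑ i, x i a b with hX
  set μ : ℝ := ∑ i, pr (fun w : Ω i => M i w a b) with hμ
  have hQR : (0 : ℝ) < Q := by exact_mod_cast hQ
  have h1 : X ≤ μ := Finset.sum_le_sum fun i _ => ((hM i).marg a b hab).1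
  have h2 : μ ≤ X + 3 := by
    have h3 : μ ≤ ∑ i, (x i a b + 1 / (Q : ℝ)) :=
      Finset.sum_le_sum fun i _ => ((hM i).marg a b hab).2
    rw [Finset.sum_add_distrib, Finset.sum_const, nsmul_eq_mul, Finset.card_univ] at h3
    have h4 : (Fintype.card I : ℝ) * (1 / (Q : ℝ)) ≤ 3 := by
      rw [mul_one_div, div_le_iff₀ hQR]
      exact_mod_cast hQ1
    linarith
  have hm6 : 6 ≤ m := by
    have hm0 : 0 ≤ m := Nat.cast_nonneg _
    nlinarith
  have hl0 : 0 ≤ ε / 16 := by linarith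
  have hl1 : ε / 16 ≤ 1 := by linarith
  have hexp : - (ε / 16) * (ε * m / 2) + (ε / 16) ^ 2 * μ ≤ - ε ^ 2 * m / 64 := by
    have h5 : μ ≤ 3 * m + 3 := by linarith
    have h6 : (ε / 16) ^ 2 * μ ≤ (ε / 16) ^ 2 * (4 * m) :=
      mul_le_mul_of_nonneg_left (by linarith) (sq_nonneg _)
    nlinarith
  have hup := chernoff_upper (fun i (w : Ω i) => M i w a b) (ε / 16) (ε * m / 2) hl0 hl1
  have hlo := chernoff_lower (fun i (w : Ω i) => M i w a b) (ε / 16) (ε * m / 2) hl0 hl1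
  have hE := Real.exp_le_exp.2 hexp
  refine le_trans (pr_mono (q := fun ω : (∀ i, Ω i) =>
    (μ + ε * m / 2 ≤ (cnt (fun i => M i (ω i) a b) : ℝ)) ∨
      ((cnt (fun i => M i (ω i) a b) : ℝ) ≤ μ - ε * m / 2)) fun ω hω => ?_) ?_
  · have hld : (ld (fun i => M i (ω i)) a b : ℝ) = (cnt (fun i => M i (ω i) a b) : ℝ) := rfl
    rw [hld] at hω
    rcases lt_abs.1 hω with h | h
    · left
      linarith
    · right
      linarith
  · refine (pr_or_le _ _).trans ?_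
    have := add_le_add (hup.trans hE) (hlo.trans hE)
    linarith

end Pool.Agent.Work.MP_18db2a_co
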