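import Pool.Agent.Work.MP_18db2a_co.PiAv

set_option autoImplicit false

/-!
# EvSize (size S, uses the statement of PiAv): sizes of the matchings

The event depends only on `ω i`, so its probability is that of the same event in `Ω i` (`av_pi_eval`, `pr_eq_av`).  With `t = ε m - 2 ≥ ε m / 2` (`m = card V`)
`Pk.size` gives the bound `2 exp (- t²/(128 m)) ≤ 2 exp (- ε² m / 512)`.
-/

namespace Pool.Agent.Work.MP_18db2a_co

open Finset

theorem ev_size {V I : Type} [Fintype V] [Fintype I] [DecidableEq I] {Ω : I → Type} [∀ i, Fintype (Ω i)]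
    [∀ i, Nonempty (Ω i)] (U : I → Finset V) (x : I → V → V → ℝ) (τ : ℝ) (Q : ℕ)
    (M : ∀ i, Ω i → V → V → Prop) (hM : ∀ i, Pk (U i) (x i) τ Q (M i)) (ε : ℝ) (hε : 0 < ε)
    (hm : 4 ≤ ε * (Fintype.card V : ℝ)) (i : I) :
    pr (fun ω : (∀ i, Ω i) => ε * (Fintype.card V : ℝ) < |(nv (M i (ω i)) : ℝ) - ∑ a, ∑ b, x i a b|) ≤
      2 * Real.exp (- ε ^ 2 * (Fintype.card V : ℝ) / 512) := by
  classical
  have hm0 : (0 : ℝ) < (Fintype.card V : ℝ) := by
    rcases (Nat.cast_nonneg (Fintype.card V) : (0 : ℝ) ≤ _).lt_or_eq with h | h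
    · exact h
    · rw [← h] at hm
      norm_num at hm
  have e1 : pr (fun ω : (∀ i, Ω i) => ε * (Fintype.card V : ℝ) <
        |(nv (M i (ω i)) : ℝ) - ∑ a, ∑ b, x i a b|) =
      pr (fun ω : Ω i => ε * (Fintype.card V : ℝ) < |(nv (M i ω) : ℝ) - ∑ a, ∑ b, x i a b|) := by
    rw [pr_eq_av, pr_eq_av]
    exact av_pi_eval i (fun ω => if ε * (Fintype.card V : ℝ) < |(nv (M i ω) : ℝ) - ∑ a, ∑ b, x i a b|
      then (1 : ℝ) else 0)
  rw [e1]
  have ht : 0 ≤ ε * (Fintype.card V : ℝ) - 2 := by linarith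
  refine (pr_mono fun ω hω => ?_).trans (((hM i).size (ε * (Fintype.card V : ℝ) - 2) ht).trans ?_)
  · have : ε * (Fintype.card V : ℝ) < |(nv (M i ω) : ℝ) - ∑ a, ∑ b, x i a b| := hω
    linarith
  · refine mul_le_mul_of_nonneg_left (Real.exp_le_exp.2 ?_) (by norm_num)
    rw [div_le_div_iff₀ (by positivity) (by norm_num)]
    have h1 : (ε * (Fintype.card V : ℝ)) ^ 2 ≤ (2 * (ε * (Fintype.card V : ℝ) - 2)) ^ 2 := by
      apply pow_le_pow_left₀ (by positivity)
      linarith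
    nlinarith [h1]

end Pool.Agent.Work.MP_18db2a_co
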