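import Pool.Agent.Work.MP_18db2a_co.Cher

set_option autoImplicit false

/-!
# EvUnc (size M, uses the statement of Cher): numbers of colours in which `a` and `b` are uncovered

Let `m = card V`, `p i ω = (a ∈ U i ∧ b ∈ U i ∧ Unc (M i ω) a ∧ Unc (M i ω) b)`, `μ = ∑ i, pr (p i)`.  If `a, b ∈ U i` and `ε m ≤ |U i|` then
`pr (p i) ≥ τ² - 20/|U i| ≥ τ² - 20/(ε m)`; all other `pr (p i)` are `≥ 0`.  Hence `μ ≥ τ² c - 3 m² * 20/(ε m) ≥ τ² c - ε m² / 2`, where `c` is the number of these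
`i` and `m ≥ 120/ε²`.  So the event implies `cnt ≤ μ - ε m²/2`; Chernoff with `t = ε m² / 2`, `l = ε/12`, `μ ≤ card I ≤ 3 m²`:
`- ε² m²/24 + (ε²/144) 3 m² = - ε² m²/48`.
-/

namespace Pool.Agent.Work.MP_18db2a_co

open Finset

theorem ev_unc {V I : Type} [Fintype V] [Fintype I] [DecidableEq I] {Ω : I → Type} [∀ i, Fintype (Ω i)]
    [∀ i, Nonempty (Ω i)] (U : I → Finset V) (x : I → V → V → ℝ) (τ : ℝ) (Q : ℕ)
    (M : ∀ i, Ω i → V → V → Prop) (hM : ∀ i, Pk (U i) (x i) τ Q (M i)) (ε : ℝ) (hε : 0 < ε) (hε1 : ε ≤ 1)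
    (hI : (Fintype.card I : ℝ) ≤ 3 * (Fintype.card V : ℝ) ^ 2) (hm : 120 ≤ ε ^ 2 * (Fintype.card V : ℝ))
    (a b : V) (hab : a ≠ b) :
    pr (fun ω : (∀ i, Ω i) =>
      (cnt (fun i => a ∈ U i ∧ b ∈ U i ∧ Unc (M i (ω i)) a ∧ Unc (M i (ω i)) b) : ℝ) <
        τ ^ 2 * cnt (fun i => a ∈ U i ∧ b ∈ U i ∧ ε * (Fintype.card V : ℝ) ≤ ((U i).card : ℝ)) -
          ε * (Fintype.card V : ℝ) ^ 2) ≤
      Real.exp (- ε ^ 2 * (Fintype.card V : ℝ) ^ 2 / 48) := by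
  classical
  set m : ℝ := (Fintype.card V : ℝ) with hmdef
  have hε2 : 0 < ε ^ 2 := by positivity
  have hmpos : 0 < m := by
    by_contra hcon
    have : ε ^ 2 * m ≤ 0 := mul_nonpos_of_nonneg_of_nonpos hε2.le (not_lt.mp hcon)
    linarith
  have hεm : 0 < ε * m := mul_pos hε hmpos
  set p : ∀ i, Ω i → Prop := fun i x => a ∈ U i ∧ b ∈ U i ∧ Unc (M i x) a ∧ Unc (M i x) b with hp
  set c : ℕ := cnt (fun i => a ∈ U i ∧ b ∈ U i ∧ ε * m ≤ ((U i).card : ℝ)) with hc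
  have hcI : (c : ℝ) ≤ 3 * m ^ 2 := by
    have : (c : ℝ) ≤ Fintype.card I := by exact_mod_cast cnt_le_card _
    linarith
  -- lower bound of the mean
  have hone : ∀ i, (if a ∈ U i ∧ b ∈ U i ∧ ε * m ≤ ((U i).card : ℝ) then (1 : ℝ) else 0) *
      (τ ^ 2 - 20 / (ε * m)) ≤ pr (p i) := by
    intro i
    split_ifs with hi
    · obtain ⟨ha, hb, hcard⟩ := hi
      have h1 := (hM i).unc a b ha hb hab
      have h2 : 20 / ((U i).card : ℝ) ≤ 20 / (ε * m) :=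
        div_le_div_of_nonneg_left (by norm_num) hεm hcard
      have h3 : pr (fun ω => Unc (M i ω) a ∧ Unc (M i ω) b) ≤ pr (p i) :=
        pr_mono fun x hx => ⟨ha, hb, hx.1, hx.2⟩
      linarith
    · rw [zero_mul]
      exact pr_nonneg _
  have hμ : (c : ℝ) * (τ ^ 2 - 20 / (ε * m)) ≤ ∑ i, pr (p i) := by
    rw [hc, cnt_coe, Finset.sum_mul]
    exact Finset.sum_le_sum fun i _ => hone i
  have hμ' : τ ^ 2 * (c : ℝ) - ε * m ^ 2 / 2 ≤ ∑ i, pr (p i) := by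
    refine le_trans ?_ hμ
    have h1 : (c : ℝ) * (20 / (ε * m)) ≤ ε * m ^ 2 / 2 := by
      have h2 : (c : ℝ) * (20 / (ε * m)) ≤ 3 * m ^ 2 * (20 / (ε * m)) :=
        mul_le_mul_of_nonneg_right hcI (by positivity)
      refine h2.trans ?_
      rw [← mul_div_assoc, div_le_iff₀ hεm]
      have : 120 * m ^ 2 ≤ ε ^ 2 * m * m ^ 2 := mul_le_mul_of_nonneg_right hm (by positivity)
      nlinarith [this]
    nlinarith [h1]
  have hμle : ∑ i, pr (p i) ≤ 3 * m ^ 2 := by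
    have : ∑ i, pr (p i) ≤ ∑ _i : I, (1 : ℝ) := Finset.sum_le_sum fun i _ => pr_le_one _
    rw [Finset.sum_const, nsmul_eq_mul, mul_one, Finset.card_univ] at this
    linarith
  have hch := chernoff_lower p (ε / 12) (ε * m ^ 2 / 2) (by positivity) (by linarith)
  refine (pr_mono fun ω hω => ?_).trans (hch.trans (Real.exp_le_exp.mpr ?_))
  · have h1 : (cnt (fun i => p i (ω i)) : ℝ) < τ ^ 2 * (c : ℝ) - ε * m ^ 2 := hω
    linarith
  · have : (ε / 12) ^ 2 * ∑ i, pr (p i) ≤ (ε / 12) ^ 2 * (3 * m ^ 2) :=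
      mul_le_mul_of_nonneg_left hμle (by positivity)
    nlinarith [this]

end Pool.Agent.Work.MP_18db2a_co
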