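import Pool.Agent.Work.MP_18db2a_co.Basic

set_option autoImplicit false

/-!
# Galvin (size M, Mathlib only): Galvin's theorem (list edge colouring of bipartite multigraphs)

`E`: edges, `v e`, `x e`: the two ends, `φ`: the colours of a proper colouring, used as preferences.
`stable` (stable matchings): strong induction on `S.card`.  For `b ∈ S.image v` let `e_b` be the edge of `S` with `v = b` and minimal `φ`.  If the `x (e_b)` are
pairwise distinct then `K = {e_b}` works: every `e ∈ S \ K` is dominated by `e_{v e}` (same `v`, smaller `φ`).  Otherwise there are `b ≠ b'` with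
`x (e_b) = x (e_b')`, say `φ (e_b) < φ (e_b')`.  Take `K` for `S.erase (e_b)`; it works for `S`: `e_b` is dominated: if `e_b' ∈ K` by `e_b'` (same `x`, larger
`φ`); otherwise `e_b'` is dominated by some `f ∈ K`; `v f = b'`, `φ f < φ (e_b')` is impossible (`e_b'` is minimal), so `x f = x (e_b')` and
`φ f > φ (e_b') > φ (e_b)`.
`galvin`: strong induction on `S.card`.  If `S` is nonempty take a colour `α` in some list `L e`, `e ∈ S` (nonempty by `hL`); let
`S_α = {e ∈ S | α ∈ L e}`, `K` = stable set of `S_α` (nonempty), colour `K` with `α`, and apply the induction hypothesis to `S \ K` with the lists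
`(L e).erase α`: for `e ∈ S_α \ K` the list loses one member and the number on the left of `hL` loses at least one (the dominating `f ∈ K`); for
`e ∉ S_α` the list does not change.
-/

namespace Pool.Agent.Work.MP_18db2a_co

open Finset

theorem stable {E B X : Type} [DecidableEq E] [DecidableEq B] [DecidableEq X] (S : Finset E) (v : E → B) (x : E → X)
    (φ : E → ℕ) (hv : ∀ e ∈ S, ∀ f ∈ S, v e = v f → φ e = φ f → e = f)
    (hx : ∀ e ∈ S, ∀ f ∈ S, x e = x f → φ e = φ f → e = f) :
    ∃ K ⊆ S, (∀ e ∈ K, ∀ f ∈ K, (v e = v f ∨ x e = x f) → e = f) ∧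
      ∀ e ∈ S, e ∉ K → ∃ f ∈ K, (v f = v e ∧ φ f < φ e) ∨ (x f = x e ∧ φ e < φ f) := by
  classical
  induction S using Finset.strongInduction with
  | H S ih =>
    set K0 : Finset E := S.filter fun e => ∀ f ∈ S, v f = v e → φ e ≤ φ f with hK0
    have memK0 : ∀ e, e ∈ K0 ↔ e ∈ S ∧ ∀ f ∈ S, v f = v e → φ e ≤ φ f := by
      intro e
      rw [hK0, mem_filter]
    have hmin : ∀ e ∈ S, ∃ f ∈ K0, v f = v e ∧ φ f ≤ φ e := by
      intro e he
      obtain ⟨f, hf, hfm⟩ := exists_min_image (S.filter fun f => v f = v e) φ ⟨e, by simp [he]⟩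
      rw [mem_filter] at hf
      refine ⟨f, ?_, hf.2, hfm e (by simp [he])⟩
      rw [memK0]
      refine ⟨hf.1, fun g hg hgf => hfm g ?_⟩
      rw [mem_filter]
      exact ⟨hg, hgf.trans hf.2⟩
    by_cases hA : ∀ e ∈ K0, ∀ f ∈ K0, x e = x f → e = f
    · refine ⟨K0, filter_subset _ _, ?_, ?_⟩
      · intro e he f hf hor
        rcases hor with h | h
        · have he' := (memK0 e).1 he
          have hf' := (memK0 f).1 hf
          exact hv e he'.1 f hf'.1 h (le_antisymm (he'.2 f hf'.1 h.symm) (hf'.2 e he'.1 h))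
        · exact hA e he f hf h
      · intro e he heK
        obtain ⟨f, hf, hfv, hfφ⟩ := hmin e he
        refine ⟨f, hf, Or.inl ⟨hfv, lt_of_le_of_ne hfφ ?_⟩⟩
        intro h
        have : f = e := hv f ((memK0 f).1 hf).1 e he hfv h
        exact heK (this ▸ hf)
    · push Not at hA
      obtain ⟨e₁, he₁, f₁, hf₁, hxe, hne⟩ := hA
      have key : ∀ e ∈ K0, ∀ f ∈ K0, x e = x f → φ e < φ f →
          ∃ K ⊆ S, (∀ e ∈ K, ∀ f ∈ K, (v e = v f ∨ x e = x f) → e = f) ∧
            ∀ e ∈ S, e ∉ K → ∃ f ∈ K, (v f = v e ∧ φ f < φ e) ∨ (x f = x e ∧ φ e < φ f) := by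
        intro e he f hf hxef hφ
        have heS := ((memK0 e).1 he).1
        have hfS := ((memK0 f).1 hf).1
        have hfe : f ≠ e := by
          rintro rfl
          exact lt_irrefl _ hφ
        obtain ⟨K, hKS, hK1, hK2⟩ := ih (S.erase e) (erase_ssubset heS)
          (fun a ha b hb => hv a (mem_of_mem_erase ha) b (mem_of_mem_erase hb))
          (fun a ha b hb => hx a (mem_of_mem_erase ha) b (mem_of_mem_erase hb))
        refine ⟨K, hKS.trans (erase_subset _ _), hK1, ?_⟩
        intro a ha haK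
        by_cases hae : a = e
        · subst hae
          by_cases hfK : f ∈ K
          · exact ⟨f, hfK, Or.inr ⟨hxef.symm, hφ⟩⟩
          · obtain ⟨g, hg, hor⟩ := hK2 f (mem_erase.2 ⟨hfe, hfS⟩) hfK
            have hgS : g ∈ S := mem_of_mem_erase (hKS hg)
            rcases hor with ⟨h1, h2⟩ | ⟨h1, h2⟩
            · exact absurd (((memK0 f).1 hf).2 g hgS h1) (not_le.2 h2)
            · exact ⟨g, hg, Or.inr ⟨h1.trans hxef.symm, hφ.trans h2⟩⟩
        · exact hK2 a (mem_erase.2 ⟨hae, ha⟩) haK
      have hφne : φ e₁ ≠ φ f₁ := fun h =>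
        hne (hx e₁ ((memK0 e₁).1 he₁).1 f₁ ((memK0 f₁).1 hf₁).1 hxe h)
      rcases lt_or_gt_of_ne hφne with h | h
      · exact key e₁ he₁ f₁ hf₁ hxe h
      · exact key f₁ hf₁ e₁ he₁ hxe.symm h

theorem galvin {E B X C : Type} [DecidableEq E] [DecidableEq B] [DecidableEq X] [DecidableEq C] (S : Finset E)
    (v : E → B) (x : E → X) (φ : E → ℕ) (hv : ∀ e ∈ S, ∀ f ∈ S, v e = v f → φ e = φ f → e = f)
    (hx : ∀ e ∈ S, ∀ f ∈ S, x e = x f → φ e = φ f → e = f) (L : E → Finset C)
    (hL : ∀ e ∈ S, (S.filter fun f => v f = v e ∧ φ f < φ e).card +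
      (S.filter fun f => x f = x e ∧ φ e < φ f).card < (L e).card)
    (hC : S = ∅ → Nonempty (E → C)) :
    ∃ col : E → C, (∀ e ∈ S, col e ∈ L e) ∧
      ∀ e ∈ S, ∀ f ∈ S, e ≠ f → (v e = v f ∨ x e = x f) → col e ≠ col f := by
  classical
  rcases S.eq_empty_or_nonempty with h0 | h0
  · obtain ⟨col⟩ := hC h0
    exact ⟨col, by simp [h0], by simp [h0]⟩
  have hNC : Nonempty C := by
    obtain ⟨e, he⟩ := h0
    obtain ⟨α, _⟩ := card_pos.1 (lt_of_le_of_lt (Nat.zero_le _) (hL e he))
    exact ⟨α⟩
  clear hC h0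
  induction S using Finset.strongInduction generalizing L with
  | H S ih =>
    rcases S.eq_empty_or_nonempty with h0 | h0
    · obtain ⟨c⟩ := hNC
      exact ⟨fun _ => c, by simp [h0], by simp [h0]⟩
    obtain ⟨e₀, he₀⟩ := h0
    obtain ⟨α, hα⟩ := card_pos.1 (lt_of_le_of_lt (Nat.zero_le _) (hL e₀ he₀))
    set Sα : Finset E := S.filter fun e => α ∈ L e with hSα
    have memSα : ∀ e, e ∈ Sα ↔ e ∈ S ∧ α ∈ L e := by
      intro e
      rw [hSα, mem_filter]
    obtain ⟨K, hKS, hK1, hK2⟩ := stable Sα v x φ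
      (fun a ha b hb => hv a ((memSα a).1 ha).1 b ((memSα b).1 hb).1)
      (fun a ha b hb => hx a ((memSα a).1 ha).1 b ((memSα b).1 hb).1)
    have hKS' : K ⊆ S := fun a ha => ((memSα a).1 (hKS ha)).1
    have hKne : K.Nonempty := by
      by_cases h : e₀ ∈ K
      · exact ⟨e₀, h⟩
      · obtain ⟨f, hf, _⟩ := hK2 e₀ ((memSα e₀).2 ⟨he₀, hα⟩) h
        exact ⟨f, hf⟩
    have hss : S \ K ⊂ S := by
      refine ⟨sdiff_subset, fun h => ?_⟩
      obtain ⟨k, hk⟩ := hKne
      exact (mem_sdiff.1 (h (hKS' hk))).2 hk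
    obtain ⟨col, hcol1, hcol2⟩ := ih (S \ K) hss
      (fun a ha b hb => hv a (mem_sdiff.1 ha).1 b (mem_sdiff.1 hb).1)
      (fun a ha b hb => hx a (mem_sdiff.1 ha).1 b (mem_sdiff.1 hb).1)
      (fun e => (L e).erase α) (by
        intro e he
        rw [mem_sdiff] at he
        have h1 := hL e he.1
        have hs1 : ((S \ K).filter fun f => v f = v e ∧ φ f < φ e) ⊆ (S.filter fun f => v f = v e ∧ φ f < φ e) :=
          filter_subset_filter _ sdiff_subset
        have hs2 : ((S \ K).filter fun f => x f = x e ∧ φ e < φ f) ⊆ (S.filter fun f => x f = x e ∧ φ e < φ f) :=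
          filter_subset_filter _ sdiff_subset
        by_cases hαe : α ∈ L e
        · obtain ⟨f, hf, hor⟩ := hK2 e ((memSα e).2 ⟨he.1, hαe⟩) he.2
          have hcard : ((L e).erase α).card = (L e).card - 1 := card_erase_of_mem hαe
          rcases hor with h | h
          · have : ((S \ K).filter fun f => v f = v e ∧ φ f < φ e).card <
                (S.filter fun f => v f = v e ∧ φ f < φ e).card := by
              apply card_lt_card
              refine ⟨hs1, fun hh => ?_⟩
              have := hh (mem_filter.2 ⟨hKS' hf, h⟩)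
              exact (mem_sdiff.1 (mem_filter.1 this).1).2 hf
            have h2 := card_le_card hs2
            omega
          · have : ((S \ K).filter fun f => x f = x e ∧ φ e < φ f).card <
                (S.filter fun f => x f = x e ∧ φ e < φ f).card := by
              apply card_lt_card
              refine ⟨hs2, fun hh => ?_⟩
              have := hh (mem_filter.2 ⟨hKS' hf, h⟩)
              exact (mem_sdiff.1 (mem_filter.1 this).1).2 hf
            have h2 := card_le_card hs1
            omega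
        · rw [erase_eq_of_notMem hαe]
          have := card_le_card hs1
          have := card_le_card hs2
          omega)
    refine ⟨fun e => if e ∈ K then α else col e, ?_, ?_⟩
    · intro e he
      by_cases hK : e ∈ K
      · simp only [hK, if_true]
        exact ((memSα e).1 (hKS hK)).2
      · simp only [hK, if_false]
        exact mem_of_mem_erase (hcol1 e (mem_sdiff.2 ⟨he, hK⟩))
    · intro e he f hf hef hor
      by_cases hK : e ∈ K <;> by_cases hK' : f ∈ K
      · exact absurd (hK1 e hK f hK' hor) hef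
      · simp only [hK, hK', if_true, if_false]
        exact (ne_of_mem_erase (hcol1 f (mem_sdiff.2 ⟨hf, hK'⟩))).symm
      · simp only [hK, hK', if_true, if_false]
        exact ne_of_mem_erase (hcol1 e (mem_sdiff.2 ⟨he, hK⟩))
      · simp only [hK, hK', if_false]
        exact hcol2 e (mem_sdiff.2 ⟨he, hK⟩) f (mem_sdiff.2 ⟨hf, hK'⟩) hef hor

end Pool.Agent.Work.MP_18db2a_co
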