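import Pool.Agent.Work.MP_18db2a_co.Basic

set_option autoImplicit false

/-!
# GrCh (size S, Mathlib only): sequential choice with few conflicts

Induction over finite sets `s` of `P` (`Finset.induction_on`): there is `e : P → E` with `e p ∈ Z p` for all `p ∈ s` and `e p ∉ bad p p' (e p')` for all
`p ≠ p'` in `s`.  New member `p`: the union of the sets `bad p p' (e p')`, `p' ∈ s`, has at most `∑ p', w p p' < (Z p).card` members, so some
`z ∈ Z p` is outside; `Function.update e p z`; the conditions for `(p', p)` follow by `hsymm`.
-/

namespace Pool.Agent.Work.MP_18db2a_co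

open Finset

theorem greedy_choice {P E : Type} [Fintype P] [DecidableEq P] [DecidableEq E] (Z : P → Finset E)
    (bad : P → P → E → Finset E) (w : P → P → ℕ) (hbad : ∀ p p' e', p ≠ p' → (bad p p' e').card ≤ w p p')
    (hsymm : ∀ p p' e e', p ≠ p' → e ∈ bad p p' e' → e' ∈ bad p' p e)
    (hZ : ∀ p, ∑ p', w p p' < (Z p).card) :
    ∃ e : P → E, (∀ p, e p ∈ Z p) ∧ ∀ p p', p ≠ p' → e p ∉ bad p p' (e p') := by
  have hne : ∀ p, (Z p).Nonempty := fun p => Finset.card_pos.1 (lt_of_le_of_lt (Nat.zero_le _) (hZ p))
  have key : ∀ s : Finset P, ∃ e : P → E, (∀ p, e p ∈ Z p) ∧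
      ∀ p ∈ s, ∀ p' ∈ s, p ≠ p' → e p ∉ bad p p' (e p') := by
    intro s
    induction s using Finset.induction_on with
    | empty => exact ⟨fun p => (hne p).choose, fun p => (hne p).choose_spec, fun p hp => by simp at hp⟩
    | insert a s ha ih =>
      obtain ⟨e, he1, he2⟩ := ih
      obtain ⟨z, hz, hz'⟩ : ∃ z ∈ Z a, z ∉ s.biUnion fun p' => bad a p' (e p') := by
        by_contra hno
        push Not at hno
        have h1 : (Z a).card ≤ (s.biUnion fun p' => bad a p' (e p')).card :=
          Finset.card_le_card fun z hz => hno z hz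
        have h2 : (s.biUnion fun p' => bad a p' (e p')).card ≤ ∑ p' ∈ s, w a p' :=
          Finset.card_biUnion_le.trans (Finset.sum_le_sum fun p' hp' =>
            hbad a p' _ fun h => ha (h ▸ hp'))
        have h3 : ∑ p' ∈ s, w a p' ≤ ∑ p', w a p' :=
          Finset.sum_le_sum_of_subset (Finset.subset_univ _)
        have h4 := hZ a
        omega
      have hz2 : ∀ p' ∈ s, z ∉ bad a p' (e p') := fun p' hp' hh =>
        hz' (Finset.mem_biUnion.2 ⟨p', hp', hh⟩)
      refine ⟨Function.update e a z, fun p => ?_, ?_⟩
      · by_cases hp : p = a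
        · subst hp
          rw [Function.update_self]
          exact hz
        · rw [Function.update_of_ne hp]
          exact he1 p
      · intro p hp p' hp' hne'
        by_cases h1 : p = a
        · subst h1
          have h2 : p' ∈ s := (Finset.mem_insert.1 hp').resolve_left fun h => hne' h.symm
          rw [Function.update_self, Function.update_of_ne (Ne.symm hne')]
          exact hz2 p' h2
        · have h3 : p ∈ s := (Finset.mem_insert.1 hp).resolve_left h1
          by_cases h4 : p' = a
          · subst h4
            rw [Function.update_self, Function.update_of_ne h1]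
            exact fun hh => hz2 p h3 (hsymm _ _ _ _ hne' hh)
          · have h5 : p' ∈ s := (Finset.mem_insert.1 hp').resolve_left h4
            rw [Function.update_of_ne h1, Function.update_of_ne h4]
            exact he2 p h3 p' h5 hne'
  obtain ⟨e, he1, he2⟩ := key Finset.univ
  exact ⟨e, he1, fun p p' h => he2 p (Finset.mem_univ _) p' (Finset.mem_univ _) h⟩

end Pool.Agent.Work.MP_18db2a_co
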