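import Pool.Agent.Work.MP_18db2a_co.Basic

set_option autoImplicit false

/-!
# Hoef (size S-M, Mathlib only): Hoeffding's lemma on a finite set (with the constant 1/2)

Proof.  By convexity of `exp` (Jensen, or `exp t ≥ 1 + t` averaged): `exp (- l * av g) ≤ av_q exp (- l * g q)`: indeed for every real `a`,
`exp z ≥ exp a * (1 + z - a)`, so `av_q exp (-l g q) ≥ exp (-l av g)` (take `z = - l g q`, `a = - l av g`).
Hence `av_p exp (l (g p - av g)) ≤ av_p av_q exp (l (g p - g q))`.  Exchanging `p` and `q` and averaging, the right side is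
`av_p av_q cosh (l (g p - g q)) ≤ exp (l² c² / 2)` because `cosh t ≤ exp (t² / 2)` (`Real.cosh_le_exp_half_sq`) and
`(l (g p - g q))² ≤ l² c²`.  (`c ≥ 0` follows from `Nonempty Ω`.)
-/

namespace Pool.Agent.Work.MP_18db2a_co

open Finset

theorem av_exp_le {Ω : Type} [Fintype Ω] [Nonempty Ω] (g : Ω → ℝ) (c : ℝ)
    (h : ∀ p q, |g p - g q| ≤ c) (l : ℝ) :
    av (fun p => Real.exp (l * (g p - av g))) ≤ Real.exp (l ^ 2 * c ^ 2 / 2) := by
  have h1 : ∀ p, Real.exp (l * (g p - av g)) ≤ av (fun q => Real.exp (l * (g p - g q))) := by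
    intro p
    have h2 : av (fun q => Real.exp (l * (g p - av g)) * (1 + l * (av g - g q))) =
        Real.exp (l * (g p - av g)) := by
      rw [av_mul_left, av_add, av_const, av_mul_left, av_sub, av_const, sub_self, mul_zero,
        add_zero, mul_one]
    refine h2.symm.le.trans (av_mono fun q => ?_)
    have h3 : l * (g p - g q) = l * (g p - av g) + l * (av g - g q) := by ring
    rw [h3, Real.exp_add]
    refine mul_le_mul_of_nonneg_left ?_ (Real.exp_pos _).le
    have := Real.add_one_le_exp (l * (av g - g q))
    linarith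
  have h4 : av (fun p => av (fun q => Real.exp (l * (g p - g q)))) =
      av (fun p => av (fun q => Real.exp (l * (g q - g p)))) := by
    exact (av_prod (fun p q => Real.exp (l * (g p - g q)))).symm.trans
      (av_prod' (fun p q => Real.exp (l * (g p - g q))))
  have h5 : av (fun p => av (fun q => Real.exp (l * (g p - g q)))) =
      av (fun p => av (fun q => Real.cosh (l * (g p - g q)))) := by
    have h6 : av (fun p => av (fun q => Real.cosh (l * (g p - g q)))) =
        (1 / 2) * (av (fun p => av (fun q => Real.exp (l * (g p - g q)))) +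
          av (fun p => av (fun q => Real.exp (l * (g q - g p))))) := by
      rw [← av_add, ← av_mul_left]
      refine congrArg av (funext fun p => ?_)
      rw [← av_add, ← av_mul_left]
      refine congrArg av (funext fun q => ?_)
      rw [Real.cosh_eq]
      have h7 : -(l * (g p - g q)) = l * (g q - g p) := by ring
      rw [h7]
      ring
    rw [h6, ← h4]
    ring
  refine (av_mono h1).trans ?_
  rw [h5]
  have h8 : av (fun p : Ω => av (fun _ : Ω => Real.exp (l ^ 2 * c ^ 2 / 2))) =
      Real.exp (l ^ 2 * c ^ 2 / 2) := by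
    rw [av_const, av_const]
  rw [← h8]
  refine av_mono fun p => av_mono fun q => ?_
  refine (Real.cosh_le_exp_half_sq _).trans (Real.exp_le_exp.2 ?_)
  have h9 := h p q
  have h10 : (g p - g q) ^ 2 ≤ c ^ 2 := by
    rw [← sq_abs]
    exact pow_le_pow_left₀ (abs_nonneg _) h9 2
  have h11 : (l * (g p - g q)) ^ 2 = l ^ 2 * (g p - g q) ^ 2 := by ring
  rw [h11]
  have := mul_le_mul_of_nonneg_left h10 (sq_nonneg l)
  linarith

end Pool.Agent.Work.MP_18db2a_co
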