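import Pool.Agent.Work.MP_18db2a_co.Basic

set_option autoImplicit false

/-!
# Lim (size S, Mathlib only): the sum of the failure probabilities is small

All four terms are at most `m ^ 4 * exp (- a m)` times a constant (`a = ε²/2048`, `m ≥ 1`), which tends to `0`
(`Real.tendsto_pow_mul_exp_neg_atTop_nhds_zero` composed with `m ↦ a m`), take `m` large also for the second claim.
-/

namespace Pool.Agent.Work.MP_18db2a_co

open Finset

theorem lim_small (ε : ℝ) (hε : 0 < ε) (hε1 : ε ≤ 1) : ∃ m₀ : ℕ, ∀ m : ℕ, m₀ ≤ m → 120 ≤ ε ^ 2 * (m : ℝ) ∧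
    (m : ℝ) ^ 2 * (2 * Real.exp (- ε ^ 2 * m / 64)) + (m : ℝ) ^ 2 * Real.exp (- ε ^ 2 * (m : ℝ) ^ 2 / 48) +
      3 * (m : ℝ) ^ 2 * (2 * Real.exp (- ε ^ 2 * m / 512)) +
      9 * (m : ℝ) ^ 4 * Real.exp (- ε ^ 2 * m / 2048) < 1 := by
  have ha : 0 < ε ^ 2 / 2048 := by positivity
  obtain ⟨a, hadef⟩ : ∃ a : ℝ, a = ε ^ 2 / 2048 := ⟨_, rfl⟩
  rw [← hadef] at ha
  have hlim : Filter.Tendsto (fun m : ℕ => (a * (m : ℝ)) ^ 4 * Real.exp (-(a * (m : ℝ))))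
      Filter.atTop (nhds 0) :=
    (Real.tendsto_pow_mul_exp_neg_atTop_nhds_zero 4).comp
      (Filter.Tendsto.const_mul_atTop ha tendsto_natCast_atTop_atTop)
  have hev := hlim.eventually (gt_mem_nhds (show (0 : ℝ) < a ^ 4 / 18 by positivity))
  obtain ⟨m₁, hm₁⟩ := Filter.eventually_atTop.1 hev
  obtain ⟨m₂, hm₂⟩ := exists_nat_gt (120 / ε ^ 2)
  refine ⟨max (max m₁ m₂) 1, fun m hm => ?_⟩
  have h1 : m₁ ≤ m := ((le_max_left _ _).trans (le_max_left _ _)).trans hm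
  have h2 : m₂ ≤ m := ((le_max_right _ _).trans (le_max_left _ _)).trans hm
  have h3 : 1 ≤ m := (le_max_right _ _).trans hm
  have h3' : (1 : ℝ) ≤ (m : ℝ) := by exact_mod_cast h3
  have h2' : (m₂ : ℝ) ≤ (m : ℝ) := by exact_mod_cast h2
  constructor
  · have h4 : 120 / ε ^ 2 < (m : ℝ) := hm₂.trans_le h2'
    rw [div_lt_iff₀ (by positivity)] at h4
    linarith
  · have h5 : (a * (m : ℝ)) ^ 4 * Real.exp (-(a * (m : ℝ))) < a ^ 4 / 18 := hm₁ m h1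
    set E := Real.exp (-(a * (m : ℝ))) with hE
    have hE0 : 0 < E := Real.exp_pos _
    have h6 : (m : ℝ) ^ 4 * E < 1 / 18 := by
      have h7 : a ^ 4 * ((m : ℝ) ^ 4 * E) < a ^ 4 * (1 / 18) := by
        calc a ^ 4 * ((m : ℝ) ^ 4 * E) = (a * (m : ℝ)) ^ 4 * E := by ring
          _ < a ^ 4 / 18 := h5
          _ = a ^ 4 * (1 / 18) := by ring
      exact lt_of_mul_lt_mul_left h7 (by positivity)
    have hm2 : (m : ℝ) ^ 2 ≤ (m : ℝ) ^ 4 := pow_le_pow_right₀ h3' (by norm_num)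
    have hm1 : (m : ℝ) ≤ (m : ℝ) ^ 2 := by nlinarith
    have hε2 : 0 < ε ^ 2 := by positivity
    have eA : Real.exp (- ε ^ 2 * m / 64) ≤ E := by
      refine Real.exp_le_exp.2 ?_
      rw [hadef]
      nlinarith [mul_pos hε2 (lt_of_lt_of_le one_pos h3')]
    have eB : Real.exp (- ε ^ 2 * (m : ℝ) ^ 2 / 48) ≤ E := by
      refine Real.exp_le_exp.2 ?_
      rw [hadef]
      have := mul_le_mul_of_nonneg_left hm1 hε2.le
      nlinarith [mul_pos hε2 (lt_of_lt_of_le one_pos h3')]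
    have eC : Real.exp (- ε ^ 2 * m / 512) ≤ E := by
      refine Real.exp_le_exp.2 ?_
      rw [hadef]
      nlinarith [mul_pos hε2 (lt_of_lt_of_le one_pos h3')]
    have eD : Real.exp (- ε ^ 2 * m / 2048) ≤ E := by
      refine Real.exp_le_exp.2 ?_
      rw [hadef]
      nlinarith [mul_pos hε2 (lt_of_lt_of_le one_pos h3')]
    have m2 : (0 : ℝ) ≤ (m : ℝ) ^ 2 := by positivity
    have m4 : (0 : ℝ) ≤ (m : ℝ) ^ 4 := by positivity
    have fA : (m : ℝ) ^ 2 * (2 * Real.exp (- ε ^ 2 * m / 64)) ≤ 2 * ((m : ℝ) ^ 4 * E) := by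
      calc (m : ℝ) ^ 2 * (2 * Real.exp (- ε ^ 2 * m / 64)) ≤ (m : ℝ) ^ 4 * (2 * E) :=
            mul_le_mul hm2 (by linarith) (by positivity) m4
        _ = 2 * ((m : ℝ) ^ 4 * E) := by ring
    have fB : (m : ℝ) ^ 2 * Real.exp (- ε ^ 2 * (m : ℝ) ^ 2 / 48) ≤ (m : ℝ) ^ 4 * E :=
      mul_le_mul hm2 eB (by positivity) m4
    have fC : 3 * (m : ℝ) ^ 2 * (2 * Real.exp (- ε ^ 2 * m / 512)) ≤ 6 * ((m : ℝ) ^ 4 * E) := by
      calc 3 * (m : ℝ) ^ 2 * (2 * Real.exp (- ε ^ 2 * m / 512)) ≤ 3 * (m : ℝ) ^ 4 * (2 * E) :=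
            mul_le_mul (by linarith) (by linarith) (by positivity) (by positivity)
        _ = 6 * ((m : ℝ) ^ 4 * E) := by ring
    have fD : 9 * (m : ℝ) ^ 4 * Real.exp (- ε ^ 2 * m / 2048) ≤ 9 * ((m : ℝ) ^ 4 * E) := by
      calc 9 * (m : ℝ) ^ 4 * Real.exp (- ε ^ 2 * m / 2048) ≤ 9 * (m : ℝ) ^ 4 * E :=
            mul_le_mul_of_nonneg_left eD (by positivity)
        _ = 9 * ((m : ℝ) ^ 4 * E) := by ring
    linarith

end Pool.Agent.Work.MP_18db2a_co
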