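import Pool.Agent.Work.MP_18db2a_co.CaseN
import Pool.Agent.Work.MP_18db2a_co.EMain
import Pool.Agent.Work.MP_18db2a_co.DInit
import Pool.Agent.Work.MP_18db2a_co.DEnd
import Pool.Agent.Work.MP_18db2a_co.DatC

set_option autoImplicit false

/-!
# Main (size S, driver): final theorem
-/

namespace Pool.Agent.Work.MP_18db2a_co

open Finset

theorem sol_exists : ∃ m₀ : ℕ, ∀ (V I : Type) [Fintype V] [DecidableEq V] [Fintype I] [DecidableEq I]
    (T : I → Finset V) (δ : ℕ), m₀ ≤ Fintype.card V → Dat T δ → ∃ F : I → V → V → Prop, Sol T δ F := by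
  obtain ⟨m₁, h1⟩ := caseN
  obtain ⟨m₂, h2⟩ := caseE_sol
  refine ⟨max m₁ m₂, ?_⟩
  intro V I _ _ _ _ T δ hm hD
  by_cases hE : CaseE T
  · exact h2 V I T δ (le_trans (le_max_right _ _) hm) hD hE
  · exact h1 V I T δ (le_trans (le_max_left _ _) hm) hD hE

theorem main : ∃ m₀ : ℕ, ∀ m : ℕ, m₀ ≤ m → ∀ n : ℕ, (hn : IsLeast {p : ℕ | 2 * m < p ∧ 3 ∣ p} n) →
    ∀ c : Finset (Fin m) → Fin ((n - 1).choose 2), Proper3 c →
      ∃ c' : Finset (Fin n) → Fin ((n - 1).choose 2), Proper3 c' ∧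
        ∀ e : Finset (Fin m), e.card = 3 →
          c' (e.map (Fin.castLEEmb (show m ≤ n by have := hn.1.1; omega))) = c e := by
  obtain ⟨m₀, h0⟩ := sol_exists
  refine ⟨max m₀ 3, ?_⟩
  intro m hm n hn c hc
  have hm0 : m₀ ≤ m := le_trans (le_max_left _ _) hm
  have hm3 : 3 ≤ m := le_trans (le_max_right _ _) hm
  obtain ⟨⟨h2m, h3n⟩, hmin⟩ := hn
  have hup : n ≤ 2 * m + 3 := by
    by_contra hlt
    push Not at hlt
    have : 2 * m < n - 3 ∧ 3 ∣ n - 3 := by
      constructor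
      · omega
      · omega
    have := hmin this
    omega
  obtain ⟨δ, rfl⟩ : ∃ δ, n = m + δ := ⟨n - m, by omega⟩
  have hD : Dat (cov3 c) δ := by
    apply dat_of_proper δ _ _ _ _ c hc
    · rw [Fintype.card_fin]
      omega
    · rw [Fintype.card_fin]
      omega
    · rw [Fintype.card_fin]
      exact h3n
    · rw [Fintype.card_fin, Fintype.card_fin]
  obtain ⟨F, hF⟩ := h0 (Fin m) (Fin ((m + δ - 1).choose 2)) (cov3 c) δ (by rw [Fintype.card_fin]; exact hm0) hD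
  obtain ⟨π, hπ, hπ3⟩ := st_init m δ (by omega) c hc hD F hF
  obtain ⟨π', hπ', hsub⟩ := st_iter (m + δ) (by rw [Fintype.card_fin]) h3n m (by omega) π hπ
  have hpos : 0 < (m + δ - 1).choose 2 := Nat.choose_pos (by omega)
  obtain ⟨c', hc', hval⟩ := st_end (m + δ) (⟨0, hpos⟩ : Fin ((m + δ - 1).choose 2)) π' hπ'
  refine ⟨c', hc', fun e he => ?_⟩
  apply hval _ (by rw [Finset.card_map]; exact he)
  have h1 := hsub (c e) _ (hπ3 e he) (by rw [Finset.card_map]; exact he)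
  rw [Finset.map_map]
  have h2 : (Fin.castLEEmb (show m ≤ m + δ by omega)).trans Fin.valEmbedding = Fin.valEmbedding := by
    ext x
    rfl
  rw [h2]
  exact h1

end Pool.Agent.Work.MP_18db2a_co
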