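import Pool.Agent.Work.MP_18db2a_co.Hoef

set_option autoImplicit false

/-!
# Maur (size M, uses the statement of Hoef): Maurey's inequality for random permutations

`maurey`: induction on `n`.  `n = 0`: `Perm (Fin 0)` has one element, both sides are `1`.  Step `n → n + 1`: use
`Equiv.Perm.decomposeFin : Perm (Fin (n+1)) ≃ Fin (n+1) × Perm (Fin n)`; `σ = decomposeFin.symm (p, e)` is
`swap 0 p * e'` where `e'` fixes `0` and acts as `e` on the successors (`Equiv.Perm.decomposeFin_symm_of_refl`, `...symm_apply_zero`,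
`...symm_apply_succ`; check by `Equiv.ext` and `Fin.cases`).  Put `F p e = f (decomposeFin.symm (p, e))` and `g p = av (F p)`; then
`av f = av g` (`av_equiv`, `av_prod`).
* For fixed `p` the function `F p` on `Perm (Fin n)` satisfies the hypothesis with the same `c`, because
  `decomposeFin.symm (p, e * swap i j) = decomposeFin.symm (p, e) * swap i.succ j.succ`.  The induction hypothesis gives
  `av_e exp (l (F p e - g p)) ≤ exp (2 n l² c²)`.
* `|F p e - F q e| ≤ 2 c`: with `σ = decomposeFin.symm (p, e)`, `σ' = decomposeFin.symm (q, e)` we have `σ' = (swap 0 q * swap 0 p) * σ`, and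
  `τ * σ = σ * (σ⁻¹ * τ * σ)`; a conjugate of `swap x y` by `σ⁻¹` is `swap (σ⁻¹ x) (σ⁻¹ y)`, so `σ'` arises from `σ` by multiplying twice
  on the right with a transposition.  Hence `|g p - g q| ≤ 2 c`, and `av_exp_le` gives `av_p exp (l (g p - av g)) ≤ exp (l² (2c)² / 2) = exp (2 l² c²)`.
Multiply: `av_p av_e exp (l (F p e - av g)) = av_p [exp (l (g p - av g)) * av_e exp (l (F p e - g p))] ≤ exp (2 n l² c²) exp (2 l² c²)`.

`maurey_tail`: put `l = t / (4 N c²)`.  `pr (t ≤ f σ - av f) ≤ av exp (l (f σ - av f) - l t)` (`pr_le_av`), which is at most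
`exp (- l t + 2 n l² c²) ≤ exp (- t²/(4 N c²) + t²/(8 N c²))`.  The other tail: apply this to `- f`.
-/

namespace Pool.Agent.Work.MP_18db2a_co

open Finset

private theorem maur_sw {n : ℕ} (p : Fin (n + 1)) (e : Equiv.Perm (Fin n)) (i j : Fin n) :
    Equiv.Perm.decomposeFin.symm (p, e * Equiv.swap i j) =
      Equiv.Perm.decomposeFin.symm (p, e) * Equiv.swap i.succ j.succ := by
  apply Equiv.ext
  intro x
  refine Fin.cases ?_ (fun y => ?_) x
  · rw [Equiv.Perm.decomposeFin_symm_apply_zero, Equiv.Perm.mul_apply,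
      Equiv.swap_apply_of_ne_of_ne (Fin.succ_ne_zero i).symm (Fin.succ_ne_zero j).symm,
      Equiv.Perm.decomposeFin_symm_apply_zero]
  · rw [Equiv.Perm.decomposeFin_symm_apply_succ, Equiv.Perm.mul_apply, Equiv.Perm.mul_apply,
      (Fin.succ_injective n).swap_apply, Equiv.Perm.decomposeFin_symm_apply_succ]

private theorem maur_zero {n : ℕ} (p : Fin (n + 1)) (e : Equiv.Perm (Fin n)) :
    Equiv.Perm.decomposeFin.symm (p, e) =
      Equiv.swap 0 p * Equiv.Perm.decomposeFin.symm (0, e) := by
  apply Equiv.ext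
  intro x
  refine Fin.cases ?_ (fun y => ?_) x
  · rw [Equiv.Perm.decomposeFin_symm_apply_zero, Equiv.Perm.mul_apply,
      Equiv.Perm.decomposeFin_symm_apply_zero, Equiv.swap_apply_left]
  · rw [Equiv.Perm.decomposeFin_symm_apply_succ, Equiv.Perm.mul_apply,
      Equiv.Perm.decomposeFin_symm_apply_succ, Equiv.swap_self]
    rfl

theorem maurey (n : ℕ) (f : Equiv.Perm (Fin n) → ℝ) (c : ℝ) (hc : 0 ≤ c)
    (h : ∀ σ i j, |f (σ * Equiv.swap i j) - f σ| ≤ c) (l : ℝ) :
    av (fun σ => Real.exp (l * (f σ - av f))) ≤ Real.exp (2 * n * l ^ 2 * c ^ 2) := by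
  induction n with
  | zero =>
    have h1 : ∀ σ, f σ = av f := by
      intro σ
      have h2 : f = fun _ => f σ := funext fun τ => congrArg f (Subsingleton.elim _ _)
      rw [h2, av_const]
    have h3 : (fun σ => Real.exp (l * (f σ - av f))) = fun _ => 1 := by
      funext σ
      rw [← h1 σ, sub_self, mul_zero, Real.exp_zero]
    rw [h3, av_const]
    simp
  | succ n ih =>
    set D : Fin (n + 1) × Equiv.Perm (Fin n) ≃ Equiv.Perm (Fin (n + 1)) :=
      Equiv.Perm.decomposeFin.symm with hD
    let F : Fin (n + 1) → Equiv.Perm (Fin n) → ℝ := fun p e => f (D (p, e))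
    let g : Fin (n + 1) → ℝ := fun p => av (F p)
    have hav : av f = av g := by
      rw [← av_equiv D f]
      exact av_prod F
    have hpq : ∀ p q e, |F p e - F q e| ≤ 2 * c := by
      intro p q e
      have h0 : ∀ p, |F p e - F 0 e| ≤ c := by
        intro p
        have h1 : D (p, e) = D (0, e) * Equiv.swap ((D (0, e))⁻¹ 0) ((D (0, e))⁻¹ p) := by
          rw [hD, maur_zero, Equiv.swap_mul_eq_mul_swap]
        show |f (D (p, e)) - f (D (0, e))| ≤ c
        rw [h1]
        exact h _ _ _
      have h1 := abs_le.1 (h0 p)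
      have h2 := abs_le.1 (h0 q)
      rw [abs_le]
      constructor <;> linarith
    have hg : ∀ p q, |g p - g q| ≤ 2 * c := by
      intro p q
      have h1 : g p - g q = av fun e => F p e - F q e := (av_sub _ _).symm
      rw [h1, abs_le]
      constructor
      · rw [← av_const (Ω := Equiv.Perm (Fin n)) (-(2 * c))]
        exact av_mono fun e => (abs_le.1 (hpq p q e)).1
      · rw [← av_const (Ω := Equiv.Perm (Fin n)) (2 * c)]
        exact av_mono fun e => (abs_le.1 (hpq p q e)).2
    have hF : ∀ p, av (fun e => Real.exp (l * (F p e - g p))) ≤ Real.exp (2 * n * l ^ 2 * c ^ 2) := by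
      intro p
      refine ih (F p) fun σ i j => ?_
      show |f (D (p, σ * Equiv.swap i j)) - f (D (p, σ))| ≤ c
      rw [hD, maur_sw]
      exact h _ _ _
    have h1 : av (fun σ => Real.exp (l * (f σ - av f))) =
        av fun p => av fun e => Real.exp (l * (F p e - av g)) := by
      rw [← av_equiv D, hav]
      exact av_prod fun p e => Real.exp (l * (F p e - av g))
    rw [h1]
    have h2 : ∀ p, av (fun e => Real.exp (l * (F p e - av g))) ≤
        Real.exp (2 * n * l ^ 2 * c ^ 2) * Real.exp (l * (g p - av g)) := by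
      intro p
      have h3 : (fun e => Real.exp (l * (F p e - av g))) =
          fun e => Real.exp (l * (g p - av g)) * Real.exp (l * (F p e - g p)) := by
        funext e
        rw [← Real.exp_add]
        congr 1
        ring
      rw [h3, av_mul_left, mul_comm]
      exact mul_le_mul_of_nonneg_right (hF p) (Real.exp_pos _).le
    refine (av_mono h2).trans ?_
    rw [av_mul_left]
    have h4 := av_exp_le g (2 * c) hg l
    refine (mul_le_mul_of_nonneg_left h4 (Real.exp_pos _).le).trans ?_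
    rw [← Real.exp_add]
    apply le_of_eq
    congr 1
    push_cast
    ring

private theorem maur_up (n : ℕ) (f : Equiv.Perm (Fin n) → ℝ) (c : ℝ) (hc : 0 < c)
    (h : ∀ σ i j, |f (σ * Equiv.swap i j) - f σ| ≤ c) (N : ℝ) (hN : 0 < N) (hn : (n : ℝ) ≤ N)
    (t : ℝ) (ht : 0 ≤ t) :
    pr (fun σ => t ≤ f σ - av f) ≤ Real.exp (- t ^ 2 / (8 * N * c ^ 2)) := by
  set l : ℝ := t / (4 * N * c ^ 2) with hl
  have hl0 : 0 ≤ l := by positivity
  refine (pr_le_av (f := fun σ => Real.exp (-(l * t)) * Real.exp (l * (f σ - av f)))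
    (fun σ => by positivity) fun σ hσ => ?_).trans ?_
  · rw [← Real.exp_add]
    apply Real.one_le_exp
    have := mul_le_mul_of_nonneg_left hσ hl0
    linarith
  · rw [av_mul_left]
    refine (mul_le_mul_of_nonneg_left (maurey n f c hc.le h l) (Real.exp_pos _).le).trans ?_
    rw [← Real.exp_add]
    apply Real.exp_le_exp.2
    have h1 : 2 * (n : ℝ) * l ^ 2 * c ^ 2 ≤ 2 * N * l ^ 2 * c ^ 2 := by
      have : 0 ≤ l ^ 2 * c ^ 2 := by positivity
      nlinarith
    have h2 : -(l * t) + 2 * N * l ^ 2 * c ^ 2 = - t ^ 2 / (8 * N * c ^ 2) := by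
      rw [hl]
      field_simp
      ring
    linarith

theorem maurey_tail (n : ℕ) (f : Equiv.Perm (Fin n) → ℝ) (c : ℝ) (hc : 0 < c)
    (h : ∀ σ i j, |f (σ * Equiv.swap i j) - f σ| ≤ c) (N : ℝ) (hN : 0 < N) (hn : (n : ℝ) ≤ N)
    (t : ℝ) (ht : 0 ≤ t) :
    pr (fun σ => t ≤ f σ - av f) ≤ Real.exp (- t ^ 2 / (8 * N * c ^ 2)) ∧
      pr (fun σ => f σ - av f ≤ - t) ≤ Real.exp (- t ^ 2 / (8 * N * c ^ 2)) := by
  refine ⟨maur_up n f c hc h N hN hn t ht, ?_⟩
  have h1 := maur_up n (fun σ => -1 * f σ) c hc (fun σ i j => by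
    have h2 := h σ i j
    rw [← abs_neg] at h2
    have e : -1 * f (σ * Equiv.swap i j) - -1 * f σ = -(f (σ * Equiv.swap i j) - f σ) := by ring
    rw [e]
    exact h2) N hN hn t ht
  rw [av_mul_left] at h1
  refine le_trans (pr_mono fun σ hσ => ?_) h1
  linarith

end Pool.Agent.Work.MP_18db2a_co
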