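import Pool.Agent.Work.MP_18db2a_co.PermPr

set_option autoImplicit false

/-!
# RmMarg (size M, uses the statement of PermPr): probabilities of one and of two pairs

Let `C = u (u-1) / 2`, `y = y a b ≤ (u-1)/2`, `0 ≤ s < 1`.  The event `rm y s σ a b` is the disjoint union over the `j : ℕ` with
`j + s < y` (they satisfy `2 j + 1 < u`) and the two orders of the events `{σ a, σ b} = {2 j, 2 j + 1}`, each of probability
`1 / (u (u-1))`.  So `pr (rm y s · a b) = ⌈y - s⌉₊ / C` (`rm_pr`, `Nat.lt_ceil`).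
`rm_marg`: `⌈y - s⌉₊ ∈ [y - 1, y + 1]`.
`rm_marg_av`: the pairs `(j, r)`, `r : Fin Q`, with `j + r/Q < y` correspond to the `n = j Q + r` with `n < Q y`; so
`∑ r, ⌈y - r/Q⌉₊ = ⌈Q y⌉₊ ∈ [Q y, Q y + 1]`, divide by `Q C`, `C ≥ 1`.
`rm_pair`: let `N₁ = ⌈y₁ - s⌉₊`, `N₂ = ⌈y₂ - s⌉₊` (`y₁ = y a c`, `y₂ = y b d`).  For every ordered pair `(j₁, j₂)`, `j₁ ≠ j₂`, `j₁ < N₁`, `j₂ < N₂` and the four
orders the event `{σ a, σ c} = {2 j₁, 2 j₁ + 1}`, `{σ b, σ d} = {2 j₂, 2 j₂ + 1}` has probability `1/(u(u-1)(u-2)(u-3))`; these events are disjoint.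
There are at least `N₁ (N₂ - 1)` pairs (`j₁, j₂`) (if `N₂ ≥ 1`; all factors are `≥ 0`), so the probability is at least
`N₁ (N₂ - 1)^+ * 4 / (u(u-1)(u-2)(u-3)) ≥ N₁ (N₂ - 1)^+ / C²` (for `u ≥ 4`, which holds as `a, b, c, d` are distinct).
And `N₁ (N₂ - 1)^+ ≥ y₁ y₂ - 2 y₁ - y₂`: if `y₂ < 2` the right side is `y₁ (y₂ - 2) - y₂ ≤ 0`; if `y₂ ≥ 2` and `y₁ < 1` it is `≤ (y₂ - 2) - y₂ < 0`;
otherwise `N₁ ≥ y₁ - 1 ≥ 0`, `N₂ - 1 ≥ y₂ - 2 ≥ 0` and `(y₁ - 1)(y₂ - 2) = y₁ y₂ - 2 y₁ - y₂ + 2`.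
-/

namespace Pool.Agent.Work.MP_18db2a_co

open Finset

variable {u : ℕ}

private theorem pr_exists_eq {Ω A : Type} [Fintype Ω] (s : Finset A) (E : A → Ω → Prop)
    (hd : ∀ j ∈ s, ∀ j' ∈ s, ∀ ω, E j ω → E j' ω → j = j') :
    pr (fun ω => ∃ j ∈ s, E j ω) = ∑ j ∈ s, pr (E j) := by
  classical
  have h1 : ∀ j, pr (E j) = av fun x => if E j x then (1 : ℝ) else 0 := fun j => pr_eq_av (E j)
  rw [pr_eq_av, Finset.sum_congr rfl (fun j _ => h1 j), ← av_sum]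
  refine congrArg av (funext fun ω => ?_)
  by_cases h : ∃ j ∈ s, E j ω
  · rw [if_pos h]
    obtain ⟨j, hj, hE⟩ := h
    rw [Finset.sum_eq_single j, if_pos hE]
    · intro j' hj' hne
      rw [if_neg]
      intro h'
      exact hne (hd j' hj' j hj ω h' hE)
    · intro h
      exact absurd hj h
  · rw [if_neg h, Finset.sum_eq_zero]
    intro j hj
    rw [if_neg]
    exact fun hE => h ⟨j, hj, hE⟩

private theorem lt_ceil_iff (y s : ℝ) (j : ℕ) : j < ⌈y - s⌉₊ ↔ (j : ℝ) + s < y := by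
  rw [Nat.lt_ceil]
  constructor <;> intro h <;> linarith

private theorem two_lt {y s : ℝ} (hs : 0 ≤ s) (h1 : y ≤ ((u : ℝ) - 1) / 2) {j : ℕ}
    (hj : j < ⌈y - s⌉₊) : 2 * j + 1 < u := by
  rw [lt_ceil_iff] at hj
  have h2 : (2 : ℝ) * j + 1 < u := by linarith
  exact_mod_cast h2

private theorem val_iff {n : ℕ} (hn : n < u) (x : Fin u) : (x : ℕ) = n ↔ x = ⟨n, hn⟩ := by
  constructor
  · intro h
    exact Fin.ext h
  · intro h
    rw [h]

private theorem pr2 (a b : Fin u) (hab : a ≠ b) {m n : ℕ} (hm : m < u) (hn : n < u) (hmn : m ≠ n) :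
    pr (fun σ : Equiv.Perm (Fin u) => (σ a : ℕ) = m ∧ (σ b : ℕ) = n) =
      1 / ((u : ℝ) * ((u : ℝ) - 1)) := by
  rw [← pr_perm2 a b ⟨m, hm⟩ ⟨n, hn⟩ hab (fun h => hmn (congrArg Fin.val h))]
  exact pr_congr fun σ => by rw [val_iff hm, val_iff hn]

private theorem pr4 (a b c d : Fin u) (h1 : a ≠ b) (h2 : a ≠ c) (h3 : a ≠ d) (h4 : b ≠ c) (h5 : b ≠ d)
    (h6 : c ≠ d) {m n p q : ℕ} (hm : m < u) (hn : n < u) (hp : p < u) (hq : q < u) (k1 : m ≠ n)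
    (k2 : m ≠ p) (k3 : m ≠ q) (k4 : n ≠ p) (k5 : n ≠ q) (k6 : p ≠ q) :
    pr (fun σ : Equiv.Perm (Fin u) => (σ a : ℕ) = m ∧ (σ b : ℕ) = n ∧ (σ c : ℕ) = p ∧ (σ d : ℕ) = q) =
      1 / ((u : ℝ) * ((u : ℝ) - 1) * ((u : ℝ) - 2) * ((u : ℝ) - 3)) := by
  have key : ∀ {i j : ℕ} (hi : i < u) (hj : j < u), i ≠ j → (⟨i, hi⟩ : Fin u) ≠ ⟨j, hj⟩ :=
    fun hi hj hij h => hij (congrArg Fin.val h)
  rw [← pr_perm4 a b c d ⟨m, hm⟩ ⟨n, hn⟩ ⟨p, hp⟩ ⟨q, hq⟩ h1 h2 h3 h4 h5 h6 (key hm hn k1)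
    (key hm hp k2) (key hm hq k3) (key hn hp k4) (key hn hq k5) (key hp hq k6)]
  exact pr_congr fun σ => by rw [val_iff hm, val_iff hn, val_iff hp, val_iff hq]

/-- the two orders of the pair `2 j`, `2 j + 1` -/
private def pos1 (j : ℕ) (o : Bool) : ℕ := if o then 2 * j else 2 * j + 1

private def pos2 (j : ℕ) (o : Bool) : ℕ := if o then 2 * j + 1 else 2 * j

private theorem pos_cases (j : ℕ) (o : Bool) :
    (pos1 j o = 2 * j ∧ pos2 j o = 2 * j + 1 ∧ o = true) ∨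
      (pos1 j o = 2 * j + 1 ∧ pos2 j o = 2 * j ∧ o = false) := by
  cases o
  · exact Or.inr ⟨rfl, rfl, rfl⟩
  · exact Or.inl ⟨rfl, rfl, rfl⟩

private theorem pos_inj {j j' : ℕ} {o o' : Bool} (h : pos1 j o = pos1 j' o') : j = j' ∧ o = o' := by
  rcases pos_cases j o with ⟨h1, h2, h3⟩ | ⟨h1, h2, h3⟩ <;>
  rcases pos_cases j' o' with ⟨k1, k2, k3⟩ | ⟨k1, k2, k3⟩ <;> rw [h1, k1] at h
  · exact ⟨by omega, by rw [h3, k3]⟩
  · omega
  · omega
  · exact ⟨by omega, by rw [h3, k3]⟩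

private theorem rm_iff (y : Fin u → Fin u → ℝ) (s : ℝ) (σ : Equiv.Perm (Fin u)) (a b : Fin u) :
    rm y s σ a b ↔ ∃ x ∈ (range ⌈y a b - s⌉₊ ×ˢ (univ : Finset Bool)),
      (σ a : ℕ) = pos1 x.1 x.2 ∧ (σ b : ℕ) = pos2 x.1 x.2 := by
  unfold rm
  constructor
  · rintro ⟨j, hj, h | h⟩
    · refine ⟨(j, true), ?_, h.1, h.2⟩
      rw [Finset.mem_product, Finset.mem_range, lt_ceil_iff]
      exact ⟨hj, mem_univ _⟩
    · refine ⟨(j, false), ?_, h.1, h.2⟩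
      rw [Finset.mem_product, Finset.mem_range, lt_ceil_iff]
      exact ⟨hj, mem_univ _⟩
  · rintro ⟨⟨j, o⟩, hx, h1, h2⟩
    rw [Finset.mem_product, Finset.mem_range, lt_ceil_iff] at hx
    refine ⟨j, hx.1, ?_⟩
    rcases pos_cases j o with ⟨e1, e2, _⟩ | ⟨e1, e2, _⟩
    · exact Or.inl ⟨h1.trans e1, h2.trans e2⟩
    · exact Or.inr ⟨h1.trans e1, h2.trans e2⟩

theorem rm_pr (y : Fin u → Fin u → ℝ) (s : ℝ) (hs : 0 ≤ s) (a b : Fin u) (hab : a ≠ b)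
    (h1 : y a b ≤ ((u : ℝ) - 1) / 2) :
    pr (fun σ => rm y s σ a b) = (⌈y a b - s⌉₊ : ℝ) / ((u : ℝ) * ((u : ℝ) - 1) / 2) := by
  rw [pr_congr fun σ => rm_iff y s σ a b, pr_exists_eq]
  · have h2 : ∀ x ∈ (range ⌈y a b - s⌉₊ ×ˢ (univ : Finset Bool)),
        pr (fun σ : Equiv.Perm (Fin u) => (σ a : ℕ) = pos1 x.1 x.2 ∧ (σ b : ℕ) = pos2 x.1 x.2) =
          1 / ((u : ℝ) * ((u : ℝ) - 1)) := by
      intro x hx
      rw [Finset.mem_product, Finset.mem_range] at hx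
      have h3 := two_lt hs h1 hx.1
      refine pr2 a b hab ?_ ?_ ?_ <;>
      rcases pos_cases x.1 x.2 with ⟨e1, e2, _⟩ | ⟨e1, e2, _⟩ <;> omega
    rw [Finset.sum_congr rfl h2, Finset.sum_const, Finset.card_product, Finset.card_range,
      nsmul_eq_mul]
    have h4 : (univ : Finset Bool).card = 2 := rfl
    rw [h4]
    push_cast
    rw [div_div_eq_mul_div]
    ring
  · intro x _ x' _ σ e e'
    have h3 : pos1 x.1 x.2 = pos1 x'.1 x'.2 := e.1.symm.trans e'.1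
    obtain ⟨h4, h5⟩ := pos_inj h3
    exact Prod.ext h4 h5

private theorem C_pos (a b : Fin u) (hab : a ≠ b) : 1 ≤ (u : ℝ) * ((u : ℝ) - 1) / 2 := by
  have h0 : 2 ≤ u := by
    have h1 : (a : ℕ) ≠ b := fun h => hab (Fin.ext h)
    have := a.2
    have := b.2
    omega
  have h2 : (2 : ℝ) ≤ u := by exact_mod_cast h0
  nlinarith

theorem rm_marg (y : Fin u → Fin u → ℝ) (s : ℝ) (hs : 0 ≤ s) (hs1 : s < 1) (a b : Fin u) (hab : a ≠ b)
    (h0 : 0 ≤ y a b) (h1 : y a b ≤ ((u : ℝ) - 1) / 2) :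
    (y a b - 1) / ((u : ℝ) * ((u : ℝ) - 1) / 2) ≤ pr (fun σ => rm y s σ a b) ∧
      pr (fun σ => rm y s σ a b) ≤ (y a b + 1) / ((u : ℝ) * ((u : ℝ) - 1) / 2) := by
  have hC := C_pos a b hab
  have hC0 : 0 ≤ (u : ℝ) * ((u : ℝ) - 1) / 2 := by linarith
  rw [rm_pr y s hs a b hab h1]
  constructor
  · refine div_le_div_of_nonneg_right ?_ hC0
    have := Nat.le_ceil (y a b - s)
    linarith
  · refine div_le_div_of_nonneg_right ?_ hC0
    rcases le_total 0 (y a b - s) with h | h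
    · have := Nat.ceil_lt_add_one h
      linarith
    · rw [Nat.ceil_eq_zero.2 h]
      push_cast
      linarith

private theorem sum_ceil (y : ℝ) (Q : ℕ) (hQ : 0 < Q) :
    ∑ r : Fin Q, ⌈y - (r : ℝ) / Q⌉₊ = ⌈(Q : ℝ) * y⌉₊ := by
  have hQ' : (0 : ℝ) < Q := by exact_mod_cast hQ
  have h1 : (range ⌈(Q : ℝ) * y⌉₊).card = ∑ r : Fin Q,
      ((range ⌈(Q : ℝ) * y⌉₊).filter fun n => (⟨n % Q, Nat.mod_lt n hQ⟩ : Fin Q) = r).card :=
    Finset.card_eq_sum_card_fiberwise fun n _ => mem_univ _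
  rw [Finset.card_range] at h1
  rw [h1]
  refine Finset.sum_congr rfl fun r _ => ?_
  rw [← Finset.card_range ⌈y - (r : ℝ) / Q⌉₊]
  refine Finset.card_bij (fun j _ => j * Q + (r : ℕ)) ?_ ?_ ?_
  · intro j hj
    rw [Finset.mem_range, lt_ceil_iff] at hj
    rw [Finset.mem_filter, Finset.mem_range, Nat.lt_ceil]
    constructor
    · push_cast
      have h2 : ((j : ℝ) + (r : ℝ) / Q) * Q < y * Q := mul_lt_mul_of_pos_right hj hQ'
      have h3 : ((j : ℝ) + (r : ℝ) / Q) * Q = j * Q + r := by field_simp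
      linarith
    · apply Fin.ext
      show (j * Q + (r : ℕ)) % Q = r
      rw [Nat.mul_add_mod', Nat.mod_eq_of_lt r.2]
  · intro j _ j' _ h
    have h2 : j * Q = j' * Q := by omega
    exact Nat.eq_of_mul_eq_mul_right hQ h2
  · intro n hn
    rw [Finset.mem_filter, Finset.mem_range, Nat.lt_ceil] at hn
    have h2 : n % Q = r := congrArg Fin.val hn.2
    refine ⟨n / Q, ?_, ?_⟩
    · rw [Finset.mem_range, lt_ceil_iff]
      have h3 : (n : ℝ) = (n / Q : ℕ) * (Q : ℝ) + (r : ℝ) := by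
        have h4 := Nat.div_add_mod n Q
        rw [h2] at h4
        have h5 : ((Q * (n / Q) + (r : ℕ) : ℕ) : ℝ) = n := by rw [h4]
        push_cast at h5
        linarith
      have h4 : ((n / Q : ℕ) : ℝ) + (r : ℝ) / Q = n / Q := by
        rw [h3]
        field_simp
      rw [h4, div_lt_iff₀ hQ']
      linarith [hn.1]
    · show n / Q * Q + (r : ℕ) = n
      rw [← h2]
      exact Nat.div_add_mod' n Q

theorem rm_marg_av (y : Fin u → Fin u → ℝ) (Q : ℕ) (hQ : 0 < Q) (a b : Fin u) (hab : a ≠ b)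
    (h0 : 0 ≤ y a b) (h1 : y a b ≤ ((u : ℝ) - 1) / 2) :
    y a b / ((u : ℝ) * ((u : ℝ) - 1) / 2) ≤ av (fun r : Fin Q => pr (fun σ => rm y ((r : ℝ) / Q) σ a b)) ∧
      av (fun r : Fin Q => pr (fun σ => rm y ((r : ℝ) / Q) σ a b)) ≤
        y a b / ((u : ℝ) * ((u : ℝ) - 1) / 2) + 1 / Q := by
  have hC := C_pos a b hab
  set C : ℝ := (u : ℝ) * ((u : ℝ) - 1) / 2 with hCdef
  have hC0 : 0 < C := by linarith
  have hQ' : (0 : ℝ) < Q := by exact_mod_cast hQ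
  have h2 : av (fun r : Fin Q => pr (fun σ => rm y ((r : ℝ) / Q) σ a b)) =
      (⌈(Q : ℝ) * y a b⌉₊ : ℝ) / (C * Q) := by
    unfold av
    have h3 : ∀ r ∈ (univ : Finset (Fin Q)), pr (fun σ => rm y ((r : ℝ) / Q) σ a b) =
        (⌈y a b - (r : ℝ) / Q⌉₊ : ℝ) / C := fun r _ =>
      rm_pr y _ (div_nonneg (Nat.cast_nonneg _) hQ'.le) a b hab h1
    rw [Finset.sum_congr rfl h3, ← Finset.sum_div, Fintype.card_fin, div_div]
    congr 1
    rw [← sum_ceil (y a b) Q hQ]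
    push_cast
    rfl
  rw [h2]
  constructor
  · rw [div_le_div_iff₀ hC0 (mul_pos hC0 hQ')]
    have h3 := Nat.le_ceil ((Q : ℝ) * y a b)
    nlinarith
  · have h3 := Nat.ceil_lt_add_one (mul_nonneg hQ'.le h0)
    have h4 : (⌈(Q : ℝ) * y a b⌉₊ : ℝ) / (C * Q) ≤ ((Q : ℝ) * y a b + 1) / (C * Q) :=
      div_le_div_of_nonneg_right h3.le (mul_pos hC0 hQ').le
    have h5 : ((Q : ℝ) * y a b + 1) / (C * Q) = y a b / C + 1 / (C * Q) := by
      field_simp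
    have h6 : 1 / (C * Q) ≤ 1 / (Q : ℝ) := by
      apply one_div_le_one_div_of_le hQ'
      nlinarith
    linarith

theorem rm_pair (y : Fin u → Fin u → ℝ) (s : ℝ) (hs : 0 ≤ s) (hs1 : s < 1) (a b c d : Fin u)
    (h1 : a ≠ b) (h2 : a ≠ c) (h3 : a ≠ d) (h4 : b ≠ c) (h5 : b ≠ d) (h6 : c ≠ d)
    (k0 : 0 ≤ y a c) (k1 : y a c ≤ ((u : ℝ) - 1) / 2) (k2 : 0 ≤ y b d) (k3 : y b d ≤ ((u : ℝ) - 1) / 2) :
    (y a c * y b d - 2 * y a c - y b d) / ((u : ℝ) * ((u : ℝ) - 1) / 2) ^ 2 ≤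
      pr (fun σ => rm y s σ a c ∧ rm y s σ b d) := by
  classical
  have hu4 : 4 ≤ u := by
    have e1 : (a : ℕ) ≠ b := fun h => h1 (Fin.ext h)
    have e2 : (a : ℕ) ≠ c := fun h => h2 (Fin.ext h)
    have e3 : (a : ℕ) ≠ d := fun h => h3 (Fin.ext h)
    have e4 : (b : ℕ) ≠ c := fun h => h4 (Fin.ext h)
    have e5 : (b : ℕ) ≠ d := fun h => h5 (Fin.ext h)
    have e6 : (c : ℕ) ≠ d := fun h => h6 (Fin.ext h)
    have := a.2
    have := b.2
    have := c.2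
    have := d.2
    omega
  have hu : (4 : ℝ) ≤ u := by exact_mod_cast hu4
  set N1 := ⌈y a c - s⌉₊ with hN1
  set N2 := ⌈y b d - s⌉₊ with hN2
  set S : Finset ((ℕ × Bool) × (ℕ × Bool)) :=
    ((range N1 ×ˢ (univ : Finset Bool)) ×ˢ (range N2 ×ˢ (univ : Finset Bool))).filter
      fun x => x.1.1 ≠ x.2.1 with hS
  have hlow : pr (fun σ : Equiv.Perm (Fin u) => ∃ x ∈ S, (σ a : ℕ) = pos1 x.1.1 x.1.2 ∧
      (σ b : ℕ) = pos1 x.2.1 x.2.2 ∧ (σ c : ℕ) = pos2 x.1.1 x.1.2 ∧ (σ d : ℕ) = pos2 x.2.1 x.2.2) ≤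
      pr (fun σ => rm y s σ a c ∧ rm y s σ b d) := by
    refine pr_mono fun σ hσ => ?_
    obtain ⟨x, hx, g1, g2, g3, g4⟩ := hσ
    rw [hS, Finset.mem_filter, Finset.mem_product] at hx
    exact ⟨(rm_iff y s σ a c).2 ⟨x.1, hx.1.1, g1, g3⟩, (rm_iff y s σ b d).2 ⟨x.2, hx.1.2, g2, g4⟩⟩
  refine le_trans ?_ hlow
  rw [pr_exists_eq]
  · have hp : ∀ x ∈ S, pr (fun σ : Equiv.Perm (Fin u) => (σ a : ℕ) = pos1 x.1.1 x.1.2 ∧
        (σ b : ℕ) = pos1 x.2.1 x.2.2 ∧ (σ c : ℕ) = pos2 x.1.1 x.1.2 ∧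
          (σ d : ℕ) = pos2 x.2.1 x.2.2) =
        1 / ((u : ℝ) * ((u : ℝ) - 1) * ((u : ℝ) - 2) * ((u : ℝ) - 3)) := by
      intro x hx
      rw [hS, Finset.mem_filter, Finset.mem_product, Finset.mem_product, Finset.mem_product,
        Finset.mem_range, Finset.mem_range] at hx
      obtain ⟨⟨⟨g1, _⟩, g2, _⟩, g3⟩ := hx
      have g4 := two_lt hs k1 g1
      have g5 := two_lt hs k3 g2
      refine pr4 a b c d h1 h2 h3 h4 h5 h6 ?_ ?_ ?_ ?_ ?_ ?_ ?_ ?_ ?_ ?_ <;>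
      rcases pos_cases x.1.1 x.1.2 with ⟨e1, e2, _⟩ | ⟨e1, e2, _⟩ <;>
      rcases pos_cases x.2.1 x.2.2 with ⟨f1, f2, _⟩ | ⟨f1, f2, _⟩ <;> omega
    rw [Finset.sum_congr rfl hp, Finset.sum_const, nsmul_eq_mul]
    -- the cardinality of `S`
    have hcard : (4 : ℝ) * ((N1 : ℝ) * ((N2 : ℝ) - 1)) ≤ S.card := by
      have e1 : S.card + 4 * N1 ≥ 4 * (N1 * N2) := by
        have e2 : ((range N1 ×ˢ (univ : Finset Bool)) ×ˢ (range N2 ×ˢ (univ : Finset Bool))).card =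
            4 * (N1 * N2) := by
          rw [Finset.card_product, Finset.card_product, Finset.card_product, Finset.card_range,
            Finset.card_range]
          have : (univ : Finset Bool).card = 2 := rfl
          rw [this]
          ring
        have e3 := Finset.card_filter_add_card_filter_not
          (s := ((range N1 ×ˢ (univ : Finset Bool)) ×ˢ (range N2 ×ˢ (univ : Finset Bool))))
          (fun x => x.1.1 ≠ x.2.1)
        have e4 : (((range N1 ×ˢ (univ : Finset Bool)) ×ˢ (range N2 ×ˢ (univ : Finset Bool))).filter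
            fun x => ¬ (x.1.1 ≠ x.2.1)).card ≤ 4 * N1 := by
          have e5 : (range N1 ×ˢ ((univ : Finset Bool) ×ˢ (univ : Finset Bool))).card = 4 * N1 := by
            rw [Finset.card_product, Finset.card_product, Finset.card_range]
            have : (univ : Finset Bool).card = 2 := rfl
            rw [this]
            ring
          rw [← e5]
          refine Finset.card_le_card_of_injOn (fun x => (x.1.1, (x.1.2, x.2.2))) ?_ ?_
          · intro x hx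
            have hx' := hx
            simp only [Finset.coe_filter, Finset.mem_product, Set.mem_ofPred_eq] at hx'
            simp only [Finset.coe_product, Set.mem_prod, Finset.mem_coe]
            exact ⟨hx'.1.1.1, mem_univ _, mem_univ _⟩
          · intro x hx x' hx' h
            simp only [Finset.coe_filter, Finset.mem_product, Set.mem_ofPred_eq, not_not] at hx hx'
            obtain ⟨⟨j1, o1⟩, ⟨j2, o2⟩⟩ := x
            obtain ⟨⟨i1, p1⟩, ⟨i2, p2⟩⟩ := x'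
            simp only [Prod.mk.injEq] at h hx hx' ⊢
            obtain ⟨g1, g2, g3⟩ := h
            exact ⟨⟨g1, g2⟩, by rw [← hx.2, ← hx'.2, g1], g3⟩
        rw [e2, ← hS] at e3
        omega
      have e6 : (4 : ℝ) * (N1 * N2) ≤ S.card + 4 * N1 := by exact_mod_cast e1
      nlinarith
    have hA : 0 < (u : ℝ) * ((u : ℝ) - 1) * ((u : ℝ) - 2) * ((u : ℝ) - 3) := by
      have g1 : 0 < (u : ℝ) - 1 := by linarith
      have g2 : 0 < (u : ℝ) - 2 := by linarith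
      have g3 : 0 < (u : ℝ) - 3 := by linarith
      have g4 : 0 < (u : ℝ) := by linarith
      positivity
    have hB : (u : ℝ) * ((u : ℝ) - 1) * ((u : ℝ) - 2) * ((u : ℝ) - 3) ≤
        ((u : ℝ) * ((u : ℝ) - 1)) ^ 2 := by
      have g1 : 0 < (u : ℝ) * ((u : ℝ) - 1) := by nlinarith
      have g2 : ((u : ℝ) - 2) * ((u : ℝ) - 3) ≤ (u : ℝ) * ((u : ℝ) - 1) := by nlinarith
      calc (u : ℝ) * ((u : ℝ) - 1) * ((u : ℝ) - 2) * ((u : ℝ) - 3) =
          (u : ℝ) * ((u : ℝ) - 1) * (((u : ℝ) - 2) * ((u : ℝ) - 3)) := by ring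
        _ ≤ (u : ℝ) * ((u : ℝ) - 1) * ((u : ℝ) * ((u : ℝ) - 1)) := mul_le_mul_of_nonneg_left g2 g1.le
        _ = _ := by ring
    have hX : 0 ≤ (S.card : ℝ) := Nat.cast_nonneg _
    have hC2 : 0 < ((u : ℝ) * ((u : ℝ) - 1)) ^ 2 := lt_of_lt_of_le hA hB
    have hN : y a c * y b d - 2 * y a c - y b d ≤ (S.card : ℝ) / 4 := by
      rcases lt_or_ge (y b d) 2 with g | g
      · nlinarith
      · rcases lt_or_ge (y a c) 1 with g' | g'
        · nlinarith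
        · have f1 := Nat.le_ceil (y a c - s)
          have f2 := Nat.le_ceil (y b d - s)
          rw [← hN1] at f1
          rw [← hN2] at f2
          have f3 : y a c - 1 ≤ N1 := by linarith
          have f4 : y b d - 2 ≤ (N2 : ℝ) - 1 := by linarith
          have f5 : (y a c - 1) * (y b d - 2) ≤ (N1 : ℝ) * ((N2 : ℝ) - 1) :=
            mul_le_mul f3 f4 (by linarith) (by linarith)
          nlinarith
    have e7 : (y a c * y b d - 2 * y a c - y b d) / ((u : ℝ) * ((u : ℝ) - 1) / 2) ^ 2 ≤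
        ((S.card : ℝ) / 4) / ((u : ℝ) * ((u : ℝ) - 1) / 2) ^ 2 :=
      div_le_div_of_nonneg_right hN (by positivity)
    refine e7.trans ?_
    have e8 : ((S.card : ℝ) / 4) / ((u : ℝ) * ((u : ℝ) - 1) / 2) ^ 2 =
        (S.card : ℝ) * (1 / ((u : ℝ) * ((u : ℝ) - 1)) ^ 2) := by
      rw [div_pow, div_div_div_eq]
      field_simp
      ring
    rw [e8]
    exact mul_le_mul_of_nonneg_left (one_div_le_one_div_of_le hA hB) hX
  · intro x _ x' _ σ e e'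
    have g1 : pos1 x.1.1 x.1.2 = pos1 x'.1.1 x'.1.2 := e.1.symm.trans e'.1
    have g2 : pos1 x.2.1 x.2.2 = pos1 x'.2.1 x'.2.2 := e.2.1.symm.trans e'.2.1
    obtain ⟨g3, g4⟩ := pos_inj g1
    obtain ⟨g5, g6⟩ := pos_inj g2
    exact Prod.ext (Prod.ext g3 g4) (Prod.ext g5 g6)

end Pool.Agent.Work.MP_18db2a_co
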