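import Pool.Agent.Work.MP_18db2a_co.RmMat
import Pool.Agent.Work.MP_18db2a_co.RmMarg

set_option autoImplicit false

/-!
# RmUnc (size M, uses the statements of RmMat and RmMarg): covered vertices

`x` is a weight function on `Fin u`, `y = thr x`, i.e. `y a b = x a b * C`, `C = u (u-1)/2`; `Wt.le` gives `x a b ≤ 1/u`, hence `y a b ≤ (u-1)/2`.
Put `cov a = ∑ c, x a c ≤ 1 - τ ≤ 1`.
`rm_unc`: (1) `pr (∃ c, rm a c) ≤ ∑_{c ≠ a} pr (rm a c) ≤ ∑_{c ≠ a} (x a c + 1/C) ≤ cov a + 2/u`.
(2) `pr (a and b covered) ≥ ∑_{c, d ∉ {a, b}, c ≠ d} pr (rm a c ∧ rm b d)` (the events are disjoint, `rm` is a matching)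
`≥ ∑ (x a c * x b d - (2 x a c + x b d)/C)`.  The error terms sum up to at most `u (2 cov a + cov b)/C ≤ 3 u / C = 6/(u-1) ≤ 12/u`.  The main terms:
`∑_{c ∉ {a,b}} ∑_{d ∉ {a,b,c}} x a c x b d ≥ (cov a - x a b)(cov b - x a b) - ∑ c, x a c x b c ≥ cov a cov b - 2/u - 1/u`.
(3) `pr (Unc a ∧ Unc b) = 1 - pr (a covered) - pr (b covered) + pr (both covered) ≥ (1 - cov a)(1 - cov b) - 4/u - 3/u - 12/u ≥ τ² - 20/u`.
`rm_nv`: `av nv = ∑ a, pr (∃ c, rm a c) = ∑ a, ∑_{c ≠ a} pr (rm a c)` (disjoint events), each summand differs from `x a c` by at most `1/C`, and there are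
`u (u-1) = 2 C` of them.
-/

namespace Pool.Agent.Work.MP_18db2a_co

open Finset

variable {u : ℕ}

open scoped Classical in
private theorem sum_ind {A : Type} [Fintype A] (P : A → Prop) (huniq : ∀ c d, P c → P d → c = d) :
    (∑ c, if P c then (1 : ℝ) else 0) = if ∃ c, P c then 1 else 0 := by
  split_ifs with h
  · obtain ⟨c, hc⟩ := h
    rw [Finset.sum_eq_single c]
    · rw [if_pos hc]
    · intro d _ hd
      rw [if_neg]
      intro hd'
      exact hd (huniq _ _ hd' hc)
    · intro h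
      exact absurd (mem_univ _) h
  · push Not at h
    exact Finset.sum_eq_zero fun c _ => if_neg (h c)

private theorem thr_symm (x : Fin u → Fin u → ℝ) (hx : ∀ a b, x a b = x b a) (a b : Fin u) :
    thr x a b = thr x b a := by
  rw [thr, thr, hx]

private theorem C_pos (a b : Fin u) (hab : a ≠ b) : 0 < (u : ℝ) * ((u : ℝ) - 1) / 2 ∧ (2 : ℝ) ≤ u := by
  have h2 : 2 ≤ u := by
    by_contra h
    have h3 : u ≤ 1 := by omega
    apply hab
    apply Fin.ext
    have := a.2
    have := b.2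
    omega
  have h3 : (2 : ℝ) ≤ u := by exact_mod_cast h2
  refine ⟨?_, h3⟩
  have : 0 < (u : ℝ) * ((u : ℝ) - 1) := mul_pos (by linarith) (by linarith)
  linarith

private theorem thr_le {x : Fin u → Fin u → ℝ} {τ : ℝ} (hx : Wt univ x τ) (a b : Fin u) (hab : a ≠ b) :
    0 ≤ thr x a b ∧ thr x a b ≤ ((u : ℝ) - 1) / 2 := by
  obtain ⟨hC, h2⟩ := C_pos a b hab
  refine ⟨mul_nonneg (hx.nonneg a b) hC.le, ?_⟩
  have h1 := hx.le a b
  rw [Finset.card_univ, Fintype.card_fin] at h1
  have h3 : thr x a b = x a b * u * (((u : ℝ) - 1) / 2) := by rw [thr]; ring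
  rw [h3]
  have h4 : 0 ≤ ((u : ℝ) - 1) / 2 := by linarith
  nlinarith

private theorem marg_x {x : Fin u → Fin u → ℝ} {τ : ℝ} (hx : Wt univ x τ) (s : ℝ) (hs : 0 ≤ s)
    (hs1 : s < 1) (a b : Fin u) (hab : a ≠ b) :
    |pr (fun σ => rm (thr x) s σ a b) - x a b| ≤ 1 / ((u : ℝ) * ((u : ℝ) - 1) / 2) := by
  obtain ⟨hC, h2⟩ := C_pos a b hab
  obtain ⟨h3, h4⟩ := thr_le hx a b hab
  obtain ⟨h5, h6⟩ := rm_marg (thr x) s hs hs1 a b hab h3 h4
  set C : ℝ := (u : ℝ) * ((u : ℝ) - 1) / 2 with hCdef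
  have h7 : (thr x a b - 1) / C = x a b - 1 / C := by
    rw [thr, ← hCdef]
    field_simp
  have h8 : (thr x a b + 1) / C = x a b + 1 / C := by
    rw [thr, ← hCdef]
    field_simp
  rw [h7] at h5
  rw [h8] at h6
  rw [abs_le]
  constructor <;> linarith

private theorem pr_self (x : Fin u → Fin u → ℝ) (hx : ∀ a b, x a b = x b a) (s : ℝ) (a : Fin u) :
    pr (fun σ => rm (thr x) s σ a a) = 0 :=
  pr_eq_zero fun σ => (rm_isMat (thr x) (thr_symm x hx) s σ).irr a

theorem rm_unc (x : Fin u → Fin u → ℝ) (τ : ℝ) (h0 : 0 ≤ τ) (h1 : τ ≤ 1) (hx : Wt univ x τ) (s : ℝ) (hs : 0 ≤ s)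
    (hs1 : s < 1) (a b : Fin u) (hab : a ≠ b) :
    τ ^ 2 - 20 / (u : ℝ) ≤ pr (fun σ => Unc (rm (thr x) s σ) a ∧ Unc (rm (thr x) s σ) b) := by
  classical
  obtain ⟨hC, h2⟩ := C_pos a b hab
  set C : ℝ := (u : ℝ) * ((u : ℝ) - 1) / 2 with hCdef
  have hu0 : (0 : ℝ) < u := by linarith
  have hmat : ∀ σ, IsMat univ (rm (thr x) s σ) := fun σ =>
    rm_isMat (thr x) (thr_symm x hx.symm) s σ
  let g : Fin u → Fin u → ℝ := fun c d => if c ≠ a ∧ c ≠ b ∧ d ≠ a ∧ d ≠ b ∧ c ≠ d then 1 else 0
  have hg0 : ∀ c d, 0 ≤ g c d := fun c d => by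
    show 0 ≤ if _ then (1 : ℝ) else 0
    split_ifs <;> norm_num
  have hg1 : ∀ c d, g c d ≤ 1 := fun c d => by
    show (if _ then (1 : ℝ) else 0) ≤ 1
    split_ifs <;> norm_num
  -- pointwise inequality
  have hpt : ∀ σ, (1 - ∑ c, (if rm (thr x) s σ a c then (1 : ℝ) else 0)) -
      (∑ d, if rm (thr x) s σ b d then (1 : ℝ) else 0) +
      ∑ c, ∑ d, g c d * (if rm (thr x) s σ a c ∧ rm (thr x) s σ b d then (1 : ℝ) else 0) ≤
      if Unc (rm (thr x) s σ) a ∧ Unc (rm (thr x) s σ) b then (1 : ℝ) else 0 := by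
    intro σ
    have e1 := sum_ind (fun c => rm (thr x) s σ a c) (fun c d hc hd => (hmat σ).uniq _ _ _ hc hd)
    have e2 := sum_ind (fun c => rm (thr x) s σ b c) (fun c d hc hd => (hmat σ).uniq _ _ _ hc hd)
    have e3 : ∑ c, ∑ d, g c d * (if rm (thr x) s σ a c ∧ rm (thr x) s σ b d then (1 : ℝ) else 0) ≤
        (∑ c, (if rm (thr x) s σ a c then (1 : ℝ) else 0)) *
          ∑ d, if rm (thr x) s σ b d then (1 : ℝ) else 0 := by
      rw [Finset.sum_mul_sum]
      refine Finset.sum_le_sum fun c _ => Finset.sum_le_sum fun d _ => ?_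
      have := hg1 c d
      have := hg0 c d
      by_cases hc : rm (thr x) s σ a c <;> by_cases hd : rm (thr x) s σ b d <;> simp [*]
    rw [e1, e2] at e3 ⊢
    by_cases ha : ∃ c, rm (thr x) s σ a c <;> by_cases hb : ∃ c, rm (thr x) s σ b c
    · simp only [ha, hb, if_true] at e3 ⊢
      have : (0 : ℝ) ≤ if Unc (rm (thr x) s σ) a ∧ Unc (rm (thr x) s σ) b then (1 : ℝ) else 0 := by
        split_ifs <;> norm_num
      linarith
    · simp only [ha, hb, if_true, if_false] at e3 ⊢
      have : (0 : ℝ) ≤ if Unc (rm (thr x) s σ) a ∧ Unc (rm (thr x) s σ) b then (1 : ℝ) else 0 := by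
        split_ifs <;> norm_num
      linarith
    · simp only [ha, hb, if_true, if_false] at e3 ⊢
      have : (0 : ℝ) ≤ if Unc (rm (thr x) s σ) a ∧ Unc (rm (thr x) s σ) b then (1 : ℝ) else 0 := by
        split_ifs <;> norm_num
      linarith
    · have hU : Unc (rm (thr x) s σ) a ∧ Unc (rm (thr x) s σ) b := by
        constructor
        · intro c hc
          exact ha ⟨c, hc⟩
        · intro c hc
          exact hb ⟨c, hc⟩
      simp only [ha, hb, if_false] at e3 ⊢
      rw [if_pos hU]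
      linarith
  have hav := av_mono hpt
  rw [← pr_eq_av] at hav
  refine le_trans ?_ hav
  have eav : av (fun σ : Equiv.Perm (Fin u) => (1 - ∑ c, (if rm (thr x) s σ a c then (1 : ℝ) else 0)) -
      (∑ d, if rm (thr x) s σ b d then (1 : ℝ) else 0) +
      ∑ c, ∑ d, g c d * (if rm (thr x) s σ a c ∧ rm (thr x) s σ b d then (1 : ℝ) else 0)) =
      1 - ∑ c, pr (fun σ => rm (thr x) s σ a c) - ∑ d, pr (fun σ => rm (thr x) s σ b d) +
        ∑ c, ∑ d, g c d * pr (fun σ => rm (thr x) s σ a c ∧ rm (thr x) s σ b d) := by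
    rw [av_add, av_sub, av_sub, av_const, av_sum, av_sum, av_sum]
    congr 1
    · congr 1
      · congr 1
        exact Finset.sum_congr rfl fun c _ => (pr_eq_av _).symm
      · exact Finset.sum_congr rfl fun c _ => (pr_eq_av _).symm
    · refine Finset.sum_congr rfl fun c _ => ?_
      rw [av_sum]
      refine Finset.sum_congr rfl fun d _ => ?_
      rw [av_mul_left, pr_eq_av]
  rw [eav]
  -- the linear terms
  have hlin : ∀ a : Fin u, ∑ c, pr (fun σ => rm (thr x) s σ a c) ≤ ∑ c, x a c + 2 / u := by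
    intro a
    have hc : ∀ c, pr (fun σ => rm (thr x) s σ a c) ≤ x a c + if c = a then 0 else 1 / C := by
      intro c
      by_cases h : c = a
      · subst h
        rw [pr_self x hx.symm, if_pos rfl, add_zero]
        exact hx.nonneg _ _
      · rw [if_neg h]
        have := (abs_le.1 (marg_x hx s hs hs1 a c (Ne.symm h))).2
        rw [← hCdef] at this
        linarith
    refine (Finset.sum_le_sum fun c _ => hc c).trans ?_
    rw [Finset.sum_add_distrib]
    have h5 : ∑ c : Fin u, (if c = a then (0 : ℝ) else 1 / C) = 2 / u := by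
      have h6 : ∀ c : Fin u, (if c = a then (0 : ℝ) else 1 / C) = 1 / C - if c = a then 1 / C else 0 := by
        intro c
        split_ifs <;> ring
      rw [Finset.sum_congr rfl fun c _ => h6 c, Finset.sum_sub_distrib, Finset.sum_ite_eq' univ a]
      rw [if_pos (mem_univ _), Finset.sum_const, Finset.card_univ, Fintype.card_fin, nsmul_eq_mul]
      rw [hCdef]
      have : (u : ℝ) - 1 ≠ 0 := by linarith
      field_simp
    linarith
  -- the quadratic terms
  have hcov : ∀ a : Fin u, 0 ≤ ∑ c, x a c ∧ ∑ c, x a c ≤ 1 := fun a =>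
    ⟨Finset.sum_nonneg fun c _ => hx.nonneg _ _, by have := hx.cov a; linarith⟩
  have hx1 : ∀ c d, x c d ≤ 1 / u := by
    intro c d
    have := hx.le c d
    rw [Finset.card_univ, Fintype.card_fin] at this
    rw [le_div_iff₀ hu0]
    exact this
  have hquad : (∑ c, x a c) * (∑ d, x b d) - 3 / u - 12 / u ≤
      ∑ c, ∑ d, g c d * pr (fun σ => rm (thr x) s σ a c ∧ rm (thr x) s σ b d) := by
    have e1 : ∀ c d, x a c * x b d - (if c = b then x a c * x b d else 0) -
        (if d = a then x a c * x b d else 0) - (if c = d then x a c * x b d else 0) -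
        (2 * x a c + x b d) / C ≤
        g c d * pr (fun σ => rm (thr x) s σ a c ∧ rm (thr x) s σ b d) := by
      intro c d
      have k1 := hx.nonneg a c
      have k2 := hx.nonneg b d
      have k3 : 0 ≤ x a c * x b d := mul_nonneg k1 k2
      have k4 : 0 ≤ (2 * x a c + x b d) / C := by positivity
      by_cases hgood : c ≠ a ∧ c ≠ b ∧ d ≠ a ∧ d ≠ b ∧ c ≠ d
      · have hg : g c d = 1 := if_pos hgood
        obtain ⟨g1, g2, g3, g4, g5⟩ := hgood
        rw [hg, one_mul, if_neg g2, if_neg g3, if_neg g5]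
        obtain ⟨t1, t2⟩ := thr_le hx a c (Ne.symm g1)
        obtain ⟨t3, t4⟩ := thr_le hx b d (Ne.symm g4)
        have hp := rm_pair (thr x) s hs hs1 a b c d hab (Ne.symm g1) (Ne.symm g3) (Ne.symm g2)
          (Ne.symm g4) g5 t1 t2 t3 t4
        refine le_trans (le_of_eq ?_) hp
        rw [thr, thr, ← hCdef]
        field_simp
        ring
      · have hg : g c d = 0 := if_neg hgood
        rw [hg, zero_mul]
        have hor : c = a ∨ c = b ∨ d = a ∨ d = b ∨ c = d := by
          by_contra hno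
          push Not at hno
          exact hgood hno
        have i1 : (0 : ℝ) ≤ if c = b then x a c * x b d else 0 := by split_ifs <;> linarith
        have i2 : (0 : ℝ) ≤ if d = a then x a c * x b d else 0 := by split_ifs <;> linarith
        have i3 : (0 : ℝ) ≤ if c = d then x a c * x b d else 0 := by split_ifs <;> linarith
        rcases hor with h | h | h | h | h
        · subst h
          have : x c c * x b d = 0 := by rw [hx.diag, zero_mul]
          linarith
        · rw [if_pos h]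
          linarith
        · rw [if_pos h]
          linarith
        · subst h
          have : x a c * x d d = 0 := by rw [hx.diag, mul_zero]
          linarith
        · rw [if_pos h]
          linarith
    refine le_trans ?_ (Finset.sum_le_sum fun c _ => Finset.sum_le_sum fun d _ => e1 c d)
    simp only [Finset.sum_sub_distrib]
    have s0 : ∑ c, ∑ d, x a c * x b d = (∑ c, x a c) * ∑ d, x b d := by rw [Finset.sum_mul_sum]
    have s1 : ∑ c, ∑ d, (if c = b then x a c * x b d else 0) ≤ 1 / u := by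
      have : ∀ c, ∑ d, (if c = b then x a c * x b d else 0) =
          if c = b then x a c * ∑ d, x b d else 0 := by
        intro c
        split_ifs
        · rw [Finset.mul_sum]
        · simp
      rw [Finset.sum_congr rfl fun c _ => this c, Finset.sum_ite_eq' univ b, if_pos (mem_univ _)]
      calc x a b * ∑ d, x b d ≤ x a b * 1 :=
            mul_le_mul_of_nonneg_left (hcov b).2 (hx.nonneg _ _)
        _ ≤ 1 / u := by rw [mul_one]; exact hx1 _ _
    have s2 : ∑ c, ∑ d, (if d = a then x a c * x b d else 0) ≤ 1 / u := by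
      have : ∀ c, ∑ d, (if d = a then x a c * x b d else 0) = x a c * x b a := by
        intro c
        rw [Finset.sum_ite_eq' univ a, if_pos (mem_univ _)]
      rw [Finset.sum_congr rfl fun c _ => this c, ← Finset.sum_mul]
      calc (∑ c, x a c) * x b a ≤ 1 * x b a :=
            mul_le_mul_of_nonneg_right (hcov a).2 (hx.nonneg _ _)
        _ ≤ 1 / u := by rw [one_mul]; exact hx1 _ _
    have s3 : ∑ c, ∑ d, (if c = d then x a c * x b d else 0) ≤ 1 / u := by
      have : ∀ c, ∑ d, (if c = d then x a c * x b d else 0) = x a c * x b c := by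
        intro c
        rw [Finset.sum_ite_eq univ c, if_pos (mem_univ _)]
      rw [Finset.sum_congr rfl fun c _ => this c]
      calc ∑ c, x a c * x b c ≤ ∑ c, x a c * (1 / u) :=
            Finset.sum_le_sum fun c _ => mul_le_mul_of_nonneg_left (hx1 _ _) (hx.nonneg _ _)
        _ = (∑ c, x a c) * (1 / u) := by rw [Finset.sum_mul]
        _ ≤ 1 * (1 / u) := mul_le_mul_of_nonneg_right (hcov a).2 (by positivity)
        _ = 1 / u := one_mul _
    have s4 : ∑ c, ∑ d, (2 * x a c + x b d) / C ≤ 12 / u := by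
      have : ∑ c : Fin u, ∑ d : Fin u, (2 * x a c + x b d) / C =
          (2 * (∑ c, x a c) * u + u * ∑ d, x b d) / C := by
        simp only [← Finset.sum_div, Finset.sum_add_distrib, Finset.sum_const, Finset.card_univ,
          Fintype.card_fin, nsmul_eq_mul, ← Finset.mul_sum]
        ring
      rw [this, div_le_div_iff₀ hC hu0]
      have k1 := (hcov a).2
      have k2 := (hcov b).2
      have k3 : 2 * (∑ c, x a c) * u + u * ∑ d, x b d ≤ 3 * u := by nlinarith
      calc (2 * (∑ c, x a c) * u + u * ∑ d, x b d) * u ≤ 3 * u * u :=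
            mul_le_mul_of_nonneg_right k3 hu0.le
        _ ≤ 12 * C := by rw [hCdef]; nlinarith
    rw [s0]
    have : (3 : ℝ) / u = 1 / u + 1 / u + 1 / u := by ring
    linarith
  have l1 := hlin a
  have l2 := hlin b
  have c1 := hx.cov a
  have c2 := hx.cov b
  have m1 : τ ^ 2 ≤ (1 - ∑ c, x a c) * (1 - ∑ d, x b d) := by nlinarith
  have m2 : (20 : ℝ) / u = 20 * (1 / u) := by ring
  have m3 : (2 : ℝ) / u = 2 * (1 / u) := by ring
  have m4 : (3 : ℝ) / u = 3 * (1 / u) := by ring
  have m5 : (12 : ℝ) / u = 12 * (1 / u) := by ring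
  have m6 : (0 : ℝ) < 1 / u := by positivity
  rw [m2]
  rw [m3] at l1 l2
  rw [m4, m5] at hquad
  nlinarith

theorem rm_nv (x : Fin u → Fin u → ℝ) (τ : ℝ) (h0 : 0 ≤ τ) (hx : Wt univ x τ) (s : ℝ) (hs : 0 ≤ s)
    (hs1 : s < 1) :
    |av (fun σ => (nv (rm (thr x) s σ) : ℝ)) - ∑ a, ∑ b, x a b| ≤ 2 := by
  classical
  have hmat : ∀ σ, IsMat univ (rm (thr x) s σ) := fun σ =>
    rm_isMat (thr x) (thr_symm x hx.symm) s σ
  have h1 : av (fun σ => (nv (rm (thr x) s σ) : ℝ)) =
      ∑ a, ∑ b, pr (fun σ => rm (thr x) s σ a b) := by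
    have e1 : (fun σ : Equiv.Perm (Fin u) => (nv (rm (thr x) s σ) : ℝ)) =
        fun σ => ∑ a, ∑ b, if rm (thr x) s σ a b then (1 : ℝ) else 0 := by
      funext σ
      rw [(hmat σ).nv_eq, cnt_coe, Fintype.sum_prod_type]
    rw [e1, av_sum]
    refine Finset.sum_congr rfl fun a _ => ?_
    rw [av_sum]
    exact Finset.sum_congr rfl fun b _ => (pr_eq_av _).symm
  rw [h1, ← Finset.sum_sub_distrib]
  have h2 : ∀ a b : Fin u, |pr (fun σ => rm (thr x) s σ a b) - x a b| ≤
      if b = a then 0 else 1 / ((u : ℝ) * ((u : ℝ) - 1) / 2) := by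
    intro a b
    by_cases h : b = a
    · subst h
      rw [pr_self x hx.symm, hx.diag, if_pos rfl, sub_zero, abs_zero]
    · rw [if_neg h]
      exact marg_x hx s hs hs1 a b (Ne.symm h)
  refine (Finset.abs_sum_le_sum_abs _ _).trans ?_
  have h3 : ∀ a : Fin u, |∑ b, pr (fun σ => rm (thr x) s σ a b) - ∑ b, x a b| ≤
      ((u : ℝ) - 1) * (1 / ((u : ℝ) * ((u : ℝ) - 1) / 2)) := by
    intro a
    rw [← Finset.sum_sub_distrib]
    refine (Finset.abs_sum_le_sum_abs _ _).trans ((Finset.sum_le_sum fun b _ => h2 a b).trans ?_)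
    have h6 : ∀ c : Fin u, (if c = a then (0 : ℝ) else 1 / ((u : ℝ) * ((u : ℝ) - 1) / 2)) =
        1 / ((u : ℝ) * ((u : ℝ) - 1) / 2) - if c = a then 1 / ((u : ℝ) * ((u : ℝ) - 1) / 2) else 0 := by
      intro c
      split_ifs <;> ring
    rw [Finset.sum_congr rfl fun c _ => h6 c, Finset.sum_sub_distrib, Finset.sum_ite_eq' univ a,
      if_pos (mem_univ _), Finset.sum_const, Finset.card_univ, Fintype.card_fin, nsmul_eq_mul]
    exact le_of_eq (by ring)
  refine (Finset.sum_le_sum fun a _ => h3 a).trans ?_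
  rw [Finset.sum_const, Finset.card_univ, Fintype.card_fin, nsmul_eq_mul]
  by_cases hu : (u : ℝ) * ((u : ℝ) - 1) = 0
  · rw [hu]
    simp
  · have h7 : (u : ℝ) ≠ 0 := fun h => hu (by rw [h]; ring)
    have h8 : (u : ℝ) - 1 ≠ 0 := fun h => hu (by rw [h]; ring)
    refine le_of_eq ?_
    field_simp

end Pool.Agent.Work.MP_18db2a_co
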