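import Pool.Agent.Work.MP_18db2a_co.Maur
import Pool.Agent.Work.MP_18db2a_co.RmUnc

set_option autoImplicit false

/-!
# Pack (size M-L, uses the statements of Maur, RmMat, RmMarg, RmUnc): a random matching for one colour

Let `u = U.card`, `e : Fin u ≃ U` (`U.equivFin.symm`), `x' a b = x (e a) (e b)`: `Wt univ x' τ` (the sum over `b : Fin u` equals the sum over `V` because
`x a b = 0` for `b ∉ U`, by symmetry).  `Ω = Perm (Fin u) × Fin Q`, and `M (σ, r) a b` iff there are `a' b' : Fin u` with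
`(e a' : V) = a`, `(e b' : V) = b` and `rm (thr x') (r/Q) σ a' b'`.
* `mat`, `pos`: `rm_isMat`, `rm_pos` (`thr x' a b > 0` implies `x' a b > 0`, as `u (u-1)/2 ≥ 0`).
* `marg`: if `a ∉ U` or `b ∉ U` both sides are `0 ≤ 0 ≤ 1/Q`.  Otherwise `pr_prod` and `rm_marg_av` (`thr x' a b / C = x' a b`, `C > 0` since `u ≥ 2`).
* `unc`: `pr_prod`, `rm_unc` for every `r`, then average (`av_mono`, `av_const`).
* `size`: for fixed `r`, `nv (M (σ, r)) = nv (rm ..)` (bijection `e`), so by `rm_nv` the event implies `t ≤ |nv - av nv|`; `nv_lip` and `maurey_tail` with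
  `c = 4`, `N = card V` bound its probability by `2 exp (- t²/(8 * 16 * card V))`.  Average over `r`.  (If `card V = 0` the right side is
  `2 exp 0 = 2`.)
* `avail`: let `N' a b = N (e a) (e b)`; the number `Z σ` of the `N'` pairs which are uncovered; by linearity `av Z = ∑_{N' pairs} pr (Unc ∧ Unc) ≥
  (τ² - 20/u) * (number of the N' pairs)` (`rm_unc`); the numbers for `N'` are the numbers for `N` inside `U`.  `z_lip` and `maurey_tail` with `c = 8`.
-/

namespace Pool.Agent.Work.MP_18db2a_co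

open Finset

section pack

variable {V : Type} [Fintype V] [DecidableEq V] (U : Finset V)

private noncomputable def en : Fin U.card ≃ U := U.equivFin.symm

private theorem sum_en {R : Type} [AddCommMonoid R] (f : V → R) (h : ∀ x, x ∉ U → f x = 0) :
    ∑ a : Fin U.card, f (en U a) = ∑ x, f x := by
  rw [Equiv.sum_comp (en U) (fun y : U => f y), Finset.sum_coe_sort U f]
  exact Finset.sum_subset (Finset.subset_univ U) fun x _ hx => h x hx

private theorem cnt_en (p : V → Prop) (h : ∀ x, p x → x ∈ U) :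
    cnt (fun a : Fin U.card => p (en U a)) = cnt p := by
  classical
  rw [cnt_eq_sum, cnt_eq_sum]
  exact sum_en U (fun x => if p x then 1 else 0) fun x hx => if_neg fun hp => hx (h x hp)

private theorem cnt_en2 (p : V → V → Prop) (h : ∀ x y, p x y → x ∈ U ∧ y ∈ U) :
    cnt (fun a : Fin U.card × Fin U.card => p (en U a.1) (en U a.2)) =
      cnt (fun a : V × V => p a.1 a.2) := by
  classical
  have h0 : ∀ x, x ∉ U → cnt (fun y => p x y) = 0 := fun x hx =>
    cnt_eq_zero fun y hy => hx (h x y hy).1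
  rw [cnt_prod (fun a b : Fin U.card => p (en U a) (en U b)), cnt_prod p, ← sum_en U _ h0]
  exact Finset.sum_congr rfl fun a _ => cnt_en U _ fun y hy => (h _ y hy).2

private theorem en_inj {a b : Fin U.card} (h : (en U a : V) = en U b) : a = b :=
  (en U).injective (Subtype.ext h)

private theorem exists_en {x : V} (h : x ∈ U) : ∃ a, (en U a : V) = x :=
  ⟨(en U).symm ⟨x, h⟩, by rw [Equiv.apply_symm_apply]⟩

private noncomputable def xx (x : V → V → ℝ) : Fin U.card → Fin U.card → ℝ :=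
  fun a b => x (en U a) (en U b)

private theorem wt_xx {x : V → V → ℝ} {τ : ℝ} (hx : Wt U x τ) : Wt univ (xx U x) τ where
  nonneg a b := hx.nonneg _ _
  symm a b := hx.symm _ _
  diag a := hx.diag _
  out a b h := absurd (Finset.mem_univ a) h
  le a b := by
    rw [Finset.card_univ, Fintype.card_fin]
    exact hx.le _ _
  cov a := by
    refine le_trans (le_of_eq ?_) (hx.cov (en U a))
    exact sum_en U (fun y => x (en U a) y) fun y hy => by
      show x (en U a) y = 0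
      rw [hx.symm]; exact hx.out _ _ hy

/-- the random matching -/
private def MM (x : V → V → ℝ) (Q : ℕ) (ω : Equiv.Perm (Fin U.card) × Fin Q) (a b : V) : Prop :=
  ∃ a' b' : Fin U.card, (en U a' : V) = a ∧ (en U b' : V) = b ∧
    rm (thr (xx U x)) ((ω.2 : ℝ) / Q) ω.1 a' b'

private theorem MM_en {x : V → V → ℝ} {Q : ℕ} {ω : Equiv.Perm (Fin U.card) × Fin Q}
    {a b : Fin U.card} :
    MM U x Q ω (en U a) (en U b) ↔ rm (thr (xx U x)) ((ω.2 : ℝ) / Q) ω.1 a b := by
  constructor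
  · rintro ⟨a', b', h1, h2, h3⟩
    rw [en_inj U h1, en_inj U h2] at h3
    exact h3
  · exact fun h => ⟨a, b, rfl, rfl, h⟩

private theorem MM_mem {x : V → V → ℝ} {Q : ℕ} {ω : Equiv.Perm (Fin U.card) × Fin Q}
    {a b : V} (h : MM U x Q ω a b) : a ∈ U ∧ b ∈ U := by
  obtain ⟨a', b', h1, h2, -⟩ := h
  exact ⟨h1 ▸ (en U a').2, h2 ▸ (en U b').2⟩

private theorem unc_en {x : V → V → ℝ} {Q : ℕ} {ω : Equiv.Perm (Fin U.card) × Fin Q}
    {a : Fin U.card} :
    Unc (MM U x Q ω) (en U a) ↔ Unc (rm (thr (xx U x)) ((ω.2 : ℝ) / Q) ω.1) a := by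
  constructor
  · exact fun h b hb => h (en U b) ((MM_en U).2 hb)
  · rintro h y ⟨a', b', h1, -, h3⟩
    rw [en_inj U h1] at h3
    exact h b' h3

private theorem cover_en {x : V → V → ℝ} {Q : ℕ} {ω : Equiv.Perm (Fin U.card) × Fin Q}
    {a : Fin U.card} :
    (∃ y, MM U x Q ω (en U a) y) ↔ ∃ b, rm (thr (xx U x)) ((ω.2 : ℝ) / Q) ω.1 a b := by
  constructor
  · rintro ⟨y, a', b', h1, -, h3⟩
    rw [en_inj U h1] at h3
    exact ⟨b', h3⟩
  · rintro ⟨b, hb⟩
    exact ⟨en U b, (MM_en U).2 hb⟩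

private theorem nv_MM {x : V → V → ℝ} {Q : ℕ} {ω : Equiv.Perm (Fin U.card) × Fin Q} :
    nv (MM U x Q ω) = nv (rm (thr (xx U x)) ((ω.2 : ℝ) / Q) ω.1) := by
  rw [nv, nv, ← cnt_en U _ fun a ⟨y, hy⟩ => (MM_mem U hy).1]
  exact cnt_congr fun a => cover_en U

private theorem thr_symm {x : V → V → ℝ} {τ : ℝ} (hx : Wt U x τ) (a b : Fin U.card) :
    thr (xx U x) a b = thr (xx U x) b a := by
  rw [thr, thr, (wt_xx U hx).symm]

private theorem MM_isMat {x : V → V → ℝ} {τ : ℝ} (hx : Wt U x τ) (Q : ℕ)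
    (ω : Equiv.Perm (Fin U.card) × Fin Q) : IsMat U (MM U x Q ω) := by
  have hm := rm_isMat (thr (xx U x)) (thr_symm U hx) ((ω.2 : ℝ) / Q) ω.1
  refine ⟨?_, ?_, ?_, ?_⟩
  · rintro a b ⟨a', b', h1, h2, h3⟩
    exact ⟨b', a', h2, h1, hm.symm _ _ h3⟩
  · rintro a ⟨a', b', h1, h2, h3⟩
    rw [en_inj U (h1.trans h2.symm)] at h3
    exact hm.irr _ h3
  · rintro a b c ⟨a', b', h1, h2, h3⟩ ⟨a'', c', h4, h5, h6⟩
    rw [en_inj U (h4.trans h1.symm)] at h6
    rw [← h2, ← h5, hm.uniq _ _ _ h3 h6]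
  · exact fun a b h => (MM_mem U h).1

private theorem card_pos_of_ne {a b : Fin U.card} (h : a ≠ b) : (2 : ℝ) ≤ U.card := by
  have : 2 ≤ U.card := by
    have h1 := a.2
    have h2 := b.2
    have h3 : (a : ℕ) ≠ b := fun h' => h (Fin.ext h')
    omega
  exact_mod_cast this

private theorem thr_le {x : V → V → ℝ} {τ : ℝ} (hx : Wt U x τ) (a b : Fin U.card) :
    thr (xx U x) a b ≤ ((U.card : ℝ) - 1) / 2 := by
  have h1 := (wt_xx U hx).le a b
  rw [Finset.card_univ, Fintype.card_fin] at h1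
  have h2 : (1 : ℝ) ≤ U.card := by
    have := a.2
    exact_mod_cast (by omega : 1 ≤ U.card)
  rw [thr]
  nlinarith

private theorem thr_nonneg {x : V → V → ℝ} {τ : ℝ} (hx : Wt U x τ) (a b : Fin U.card) :
    0 ≤ thr (xx U x) a b := by
  have h1 := (wt_xx U hx).nonneg a b
  have h2 : (1 : ℝ) ≤ U.card := by
    have := a.2
    exact_mod_cast (by omega : 1 ≤ U.card)
  rw [thr]
  refine mul_nonneg h1 (div_nonneg (mul_nonneg (by linarith) (by linarith)) (by norm_num))

end pack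

theorem exists_pk {V : Type} [Fintype V] [DecidableEq V] (U : Finset V) (x : V → V → ℝ) (τ : ℝ) (h0 : 0 ≤ τ)
    (h1 : τ ≤ 1) (hx : Wt U x τ) (Q : ℕ) (hQ : 0 < Q) :
    ∃ (Ω : Type) (_ : Fintype Ω) (_ : Nonempty Ω) (M : Ω → V → V → Prop), Pk U x τ Q M := by
  classical
  have hQR : (0 : ℝ) < Q := by exact_mod_cast hQ
  haveI hne : Nonempty (Fin Q) := ⟨⟨0, hQ⟩⟩
  have hs0 : ∀ r : Fin Q, 0 ≤ (r : ℝ) / Q := fun r => div_nonneg (Nat.cast_nonneg _) hQR.le
  have hs1 : ∀ r : Fin Q, (r : ℝ) / Q < 1 := fun r => by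
    rw [div_lt_one hQR]
    exact_mod_cast r.2
  have hw := wt_xx U hx
  have hVu : (U.card : ℝ) ≤ Fintype.card V := by exact_mod_cast Finset.card_le_univ U
  refine ⟨Equiv.Perm (Fin U.card) × Fin Q, inferInstance, inferInstance, MM U x Q, ?_⟩
  refine ⟨MM_isMat U hx Q, ?_, ?_, ?_, ?_, ?_⟩
  · rintro ⟨σ, r⟩ a b ⟨a', b', e1, e2, e3⟩
    have h2 := rm_pos _ _ (hs0 r) σ a' b' e3
    have h3 : 0 ≤ x a b := hx.nonneg a b
    rcases h3.eq_or_lt with h4 | h4
    · exfalso
      rw [thr] at h2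
      have h5 : xx U x a' b' = 0 := by
        rw [xx, e1, e2, ← h4]
      rw [h5, zero_mul] at h2
      exact lt_irrefl _ h2
    · exact h4
  · intro a b hab
    by_cases ha : a ∈ U
    · by_cases hb : b ∈ U
      · obtain ⟨a', rfl⟩ := exists_en U ha
        obtain ⟨b', rfl⟩ := exists_en U hb
        have hab' : a' ≠ b' := fun h => hab (by rw [h])
        have e1 : pr (fun ω => MM U x Q ω (en U a') (en U b')) =
            av (fun r : Fin Q => pr (fun σ => rm (thr (xx U x)) ((r : ℝ) / Q) σ a' b')) := by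
          rw [← pr_prod (fun (σ : Equiv.Perm (Fin U.card)) (r : Fin Q) =>
            rm (thr (xx U x)) ((r : ℝ) / Q) σ a' b')]
          exact pr_congr fun ω => MM_en U
        have h2 := rm_marg_av (thr (xx U x)) Q hQ a' b' hab' (thr_nonneg U hx a' b') (thr_le U hx a' b')
        have h3 := card_pos_of_ne U hab'
        have h4 : thr (xx U x) a' b' / ((U.card : ℝ) * ((U.card : ℝ) - 1) / 2) =
            x (en U a') (en U b') := by
          rw [thr, xx, mul_div_assoc, div_self, mul_one]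
          have : 0 < (U.card : ℝ) * ((U.card : ℝ) - 1) / 2 := by
            have : 0 < (U.card : ℝ) * ((U.card : ℝ) - 1) := mul_pos (by linarith) (by linarith)
            linarith
          exact this.ne'
        rw [h4] at h2
        rw [e1]
        exact h2
      · have e1 : x a b = 0 := by rw [hx.symm]; exact hx.out _ _ hb
        rw [pr_eq_zero fun ω hω => hb (MM_mem U hω).2, e1]
        exact ⟨le_rfl, by positivity⟩
    · have e1 : x a b = 0 := hx.out _ _ ha
      rw [pr_eq_zero fun ω hω => ha (MM_mem U hω).1, e1]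
      exact ⟨le_rfl, by positivity⟩
  · intro a b ha hb hab
    obtain ⟨a', rfl⟩ := exists_en U ha
    obtain ⟨b', rfl⟩ := exists_en U hb
    have hab' : a' ≠ b' := fun h => hab (by rw [h])
    have e1 : pr (fun ω => Unc (MM U x Q ω) (en U a') ∧ Unc (MM U x Q ω) (en U b')) =
        av (fun r : Fin Q => pr (fun σ => Unc (rm (thr (xx U x)) ((r : ℝ) / Q) σ) a' ∧
          Unc (rm (thr (xx U x)) ((r : ℝ) / Q) σ) b')) := by
      rw [← pr_prod (fun (σ : Equiv.Perm (Fin U.card)) (r : Fin Q) =>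
        Unc (rm (thr (xx U x)) ((r : ℝ) / Q) σ) a' ∧ Unc (rm (thr (xx U x)) ((r : ℝ) / Q) σ) b')]
      exact pr_congr fun ω => and_congr (unc_en U) (unc_en U)
    rw [e1, ← av_const (Ω := Fin Q) (τ ^ 2 - 20 / (U.card : ℝ))]
    exact av_mono fun r => rm_unc (xx U x) τ h0 h1 hw _ (hs0 r) (hs1 r) a' b' hab'
  · intro t ht
    rcases Nat.eq_zero_or_pos (Fintype.card V) with hV | hV
    · rw [hV]
      simp only [Nat.cast_zero, mul_zero, div_zero, Real.exp_zero]
      exact (pr_le_one _).trans (by norm_num)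
    have hVR : (0 : ℝ) < Fintype.card V := by exact_mod_cast hV
    have hS : ∑ a, ∑ b, x a b = ∑ a, ∑ b, xx U x a b := by
      have e1 : ∀ a : Fin U.card, ∑ b, xx U x a b = ∑ y, x (en U a) y := fun a =>
        sum_en U (fun y => x (en U a) y) fun y hy => by
          show x (en U a) y = 0
          rw [hx.symm]; exact hx.out _ _ hy
      simp only [e1]
      exact (sum_en U (fun z => ∑ y, x z y) fun z hz =>
        Finset.sum_eq_zero fun y _ => hx.out _ _ hz).symm
    have e1 : pr (fun ω => t + 2 ≤ |(nv (MM U x Q ω) : ℝ) - ∑ a, ∑ b, x a b|) =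
        av (fun r : Fin Q => pr (fun σ => t + 2 ≤
          |(nv (rm (thr (xx U x)) ((r : ℝ) / Q) σ) : ℝ) - ∑ a, ∑ b, xx U x a b|)) := by
      rw [← pr_prod (fun (σ : Equiv.Perm (Fin U.card)) (r : Fin Q) => t + 2 ≤
          |(nv (rm (thr (xx U x)) ((r : ℝ) / Q) σ) : ℝ) - ∑ a, ∑ b, xx U x a b|)]
      exact pr_congr fun ω => by rw [nv_MM, hS]
    rw [e1, ← av_const (Ω := Fin Q) (2 * Real.exp (- t ^ 2 / (128 * (Fintype.card V : ℝ))))]
    refine av_mono fun r => ?_
    have hnv := rm_nv (xx U x) τ h0 hw ((r : ℝ) / Q) (hs0 r) (hs1 r)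
    have hm := maurey_tail U.card (fun σ => (nv (rm (thr (xx U x)) ((r : ℝ) / Q) σ) : ℝ)) 4
      (by norm_num) (fun σ i j => nv_lip _ _ σ i j) (Fintype.card V) hVR hVu t ht
    have e2 : (8 : ℝ) * (Fintype.card V : ℝ) * 4 ^ 2 = 128 * (Fintype.card V : ℝ) := by ring
    rw [e2] at hm
    refine le_trans (pr_mono (q := fun σ =>
      (t ≤ (nv (rm (thr (xx U x)) ((r : ℝ) / Q) σ) : ℝ) -
        av (fun σ => (nv (rm (thr (xx U x)) ((r : ℝ) / Q) σ) : ℝ))) ∨
      ((nv (rm (thr (xx U x)) ((r : ℝ) / Q) σ) : ℝ) -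
        av (fun σ => (nv (rm (thr (xx U x)) ((r : ℝ) / Q) σ) : ℝ)) ≤ -t)) fun σ hσ => ?_)
      ((pr_or_le _ _).trans (by linarith [hm.1, hm.2]))
    have h3 := abs_le.1 hnv
    rcases le_abs.1 hσ with h | h
    · left; linarith [h3.1, h3.2]
    · right; linarith [h3.1, h3.2]
  · intro N hN t ht
    rcases Nat.eq_zero_or_pos (Fintype.card V) with hV | hV
    · rw [hV]
      simp only [Nat.cast_zero, mul_zero, div_zero, Real.exp_zero]
      exact pr_le_one _
    have hVR : (0 : ℝ) < Fintype.card V := by exact_mod_cast hV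
    set N' : Fin U.card → Fin U.card → Prop := fun a b => N (en U a) (en U b) with hN'
    have hN'mat : IsMat univ N' := by
      refine ⟨fun a b h => hN.symm _ _ h, fun a h => hN.irr _ h, fun a b c h1 h2 => ?_,
        fun a b _ => Finset.mem_univ _⟩
      exact en_inj U (hN.uniq _ _ _ h1 h2)
    have e0 : cnt (fun e : V × V => N e.1 e.2 ∧ e.1 ∈ U ∧ e.2 ∈ U) =
        cnt (fun e : Fin U.card × Fin U.card => N' e.1 e.2) := by
      rw [← cnt_en2 U (fun a b => N a b ∧ a ∈ U ∧ b ∈ U) fun a b h => h.2]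
      exact cnt_congr fun e => ⟨fun h => h.1, fun h => ⟨h, (en U e.1).2, (en U e.2).2⟩⟩
    have e1 : ∀ ω : Equiv.Perm (Fin U.card) × Fin Q,
        cnt (fun e : V × V => N e.1 e.2 ∧ e.1 ∈ U ∧ e.2 ∈ U ∧ Unc (MM U x Q ω) e.1 ∧
          Unc (MM U x Q ω) e.2) =
        cnt (fun e : Fin U.card × Fin U.card => N' e.1 e.2 ∧
          Unc (rm (thr (xx U x)) ((ω.2 : ℝ) / Q) ω.1) e.1 ∧
          Unc (rm (thr (xx U x)) ((ω.2 : ℝ) / Q) ω.1) e.2) := by
      intro ω
      rw [← cnt_en2 U (fun a b => N a b ∧ a ∈ U ∧ b ∈ U ∧ Unc (MM U x Q ω) a ∧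
        Unc (MM U x Q ω) b) fun a b h => ⟨h.2.1, h.2.2.1⟩]
      exact cnt_congr fun e => ⟨fun h => ⟨h.1, (unc_en U).1 h.2.2.2.1, (unc_en U).1 h.2.2.2.2⟩,
        fun h => ⟨h.1, (en U e.1).2, (en U e.2).2, (unc_en U).2 h.2.1, (unc_en U).2 h.2.2⟩⟩
    set K : ℕ := cnt (fun e : Fin U.card × Fin U.card => N' e.1 e.2) with hK
    set Z : Fin Q → Equiv.Perm (Fin U.card) → ℝ := fun r σ =>
      (cnt (fun e : Fin U.card × Fin U.card => N' e.1 e.2 ∧
          Unc (rm (thr (xx U x)) ((r : ℝ) / Q) σ) e.1 ∧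
          Unc (rm (thr (xx U x)) ((r : ℝ) / Q) σ) e.2) : ℝ) with hZ
    have e2 : pr (fun ω => (cnt (fun e : V × V => N e.1 e.2 ∧ e.1 ∈ U ∧ e.2 ∈ U ∧
          Unc (MM U x Q ω) e.1 ∧ Unc (MM U x Q ω) e.2) : ℝ) ≤
          (τ ^ 2 - 20 / (U.card : ℝ)) * cnt (fun e : V × V => N e.1 e.2 ∧ e.1 ∈ U ∧ e.2 ∈ U) - t) =
        av (fun r : Fin Q => pr (fun σ => Z r σ ≤ (τ ^ 2 - 20 / (U.card : ℝ)) * K - t)) := by
      rw [← pr_prod (fun (σ : Equiv.Perm (Fin U.card)) (r : Fin Q) =>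
        Z r σ ≤ (τ ^ 2 - 20 / (U.card : ℝ)) * K - t)]
      exact pr_congr fun ω => by rw [e1, e0]
    rw [e2, ← av_const (Ω := Fin Q) (Real.exp (- t ^ 2 / (512 * (Fintype.card V : ℝ))))]
    refine av_mono fun r => ?_
    have hm := maurey_tail U.card (Z r) 8 (by norm_num)
      (fun σ i j => z_lip _ _ N' hN'mat σ i j) (Fintype.card V) hVR hVu t ht
    have e3 : (8 : ℝ) * (Fintype.card V : ℝ) * 8 ^ 2 = 512 * (Fintype.card V : ℝ) := by ring
    rw [e3] at hm
    have hav : (τ ^ 2 - 20 / (U.card : ℝ)) * K ≤ av (Z r) := by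
      have e4 : Z r = fun σ => ∑ p : Fin U.card × Fin U.card,
          if N' p.1 p.2 ∧ Unc (rm (thr (xx U x)) ((r : ℝ) / Q) σ) p.1 ∧
            Unc (rm (thr (xx U x)) ((r : ℝ) / Q) σ) p.2 then (1 : ℝ) else 0 := by
        funext σ
        rw [hZ]
        exact cnt_coe _
      rw [e4, av_sum, hK, cnt_coe, Finset.mul_sum]
      refine Finset.sum_le_sum fun p _ => ?_
      by_cases hp : N' p.1 p.2
      · rw [if_pos hp, mul_one]
        have e5 := rm_unc (xx U x) τ h0 h1 hw ((r : ℝ) / Q) (hs0 r) (hs1 r) p.1 p.2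
          (hN'mat.ne hp)
        rw [pr_eq_av] at e5
        refine e5.trans (av_mono fun σ => ?_)
        by_cases h6 : Unc (rm (thr (xx U x)) ((r : ℝ) / Q) σ) p.1 ∧
            Unc (rm (thr (xx U x)) ((r : ℝ) / Q) σ) p.2
        · rw [if_pos h6, if_pos ⟨hp, h6⟩]
        · rw [if_neg h6]
          split_ifs <;> norm_num
      · rw [if_neg hp, mul_zero]
        refine av_nonneg fun σ => ?_
        split_ifs <;> norm_num
    refine le_trans (pr_mono fun σ hσ => ?_) hm.2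
    have hσ' : Z r σ ≤ (τ ^ 2 - 20 / (U.card : ℝ)) * K - t := hσ
    linarith

end Pool.Agent.Work.MP_18db2a_co
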