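import Pool.Agent.Work.MP_18db2a_co.Basic

set_option autoImplicit false

/-!
# PermPr (size S-M, Mathlib only): images of two and of four points under a random permutation

The number of permutations with `σ a = p`, `σ b = q` is `(u - 2)!`.  Proof idea: for an injection `v : Fin k → Fin u` let `A w` be the number of `σ` with
`σ ∘ v = w` (`w : Fin k → Fin u` injective).  Multiplying on the left by a permutation `π` with `π ∘ w = w'` (`π` exists:
`Equiv.Perm` acts transitively on injections, e.g. `Function.Embedding`/`MulAction.IsMultiplyPretransitive`, or build it from swaps) gives `A w = A w'`;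
the injections `w` are `u (u-1) ... (u-k+1)` many (`Fintype.card_embedding_eq`) and `∑ w, A w = u!`.
Alternative for two points: `pr (σ a = p ∧ σ b = q)` does not depend on `(p, q)`, `p ≠ q`, and the sum over the `u (u-1)` pairs is `1`.
-/

namespace Pool.Agent.Work.MP_18db2a_co

open Finset

variable {u : ℕ}

private theorem cnt_emb {k : ℕ} (v w : Fin k ↪ Fin u) :
    cnt (fun σ : Equiv.Perm (Fin u) => ∀ i, σ (v i) = w i) * u.descFactorial k =
      Fintype.card (Equiv.Perm (Fin u)) := by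
  classical
  have hA : ∀ w' : Fin k ↪ Fin u, cnt (fun σ : Equiv.Perm (Fin u) => ∀ i, σ (v i) = w' i) =
      cnt (fun σ : Equiv.Perm (Fin u) => ∀ i, σ (v i) = w i) := by
    intro w'
    have := Equiv.Perm.isMultiplyPretransitive (Fin u) k
    obtain ⟨π, hπ⟩ := MulAction.exists_smul_eq (Equiv.Perm (Fin u)) w' w
    have h := cnt_equiv (Equiv.mulLeft π) (fun σ : Equiv.Perm (Fin u) => ∀ i, σ (v i) = w i)
    rw [← h]
    refine cnt_congr fun σ => ?_
    have hπ' : ∀ i, π (w' i) = w i := fun i => by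
      rw [← hπ]
      rfl
    constructor
    · intro h i
      show π (σ (v i)) = w i
      rw [h i, hπ' i]
    · intro h i
      apply π.injective
      have h2 : π (σ (v i)) = w i := h i
      rw [h2, hπ' i]
  have hsum : ∑ w' : Fin k ↪ Fin u, cnt (fun σ : Equiv.Perm (Fin u) => ∀ i, σ (v i) = w' i) =
      Fintype.card (Equiv.Perm (Fin u)) := by
    rw [cnt_comm]
    have h1 : ∀ σ ∈ (univ : Finset (Equiv.Perm (Fin u))),
        cnt (fun w' : Fin k ↪ Fin u => ∀ i, σ (v i) = w' i) = 1 := by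
      intro σ _
      have h2 : cnt (fun w' : Fin k ↪ Fin u => ∀ i, σ (v i) = w' i) =
          cnt (fun w' : Fin k ↪ Fin u => w' ∈ ({v.trans σ.toEmbedding} : Finset (Fin k ↪ Fin u))) := by
        refine cnt_congr fun w' => ?_
        rw [Finset.mem_singleton]
        constructor
        · intro h
          ext i
          rw [← h i]
          rfl
        · intro h i
          rw [h]
          rfl
      rw [h2, cnt_mem, Finset.card_singleton]
    rw [Finset.sum_congr rfl h1, Finset.sum_const, smul_eq_mul, mul_one, Finset.card_univ]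
  rw [Finset.sum_congr rfl (fun w' _ => hA w'), Finset.sum_const, smul_eq_mul, Finset.card_univ,
    Fintype.card_embedding_eq, Fintype.card_fin, Fintype.card_fin] at hsum
  rw [mul_comm]
  exact hsum

private theorem pr_emb {k : ℕ} (v w : Fin k ↪ Fin u) :
    pr (fun σ : Equiv.Perm (Fin u) => ∀ i, σ (v i) = w i) = 1 / ((u.descFactorial k : ℕ) : ℝ) := by
  have h := cnt_emb v w
  have hpos : 0 < Fintype.card (Equiv.Perm (Fin u)) := Fintype.card_pos
  have h2 : (0 : ℝ) < Fintype.card (Equiv.Perm (Fin u)) := by exact_mod_cast hpos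
  have h3 : u.descFactorial k ≠ 0 := by
    intro h0
    rw [h0, mul_zero] at h
    omega
  have h4 : ((u.descFactorial k : ℕ) : ℝ) ≠ 0 := by exact_mod_cast h3
  unfold pr
  rw [div_eq_div_iff h2.ne' h4, one_mul]
  exact_mod_cast h

theorem pr_perm2 (a b p q : Fin u) (hab : a ≠ b) (hpq : p ≠ q) :
    pr (fun σ : Equiv.Perm (Fin u) => σ a = p ∧ σ b = q) = 1 / ((u : ℝ) * ((u : ℝ) - 1)) := by
  have hinj : ∀ x y : Fin u, x ≠ y → Function.Injective (![x, y] : Fin 2 → Fin u) := by
    intro x y hxy i j h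
    fin_cases i <;> fin_cases j <;> simp_all
  have h := pr_emb ⟨![a, b], hinj a b hab⟩ ⟨![p, q], hinj p q hpq⟩
  have hu : 2 ≤ u := by
    have := Fintype.card_le_of_injective _ (hinj a b hab)
    simpa using this
  have e1 : pr (fun σ : Equiv.Perm (Fin u) => σ a = p ∧ σ b = q) =
      pr (fun σ : Equiv.Perm (Fin u) => ∀ i, σ ((⟨![a, b], hinj a b hab⟩ : Fin 2 ↪ Fin u) i) =
        (⟨![p, q], hinj p q hpq⟩ : Fin 2 ↪ Fin u) i) := by
    refine pr_congr fun σ => ?_
    rw [Fin.forall_fin_two]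
    rfl
  rw [e1, h]
  obtain ⟨m, rfl⟩ := Nat.exists_eq_add_of_le hu
  congr 1
  have e2 : (2 + m).descFactorial 2 = (2 + m) * (1 + m) := by
    rw [Nat.descFactorial_succ, Nat.descFactorial_succ, Nat.descFactorial_zero]
    have : 2 + m - 1 = 1 + m := by omega
    rw [this, Nat.sub_zero]
    ring
  rw [e2]
  push_cast
  ring

theorem pr_perm4 (a b c d p q r s : Fin u) (h1 : a ≠ b) (h2 : a ≠ c) (h3 : a ≠ d) (h4 : b ≠ c) (h5 : b ≠ d)
    (h6 : c ≠ d) (k1 : p ≠ q) (k2 : p ≠ r) (k3 : p ≠ s) (k4 : q ≠ r) (k5 : q ≠ s) (k6 : r ≠ s) :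
    pr (fun σ : Equiv.Perm (Fin u) => σ a = p ∧ σ b = q ∧ σ c = r ∧ σ d = s) =
      1 / ((u : ℝ) * ((u : ℝ) - 1) * ((u : ℝ) - 2) * ((u : ℝ) - 3)) := by
  have hinj : ∀ x y z t : Fin u, x ≠ y → x ≠ z → x ≠ t → y ≠ z → y ≠ t → z ≠ t →
      Function.Injective (![x, y, z, t] : Fin 4 → Fin u) := by
    intro x y z t e1 e2 e3 e4 e5 e6 i j h
    have f1 := e1.symm
    have f2 := e2.symm
    have f3 := e3.symm
    have f4 := e4.symm
    have f5 := e5.symm
    have f6 := e6.symm
    fin_cases i <;> fin_cases j <;> first | rfl | (exfalso; revert h; simpa)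
  have hi1 := hinj a b c d h1 h2 h3 h4 h5 h6
  have hi2 := hinj p q r s k1 k2 k3 k4 k5 k6
  have h := pr_emb ⟨![a, b, c, d], hi1⟩ ⟨![p, q, r, s], hi2⟩
  have hu : 4 ≤ u := by
    have := Fintype.card_le_of_injective _ hi1
    simpa using this
  have e1 : pr (fun σ : Equiv.Perm (Fin u) => σ a = p ∧ σ b = q ∧ σ c = r ∧ σ d = s) =
      pr (fun σ : Equiv.Perm (Fin u) => ∀ i, σ ((⟨![a, b, c, d], hi1⟩ : Fin 4 ↪ Fin u) i) =
        (⟨![p, q, r, s], hi2⟩ : Fin 4 ↪ Fin u) i) := by
    refine pr_congr fun σ => ?_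
    constructor
    · rintro ⟨g1, g2, g3, g4⟩ i
      fin_cases i
      · exact g1
      · exact g2
      · exact g3
      · exact g4
    · intro g
      exact ⟨g 0, g 1, g 2, g 3⟩
  rw [e1, h]
  obtain ⟨m, rfl⟩ := Nat.exists_eq_add_of_le hu
  congr 1
  have e2 : (4 + m).descFactorial 4 = (4 + m) * (3 + m) * (2 + m) * (1 + m) := by
    rw [Nat.descFactorial_succ, Nat.descFactorial_succ, Nat.descFactorial_succ,
      Nat.descFactorial_succ, Nat.descFactorial_zero]
    have g1 : 4 + m - 1 = 3 + m := by omega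
    have g2 : 4 + m - 2 = 2 + m := by omega
    have g3 : 4 + m - 3 = 1 + m := by omega
    rw [g1, g2, g3, Nat.sub_zero]
    ring
  rw [e2]
  push_cast
  ring

end Pool.Agent.Work.MP_18db2a_co
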