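import Pool.Agent.Work.MP_18db2a_co.Basic

set_option autoImplicit false

/-!
# PiAv (size S-M, Mathlib only): averages on finite products

`av_pi_prod`: `Finset.prod_univ_sum` (with `Fintype.piFinset_univ`) and `Fintype.card_pi`, `Finset.prod_div_distrib`.
`av_pi_eval`: apply `av_pi_prod` to the functions `h j = 1` for `j ≠ i`, `h i = g` (use `Function.update` or `dite`), or use the equivalence
`Equiv.piSplitAt`/`Equiv.funSplitAt`.
`av_pi_eval2`: `g (ω i) (ω j) = ∑ b, if ω j = b then g (ω i) b else 0`; for fixed `b` this is a product function of `ω`; apply `av_pi_prod`.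
(Or use `Equiv.piSplitAt i` and then `av_prod`.)
-/

namespace Pool.Agent.Work.MP_18db2a_co

open Finset

variable {I : Type} [Fintype I] [DecidableEq I] {Ω : I → Type} [∀ i, Fintype (Ω i)]

theorem av_pi_prod (h : ∀ i, Ω i → ℝ) :
    av (fun ω : (∀ i, Ω i) => ∏ i, h i (ω i)) = ∏ i, av (h i) := by
  simp only [av]
  rw [Finset.prod_div_distrib, Finset.prod_univ_sum, Fintype.piFinset_univ, Fintype.card_pi]
  push_cast
  rfl

private theorem av_pi_two [∀ i, Nonempty (Ω i)] (i j : I) (hij : i ≠ j) (u : Ω i → ℝ)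
    (v : Ω j → ℝ) : av (fun ω : (∀ i, Ω i) => u (ω i) * v (ω j)) = av u * av v := by
  let h : ∀ k, Ω k → ℝ := Function.update (Function.update (fun _ _ => (1 : ℝ)) j v) i u
  have hi : h i = u := Function.update_self _ _ _
  have hj : h j = v := by
    simp only [h]
    rw [Function.update_of_ne hij.symm, Function.update_self]
  have hk : ∀ k, k ≠ i ∧ k ≠ j → h k = fun _ => 1 := by
    intro k hk
    simp only [h]
    rw [Function.update_of_ne hk.1, Function.update_of_ne hk.2]
  have h1 := av_pi_prod h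
  have h2 : ∏ k, av (h k) = av u * av v := by
    rw [Finset.prod_eq_mul i j hij (fun k _ hk' => by rw [hk k hk', av_const])
      (fun hn => absurd (mem_univ _) hn) (fun hn => absurd (mem_univ _) hn), hi, hj]
  rw [← h2, ← h1]
  refine congrArg av (funext fun ω => ?_)
  rw [Finset.prod_eq_mul i j hij (fun k _ hk' => by rw [hk k hk'])
      (fun hn => absurd (mem_univ _) hn) (fun hn => absurd (mem_univ _) hn), hi, hj]

theorem av_pi_eval [∀ i, Nonempty (Ω i)] (i : I) (g : Ω i → ℝ) :
    av (fun ω : (∀ i, Ω i) => g (ω i)) = av g := by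
  let h : ∀ k, Ω k → ℝ := Function.update (fun _ _ => (1 : ℝ)) i g
  have hi : h i = g := Function.update_self _ _ _
  have hk : ∀ k, k ≠ i → h k = fun _ => 1 := by
    intro k hk
    simp only [h]
    rw [Function.update_of_ne hk]
  have h1 := av_pi_prod h
  have h2 : ∏ k, av (h k) = av g := by
    rw [Finset.prod_eq_single i (fun k _ hk' => by rw [hk k hk', av_const])
      (fun hn => absurd (mem_univ _) hn), hi]
  rw [← h2, ← h1]
  refine congrArg av (funext fun ω => ?_)
  rw [Finset.prod_eq_single i (fun k _ hk' => by rw [hk k hk'])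
      (fun hn => absurd (mem_univ _) hn), hi]

theorem av_pi_eval2 [∀ i, Nonempty (Ω i)] (i j : I) (hij : i ≠ j) (g : Ω i → Ω j → ℝ) :
    av (fun ω : (∀ i, Ω i) => g (ω i) (ω j)) = av fun b => av fun a => g a b := by
  classical
  have h1 : (fun ω : (∀ i, Ω i) => g (ω i) (ω j)) =
      fun ω => ∑ b, g (ω i) b * (if ω j = b then (1 : ℝ) else 0) := by
    funext ω
    simp
  have h3 : ∀ b : Ω j, av (fun x : Ω j => if x = b then (1 : ℝ) else 0) =
      1 / (Fintype.card (Ω j) : ℝ) := by
    intro b
    simp [av]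
  rw [h1, av_sum univ (fun (b : Ω j) (ω : (∀ i, Ω i)) =>
    g (ω i) b * (if ω j = b then (1 : ℝ) else 0))]
  have h2 : ∀ b : Ω j, av (fun ω : (∀ i, Ω i) => g (ω i) b * (if ω j = b then (1 : ℝ) else 0)) =
      av (fun a => g a b) * (1 / (Fintype.card (Ω j) : ℝ)) := by
    intro b
    rw [av_pi_two i j hij (fun a => g a b) (fun x => if x = b then (1 : ℝ) else 0), h3]
  rw [Finset.sum_congr rfl fun b _ => h2 b, ← Finset.sum_mul]
  conv_rhs => rw [av]
  rw [mul_one_div]

end Pool.Agent.Work.MP_18db2a_co
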