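import Pool.Agent.Work.MP_18db2a_co.Pack
import Pool.Agent.Work.MP_18db2a_co.EvLoad
import Pool.Agent.Work.MP_18db2a_co.EvUnc
import Pool.Agent.Work.MP_18db2a_co.EvSize
import Pool.Agent.Work.MP_18db2a_co.EvAvail
import Pool.Agent.Work.MP_18db2a_co.Lim

set_option autoImplicit false

/-!
# RL (size M, uses the statements of Pack, EvLoad, EvUnc, EvSize, EvAvail, Lim): random matchings for all colours

Take `m₀` of `lim_small`, `m = card V`, `Q = m²` (`> 0`, `card I ≤ 3 Q`), and for every `i` the random matching `M i` on `Ω i` of `exists_pk` (`choose`).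
The union over all bad events (`pr_or_le`, `pr_exists_le`; pairs `a ≠ b`: at most `m²`, colours: at most `3 m²`, pairs `i ≠ j` with `ε m ≤ |U i|`: at most
`9 m⁴`) has probability less than `1` by `lim_small`; so some `ω` avoids all of them (`exists_of_pr_lt_one`).  `F i = M i (ω i)`.
(`6 ≤ ε m` follows from `120 ≤ ε² m` and `ε ≤ 1`.)
-/

namespace Pool.Agent.Work.MP_18db2a_co

open Finset

private theorem rl_ex {Ω A : Type} [Fintype Ω] (s : Finset A) (E : A → Ω → Prop) (B : ℝ) (hB : 0 ≤ B)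
    (h : ∀ a ∈ s, pr (E a) ≤ B) (N : ℝ) (hN : (s.card : ℝ) ≤ N) :
    pr (fun x => ∃ a ∈ s, E a x) ≤ N * B := by
  refine (pr_exists_le s E).trans ((Finset.sum_le_sum h).trans ?_)
  rw [Finset.sum_const, nsmul_eq_mul]
  exact mul_le_mul_of_nonneg_right hN hB

theorem random_matchings (ε : ℝ) (hε : 0 < ε) (hε1 : ε ≤ 1) : ∃ m₀ : ℕ, ∀ (V I : Type) [Fintype V] [DecidableEq V]
    [Fintype I] [DecidableEq I] (U : I → Finset V) (x : I → V → V → ℝ) (τ : ℝ), m₀ ≤ Fintype.card V →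
    Fintype.card I ≤ 3 * Fintype.card V ^ 2 → 0 ≤ τ → τ ≤ 1 → (∀ i, Wt (U i) (x i) τ) →
    (∀ a b, a ≠ b → ∑ i, x i a b ≤ 3 * (Fintype.card V : ℝ)) →
    ∃ F : I → V → V → Prop, (∀ i, IsMat (U i) (F i)) ∧ (∀ i a b, F i a b → 0 < x i a b) ∧
      (∀ a b, a ≠ b → |(ld F a b : ℝ) - ∑ i, x i a b| ≤ ε * (Fintype.card V : ℝ)) ∧
      (∀ i, |(nv (F i) : ℝ) - ∑ a, ∑ b, x i a b| ≤ ε * (Fintype.card V : ℝ)) ∧
      (∀ a b, a ≠ b → τ ^ 2 * cnt (fun i => a ∈ U i ∧ b ∈ U i ∧ ε * (Fintype.card V : ℝ) ≤ ((U i).card : ℝ)) -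
          ε * (Fintype.card V : ℝ) ^ 2 ≤
        (cnt (fun i => a ∈ U i ∧ b ∈ U i ∧ Unc (F i) a ∧ Unc (F i) b) : ℝ)) ∧
      (∀ i j, i ≠ j → ε * (Fintype.card V : ℝ) ≤ ((U i).card : ℝ) →
        τ ^ 2 * cnt (fun e : V × V => F j e.1 e.2 ∧ e.1 ∈ U i ∧ e.2 ∈ U i) - ε * (Fintype.card V : ℝ) ≤
        (cnt (fun e : V × V => F j e.1 e.2 ∧ e.1 ∈ U i ∧ e.2 ∈ U i ∧ Unc (F i) e.1 ∧ Unc (F i) e.2) : ℝ)) := by
  classical
  obtain ⟨m₀, hm₀⟩ := lim_small ε hε hε1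
  refine ⟨m₀, fun V I _ _ _ _ U x τ hV hI hτ0 hτ1 hx hsum => ?_⟩
  obtain ⟨h120, hlt⟩ := hm₀ _ hV
  set m : ℕ := Fintype.card V with hm
  have hmpos : 0 < (m : ℝ) := by
    rcases Nat.eq_zero_or_pos m with h | h
    · rw [h] at h120
      norm_num at h120
    · exact_mod_cast h
  have hmn : 0 < m := by exact_mod_cast hmpos
  have hεm : 120 ≤ ε * (m : ℝ) := by
    have : ε ^ 2 * (m : ℝ) ≤ ε * (m : ℝ) := by
      have h1 : ε ^ 2 ≤ ε := by nlinarith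
      exact mul_le_mul_of_nonneg_right h1 hmpos.le
    linarith
  have hQ : 0 < m ^ 2 := by positivity
  choose Ω fΩ nΩ M hM using fun i => exists_pk (U i) (x i) τ hτ0 hτ1 (hx i) (m ^ 2) hQ
  have hIR : (Fintype.card I : ℝ) ≤ 3 * (m : ℝ) ^ 2 := by exact_mod_cast hI
  let P : Finset (V × V) := univ.filter fun p => p.1 ≠ p.2
  let R : Finset (I × I) := univ.filter fun q => q.1 ≠ q.2 ∧ ε * (m : ℝ) ≤ ((U q.1).card : ℝ)
  have hP : (P.card : ℝ) ≤ (m : ℝ) ^ 2 := by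
    have h1 : P.card ≤ m * m := by
      rw [← Fintype.card_prod]
      exact Finset.card_le_univ _
    calc (P.card : ℝ) ≤ ((m * m : ℕ) : ℝ) := by exact_mod_cast h1
      _ = (m : ℝ) ^ 2 := by push_cast; ring
  have hU : ((univ : Finset I).card : ℝ) ≤ 3 * (m : ℝ) ^ 2 := by
    rw [Finset.card_univ]
    exact hIR
  have hR : (R.card : ℝ) ≤ 9 * (m : ℝ) ^ 4 := by
    have h1 : R.card ≤ Fintype.card I * Fintype.card I := by
      rw [← Fintype.card_prod]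
      exact Finset.card_le_univ _
    calc (R.card : ℝ) ≤ ((Fintype.card I * Fintype.card I : ℕ) : ℝ) := by exact_mod_cast h1
      _ = (Fintype.card I : ℝ) * Fintype.card I := by push_cast; ring
      _ ≤ (3 * (m : ℝ) ^ 2) * (3 * (m : ℝ) ^ 2) :=
        mul_le_mul hIR hIR (Nat.cast_nonneg _) (by positivity)
      _ = 9 * (m : ℝ) ^ 4 := by ring
  let E1 : V × V → (∀ i, Ω i) → Prop := fun p ω =>
    ε * (m : ℝ) < |(ld (fun i => M i (ω i)) p.1 p.2 : ℝ) - ∑ i, x i p.1 p.2|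
  let E2 : V × V → (∀ i, Ω i) → Prop := fun p ω =>
    (cnt (fun i => p.1 ∈ U i ∧ p.2 ∈ U i ∧ Unc (M i (ω i)) p.1 ∧ Unc (M i (ω i)) p.2) : ℝ) <
      τ ^ 2 * cnt (fun i => p.1 ∈ U i ∧ p.2 ∈ U i ∧ ε * (m : ℝ) ≤ ((U i).card : ℝ)) -
        ε * (m : ℝ) ^ 2
  let E3 : I → (∀ i, Ω i) → Prop := fun i ω =>
    ε * (m : ℝ) < |(nv (M i (ω i)) : ℝ) - ∑ a, ∑ b, x i a b|
  let E4 : I × I → (∀ i, Ω i) → Prop := fun q ω =>
    (cnt (fun e : V × V => M q.2 (ω q.2) e.1 e.2 ∧ e.1 ∈ U q.1 ∧ e.2 ∈ U q.1 ∧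
      Unc (M q.1 (ω q.1)) e.1 ∧ Unc (M q.1 (ω q.1)) e.2) : ℝ) <
      τ ^ 2 * cnt (fun e : V × V => M q.2 (ω q.2) e.1 e.2 ∧ e.1 ∈ U q.1 ∧ e.2 ∈ U q.1) - ε * (m : ℝ)
  have b1 : pr (fun ω => ∃ p ∈ P, E1 p ω) ≤ (m : ℝ) ^ 2 * (2 * Real.exp (- ε ^ 2 * m / 64)) :=
    rl_ex P E1 _ (by positivity) (fun p hp => ev_load U x τ (m ^ 2) M hM ε hε hε1 hQ hI
      (by linarith) p.1 p.2 (mem_filter.1 hp).2 (hsum _ _ (mem_filter.1 hp).2)) _ hP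
  have b2 : pr (fun ω => ∃ p ∈ P, E2 p ω) ≤ (m : ℝ) ^ 2 * Real.exp (- ε ^ 2 * (m : ℝ) ^ 2 / 48) :=
    rl_ex P E2 _ (by positivity) (fun p hp => ev_unc U x τ (m ^ 2) M hM ε hε hε1 hIR
      h120 p.1 p.2 (mem_filter.1 hp).2) _ hP
  have b3 : pr (fun ω => ∃ i ∈ (univ : Finset I), E3 i ω) ≤
      3 * (m : ℝ) ^ 2 * (2 * Real.exp (- ε ^ 2 * m / 512)) :=
    rl_ex univ E3 _ (by positivity) (fun i _ => ev_size U x τ (m ^ 2) M hM ε hε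
      (by linarith) i) _ hU
  have b4 : pr (fun ω => ∃ q ∈ R, E4 q ω) ≤ 9 * (m : ℝ) ^ 4 * Real.exp (- ε ^ 2 * m / 2048) :=
    rl_ex R E4 _ (by positivity) (fun q hq => ev_avail U x τ (m ^ 2) M hM ε hε
      (by linarith) q.1 q.2 (mem_filter.1 hq).2.1 (mem_filter.1 hq).2.2) _ hR
  have hbad : pr (fun ω => (∃ p ∈ P, E1 p ω) ∨ (∃ p ∈ P, E2 p ω) ∨
      (∃ i ∈ (univ : Finset I), E3 i ω) ∨ ∃ q ∈ R, E4 q ω) < 1 := by
    have c1 := pr_or_le (fun ω => ∃ p ∈ P, E1 p ω) (fun ω => (∃ p ∈ P, E2 p ω) ∨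
      (∃ i ∈ (univ : Finset I), E3 i ω) ∨ ∃ q ∈ R, E4 q ω)
    have c2 := pr_or_le (fun ω => ∃ p ∈ P, E2 p ω) (fun ω =>
      (∃ i ∈ (univ : Finset I), E3 i ω) ∨ ∃ q ∈ R, E4 q ω)
    have c3 := pr_or_le (fun ω => ∃ i ∈ (univ : Finset I), E3 i ω) (fun ω => ∃ q ∈ R, E4 q ω)
    linarith
  obtain ⟨ω, hω⟩ := exists_of_pr_lt_one _ hbad
  have n1 : ∀ p ∈ P, ¬ E1 p ω := fun p hp h => hω (Or.inl ⟨p, hp, h⟩)
  have n2 : ∀ p ∈ P, ¬ E2 p ω := fun p hp h => hω (Or.inr (Or.inl ⟨p, hp, h⟩))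
  have n3 : ∀ i, ¬ E3 i ω := fun i h => hω (Or.inr (Or.inr (Or.inl ⟨i, mem_univ _, h⟩)))
  have n4 : ∀ q ∈ R, ¬ E4 q ω := fun q hq h => hω (Or.inr (Or.inr (Or.inr ⟨q, hq, h⟩)))
  refine ⟨fun i => M i (ω i), fun i => (hM i).mat _, fun i a b => (hM i).pos _ a b, ?_, ?_, ?_, ?_⟩
  · intro a b hab
    exact not_lt.1 (n1 (a, b) (mem_filter.2 ⟨mem_univ _, hab⟩))
  · intro i
    exact not_lt.1 (n3 i)
  · intro a b hab
    exact not_lt.1 (n2 (a, b) (mem_filter.2 ⟨mem_univ _, hab⟩))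
  · intro i j hij hi
    exact not_lt.1 (n4 (i, j) (mem_filter.2 ⟨mem_univ _, hij, hi⟩))

end Pool.Agent.Work.MP_18db2a_co
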