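import Pool.Agent.Work.MP_18db2a_co.Basic

/-!
# RmMat (size M): the random matching is a matching; effect of a transposition

`rm_isMat`: `σ a` determines `j` and the parity, hence `σ b`, hence `b`.
`rm_pos`: `0 ≤ j + s < y a b`.
`rm_swap`: `D = {a | σ a / 2 = σ p / 2 ∨ σ a / 2 = σ q / 2}` (as natural numbers); every value of `(σ a : ℕ) / 2` is taken at most twice, so `D` has at most
four members, and `p, q ∈ D`.  Let `σ' = σ * swap p q` and `a ∉ D`.  Then `σ' a = σ a`.  If `rm y s σ' a b` then `σ' a, σ' b` are the two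
numbers `2 j, 2 j + 1`; `b = p` would give `σ' b = σ q` and `σ a / 2 = σ q / 2`, `b = q` would give `σ a / 2 = σ p / 2`; so `b ≠ p, q`,
`σ' b = σ b` and `rm y s σ a b`.  The converse is the same.
`nv_lip`: `nv` counts the `a` with `∃ b, rm y s σ a b`; only the members of `D` can change.
`z_lip`: let `P σ` be the set of pairs `(a, b)` with `N a b`, `Unc (rm y s σ) a`, `Unc (rm y s σ) b`; a pair which lies in exactly one of
`P σ'`, `P σ` has `a ∈ D` or `b ∈ D`; as `N` is a matching there are at most `4 + 4` of them.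
-/

set_option autoImplicit false

/-!
# RmMat (size M): the random matching is a matching; effect of a transposition

`rm_isMat`: `σ a` determines `j` and the parity, hence `σ b`, hence `b`.
`rm_pos`: `0 ≤ j + s < y a b`.
`rm_swap`: `D = {a | σ a / 2 = σ p / 2 ∨ σ a / 2 = σ q / 2}` (as natural numbers); every value of `(σ a : ℕ) / 2` is taken at most twice, so `D` has at most
four members, and `p, q ∈ D`.  Let `σ' = σ * swap p q` and `a ∉ D`.  Then `σ' a = σ a`.  If `rm y s σ' a b` then `σ' a, σ' b` are the two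
numbers `2 j, 2 j + 1`; `b = p` would give `σ' b = σ q` and `σ a / 2 = σ q / 2`, `b = q` would give `σ a / 2 = σ p / 2`; so `b ≠ p, q`,
`σ' b = σ b` and `rm y s σ a b`.  The converse is the same.
`nv_lip`: `nv` counts the `a` with `∃ b, rm y s σ a b`; only the members of `D` can change.
`z_lip`: let `P σ` be the set of pairs `(a, b)` with `N a b`, `Unc (rm y s σ) a`, `Unc (rm y s σ) b`; a pair which lies in exactly one of
`P σ'`, `P σ` has `a ∈ D` or `b ∈ D`; as `N` is a matching there are at most `4 + 4` of them.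
-/

namespace Pool.Agent.Work.MP_18db2a_co

open Finset

variable {u : ℕ}

theorem rm_isMat (y : Fin u → Fin u → ℝ) (hy : ∀ a b, y a b = y b a) (s : ℝ) (σ : Equiv.Perm (Fin u)) :
    IsMat univ (rm y s σ) := by
  refine ⟨?_, ?_, ?_, fun _ _ _ => mem_univ _⟩
  · rintro a b ⟨j, h1, h2⟩
    refine ⟨j, by rwa [hy b a], ?_⟩
    rcases h2 with ⟨h2, h3⟩ | ⟨h2, h3⟩
    · exact Or.inr ⟨h3, h2⟩
    · exact Or.inl ⟨h3, h2⟩
  · rintro a ⟨j, -, h2⟩
    omega
  · rintro a b c ⟨j, -, h2⟩ ⟨k, -, h3⟩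
    apply σ.injective
    apply Fin.ext
    omega

theorem rm_pos (y : Fin u → Fin u → ℝ) (s : ℝ) (hs : 0 ≤ s) (σ : Equiv.Perm (Fin u)) (a b : Fin u)
    (h : rm y s σ a b) : 0 < y a b := by
  obtain ⟨j, h1, -⟩ := h
  have : (0 : ℝ) ≤ j := Nat.cast_nonneg j
  linarith

private theorem rm_half (y : Fin u → Fin u → ℝ) (s : ℝ) (σ : Equiv.Perm (Fin u)) (a b : Fin u)
    (h : rm y s σ a b) : (σ a : ℕ) / 2 = (σ b : ℕ) / 2 := by
  obtain ⟨j, -, h2⟩ := h
  omega

private theorem rm_card_half (σ : Equiv.Perm (Fin u)) (k : ℕ) :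
    (univ.filter fun a : Fin u => (σ a : ℕ) / 2 = k).card ≤ 2 := by
  have h : (univ.filter fun a : Fin u => (σ a : ℕ) / 2 = k).card ≤
      ({2 * k, 2 * k + 1} : Finset ℕ).card := by
    refine Finset.card_le_card_of_injOn (fun a => (σ a : ℕ)) ?_ ?_
    · intro a ha
      have h1 : (σ a : ℕ) / 2 = k := (mem_filter.1 ha).2
      show (σ a : ℕ) ∈ ({2 * k, 2 * k + 1} : Finset ℕ)
      rw [Finset.mem_insert, Finset.mem_singleton]
      omega
    · intro a _ b _ hab
      exact σ.injective (Fin.ext hab)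
  exact h.trans Finset.card_le_two

theorem rm_swap (y : Fin u → Fin u → ℝ) (s : ℝ) (σ : Equiv.Perm (Fin u)) (p q : Fin u) :
    ∃ D : Finset (Fin u), D.card ≤ 4 ∧ ∀ a b, a ∉ D → (rm y s (σ * Equiv.swap p q) a b ↔ rm y s σ a b) := by
  classical
  refine ⟨(univ.filter fun a : Fin u => (σ a : ℕ) / 2 = (σ p : ℕ) / 2) ∪
    (univ.filter fun a : Fin u => (σ a : ℕ) / 2 = (σ q : ℕ) / 2), ?_, ?_⟩
  · refine (Finset.card_union_le _ _).trans ?_
    have h1 := rm_card_half σ ((σ p : ℕ) / 2)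
    have h2 := rm_card_half σ ((σ q : ℕ) / 2)
    omega
  · intro a b ha
    rw [Finset.mem_union, mem_filter, mem_filter] at ha
    push Not at ha
    obtain ⟨ha1, ha2⟩ := ha
    replace ha1 := ha1 (mem_univ _)
    replace ha2 := ha2 (mem_univ _)
    have hap : a ≠ p := by
      rintro rfl
      exact ha1 rfl
    have haq : a ≠ q := by
      rintro rfl
      exact ha2 rfl
    have hsa : (σ * Equiv.swap p q) a = σ a := by
      rw [Equiv.Perm.mul_apply, Equiv.swap_apply_of_ne_of_ne hap haq]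
    by_cases hbp : b = p
    · subst hbp
      have hsb : (σ * Equiv.swap b q) b = σ q := by
        rw [Equiv.Perm.mul_apply, Equiv.swap_apply_left]
      constructor
      · intro h
        have := rm_half y s _ a b h
        rw [hsa, hsb] at this
        exact absurd this ha2
      · intro h
        exact absurd (rm_half y s _ a b h) ha1
    · by_cases hbq : b = q
      · subst hbq
        have hsb : (σ * Equiv.swap p b) b = σ p := by
          rw [Equiv.Perm.mul_apply, Equiv.swap_apply_right]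
        constructor
        · intro h
          have := rm_half y s _ a b h
          rw [hsa, hsb] at this
          exact absurd this ha1
        · intro h
          exact absurd (rm_half y s _ a b h) ha2
      · have hsb : (σ * Equiv.swap p q) b = σ b := by
          rw [Equiv.Perm.mul_apply, Equiv.swap_apply_of_ne_of_ne hbp hbq]
        unfold rm
        rw [hsa, hsb]

private theorem rm_cnt_le {A : Type} [Fintype A] {P P' R : A → Prop} {k : ℕ} (hR : cnt R ≤ k)
    (h : ∀ a, P' a → P a ∨ R a) : (cnt P' : ℝ) - cnt P ≤ k := by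
  have h1 : cnt P' ≤ cnt P + k := (cnt_mono h).trans ((cnt_or_le _ _).trans (by omega))
  have h2 : (cnt P' : ℝ) ≤ cnt P + k := by exact_mod_cast h1
  linarith

theorem nv_lip (y : Fin u → Fin u → ℝ) (s : ℝ) (σ : Equiv.Perm (Fin u)) (p q : Fin u) :
    |(nv (rm y s (σ * Equiv.swap p q)) : ℝ) - nv (rm y s σ)| ≤ 4 := by
  classical
  obtain ⟨D, hD, hDs⟩ := rm_swap y s σ p q
  have hR : cnt (fun a : Fin u => a ∈ D) ≤ 4 := by
    rw [cnt_mem]
    exact hD
  rw [abs_le]
  constructor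
  · have h1 := rm_cnt_le (P := fun a => ∃ b, rm y s (σ * Equiv.swap p q) a b)
      (P' := fun a => ∃ b, rm y s σ a b) hR (by
        rintro a ⟨b, hb⟩
        by_cases ha : a ∈ D
        · exact Or.inr ha
        · exact Or.inl ⟨b, (hDs a b ha).2 hb⟩)
    rw [nv, nv]
    push_cast at h1
    linarith
  · have h1 := rm_cnt_le (P := fun a => ∃ b, rm y s σ a b)
      (P' := fun a => ∃ b, rm y s (σ * Equiv.swap p q) a b) hR (by
        rintro a ⟨b, hb⟩
        by_cases ha : a ∈ D
        · exact Or.inr ha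
        · exact Or.inl ⟨b, (hDs a b ha).1 hb⟩)
    rw [nv, nv]
    push_cast at h1
    linarith

theorem z_lip (y : Fin u → Fin u → ℝ) (s : ℝ) (N : Fin u → Fin u → Prop) (hN : IsMat univ N)
    (σ : Equiv.Perm (Fin u)) (p q : Fin u) :
    |(cnt (fun e : Fin u × Fin u => N e.1 e.2 ∧ Unc (rm y s (σ * Equiv.swap p q)) e.1 ∧
        Unc (rm y s (σ * Equiv.swap p q)) e.2) : ℝ) -
      cnt (fun e : Fin u × Fin u => N e.1 e.2 ∧ Unc (rm y s σ) e.1 ∧ Unc (rm y s σ) e.2)| ≤ 8 := by
  classical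
  obtain ⟨D, hD, hDs⟩ := rm_swap y s σ p q
  have hU : ∀ a, a ∉ D → (Unc (rm y s (σ * Equiv.swap p q)) a ↔ Unc (rm y s σ) a) := by
    intro a ha
    constructor
    · intro h b hb
      exact h b ((hDs a b ha).2 hb)
    · intro h b hb
      exact h b ((hDs a b ha).1 hb)
  have hR1 : cnt (fun e : Fin u × Fin u => N e.1 e.2 ∧ e.1 ∈ D) ≤ 4 := by
    refine le_trans ?_ hD
    rw [← cnt_mem D]
    refine cnt_le_of_inj (fun e => e.1) (fun e he => he.2) ?_
    rintro ⟨a, b⟩ ⟨c, d⟩ h1 h2 h3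
    have h3' : a = c := h3
    subst h3'
    rw [hN.uniq a b d h1.1 h2.1]
  have hR2 : cnt (fun e : Fin u × Fin u => N e.1 e.2 ∧ e.2 ∈ D) ≤ 4 := by
    refine le_trans ?_ hD
    rw [← cnt_mem D]
    refine cnt_le_of_inj (fun e => e.2) (fun e he => he.2) ?_
    rintro ⟨a, b⟩ ⟨c, d⟩ h1 h2 h3
    have h3' : b = d := h3
    subst h3'
    rw [hN.uniq b a c (hN.symm _ _ h1.1) (hN.symm _ _ h2.1)]
  have hR : cnt (fun e : Fin u × Fin u => (N e.1 e.2 ∧ e.1 ∈ D) ∨ (N e.1 e.2 ∧ e.2 ∈ D)) ≤ 8 :=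
    (cnt_or_le _ _).trans (by omega)
  rw [abs_le]
  constructor
  · have h1 := rm_cnt_le
      (P := fun e : Fin u × Fin u => N e.1 e.2 ∧ Unc (rm y s (σ * Equiv.swap p q)) e.1 ∧
        Unc (rm y s (σ * Equiv.swap p q)) e.2)
      (P' := fun e : Fin u × Fin u => N e.1 e.2 ∧ Unc (rm y s σ) e.1 ∧ Unc (rm y s σ) e.2) hR (by
        rintro ⟨a, b⟩ ⟨h1, h2, h3⟩
        by_cases ha : a ∈ D
        · exact Or.inr (Or.inl ⟨h1, ha⟩)
        · by_cases hb : b ∈ D
          · exact Or.inr (Or.inr ⟨h1, hb⟩)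
          · exact Or.inl ⟨h1, (hU a ha).2 h2, (hU b hb).2 h3⟩)
    push_cast at h1
    linarith
  · have h1 := rm_cnt_le
      (P := fun e : Fin u × Fin u => N e.1 e.2 ∧ Unc (rm y s σ) e.1 ∧ Unc (rm y s σ) e.2)
      (P' := fun e : Fin u × Fin u => N e.1 e.2 ∧ Unc (rm y s (σ * Equiv.swap p q)) e.1 ∧
        Unc (rm y s (σ * Equiv.swap p q)) e.2) hR (by
        rintro ⟨a, b⟩ ⟨h1, h2, h3⟩
        by_cases ha : a ∈ D
        · exact Or.inr (Or.inl ⟨h1, ha⟩)
        · by_cases hb : b ∈ D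
          · exact Or.inr (Or.inr ⟨h1, hb⟩)
          · exact Or.inl ⟨h1, (hU a ha).1 h2, (hU b hb).1 h3⟩)
    push_cast at h1
    linarith

end Pool.Agent.Work.MP_18db2a_co
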