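import Pool.Agent.Work.MP_18db2a_co.RL
import Pool.Agent.Work.MP_18db2a_co.Compl

set_option autoImplicit false

/-!
# RoundN (size M, uses the statements of RL and Compl): from a fractional solution with slack to a solution

Let `m = card V`.  Choose `η = min (ω/4) (τ²/200)` and `ε = min (η/4) (τ²/100) (1/10)` (so `0 < ε ≤ 1`), `m₀` = maximum of the `m₀` of `random_matchings ε` and a
large number.  Put `x i a b = (1 - η) * y i a b` (still `Wt (U i) (x i) τ`; the loads are `(1 - η) δ ≤ 3 m`).  RL gives `F`.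
* `ld F a b ≤ (1 - η) δ + ε m ≤ δ` (`δ ≥ m`, `ε ≤ η`), so `res a b = δ - ld F a b` (`0` for `a = b`) satisfies `res a b ≤ η δ + ε m ≤ 3 η m`.
* `cnt (a, b ∈ U i, m/10 ≤ |U i|) ≥ m²/4` and `ε ≤ 1/10` give `cnt (a ∈ U i, b ∈ U i, Unc, Unc) ≥ τ² m²/4 - ε m² ≥ τ² m² / 5`.
* `complete` with `Δ = ⌈3 η m²⌉`, `K = (∑ res) + 1`: `2 Δ K + ∑ res < K (2 Δ + 1) ≤ K * τ² m²/5` (as `6 η m² + 3 ≤ τ² m² / 5` for large `m`).
* loads: `ld F' a b = δ`.  Sizes: `nv (F' i) ≥ nv (F i) ≥ (1 - η) ∑∑ y - ε m ≥ ∑∑ y - η m - ε m ≥ b i + ω m - η m - ε m ≥ b i`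
  (`∑ a, ∑ b, y i a b ≤ m`, because `∑ b, y i a b ≤ 1`; `nv` is monotone).
-/

namespace Pool.Agent.Work.MP_18db2a_co

open Finset

theorem round_slack (τ ω : ℝ) (hτ : 0 < τ) (hτ1 : τ ≤ 1) (hω : 0 < ω) : ∃ m₀ : ℕ, ∀ (V I : Type) [Fintype V]
    [DecidableEq V] [Fintype I] [DecidableEq I] (U : I → Finset V) (y : I → V → V → ℝ) (δ : ℕ) (b : I → ℝ),
    m₀ ≤ Fintype.card V → Fintype.card I ≤ 3 * Fintype.card V ^ 2 → Fintype.card V ≤ δ →
    δ ≤ 2 * Fintype.card V → (∀ i, Wt (U i) (y i) τ) → (∀ a b, a ≠ b → ∑ i, y i a b = δ) →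
    (∀ i, b i + ω * (Fintype.card V : ℝ) ≤ ∑ a, ∑ b, y i a b) →
    (∀ a b, a ≠ b → (Fintype.card V : ℝ) ^ 2 / 4 ≤
      cnt (fun i => a ∈ U i ∧ b ∈ U i ∧ (Fintype.card V : ℝ) / 10 ≤ ((U i).card : ℝ))) →
    ∃ F : I → V → V → Prop, (∀ i, IsMat (U i) (F i)) ∧ (∀ a b, a ≠ b → ld F a b = δ) ∧
      ∀ i, b i ≤ (nv (F i) : ℝ) := by
  obtain ⟨η, hη0, hη1, hη2⟩ : ∃ η : ℝ, 0 < η ∧ η ≤ ω / 4 ∧ η ≤ τ ^ 2 / 200 :=
    ⟨min (ω / 4) (τ ^ 2 / 200), lt_min (by positivity) (by positivity), min_le_left _ _,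
      min_le_right _ _⟩
  obtain ⟨ε, hε0, hε1, hε2, hε3⟩ : ∃ ε : ℝ, 0 < ε ∧ ε ≤ η / 4 ∧ ε ≤ τ ^ 2 / 100 ∧ ε ≤ 1 / 10 :=
    ⟨min (η / 4) (min (τ ^ 2 / 100) (1 / 10)),
      lt_min (by positivity) (lt_min (by positivity) (by norm_num)), min_le_left _ _,
      (min_le_right _ _).trans (min_le_left _ _), (min_le_right _ _).trans (min_le_right _ _)⟩
  have hτ2 : τ ^ 2 ≤ 1 := by nlinarith
  have hη3 : η ≤ 1 := by linarith
  obtain ⟨m₀, hm₀⟩ := random_matchings ε hε0 (by linarith)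
  refine ⟨max m₀ (⌈20 / τ ^ 2⌉₊), ?_⟩
  intro V I _ _ _ _ U y δ b hm hI hδ1 hδ2 hy hload hb hcnt
  have hm1 : m₀ ≤ Fintype.card V := (le_max_left _ _).trans hm
  have hm2 : ⌈20 / τ ^ 2⌉₊ ≤ Fintype.card V := (le_max_right _ _).trans hm
  obtain ⟨m, hmdef⟩ : ∃ m : ℝ, m = (Fintype.card V : ℝ) := ⟨_, rfl⟩
  have hm3 : 20 / τ ^ 2 ≤ m := by
    rw [hmdef]
    exact (Nat.le_ceil _).trans (by exact_mod_cast hm2)
  have hm4 : 20 ≤ τ ^ 2 * m := by
    rw [div_le_iff₀ (by positivity)] at hm3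
    linarith
  have hm0 : 0 ≤ m := by
    rw [hmdef]
    positivity
  have hm5 : 20 ≤ m := by nlinarith
  have hδ1' : m ≤ (δ : ℝ) := by
    rw [hmdef]
    exact_mod_cast hδ1
  have hδ2' : (δ : ℝ) ≤ 2 * m := by
    rw [hmdef]
    exact_mod_cast hδ2
  have hx : ∀ i, Wt (U i) (fun a b => (1 - η) * y i a b) τ := by
    intro i
    have h := hy i
    refine ⟨?_, ?_, ?_, ?_, ?_, ?_⟩
    · intro a b
      exact mul_nonneg (by linarith) (h.nonneg a b)
    · intro a b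
      rw [h.symm a b]
    · intro a
      rw [h.diag a, mul_zero]
    · intro a b ha
      rw [h.out a b ha, mul_zero]
    · intro a b
      have h1 := h.le a b
      have h2 : 0 ≤ y i a b * ((U i).card : ℝ) := mul_nonneg (h.nonneg a b) (Nat.cast_nonneg _)
      nlinarith
    · intro a
      have h1 := h.cov a
      have h2 : 0 ≤ ∑ b, y i a b := Finset.sum_nonneg fun b _ => h.nonneg a b
      rw [← Finset.mul_sum]
      nlinarith
  have hxl : ∀ a b, a ≠ b → ∑ i, (1 - η) * y i a b = (1 - η) * δ := by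
    intro a b hab
    rw [← Finset.mul_sum, hload a b hab]
  obtain ⟨F, hF, -, hFl, hFs, hFu, -⟩ := hm₀ V I U (fun i a b => (1 - η) * y i a b) τ hm1 hI hτ.le hτ1
    hx (fun a b hab => by
      rw [hxl a b hab, ← hmdef]
      nlinarith)
  simp only [← hmdef] at hFl hFs hFu hcnt hb
  have hF1 : ∀ a b, a ≠ b → (ld F a b : ℝ) ≤ δ := by
    intro a b hab
    have h1 := (abs_le.1 (hFl a b hab)).2
    rw [hxl a b hab] at h1
    nlinarith
  have hF1' : ∀ a b, a ≠ b → ld F a b ≤ δ := fun a b hab => by exact_mod_cast hF1 a b hab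
  have hF2 : ∀ a b, a ≠ b → (δ : ℝ) - ld F a b ≤ 3 * η * m := by
    intro a b hab
    have h1 := (abs_le.1 (hFl a b hab)).1
    rw [hxl a b hab] at h1
    nlinarith
  have hF3 : ∀ a b, ld F a b = ld F b a := fun a b =>
    cnt_congr fun i => ⟨fun h => (hF i).symm _ _ h, fun h => (hF i).symm _ _ h⟩
  obtain ⟨res, hres⟩ : ∃ res : V → V → ℕ, res = fun a b => if a = b then 0 else δ - ld F a b :=
    ⟨_, rfl⟩
  have hr0 : ∀ a, res a a = 0 := fun a => by rw [hres]; exact if_pos rfl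
  have hr1 : ∀ a b, a ≠ b → res a b = δ - ld F a b := fun a b hab => by rw [hres]; exact if_neg hab
  have hrs : ∀ a b, res a b = res b a := by
    intro a b
    by_cases hab : a = b
    · rw [hab]
    · rw [hr1 a b hab, hr1 b a (Ne.symm hab), hF3 a b]
  have hr2 : ∀ a b, (res a b : ℝ) ≤ 3 * η * m := by
    intro a b
    by_cases hab : a = b
    · rw [hab, hr0, Nat.cast_zero]
      positivity
    · rw [hr1 a b hab, Nat.cast_sub (hF1' a b hab)]
      exact hF2 a b hab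
  have hr3 : ∀ a, ((∑ b, res a b : ℕ) : ℝ) ≤ 3 * η * m ^ 2 := by
    intro a
    push_cast
    refine (Finset.sum_le_card_nsmul _ _ _ fun b _ => hr2 a b).trans ?_
    rw [nsmul_eq_mul, Finset.card_univ, ← hmdef]
    nlinarith
  have hceil : ((⌈3 * η * m ^ 2⌉₊ : ℕ) : ℝ) ≤ 3 * η * m ^ 2 + 1 :=
    (Nat.ceil_lt_add_one (by positivity)).le
  obtain ⟨F', hF', hFF', hF'l, -⟩ := complete U F hF res hrs hr0 (⌈3 * η * m ^ 2⌉₊)
    ((∑ a, ∑ b, res a b) + 1) (Nat.succ_pos _)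
    (fun a => by
      have h1 := (hr3 a).trans (Nat.le_ceil _)
      exact_mod_cast h1)
    (fun a b hab => by
      have hne : a ≠ b := by
        rintro rfl
        rw [hr0] at hab
        exact lt_irrefl _ hab
      obtain ⟨N, hN⟩ : ∃ N : ℕ, N = cnt (fun i => a ∈ U i ∧ b ∈ U i ∧ Unc (F i) a ∧ Unc (F i) b) :=
        ⟨_, rfl⟩
      rw [← hN]
      have h1 : 2 * ⌈3 * η * m ^ 2⌉₊ + 1 ≤ N := by
        have h2 : (2 * (⌈3 * η * m ^ 2⌉₊ : ℝ) + 1) ≤ (N : ℝ) := by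
          have h3 := hFu a b hne
          rw [← hN] at h3
          have h4 := hcnt a b hne
          have h5 : (cnt (fun i => a ∈ U i ∧ b ∈ U i ∧ m / 10 ≤ ((U i).card : ℝ)) : ℝ) ≤
              cnt (fun i => a ∈ U i ∧ b ∈ U i ∧ ε * m ≤ ((U i).card : ℝ)) := by
            have h5' : cnt (fun i => a ∈ U i ∧ b ∈ U i ∧ m / 10 ≤ ((U i).card : ℝ)) ≤
                cnt (fun i => a ∈ U i ∧ b ∈ U i ∧ ε * m ≤ ((U i).card : ℝ)) :=
              cnt_mono fun i hi => ⟨hi.1, hi.2.1, le_trans (by nlinarith) hi.2.2⟩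
            exact_mod_cast h5'
          have h6 : τ ^ 2 * (m ^ 2 / 4) ≤
              τ ^ 2 * cnt (fun i => a ∈ U i ∧ b ∈ U i ∧ ε * m ≤ ((U i).card : ℝ)) :=
            mul_le_mul_of_nonneg_left (h4.trans h5) (by positivity)
          have h7 : ε * m ^ 2 ≤ τ ^ 2 / 100 * m ^ 2 := mul_le_mul_of_nonneg_right hε2 (by positivity)
          have h8 : 3 * η * m ^ 2 ≤ 3 * (τ ^ 2 / 200) * m ^ 2 :=
            mul_le_mul_of_nonneg_right (by linarith) (by positivity)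
          have h9 : 400 ≤ τ ^ 2 * m ^ 2 := by
            have : 20 * 20 ≤ τ ^ 2 * m * m := mul_le_mul hm4 hm5 (by norm_num) (by positivity)
            nlinarith
          nlinarith
        exact_mod_cast h2
      calc 2 * ⌈3 * η * m ^ 2⌉₊ * ((∑ a, ∑ b, res a b) + 1) + ∑ a, ∑ b, res a b
          < (2 * ⌈3 * η * m ^ 2⌉₊ + 1) * ((∑ a, ∑ b, res a b) + 1) := by
            rw [add_mul, one_mul]
            omega
        _ ≤ N * ((∑ a, ∑ b, res a b) + 1) := Nat.mul_le_mul_right _ h1)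
  refine ⟨F', hF', ?_, ?_⟩
  · intro a b hab
    rw [hF'l a b hab, hr1 a b hab]
    have := hF1' a b hab
    omega
  · intro i
    have h1' : nv (F i) ≤ nv (F' i) := cnt_mono fun a ⟨c, hc⟩ => ⟨c, hFF' i a c hc⟩
    have h1 : (nv (F i) : ℝ) ≤ nv (F' i) := by
      exact_mod_cast h1'
    have h2 := (abs_le.1 (hFs i)).1
    have h3 : ∑ a, ∑ b, (1 - η) * y i a b = (1 - η) * ∑ a, ∑ b, y i a b := by
      simp only [Finset.mul_sum]
    rw [h3] at h2
    have h4 : ∑ a, ∑ b, y i a b ≤ m := by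
      refine (Finset.sum_le_card_nsmul _ _ 1 fun a _ => ?_).trans ?_
      · have := (hy i).cov a
        linarith
      · rw [nsmul_eq_mul, mul_one, Finset.card_univ, hmdef]
    have h5 := hb i
    have h6 : η * ∑ a, ∑ b, y i a b ≤ η * m := mul_le_mul_of_nonneg_left h4 hη0.le
    have h7 : ε * m ≤ η / 4 * m := mul_le_mul_of_nonneg_right hε1 hm0
    have h8 : η * m ≤ ω / 4 * m := mul_le_mul_of_nonneg_right hη1 hm0
    have h9 : 0 ≤ ω * m := by positivity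
    nlinarith

end Pool.Agent.Work.MP_18db2a_co
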